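import Pool.Agent.TH464.PO.Comb

set_option autoImplicit false

/-!
# From joint binomial moments to the joint law

Author: helper175 (the case of one variable is `Pool.Agent.TH464.PO.law_tv`).
-/

namespace Pool.Agent.Y175.JP

open Finset Pool.Agent.TH464.PO

/-- the Poisson probability of a set -/
noncomputable def PoA (x : ℝ) (A : Finset ℕ) : ℝ := ∑ j ∈ A, Real.exp (-x) * x ^ j / j.factorial

lemma PoA_nonneg (x : ℝ) (hx : 0 ≤ x) (A : Finset ℕ) : 0 ≤ PoA x A :=
  Finset.sum_nonneg fun j _ => by positivity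

lemma PoA_le_one (x : ℝ) (hx : 0 ≤ x) (A : Finset ℕ) : PoA x A ≤ 1 := by
  obtain ⟨n, hn⟩ : ∃ n, A ⊆ range n := by
    refine ⟨A.sup id + 1, fun a ha => ?_⟩
    rw [mem_range]
    have := Finset.le_sup (f := id) ha
    simp only [id] at this
    omega
  have h1 : PoA x A ≤ ∑ j ∈ range n, Real.exp (-x) * x ^ j / j.factorial :=
    Finset.sum_le_sum_of_subset_of_nonneg hn fun j _ _ => by positivity
  have h2 : ∑ j ∈ range n, Real.exp (-x) * x ^ j / j.factorial =
      Real.exp (-x) * ∑ j ∈ range n, x ^ j / j.factorial := by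
    rw [Finset.mul_sum]
    exact Finset.sum_congr rfl fun j _ => by ring
  have h3 := Real.sum_le_exp_of_nonneg hx n
  rw [h2] at h1
  refine h1.trans ?_
  calc Real.exp (-x) * ∑ j ∈ range n, x ^ j / j.factorial ≤ Real.exp (-x) * Real.exp x :=
        mul_le_mul_of_nonneg_left h3 (Real.exp_pos _).le
    _ = 1 := by rw [← Real.exp_add]; simp

/-- the law for a finite set of any type -/
lemma law_tv_gen {α : Type} (x0 ε : ℝ) (hx0 : 0 ≤ x0) (hε : 0 < ε) : ∃ (R : ℕ) (η : ℝ), 0 < η ∧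
    ∀ (Om : Finset α) (N : α → ℕ) (x : ℝ), 0 ≤ x → x ≤ x0 →
    (∀ k ≤ R, |∑ n ∈ Om, ((N n).choose k : ℝ) - Om.card * (x ^ k / k.factorial)| ≤ η * Om.card) →
    ∀ A : Finset ℕ, |∑ n ∈ Om, (if N n ∈ A then (1 : ℝ) else 0) - Om.card * PoA x A| ≤
      ε * Om.card := by
  classical
  obtain ⟨R, η, hη, h⟩ := law_tv x0 ε hx0 hε
  refine ⟨R, η, hη, ?_⟩
  intro Om N x hx hx0' hmom A
  rcases Om.eq_empty_or_nonempty with hO | hO
  · rw [hO]; simp
  obtain ⟨a0, ha0⟩ := hO
  obtain ⟨e⟩ : Nonempty (Fin Om.card ≃ Om) := ⟨(Om.equivFin).symm⟩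
  obtain ⟨f, hf⟩ : ∃ f : ℕ → α, f = fun m => if hm : m < Om.card then (e ⟨m, hm⟩ : α) else a0 :=
    ⟨_, rfl⟩
  have hsum : ∀ F : α → ℝ, ∑ m ∈ range Om.card, F (f m) = ∑ a ∈ Om, F a := by
    intro F
    rw [← Finset.sum_coe_sort Om F, ← Equiv.sum_comp e, Finset.sum_range]
    apply Finset.sum_congr rfl
    intro m _
    rw [hf]
    simp
  have h1 := h (range Om.card) (fun m => N (f m)) x hx hx0' (by
    intro k hk
    rw [hsum (fun a => ((N a).choose k : ℝ)), card_range]
    exact hmom k hk) A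
  rw [card_range] at h1
  have h2 : (((range Om.card).filter (fun m => N (f m) ∈ A)).card : ℝ) =
      ∑ n ∈ Om, (if N n ∈ A then (1 : ℝ) else 0) := by
    rw [← hsum (fun a => if N a ∈ A then (1 : ℝ) else 0), ← Finset.sum_filter, Finset.sum_const,
      nsmul_eq_mul, mul_one]
  rw [h2] at h1
  exact h1

/-- the weighted law -/
lemma law_w (x0 ε D : ℝ) (hx0 : 0 ≤ x0) (hε : 0 < ε) (hD : 0 ≤ D) : ∃ (R : ℕ) (η : ℝ), 0 < η ∧
    ∀ (Om : Finset ℕ) (w N : ℕ → ℕ) (x W Y : ℝ), 0 ≤ x → x ≤ x0 → 0 ≤ W → W ≤ D * Y → 0 ≤ Y →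
    (∀ k ≤ R, |∑ n ∈ Om, (w n : ℝ) * ((N n).choose k : ℝ) - W * (x ^ k / k.factorial)| ≤ η * Y) →
    ∀ A : Finset ℕ, |∑ n ∈ Om, (w n : ℝ) * (if N n ∈ A then (1 : ℝ) else 0) - W * PoA x A| ≤
      ε * Y := by
  obtain ⟨ε', hε'⟩ : ∃ ε', ε' = ε / (4 * (D + 1)) := ⟨_, rfl⟩
  have hε'0 : 0 < ε' := by rw [hε']; positivity
  obtain ⟨R, η0, hη0, htv⟩ := law_tv_gen (α := Sigma (fun _ : ℕ => ℕ)) x0 ε' hx0 hε'0
  obtain ⟨X1, hX1⟩ : ∃ X1 : ℝ, X1 = (1 + x0) ^ R := ⟨_, rfl⟩
  have hX1pos : 1 ≤ X1 := by rw [hX1]; exact one_le_pow₀ (by linarith)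
  obtain ⟨η, hη⟩ : ∃ η, η = min (min (ε / 4) 1) (η0 * ε / (4 * (1 + X1))) := ⟨_, rfl⟩
  have hηpos : 0 < η := by rw [hη]; positivity
  have hη1 : η ≤ ε / 4 := by rw [hη]; exact (min_le_left _ _).trans (min_le_left _ _)
  have hη2 : η ≤ 1 := by rw [hη]; exact (min_le_left _ _).trans (min_le_right _ _)
  have hη3 : η * (1 + X1) ≤ η0 * (ε / 4) := by
    have : η ≤ η0 * ε / (4 * (1 + X1)) := by rw [hη]; exact min_le_right _ _
    rw [le_div_iff₀ (by positivity)] at this
    linarith
  refine ⟨R, η, hηpos, ?_⟩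
  intro Om w N x W Y hx hxx hW hWY hY hmom A
  obtain ⟨M, hM⟩ : ∃ M : ℝ, M = ∑ n ∈ Om, (w n : ℝ) := ⟨_, rfl⟩
  have h0 := hmom 0 (Nat.zero_le _)
  simp only [Nat.choose_zero_right, Nat.cast_one, mul_one, pow_zero, Nat.factorial_zero,
    div_one] at h0
  rw [← hM] at h0
  obtain ⟨h0a, h0b⟩ := abs_le.1 h0
  have hM0 : 0 ≤ M := by rw [hM]; exact Finset.sum_nonneg fun n _ => Nat.cast_nonneg _
  have hP0 := PoA_nonneg x hx A
  have hP1 := PoA_le_one x hx A
  obtain ⟨Z, hZ⟩ : ∃ Z : ℝ, Z = ∑ n ∈ Om, (w n : ℝ) * (if N n ∈ A then (1 : ℝ) else 0) := ⟨_, rfl⟩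
  rw [← hZ]
  have hZ0 : 0 ≤ Z := by
    rw [hZ]
    exact Finset.sum_nonneg fun n _ => by split_ifs <;> positivity
  have hZM : Z ≤ M := by
    rw [hZ, hM]
    apply Finset.sum_le_sum
    intro n _
    split_ifs
    · rw [mul_one]
    · rw [mul_zero]; exact Nat.cast_nonneg _
  have hηY : η * Y ≤ ε / 4 * Y := mul_le_mul_of_nonneg_right hη1 hY
  rcases le_or_gt M (ε / 4 * Y) with hMY | hMY
  · have h1 : W * PoA x A ≤ W := by nlinarith
    have h2 : 0 ≤ W * PoA x A := mul_nonneg hW hP0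
    rw [abs_le]
    constructor <;> nlinarith
  · have hMY' : η * Y * (1 + X1) ≤ η0 * M := by
      calc η * Y * (1 + X1) = η * (1 + X1) * Y := by ring
        _ ≤ η0 * (ε / 4) * Y := mul_le_mul_of_nonneg_right hη3 hY
        _ = η0 * (ε / 4 * Y) := by ring
        _ ≤ η0 * M := mul_le_mul_of_nonneg_left hMY.le hη0.le
    have hsig : ∀ F : ℕ → ℝ, ∑ a ∈ Om.sigma (fun n => range (w n)), F a.1 =
        ∑ n ∈ Om, (w n : ℝ) * F n := by
      intro F
      rw [Finset.sum_sigma]
      apply Finset.sum_congr rfl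
      intro n _
      have e : ∑ s ∈ range (w n), F (⟨n, s⟩ : Sigma (fun _ : ℕ => ℕ)).fst =
          ∑ _s ∈ range (w n), F n := rfl
      rw [e, Finset.sum_const, card_range, nsmul_eq_mul]
    have hcard : ((Om.sigma (fun n => range (w n))).card : ℝ) = M := by
      rw [card_sigma, hM]
      push_cast
      exact Finset.sum_congr rfl fun n _ => by rw [card_range]
    have h1 := htv (Om.sigma (fun n => range (w n))) (fun a => N a.1) x hx hxx (by
      intro k hk
      rw [hcard, hsig (fun n => ((N n).choose k : ℝ))]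
      have h2 := hmom k hk
      have h3 : x ^ k / (k.factorial : ℝ) ≤ X1 := by
        have hf1 : (1 : ℝ) ≤ k.factorial := by exact_mod_cast Nat.factorial_pos k
        calc x ^ k / (k.factorial : ℝ) ≤ x ^ k := div_le_self (by positivity) hf1
          _ ≤ (1 + x0) ^ k := pow_le_pow_left₀ hx (by linarith) _
          _ ≤ (1 + x0) ^ R := pow_le_pow_right₀ (by linarith) hk
          _ = X1 := hX1.symm
      have h4 : 0 ≤ x ^ k / (k.factorial : ℝ) := by positivity
      have h5 : |W * (x ^ k / (k.factorial : ℝ)) - M * (x ^ k / (k.factorial : ℝ))| ≤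
          η * Y * X1 := by
        rw [← sub_mul, abs_mul, abs_of_nonneg h4]
        apply mul_le_mul _ h3 h4 (by positivity)
        rw [abs_sub_comm]
        exact h0
      have h6 := abs_sub_le (∑ n ∈ Om, (w n : ℝ) * ((N n).choose k : ℝ))
        (W * (x ^ k / (k.factorial : ℝ))) (M * (x ^ k / (k.factorial : ℝ)))
      calc _ ≤ η * Y + η * Y * X1 := h6.trans (add_le_add h2 h5)
        _ = η * Y * (1 + X1) := by ring
        _ ≤ η0 * M := hMY') A
    rw [hcard, hsig (fun n => if N n ∈ A then (1 : ℝ) else 0), ← hZ] at h1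
    have h2 : |M * PoA x A - W * PoA x A| ≤ η * Y := by
      rw [← sub_mul, abs_mul, abs_of_nonneg hP0]
      calc |M - W| * PoA x A ≤ |M - W| * 1 := mul_le_mul_of_nonneg_left hP1 (abs_nonneg _)
        _ ≤ η * Y := by rw [mul_one]; exact h0
    have h3 : ε' * M ≤ ε / 4 * Y := by
      have h4 : M ≤ (D + 1) * Y := by nlinarith
      calc ε' * M ≤ ε' * ((D + 1) * Y) := mul_le_mul_of_nonneg_left h4 hε'0.le
        _ = ε / 4 * Y := by
          rw [hε']
          field_simp
    have h4 := abs_sub_le Z (M * PoA x A) (W * PoA x A)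
    have h5 : 0 ≤ ε * Y := by positivity
    linarith

variable {ι : Type} [Fintype ι]

open Classical in
/-- **From joint moments to the joint law.** -/
theorem joint_of_moments (x0 ε : ℝ) (hx0 : 0 ≤ x0) (hε : 0 < ε) : ∃ (R : ℕ) (η : ℝ), 0 < η ∧
    ∀ (Om : Finset ℕ) (N : ι → ℕ → ℕ) (x : ι → ℝ), (∀ i, 0 ≤ x i) → (∀ i, x i ≤ x0) →
    (∀ K : ι → ℕ, (∀ i, K i ≤ R) → |∑ n ∈ Om, ∏ i, ((N i n).choose (K i) : ℝ) -
      Om.card * ∏ i, (x i ^ K i / ((K i).factorial : ℝ))| ≤ η * Om.card) →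
    ∀ A : ι → Finset ℕ, |((Om.filter (fun n => ∀ i, N i n ∈ A i)).card : ℝ) -
      Om.card * ∏ i, PoA (x i) (A i)| ≤ ε * Om.card := by
  have key : ∀ J : Finset ι, ∀ ε : ℝ, 0 < ε → ∀ R0 : ℕ, ∃ (R : ℕ) (η : ℝ), 0 < η ∧
      ∀ (Om : Finset ℕ) (N : ι → ℕ → ℕ) (x : ι → ℝ), (∀ i, 0 ≤ x i) → (∀ i, x i ≤ x0) →
      (∀ K : ι → ℕ, (∀ i, K i ≤ R) → |∑ n ∈ Om, ∏ i, ((N i n).choose (K i) : ℝ) -
        Om.card * ∏ i, (x i ^ K i / ((K i).factorial : ℝ))| ≤ η * Om.card) →
      ∀ (A : ι → Finset ℕ) (K : ι → ℕ), (∀ i, K i ≤ R0) →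
        |∑ n ∈ Om, ∏ i, (if i ∈ J then (if N i n ∈ A i then (1 : ℝ) else 0) else
          ((N i n).choose (K i) : ℝ)) -
        Om.card * ∏ i, (if i ∈ J then PoA (x i) (A i) else x i ^ K i / ((K i).factorial : ℝ))| ≤
          ε * Om.card := by
    intro J
    induction J using Finset.induction_on with
    | empty =>
      intro ε hε R0
      refine ⟨R0, ε, hε, ?_⟩
      intro Om N x hx hxx hmom A K hK
      simp only [notMem_empty, if_false]
      exact hmom K hK
    | insert j J hj ih =>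
      intro ε hε R0
      obtain ⟨D, hD⟩ : ∃ D : ℝ, D = ((1 + x0) ^ R0) ^ (Fintype.card ι) := ⟨_, rfl⟩
      have hb1 : 1 ≤ (1 + x0) ^ R0 := one_le_pow₀ (by linarith)
      have hD0 : 0 ≤ D := by rw [hD]; positivity
      obtain ⟨R1, η1, hη1, hw⟩ := law_w x0 ε D hx0 hε hD0
      obtain ⟨R, η, hη, hIH⟩ := ih η1 hη1 (max R0 R1)
      refine ⟨R, η, hη, ?_⟩
      intro Om N x hx hxx hmom A K hK
      obtain ⟨w, hwdef⟩ : ∃ w : ℕ → ℕ, w = fun n => ∏ i ∈ univ.erase j,
        (if i ∈ J then (if N i n ∈ A i then 1 else 0) else (N i n).choose (K i)) := ⟨_, rfl⟩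
      obtain ⟨m, hm⟩ : ∃ m : ℝ, m = ∏ i ∈ univ.erase j,
        (if i ∈ J then PoA (x i) (A i) else x i ^ K i / ((K i).factorial : ℝ)) := ⟨_, rfl⟩
      have hterm : ∀ i, 0 ≤ (if i ∈ J then PoA (x i) (A i) else x i ^ K i / ((K i).factorial : ℝ)) ∧
          (if i ∈ J then PoA (x i) (A i) else x i ^ K i / ((K i).factorial : ℝ)) ≤ (1 + x0) ^ R0 := by
        intro i
        split_ifs
        · exact ⟨PoA_nonneg _ (hx i) _, (PoA_le_one _ (hx i) _).trans hb1⟩
        · have := hx i
          refine ⟨by positivity, ?_⟩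
          have hf1 : (1 : ℝ) ≤ (K i).factorial := by exact_mod_cast Nat.factorial_pos (K i)
          calc x i ^ K i / ((K i).factorial : ℝ) ≤ x i ^ K i := div_le_self (by positivity) hf1
            _ ≤ (1 + x0) ^ K i := pow_le_pow_left₀ (hx i) (by have := hxx i; linarith) _
            _ ≤ (1 + x0) ^ R0 := pow_le_pow_right₀ (by linarith) (hK i)
      have hm0 : 0 ≤ m := by rw [hm]; exact Finset.prod_nonneg fun i _ => (hterm i).1
      have hmD : m ≤ D := by
        rw [hm, hD]
        refine (Finset.prod_le_prod (fun i _ => (hterm i).1) (fun i _ => (hterm i).2)).trans ?_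
        rw [Finset.prod_const]
        apply pow_le_pow_right₀ hb1
        rw [← Finset.card_univ]
        exact card_le_card (erase_subset _ _)
      have hOm0 : (0 : ℝ) ≤ Om.card := Nat.cast_nonneg _
      have h1 := hw Om w (N j) (x j) (Om.card * m) Om.card (hx j) (hxx j) (mul_nonneg hOm0 hm0) (by
        rw [mul_comm]
        exact mul_le_mul_of_nonneg_right hmD hOm0) hOm0 (by
        intro k hk
        obtain ⟨K', hK'⟩ : ∃ K' : ι → ℕ, K' = Function.update K j k := ⟨_, rfl⟩
        have hK'le : ∀ i, K' i ≤ max R0 R1 := by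
          intro i
          rw [hK']
          by_cases hi : i = j
          · rw [hi, Function.update_self]
            exact hk.trans (le_max_right _ _)
          · rw [Function.update_of_ne hi]
            exact (hK i).trans (le_max_left _ _)
        have h2 := hIH Om N x hx hxx hmom A K' hK'le
        have e1 : ∀ n, ∏ i, (if i ∈ J then (if N i n ∈ A i then (1 : ℝ) else 0) else
            ((N i n).choose (K' i) : ℝ)) = (w n : ℝ) * ((N j n).choose k : ℝ) := by
          intro n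
          rw [← Finset.mul_prod_erase univ _ (mem_univ j), if_neg hj, mul_comm]
          congr 1
          · rw [hwdef]
            push_cast
            apply Finset.prod_congr rfl
            intro i hi
            rw [hK', Function.update_of_ne (ne_of_mem_erase hi)]
          · rw [hK', Function.update_self]
        have e2 : ∏ i, (if i ∈ J then PoA (x i) (A i) else x i ^ K' i / ((K' i).factorial : ℝ)) =
            m * (x j ^ k / (k.factorial : ℝ)) := by
          rw [← Finset.mul_prod_erase univ _ (mem_univ j), if_neg hj, mul_comm]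
          congr 1
          · rw [hm]
            apply Finset.prod_congr rfl
            intro i hi
            rw [hK', Function.update_of_ne (ne_of_mem_erase hi)]
          · rw [hK', Function.update_self]
        rw [Finset.sum_congr rfl (fun n _ => e1 n), e2, ← mul_assoc] at h2
        exact h2) (A j)
      have e1 : ∀ n, ∏ i, (if i ∈ insert j J then (if N i n ∈ A i then (1 : ℝ) else 0) else
          ((N i n).choose (K i) : ℝ)) = (w n : ℝ) * (if N j n ∈ A j then (1 : ℝ) else 0) := by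
        intro n
        rw [← Finset.mul_prod_erase univ _ (mem_univ j), if_pos (mem_insert_self _ _), mul_comm]
        congr 1
        rw [hwdef]
        push_cast
        apply Finset.prod_congr rfl
        intro i hi
        have hne := ne_of_mem_erase hi
        have : i ∈ insert j J ↔ i ∈ J := by
          rw [mem_insert]
          exact ⟨fun h => h.resolve_left hne, Or.inr⟩
        simp only [this]
      have e2 : ∏ i, (if i ∈ insert j J then PoA (x i) (A i) else
          x i ^ K i / ((K i).factorial : ℝ)) = m * PoA (x j) (A j) := by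
        rw [← Finset.mul_prod_erase univ _ (mem_univ j), if_pos (mem_insert_self _ _), mul_comm]
        congr 1
        rw [hm]
        apply Finset.prod_congr rfl
        intro i hi
        have hne := ne_of_mem_erase hi
        have : i ∈ insert j J ↔ i ∈ J := by
          rw [mem_insert]
          exact ⟨fun h => h.resolve_left hne, Or.inr⟩
        simp only [this]
      rw [Finset.sum_congr rfl (fun n _ => e1 n), e2, ← mul_assoc]
      exact h1
  obtain ⟨R, η, hη, h⟩ := key univ ε hε 0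
  refine ⟨R, η, hη, ?_⟩
  intro Om N x hx hxx hmom A
  have h1 := h Om N x hx hxx hmom A (fun _ => 0) (fun _ => le_rfl)
  simp only [mem_univ, if_true] at h1
  have e : ∑ n ∈ Om, ∏ i, (if N i n ∈ A i then (1 : ℝ) else 0) =
      ((Om.filter (fun n => ∀ i, N i n ∈ A i)).card : ℝ) := by
    rw [Finset.card_filter]
    push_cast
    apply Finset.sum_congr rfl
    intro n _
    rw [Finset.prod_ite_zero, Finset.prod_const_one]
    simp
  rw [e] at h1
  exact h1

end Pool.Agent.Y175.JP
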