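import Mathlib

set_option autoImplicit false

/-!
# Independent generating subsets

Every point `x` has a finite nonempty set `S x` of atoms; two points are adjacent if their sets meet.
Author: helper175.
-/

namespace Pool.Agent.Y175.JP

open Finset

variable {α β : Type}

open Classical in
/-- the neighbours of `y` in the set `U` -/
noncomputable def nbs (S : α → Finset β) (U : Finset α) (y : α) : Finset α :=
  U.filter (fun x => x ≠ y ∧ ¬ Disjoint (S x) (S y))

lemma mem_nbs (S : α → Finset β) (U : Finset α) (x y : α) :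
    x ∈ nbs S U y ↔ x ∈ U ∧ x ≠ y ∧ ¬ Disjoint (S x) (S y) := by
  classical
  unfold nbs
  rw [mem_filter]

open Classical in
/-- the points which are reached from `c` in at most `n` steps -/
noncomputable def ball (S : α → Finset β) (U : Finset α) : ℕ → α → Finset α
  | 0, c => {c}
  | n + 1, c => (ball S U n c).biUnion (fun y => insert y (nbs S U y))

open Classical in
lemma ball_succ (S : α → Finset β) (U : Finset α) (n : ℕ) (c : α) :
    ball S U (n + 1) c = (ball S U n c).biUnion (fun y => insert y (nbs S U y)) := rfl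

lemma ball_card (S : α → Finset β) (U : Finset α) (B : ℕ) (hB : ∀ y, (nbs S U y).card ≤ B) (n : ℕ)
    (c : α) : (ball S U n c).card ≤ (B + 1) ^ n := by
  classical
  induction n with
  | zero => simp [ball]
  | succ n ih =>
    rw [ball_succ]
    refine (Finset.card_biUnion_le_card_mul _ _ (B + 1) (fun y _ => ?_)).trans ?_
    · refine (Finset.card_insert_le _ _).trans ?_
      have := hB y
      omega
    · rw [pow_succ]
      exact Nat.mul_le_mul_right _ ih

lemma ball_mono_succ (S : α → Finset β) (U : Finset α) (n : ℕ) (c : α) :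
    ball S U n c ⊆ ball S U (n + 1) c := by
  classical
  intro x hx
  rw [ball_succ, mem_biUnion]
  exact ⟨x, hx, mem_insert_self _ _⟩

lemma ball_mono (S : α → Finset β) (U : Finset α) (m n : ℕ) (h : m ≤ n) (c : α) :
    ball S U m c ⊆ ball S U n c := by
  induction n, h using Nat.le_induction with
  | base => exact subset_rfl
  | succ n _ ih => exact ih.trans (ball_mono_succ S U n c)

lemma self_mem_ball (S : α → Finset β) (U : Finset α) (n : ℕ) (c : α) : c ∈ ball S U n c :=
  ball_mono S U 0 n (Nat.zero_le _) c (by simp [ball])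

/-- composition -/
lemma ball_trans (S : α → Finset β) (U : Finset α) (m n : ℕ) (c y x : α) (h1 : y ∈ ball S U m c)
    (h2 : x ∈ ball S U n y) : x ∈ ball S U (m + n) c := by
  classical
  induction n generalizing x with
  | zero =>
    simp only [ball, mem_singleton] at h2
    rw [h2, add_zero]
    exact h1
  | succ n ih =>
    rw [ball_succ, mem_biUnion] at h2
    obtain ⟨z, hz, hxz⟩ := h2
    rw [← add_assoc, ball_succ, mem_biUnion]
    exact ⟨z, ih z hz, hxz⟩

lemma nb_mem_ball (S : α → Finset β) (U : Finset α) (x y : α) (hx : x ∈ U) (hxy : x ≠ y)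
    (h : ¬ Disjoint (S x) (S y)) : x ∈ ball S U 1 y := by
  classical
  rw [ball_succ, mem_biUnion]
  refine ⟨y, by simp [ball], mem_insert_of_mem ?_⟩
  unfold nbs
  exact mem_filter.2 ⟨hx, hxy, h⟩

/-- the number of atoms, with multiplicity -/
def Phi (S : α → Finset β) (H : Finset α) : ℕ := ∑ c ∈ H, (S c).card

open Classical in
/-- **An independent subset which generates `H`.** If two points of `H` are adjacent, the subset is
different from `H` and a point outside has an atom which is not an atom of the subset. -/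
theorem exists_indep (S : α → Finset β) (U H : Finset α) (hHU : H ⊆ U)
    (hne : ∀ x ∈ U, (S x).Nonempty) (hinj : ∀ x ∈ U, ∀ y ∈ U, S x = S y → x = y) :
    ∃ H' ⊆ H, (∀ x ∈ H', ∀ y ∈ H', x ≠ y → Disjoint (S x) (S y)) ∧
      (∀ x ∈ H, ∃ c ∈ H', x ∈ ball S U (2 * Phi S H) c) ∧
      ∀ x ∈ H, x ∉ H' → ∃ a ∈ S x, ∀ c ∈ H', a ∉ S c := by
  obtain ⟨G, hG⟩ : ∃ G : Finset (Finset α), G = H.powerset.filter (fun H' => Phi S H' ≤ Phi S H ∧
    ∀ x ∈ H, ∃ c ∈ H', x ∈ ball S U (2 * (Phi S H - Phi S H')) c) := ⟨_, rfl⟩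
  have hHG : H ∈ G := by
    rw [hG, mem_filter, mem_powerset]
    refine ⟨subset_rfl, le_rfl, fun x hx => ⟨x, hx, self_mem_ball S U _ x⟩⟩
  obtain ⟨H', hH', hmin⟩ := Finset.exists_min_image G (Phi S) ⟨H, hHG⟩
  have hH'' := hH'
  rw [hG, mem_filter, mem_powerset] at hH''
  obtain ⟨hsub, hle, hgen⟩ := hH''
  have hpos : ∀ x ∈ H, 1 ≤ (S x).card := fun x hx => Finset.card_pos.2 (hne x (hHU hx))
  -- removal of a point which is close to another one
  have hrem : ∀ c ∈ H', ∀ c' ∈ H', c ≠ c' → c' ∉ ball S U 2 c := by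
    intro c hc c' hc' hcc' hb
    have hPhi : Phi S (H'.erase c') + (S c').card = Phi S H' := Finset.sum_erase_add H' _ hc'
    have h1 := hpos c' (hsub hc')
    have hmem : H'.erase c' ∈ G := by
      rw [hG, mem_filter, mem_powerset]
      refine ⟨(erase_subset _ _).trans hsub, by omega, ?_⟩
      intro x hx
      obtain ⟨d, hd, hxd⟩ := hgen x hx
      by_cases hdc : d = c'
      · refine ⟨c, mem_erase.2 ⟨hcc', hc⟩, ?_⟩
        rw [hdc] at hxd
        apply ball_mono S U (2 + 2 * (Phi S H - Phi S H')) _ (by omega)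
        exact ball_trans S U _ _ c c' x hb hxd
      · refine ⟨d, mem_erase.2 ⟨hdc, hd⟩, ?_⟩
        exact ball_mono S U _ _ (by omega) d hxd
    have := hmin _ hmem
    omega
  refine ⟨H', hsub, ?_, ?_, ?_⟩
  · intro x hx y hy hxy
    by_contra hd
    apply hrem y hy x hx (Ne.symm hxy)
    exact ball_mono S U 1 2 (by omega) y (nb_mem_ball S U x y (hHU (hsub hx)) hxy hd)
  · intro x hx
    obtain ⟨c, hc, hxc⟩ := hgen x hx
    exact ⟨c, hc, ball_mono S U _ _ (by omega) c hxc⟩
  · intro x hx hxH'
    by_contra hcov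
    push Not at hcov
    obtain ⟨a, ha⟩ := hne x (hHU hx)
    obtain ⟨c, hc, hac⟩ := hcov a ha
    have hxc : x ≠ c := fun h => hxH' (h ▸ hc)
    have hadj : ¬ Disjoint (S x) (S c) := Finset.not_disjoint_iff.2 ⟨a, ha, hac⟩
    have hcU := hHU (hsub hc)
    have hxU := hHU hx
    have hsubc : S x ⊆ S c := by
      intro b hb
      obtain ⟨c', hc', hbc'⟩ := hcov b hb
      by_cases h : c' = c
      · rw [← h]; exact hbc'
      · exfalso
        apply hrem c hc c' hc' (Ne.symm h)
        have h1 : x ∈ ball S U 1 c := nb_mem_ball S U x c hxU hxc hadj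
        have h2 : c' ∈ ball S U 1 x := by
          apply nb_mem_ball S U c' x (hHU (hsub hc')) (fun h' => hxH' (h' ▸ hc'))
          exact Finset.not_disjoint_iff.2 ⟨b, hbc', hb⟩
        exact ball_trans S U 1 1 c x c' h1 h2
    have hlt : (S x).card < (S c).card := by
      apply Finset.card_lt_card
      refine ⟨hsubc, fun h => hxc (hinj x hxU c hcU (subset_antisymm hsubc h))⟩
    have hPhi1 : Phi S (H'.erase c) + (S c).card = Phi S H' := Finset.sum_erase_add H' _ hc
    have hPhi2 : Phi S (insert x (H'.erase c)) = (S x).card + Phi S (H'.erase c) :=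
      Finset.sum_insert (fun h => hxH' (mem_of_mem_erase h))
    have hmem : insert x (H'.erase c) ∈ G := by
      rw [hG, mem_filter, mem_powerset]
      refine ⟨?_, by omega, ?_⟩
      · intro z hz
        rcases mem_insert.1 hz with h | h
        · rw [h]; exact hx
        · exact hsub (mem_of_mem_erase h)
      intro z hz
      obtain ⟨d, hd, hzd⟩ := hgen z hz
      by_cases hdc : d = c
      · refine ⟨x, mem_insert_self _ _, ?_⟩
        rw [hdc] at hzd
        apply ball_mono S U (1 + 2 * (Phi S H - Phi S H')) _ (by omega)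
        apply ball_trans S U _ _ x c z _ hzd
        exact nb_mem_ball S U c x hcU (Ne.symm hxc) (fun h => hadj h.symm)
      · refine ⟨d, mem_insert_of_mem (mem_erase.2 ⟨hdc, hd⟩), ?_⟩
        exact ball_mono S U _ _ (by omega) d hzd
    have := hmin _ hmem
    omega

end Pool.Agent.Y175.JP
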