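import Pool.Agent.Y175.JP.CombJ
import Pool.Agent.TH464.PO.GapLaw

set_option autoImplicit false

/-!
# From product sets to all finite sets of vectors

Author: helper175.
-/

namespace Pool.Agent.Y175.JP

open Finset Filter Pool.Agent.TH464.PO

/-- the probability of `j` -/
noncomputable def pj (x : ℝ) (j : ℕ) : ℝ := Real.exp (-x) * x ^ j / j.factorial

lemma pj_nonneg (x : ℝ) (hx : 0 ≤ x) (j : ℕ) : 0 ≤ pj x j := by unfold pj; positivity

lemma PoA_eq (x : ℝ) (A : Finset ℕ) : PoA x A = ∑ j ∈ A, pj x j := rfl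

variable {ι : Type} [Fintype ι]

open Classical in
lemma sum_box (x : ι → ℝ) (R : ℕ) :
    ∑ j ∈ Fintype.piFinset (fun _ : ι => range R), ∏ i, pj (x i) (j i) = ∏ i, PoA (x i) (range R) := by
  simp only [PoA_eq]
  rw [Finset.prod_univ_sum]

open Classical in
lemma sum_vec_le (x : ι → ℝ) (hx : ∀ i, 0 ≤ x i) (B : Finset (ι → ℕ)) :
    ∑ j ∈ B, ∏ i, pj (x i) (j i) ≤ 1 := by
  obtain ⟨R, hR⟩ : ∃ R, R = ∑ j ∈ B, ∑ i, (j i + 1) := ⟨_, rfl⟩
  have hsub : B ⊆ Fintype.piFinset (fun _ : ι => range R) := by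
    intro j hj
    rw [Fintype.mem_piFinset]
    intro i
    rw [mem_range]
    have h1 : j i + 1 ≤ ∑ i, (j i + 1) :=
      Finset.single_le_sum (f := fun i => j i + 1) (fun _ _ => Nat.zero_le _) (mem_univ i)
    have h2 : ∑ i, (j i + 1) ≤ ∑ j ∈ B, ∑ i, (j i + 1) :=
      Finset.single_le_sum (f := fun j : ι → ℕ => ∑ i, (j i + 1)) (fun _ _ => Nat.zero_le _) hj
    omega
  refine (Finset.sum_le_sum_of_subset_of_nonneg hsub fun j _ _ =>
    Finset.prod_nonneg fun i _ => pj_nonneg _ (hx i) _).trans ?_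
  rw [sum_box]
  exact Finset.prod_le_one (fun i _ => PoA_nonneg _ (hx i) _) (fun i _ => PoA_le_one _ (hx i) _)

lemma one_sub_prod_le {α : Type*} (s : Finset α) (f : α → ℝ) (h0 : ∀ i ∈ s, 0 ≤ f i)
    (h1 : ∀ i ∈ s, f i ≤ 1) : 1 - ∏ i ∈ s, f i ≤ ∑ i ∈ s, (1 - f i) := by
  classical
  induction s using Finset.induction_on with
  | empty => simp
  | insert a s ha ih =>
    rw [Finset.prod_insert ha, Finset.sum_insert ha]
    have h2 := ih (fun i hi => h0 i (mem_insert_of_mem hi)) (fun i hi => h1 i (mem_insert_of_mem hi))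
    have h3 := h0 a (mem_insert_self _ _)
    have h4 := h1 a (mem_insert_self _ _)
    have h5 : 0 ≤ ∏ i ∈ s, f i := Finset.prod_nonneg fun i hi => h0 i (mem_insert_of_mem hi)
    have h6 : ∏ i ∈ s, f i ≤ 1 := Finset.prod_le_one (fun i hi => h0 i (mem_insert_of_mem hi))
      (fun i hi => h1 i (mem_insert_of_mem hi))
    nlinarith

lemma tail_small (x0 : ℝ) (ε : ℝ) (hε : 0 < ε) : ∃ R : ℕ, 1 ≤ R ∧ ∀ x : ℝ, 0 ≤ x → x ≤ x0 →
    1 - PoA x (range R) ≤ ε := by
  obtain ⟨K, hK⟩ := exists_small (max x0 0) 1 ε hε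
  refine ⟨K + 1, by omega, ?_⟩
  intro x hx hxx
  have h1 := one_sub_Ck (K + 1) x hx
  have h2 : Ck (K + 1) x = PoA x (range (K + 1)) := by
    unfold Ck PoA
    apply Finset.sum_congr rfl
    intro j _
    unfold pw
    ring
  rw [h2] at h1
  have h3 := hK (K + 1) (by omega)
  rw [one_mul] at h3
  have h4 : x ^ (K + 1) / ((K + 1).factorial : ℝ) ≤ (max x0 0) ^ (K + 1) / ((K + 1).factorial : ℝ) := by
    gcongr
    exact hxx.trans (le_max_left _ _)
  linarith

open Classical in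
/-- **From product sets to all finite sets of vectors.** -/
theorem vec_law (x0 ε : ℝ) (hε : 0 < ε) : ∃ ε' : ℝ, 0 < ε' ∧ ∀ (Om : Finset ℕ) (W : ℕ → ι → ℕ)
    (x : ι → ℝ), (∀ i, 0 ≤ x i) → (∀ i, x i ≤ x0) →
    (∀ A : ι → Finset ℕ, |((Om.filter (fun n => ∀ i, W n i ∈ A i)).card : ℝ) -
      Om.card * ∏ i, PoA (x i) (A i)| ≤ ε' * Om.card) →
    ∀ B : Finset (ι → ℕ), |((Om.filter (fun n => W n ∈ B)).card : ℝ) -
      Om.card * ∑ j ∈ B, ∏ i, pj (x i) (j i)| ≤ ε * Om.card := by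
  obtain ⟨s, hs⟩ : ∃ s, s = Fintype.card ι := ⟨_, rfl⟩
  obtain ⟨R, hR1, hR⟩ := tail_small x0 (ε / (4 * (s + 1))) (by positivity)
  obtain ⟨Bx, hBx⟩ : ∃ Bx : Finset (ι → ℕ), Bx = Fintype.piFinset (fun _ : ι => range R) := ⟨_, rfl⟩
  refine ⟨ε / (4 * (Bx.card + 1)), by positivity, ?_⟩
  intro Om W x hx hxx hlaw B
  obtain ⟨ε', hε'⟩ : ∃ ε', ε' = ε / (4 * ((Bx.card : ℝ) + 1)) := ⟨_, rfl⟩
  rw [← hε'] at hlaw
  have hε'0 : 0 < ε' := by rw [hε']; positivity
  have hε'1 : ε' * (Bx.card + 1) = ε / 4 := by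
    rw [hε']
    field_simp
  have hN : (0 : ℝ) ≤ Om.card := Nat.cast_nonneg _
  obtain ⟨N, hNd⟩ : ∃ N : ℝ, N = Om.card := ⟨_, rfl⟩
  rw [← hNd] at hlaw hN ⊢
  have hP0 : ∀ j : ι → ℕ, 0 ≤ ∏ i, pj (x i) (j i) := fun j =>
    Finset.prod_nonneg fun i _ => pj_nonneg _ (hx i) _
  -- the box
  have hbox : 1 - ∏ i, PoA (x i) (range R) ≤ ε / 4 := by
    refine (one_sub_prod_le univ _ (fun i _ => PoA_nonneg _ (hx i) _)
      (fun i _ => PoA_le_one _ (hx i) _)).trans ?_
    have h1 : ∑ i : ι, (1 - PoA (x i) (range R)) ≤ ∑ _i : ι, ε / (4 * (s + 1)) :=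
      Finset.sum_le_sum fun i _ => hR (x i) (hx i) (hxx i)
    refine h1.trans ?_
    rw [Finset.sum_const, Finset.card_univ, ← hs, nsmul_eq_mul, mul_div_assoc', div_le_iff₀ (by positivity)]
    nlinarith
  have h1 := abs_le.1 (hlaw (fun _ => range R))
  have hBxW : ∀ n, (∀ i, W n i ∈ range R) ↔ W n ∈ Bx := by
    intro n
    rw [hBx, Fintype.mem_piFinset]
  -- the parts of `B`
  obtain ⟨B1, hB1⟩ : ∃ B1, B1 = B.filter (fun j => j ∈ Bx) := ⟨_, rfl⟩
  obtain ⟨B2, hB2⟩ : ∃ B2, B2 = B.filter (fun j => j ∉ Bx) := ⟨_, rfl⟩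
  have hsumB : ∑ j ∈ B, ∏ i, pj (x i) (j i) = ∑ j ∈ B1, ∏ i, pj (x i) (j i) +
      ∑ j ∈ B2, ∏ i, pj (x i) (j i) := by
    rw [hB1, hB2]
    exact (Finset.sum_filter_add_sum_filter_not B _ _).symm
  have hcardB : (Om.filter (fun n => W n ∈ B)).card = (Om.filter (fun n => W n ∈ B1)).card +
      (Om.filter (fun n => W n ∈ B2)).card := by
    rw [← card_union_of_disjoint]
    · apply congrArg
      ext n
      rw [mem_union, mem_filter, mem_filter, mem_filter, hB1, hB2, mem_filter, mem_filter]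
      by_cases h : W n ∈ Bx
      · simp [h]
      · simp [h]
    · rw [Finset.disjoint_left]
      intro n hn hn'
      rw [mem_filter] at hn hn'
      rw [hB1, mem_filter] at hn
      rw [hB2, mem_filter] at hn'
      exact hn'.2.2 hn.2.2
  have hB1le : B1.card ≤ Bx.card := card_le_card (by
    rw [hB1]
    intro j hj
    exact (mem_filter.1 hj).2)
  -- the vectors of the box
  have h2 : |((Om.filter (fun n => W n ∈ B1)).card : ℝ) - N * ∑ j ∈ B1, ∏ i, pj (x i) (j i)| ≤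
      Bx.card * (ε' * N) := by
    have e1 : ((Om.filter (fun n => W n ∈ B1)).card : ℝ) =
        ∑ j ∈ B1, ((Om.filter (fun n => ∀ i, W n i ∈ ({j i} : Finset ℕ))).card : ℝ) := by
      have e2 : (Om.filter (fun n => W n ∈ B1)).card =
          ∑ j ∈ B1, (Om.filter (fun n => ∀ i, W n i ∈ ({j i} : Finset ℕ))).card := by
        have e3 := Finset.card_eq_sum_card_fiberwise (s := Om.filter (fun n => W n ∈ B1)) (t := B1)
          (f := W) (fun n hn => (mem_filter.1 hn).2)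
        rw [e3]
        apply Finset.sum_congr rfl
        intro j hj
        apply congrArg
        ext n
        rw [mem_filter, mem_filter, mem_filter]
        constructor
        · rintro ⟨⟨h3, _⟩, rfl⟩
          exact ⟨h3, fun i => mem_singleton_self _⟩
        · rintro ⟨h3, h4⟩
          have : W n = j := funext fun i => mem_singleton.1 (h4 i)
          exact ⟨⟨h3, by rw [this]; exact hj⟩, this⟩
      exact_mod_cast e2
    rw [e1, Finset.mul_sum, ← Finset.sum_sub_distrib]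
    refine (Finset.abs_sum_le_sum_abs _ _).trans ?_
    have e4 : ∀ j ∈ B1, |((Om.filter (fun n => ∀ i, W n i ∈ ({j i} : Finset ℕ))).card : ℝ) -
        N * ∏ i, pj (x i) (j i)| ≤ ε' * N := by
      intro j _
      have h3 := hlaw (fun i => {j i})
      have e5 : ∏ i, PoA (x i) {j i} = ∏ i, pj (x i) (j i) := by
        apply Finset.prod_congr rfl
        intro i _
        rw [PoA_eq, Finset.sum_singleton]
      rw [e5] at h3
      exact h3
    refine (Finset.sum_le_sum e4).trans ?_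
    rw [Finset.sum_const, nsmul_eq_mul]
    exact mul_le_mul_of_nonneg_right (by exact_mod_cast hB1le) (by positivity)
  -- the other vectors
  have h3 : ∑ j ∈ B2, ∏ i, pj (x i) (j i) ≤ ε / 4 := by
    have e1 : ∑ j ∈ B2, ∏ i, pj (x i) (j i) + ∑ j ∈ Bx, ∏ i, pj (x i) (j i) ≤ 1 := by
      rw [← Finset.sum_union]
      · exact sum_vec_le x hx _
      · rw [Finset.disjoint_left]
        intro j hj hj'
        rw [hB2, mem_filter] at hj
        exact hj.2 hj'
    rw [hBx, sum_box] at e1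
    linarith
  have h4 : ((Om.filter (fun n => W n ∈ B2)).card : ℝ) ≤ ε / 4 * N + ε' * N := by
    have e1 : (Om.filter (fun n => W n ∈ B2)).card + (Om.filter (fun n => W n ∈ Bx)).card ≤ Om.card := by
      rw [← card_union_of_disjoint]
      · exact card_le_card (union_subset (filter_subset _ _) (filter_subset _ _))
      · rw [Finset.disjoint_left]
        intro n hn hn'
        rw [mem_filter] at hn hn'
        rw [hB2, mem_filter] at hn
        exact hn.2.2 hn'.2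
    have e2 : ((Om.filter (fun n => W n ∈ B2)).card : ℝ) + ((Om.filter (fun n => W n ∈ Bx)).card : ℝ) ≤ N := by
      rw [hNd]
      exact_mod_cast e1
    have e3 : ((Om.filter (fun n => ∀ i, W n i ∈ range R)).card : ℝ) =
        ((Om.filter (fun n => W n ∈ Bx)).card : ℝ) := by
      apply congrArg
      apply congrArg
      ext n
      rw [mem_filter, mem_filter, hBxW]
    rw [e3] at h1
    have e4 : N * (1 - ∏ i, PoA (x i) (range R)) ≤ N * (ε / 4) := mul_le_mul_of_nonneg_left hbox hN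
    nlinarith [h1.1]
  have h5 : 0 ≤ ∑ j ∈ B2, ∏ i, pj (x i) (j i) := Finset.sum_nonneg fun j _ => hP0 j
  have h6 : (0 : ℝ) ≤ ((Om.filter (fun n => W n ∈ B2)).card : ℝ) := Nat.cast_nonneg _
  have h7 : (Bx.card : ℝ) * (ε' * N) + ε' * N = ε / 4 * N := by
    rw [← hε'1]
    ring
  have h8 : N * ∑ j ∈ B2, ∏ i, pj (x i) (j i) ≤ N * (ε / 4) := mul_le_mul_of_nonneg_left h3 hN
  have h9 : 0 ≤ N * ∑ j ∈ B2, ∏ i, pj (x i) (j i) := mul_nonneg hN h5
  have h10 : 0 ≤ ε * N := by positivity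
  have h11 : 0 ≤ ε' * N := by positivity
  rw [hcardB, hsumB]
  push_cast
  rw [mul_add]
  have h12 := abs_le.1 h2
  rw [abs_le]
  constructor
  · nlinarith [h12.1]
  · nlinarith [h12.2]

end Pool.Agent.Y175.JP
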