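import Pool.Agent.Y175.JP.PatW
import Pool.Agent.Y175.JP.Vec
import Pool.Agent.Y175.PW.Law

set_option autoImplicit false

/-!
# Patterns of almost prime values of a polynomial: the joint Poisson law

Author: helper175.
-/

namespace Pool.Agent.Y175.JP

open Finset Filter Polynomial Pool.Agent.Y175.PW

/-- The pattern `H` is admissible for the values `v`. -/
def Admissible (v : ℕ → ℤ) (H : Finset ℕ) : Prop :=
  ∀ p : ℕ, p.Prime → ∃ m : ℕ, ∀ h ∈ H, ¬ (p : ℤ) ∣ v (m + h)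

/-- The good integers in `[n, n + D]` are exactly the `n + h` with `h ∈ H`. -/
def Occurs (v : ℕ → ℤ) (d r X : ℕ) (H : Finset ℕ) (D n : ℕ) : Prop :=
  ∀ j : ℕ, j ≤ D → (Good v d r X (n + j) ↔ j ∈ H)

open Classical in
/-- The number of the occurrences in `(a, b]`. -/
noncomputable def Occ (v : ℕ → ℤ) (d r X : ℕ) (H : Finset ℕ) (D a b : ℕ) : ℕ :=
  ((Finset.Ioc a b).filter (fun m => Occurs v d r X H D m)).card

open Classical in
/-- The number of the residue classes `m` mod `p` with `p ∣ v (m + h)` for some `h ∈ H`. -/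
noncomputable def omegaH (v : ℕ → ℤ) (H : Finset ℕ) (p : ℕ) : ℕ :=
  ((Finset.range p).filter (fun m : ℕ => ∃ h ∈ H, (p : ℤ) ∣ v (m + h))).card

/-- The sieve density of the pattern. -/
noncomputable def VH (v : ℕ → ℤ) (H : Finset ℕ) (r X : ℕ) : ℝ :=
  ∏ p ∈ (Finset.range (⌊(X : ℝ) ^ (1 / (r : ℝ))⌋₊ + 1)).filter Nat.Prime,
    (1 - (omegaH v H p : ℝ) / p)

open Pool.Agent.Y871.AP Pool.Agent.TH464.PO Pool.Agent.W123.RU.Poly Pool.Agent.W123.RP
open Pool.Agent.H373R2.T7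

lemma irp {v : ℕ → ℤ} {d : ℕ} {P : ℤ[X]} (h : Vals v d P) : Irp P :=
  ⟨h.irr, by rw [h.deg]; exact h.pos, h.lead⟩

lemma admP {v : ℕ → ℤ} {d : ℕ} {P : ℤ[X]} (h : Vals v d P) {H : Finset ℕ} (hH : Admissible v H) :
    AdmP P H := by
  intro p hp
  obtain ⟨m, hm⟩ := hH p hp
  refine ⟨m, fun h' hh' => ?_⟩
  rw [h.val]
  exact hm h' hh'

open Classical in
lemma VH_eq {v : ℕ → ℤ} {d : ℕ} {P : ℤ[X]} (h : Vals v d P) (H : Finset ℕ) (r X : ℕ) :
    Vq (QF (PF P H)) ⌊(X : ℝ) ^ (1 / (r : ℝ))⌋₊ = VH v H r X := by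
  unfold Vq VH
  apply Finset.prod_congr
  · unfold pz
    ext p
    simp only [mem_filter, mem_Icc, mem_range]
    constructor
    · rintro ⟨h1, h2⟩
      exact ⟨by omega, h2⟩
    · rintro ⟨h1, h2⟩
      exact ⟨⟨h2.one_lt.le, by omega⟩, h2⟩
  · intro p _
    have : nuB (QF (PF P H)) p = omegaH v H p := by
      unfold nuB omegaH
      apply congrArg
      ext m
      rw [mem_filter, mem_filter]
      apply and_congr_right
      intro _
      unfold QF PF
      constructor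
      · rintro ⟨g, hg, hd⟩
        obtain ⟨h', hh', rfl⟩ := mem_image.1 hg
        refine ⟨h', hh', ?_⟩
        rw [eval_compC] at hd
        rw [← h.val]
        push_cast
        exact hd
      · rintro ⟨h', hh', hd⟩
        refine ⟨_, mem_image_of_mem _ hh', ?_⟩
        rw [eval_compC]
        rw [← h.val] at hd
        push_cast at hd
        exact hd
    rw [this]

lemma sv_good {v : ℕ → ℤ} {d : ℕ} {P : ℤ[X]} (h : Vals v d P) (r : ℕ) (hr : 1 ≤ r) :
    ∀ᶠ X : ℕ in atTop, ∀ m : ℕ, m ≤ 3 * X →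
      (Sv P ⌊(X : ℝ) ^ (1 / (r : ℝ))⌋₊ m ↔ Good v d r X m) := by
  filter_upwards [sf_AP _ h.sys r hr] with X hX
  intro m hm
  rw [← h.good r X m, ← hX m hm]
  unfold Sv Sf Q
  constructor
  · rintro h1 p hp ⟨_, h2⟩
    exact h1 p hp h2
  · intro h1 p hp h2
    exact h1 p hp ⟨0, h2⟩

open Classical in
/-- **The joint Poisson law for patterns.** -/
theorem joint_law {v : ℕ → ℤ} {d : ℕ} {P : ℤ[X]} (hP : Vals v d P) {ι : Type} [Fintype ι]
    (H : ι → Finset ℕ) (D : ι → ℕ) (h0 : ∀ i, 0 ∈ H i) (hD : ∀ i, ∀ h ∈ H i, h ≤ D i)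
    (hadm : ∀ i, Admissible v (H i)) (θ : ℝ) (hθ : 0 < θ) (x0 ε : ℝ) (hε : 0 < ε) :
    ∃ r0 : ℕ, ∀ r : ℕ, r0 ≤ r → ∀ᶠ X : ℕ in atTop, ∀ Y : ℕ, (X : ℝ) ^ θ ≤ Y → Y ≤ X →
      ∀ a T : ι → ℕ,
      (∀ i j, i ≠ j → H i = H j → (a i + T i ≤ a j ∨ a j + T j ≤ a i)) →
      (∀ i, ((a i : ℝ) + T i) * VH v (H i) r X ≤ x0) →
      ∀ B : Finset (ι → ℕ),
        |(((Finset.Ioc X (X + Y)).filter (fun n =>
            (fun i => Occ v d r X (H i) (D i) (n + a i) (n + a i + T i)) ∈ B)).card : ℝ) -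
          Y * ∑ j ∈ B, ∏ i, poisson (T i * VH v (H i) r X) (j i)| ≤ ε * Y := by
  obtain ⟨x1, hx1⟩ : ∃ x1, x1 = max x0 0 := ⟨_, rfl⟩
  have hx10 : 0 ≤ x1 := by rw [hx1]; exact le_max_right _ _
  have hx01 : x0 ≤ x1 := by rw [hx1]; exact le_max_left _ _
  obtain ⟨ε', hε', hvec⟩ := vec_law (ι := ι) x1 ε hε
  obtain ⟨r1, h1⟩ := pat_windows P (irp hP) H h0 (fun i => admP hP (hadm i)) D θ hθ x1 ε' hx10 hε'
  refine ⟨r1 + 2, ?_⟩
  intro r hr
  have hsz : ∀ i : ι, ∀ᶠ X : ℕ in atTop,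
      0 < Vq (QF (PF P (H i))) ⌊(X : ℝ) ^ (1 / (r : ℝ))⌋₊ ∧
      (2 * x1 + 1) * Vq (QF (PF P (H i))) ⌊(X : ℝ) ^ (1 / (r : ℝ))⌋₊ ≤ 1 ∧
      (2 * x1 + 1) ≤ (X : ℝ) ^ (1 : ℝ) * Vq (QF (PF P (H i))) ⌊(X : ℝ) ^ (1 / (r : ℝ))⌋₊ ^ 2 := by
    intro i
    exact sizes (PF P (H i)) (PF_sys P (irp hP) (H i) ⟨0, h0 i⟩ (admP hP (hadm i))) 1 one_pos
      (2 * x1 + 1) (by positivity) r (by omega)
  filter_upwards [h1 r (by omega), Filter.eventually_all.2 hsz, sv_good hP r (by omega),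
    eventually_ge_atTop (2 * ∑ i, D i)] with X hX hX2 hX3 hX4
  intro Y hXY hYX a T hdj hT B
  obtain ⟨y, hy⟩ : ∃ y, y = ⌊(X : ℝ) ^ (1 / (r : ℝ))⌋₊ := ⟨_, rfl⟩
  have hVH : ∀ i, VH v (H i) r X = Vq (QF (PF P (H i))) y := fun i => by
    rw [hy]; exact (VH_eq hP (H i) r X).symm
  rw [← hy] at hX hX2 hX3
  simp only [hVH] at hT ⊢
  have hVpos : ∀ i, 0 < Vq (QF (PF P (H i))) y := fun i => (hX2 i).1
  -- the windows are short
  have hshort : ∀ i, 2 * (a i + T i) ≤ X := by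
    intro i
    obtain ⟨hV0, hV1, hV2⟩ := hX2 i
    rw [Real.rpow_one] at hV2
    have hV3 : Vq (QF (PF P (H i))) y ≤ 1 := by nlinarith
    have h2 : ((a i : ℝ) + T i) * Vq (QF (PF P (H i))) y ≤ x1 := (hT i).trans hx01
    have h3 : 2 * ((a i : ℝ) + T i) ≤ X := by
      by_contra hcon
      rw [not_le] at hcon
      have h4 : (X : ℝ) * Vq (QF (PF P (H i))) y ≤ 2 * x1 := by
        have := mul_lt_mul_of_pos_right hcon hV0
        nlinarith
      have hXn : (0 : ℝ) ≤ X := Nat.cast_nonneg X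
      have h5 : (X : ℝ) * Vq (QF (PF P (H i))) y ^ 2 ≤ (X : ℝ) * Vq (QF (PF P (H i))) y := by
        rw [pow_two, ← mul_assoc]
        nlinarith [mul_nonneg hXn hV0.le]
      linarith
    have h4 : ((2 * (a i + T i) : ℕ) : ℝ) ≤ X := by push_cast; exact h3
    exact_mod_cast h4
  have hDi : ∀ i, 2 * D i ≤ X := by
    intro i
    have h2 : D i ≤ ∑ i, D i := Finset.single_le_sum (f := fun i => D i) (fun _ _ => Nat.zero_le _) (mem_univ i)
    omega
  have hlaw := hX X Y hXY a T hdj (fun i => by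
    push_cast
    exact (hT i).trans hx01)
  obtain ⟨Om, hOm⟩ : ∃ Om, Om = Finset.Ioc X (X + Y) := ⟨_, rfl⟩
  have hcard : (Om.card : ℝ) = Y := by
    rw [hOm, Nat.card_Ioc]
    congr 1
    omega
  rw [← hOm] at hlaw ⊢
  have hOcc : ∀ n ∈ Om, ∀ i, Occ v d r X (H i) (D i) (n + a i) (n + a i + T i) =
      Wc (EP (Sv P y) (H i) (D i)) (n + a i) (T i) := by
    intro n hn i
    rw [hOm, mem_Ioc] at hn
    unfold Occ Wc
    apply congrArg
    ext m
    rw [mem_filter, mem_filter]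
    apply and_congr_right
    intro hm
    rw [mem_Ioc] at hm
    have hs := hshort i
    have hd := hDi i
    have hg : ∀ j : ℕ, j ≤ D i → (Sv P y (m + j) ↔ Good v d r X (m + j)) := fun j hj =>
      hX3 (m + j) (by omega)
    unfold Occurs EP
    constructor
    · intro h
      refine ⟨?_, ?_⟩
      · intro h' hh'
        have hh := hD i h' hh'
        exact (hg h' hh).2 ((h h' hh).2 hh')
      · intro j hj hjH hs'
        exact hjH ((h j hj).1 ((hg j hj).1 hs'))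
    · rintro ⟨h3, h4⟩ j hj
      constructor
      · intro hgo
        by_contra hjH
        exact h4 j hj hjH ((hg j hj).2 hgo)
      · intro hjH
        exact (hg j hj).1 (h3 j hjH)
  have hmain := hvec Om (fun n i => Occ v d r X (H i) (D i) (n + a i) (n + a i + T i))
    (fun i => T i * Vq (QF (PF P (H i))) y) (fun i => mul_nonneg (Nat.cast_nonneg _) (hVpos i).le)
    (fun i => by
      refine le_trans ?_ ((hT i).trans hx01)
      apply mul_le_mul_of_nonneg_right _ (hVpos i).le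
      have : (0 : ℝ) ≤ a i := Nat.cast_nonneg _
      linarith) (fun A => by
      have h2 := hlaw A
      rw [hcard]
      have e : Om.filter (fun n => ∀ i, Occ v d r X (H i) (D i) (n + a i) (n + a i + T i) ∈ A i) =
          Om.filter (fun n => ∀ i, Wc (EP (Sv P y) (H i) (D i)) (n + a i) (T i) ∈ A i) := by
        ext n
        rw [mem_filter, mem_filter]
        apply and_congr_right
        intro hn
        apply forall_congr'
        intro i
        rw [hOcc n hn i]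
      rw [e]
      exact h2) B
  rw [hcard] at hmain
  exact hmain

end Pool.Agent.Y175.JP
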