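import Pool.Agent.Y175.JP.LawJ
import Pool.Agent.TH464.PO.Gen

set_option autoImplicit false

/-!
# The joint law in all intervals and for all windows of bounded mean

Author: helper175.
-/

namespace Pool.Agent.Y175.JP

open Finset Filter Pool.Agent.H373R2.T7 Pool.Agent.W123.RP Pool.Agent.W123.RU Pool.Agent.TH464.PO

lemma abs_prod_sub_le {α : Type*} (s : Finset α) (a b : α → ℝ) (ha0 : ∀ i ∈ s, 0 ≤ a i)
    (ha1 : ∀ i ∈ s, a i ≤ 1) (hb0 : ∀ i ∈ s, 0 ≤ b i) (hb1 : ∀ i ∈ s, b i ≤ 1) :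
    |∏ i ∈ s, a i - ∏ i ∈ s, b i| ≤ ∑ i ∈ s, |a i - b i| := by
  classical
  induction s using Finset.induction_on with
  | empty => simp
  | insert j s hj ih =>
    rw [Finset.prod_insert hj, Finset.prod_insert hj, Finset.sum_insert hj]
    have h1 := ih (fun i hi => ha0 i (mem_insert_of_mem hi)) (fun i hi => ha1 i (mem_insert_of_mem hi))
      (fun i hi => hb0 i (mem_insert_of_mem hi)) (fun i hi => hb1 i (mem_insert_of_mem hi))
    have hj1 := ha0 j (mem_insert_self _ _)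
    have hj2 := ha1 j (mem_insert_self _ _)
    have hP0 : 0 ≤ ∏ i ∈ s, b i := Finset.prod_nonneg fun i hi => hb0 i (mem_insert_of_mem hi)
    have hP1 : ∏ i ∈ s, b i ≤ 1 := Finset.prod_le_one (fun i hi => hb0 i (mem_insert_of_mem hi))
      (fun i hi => hb1 i (mem_insert_of_mem hi))
    have e : a j * ∏ i ∈ s, a i - b j * ∏ i ∈ s, b i =
        a j * (∏ i ∈ s, a i - ∏ i ∈ s, b i) + (a j - b j) * ∏ i ∈ s, b i := by ring
    rw [e]
    refine (abs_add_le _ _).trans ?_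
    rw [abs_mul, abs_mul, abs_of_nonneg hj1, abs_of_nonneg hP0]
    have h2 : a j * |∏ i ∈ s, a i - ∏ i ∈ s, b i| ≤ 1 * ∑ i ∈ s, |a i - b i| :=
      mul_le_mul hj2 h1 (abs_nonneg _) zero_le_one
    have h3 : |a j - b j| * ∏ i ∈ s, b i ≤ |a j - b j| * 1 :=
      mul_le_mul_of_nonneg_left hP1 (abs_nonneg _)
    linarith

lemma PoA_zero_sub (x x' κ : ℝ) (hx : 0 ≤ x) (hxx : x ≤ x') (hx' : x' ≤ κ) (A : Finset ℕ) :
    |PoA x A - PoA x' (A.filter (fun j => j = 0))| ≤ κ := by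
  have hx'0 : 0 ≤ x' := hx.trans hxx
  have he : 1 - x' ≤ Real.exp (-x') := by
    have := Real.add_one_le_exp (-x')
    linarith
  have he1 : Real.exp (-x') ≤ 1 := Real.exp_le_one_iff.2 (by linarith)
  have he2 : Real.exp (-x) ≤ 1 := Real.exp_le_one_iff.2 (by linarith)
  have he3 : Real.exp (-x') ≤ Real.exp (-x) := Real.exp_le_exp.2 (by linarith)
  by_cases h0 : 0 ∈ A
  · have e1 : A.filter (fun j => j = 0) = {0} := by
      ext j
      rw [mem_filter, mem_singleton]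
      constructor
      · exact fun h => h.2
      · rintro rfl
        exact ⟨h0, rfl⟩
    have e2 : PoA x' {0} = Real.exp (-x') := by
      unfold PoA
      rw [Finset.sum_singleton]
      simp
    have h1 : Real.exp (-x) ≤ PoA x A := by
      have : PoA x {0} ≤ PoA x A := Finset.sum_le_sum_of_subset_of_nonneg
        (singleton_subset_iff.2 h0) fun j _ _ => by positivity
      have e3 : PoA x {0} = Real.exp (-x) := by
        unfold PoA
        rw [Finset.sum_singleton]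
        simp
      rwa [e3] at this
    have h2 := PoA_le_one x hx A
    rw [e1, e2, abs_le]
    constructor <;> linarith
  · have e1 : A.filter (fun j => j = 0) = ∅ := by
      rw [Finset.filter_eq_empty_iff]
      rintro j hj rfl
      exact h0 hj
    have e2 : PoA x' ∅ = 0 := by
      unfold PoA
      simp
    have h1 : PoA x A + Real.exp (-x) ≤ 1 := by
      have h2 := PoA_le_one x hx (insert 0 A)
      unfold PoA at h2 ⊢
      rw [Finset.sum_insert h0] at h2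
      simp only [pow_zero, mul_one, Nat.factorial_zero, Nat.cast_one, div_one] at h2
      linarith
    have h2 := PoA_nonneg x hx A
    rw [e1, e2, sub_zero, abs_of_nonneg h2]
    linarith

variable {ι : Type} [Fintype ι]

omit [Fintype ι] in
lemma Vq_QU_shift (Q : ι → ℕ → ℕ → Prop) (c : ℕ) (hQ : ∀ i, PerB (Q i) c) (Z y : ℕ)
    (H : Finset (Pt ι)) : Vq (QU (fun i => Qt (Q i) Z) H) y = Vq (QU Q H) y := by
  rw [← Vq_Qt (QU Q H) (H.card * c) (perB_QU Q c hQ H) Z y]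
  congr 1
  funext p m
  unfold QU Qt
  apply propext
  apply exists_congr
  intro x
  change (x ∈ H ∧ Q x.1 p (m + x.2 + Z)) ↔ _
  rw [show m + x.2 + Z = m + Z + x.2 by ring]

open Classical in
lemma Atm.shift {β : Type} {Q : ι → ℕ → ℕ → Prop} {T : ι → ℕ} {y : ℕ} {S : Pt ι → Finset β}
    {W B k : ℕ} {η δ : ℝ} (c : ℕ) (hQ : ∀ i, PerB (Q i) c) (Z : ℕ) (h : Atm Q T y S W B k η δ) :
    Atm (fun i => Qt (Q i) Z) T y S W B k η δ := by
  refine ⟨h.ne, h.card, h.inj, h.deg, ?_, ?_⟩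
  · intro x hx z hz hxz hd
    refine le_trans ?_ (h.large x hx z hz hxz hd)
    have : ((pz y).filter (fun p : ℕ => T z.1 < p ∧ Cox (fun i => Qt (Q i) Z) p x z)).card ≤
        ((pz y).filter (fun p : ℕ => T z.1 < p ∧ Cox Q p x z)).card := by
      apply card_le_card
      intro p hp
      rw [mem_filter] at hp ⊢
      obtain ⟨h1, h2, m, h3, h4⟩ := hp
      refine ⟨h1, h2, m + Z, ?_, ?_⟩
      · unfold Qt at h3
        rwa [show m + Z + x.2 = m + x.2 + Z by ring]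
      · unfold Qt at h4
        rwa [show m + Z + z.2 = m + z.2 + Z by ring]
    exact_mod_cast this
  · intro H hH hHk x hx ha H₂ h1 h2
    rw [Vq_QU_shift Q c hQ, Vq_QU_shift Q c hQ]
    exact h.ext H hH hHk x hx ha H₂ h1 h2

open Classical in
/-- the first moments -/
theorem first_joint (c : ℕ) (hc : 1 ≤ c) (W B : ℕ) (x0 ε : ℝ) (hx0 : 0 ≤ x0) (hε : 0 < ε) :
    ∃ (K0 y0 T0 : ℕ) (η' δ : ℝ), 0 < η' ∧ 0 < δ ∧ ∀ (Y y : ℕ) (T : ι → ℕ), y0 ≤ y →
      y ^ K0 ≤ Y → (∀ i, T0 ≤ T i) → (∀ i, T i ^ 4 ≤ Y) →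
      ∀ Q : ι → ℕ → ℕ → Prop, (∀ i, PerB (Q i) c) →
      (∀ i, ∀ p : ℕ, p.Prime → nuB (Q i) p < p) → (∀ i, T i * Vq (Q i) y ≤ x0) →
      ∀ (β : Type) (S : Pt ι → Finset β), Atm Q T y S W B 1 η' δ → ∀ i,
      ∑ n ∈ Icc 1 Y, (Nw (Q i) y (T i) n : ℝ) ≤ (T i * Vq (Q i) y + ε) * Y := by
  choose K0 y0 T0 η' δ hη' hδ hmom using fun i : ι =>
    moment_joint c hc (fun l : ι => if l = i then 1 else 0) W B x0 (ε / 2) hx0 (by positivity)
  obtain ⟨y1, hy1⟩ : ∃ y1 : ℕ, (2 / ε) ^ 4 ≤ y1 := exists_nat_ge _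
  obtain ⟨η0, hη00, hη0⟩ : ∃ η0 : ℝ, 0 < η0 ∧ ∀ i, η0 ≤ η' i := by
    rcases isEmpty_or_nonempty ι with h | h
    · exact ⟨1, one_pos, fun i => (h.false i).elim⟩
    · obtain ⟨i, _, hi⟩ := Finset.exists_min_image (univ : Finset ι) η' univ_nonempty
      exact ⟨η' i, hη' i, fun j => hi j (mem_univ _)⟩
  obtain ⟨δ0, hδ00, hδ0⟩ : ∃ δ0 : ℝ, 0 < δ0 ∧ ∀ i, δ0 ≤ δ i := by
    rcases isEmpty_or_nonempty ι with h | h
    · exact ⟨1, one_pos, fun i => (h.false i).elim⟩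
    · obtain ⟨i, _, hi⟩ := Finset.exists_min_image (univ : Finset ι) δ univ_nonempty
      exact ⟨δ i, hδ i, fun j => hi j (mem_univ _)⟩
  refine ⟨(∑ i, K0 i) + 1, (∑ i, y0 i) + y1 + 1, (∑ i, T0 i) + 1, η0, δ0, hη00, hδ00, ?_⟩
  intro Y y T hy hyY hT hT4 Q hQ hadm hTx β S hAtm i
  have hKi : K0 i ≤ ∑ i, K0 i := Finset.single_le_sum (fun _ _ => Nat.zero_le _) (mem_univ i)
  have hyi : y0 i ≤ ∑ i, y0 i := Finset.single_le_sum (fun _ _ => Nat.zero_le _) (mem_univ i)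
  have hTi : T0 i ≤ ∑ i, T0 i := Finset.single_le_sum (fun _ _ => Nat.zero_le _) (mem_univ i)
  have hy1' : 1 ≤ y := by omega
  have hyY' : y ≤ Y := by
    calc y = y ^ 1 := (pow_one y).symm
      _ ≤ y ^ ((∑ i, K0 i) + 1) := Nat.pow_le_pow_right hy1' (by omega)
      _ ≤ Y := hyY
  have hY1 : (2 / ε) ^ 4 ≤ (Y : ℝ) := hy1.trans (by exact_mod_cast (by omega : y1 ≤ Y))
  have hYpos : (0 : ℝ) < Y := lt_of_lt_of_le (by positivity) hY1
  have hsum1 : ∑ l, (if l = i then 1 else 0 : ℕ) = 1 := by simp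
  have h1 := hmom i Y y T (by omega) ((Nat.pow_le_pow_right hy1' (by omega)).trans hyY)
    (fun l => by have := hT l; omega) Q hQ hadm hTx β S
    (hAtm.mono hsum1.le (hη0 i) (hδ0 i))
  have e1 : ∀ n, ∏ l, ((Nw (Q l) y (T l) n).choose (if l = i then 1 else 0) : ℝ) =
      (Nw (Q i) y (T i) n : ℝ) := by
    intro n
    rw [Finset.prod_eq_single i]
    · rw [if_pos rfl, Nat.choose_one_right]
    · intro l _ hl
      rw [if_neg hl, Nat.choose_zero_right, Nat.cast_one]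
    · intro h
      exact absurd (mem_univ i) h
  have e2 : ∏ l, ((T l * Vq (Q l) y) ^ (if l = i then 1 else 0) /
      (((if l = i then 1 else 0 : ℕ)).factorial : ℝ)) = T i * Vq (Q i) y := by
    rw [Finset.prod_eq_single i]
    · rw [if_pos rfl]
      simp
    · intro l _ hl
      rw [if_neg hl]
      simp
    · intro h
      exact absurd (mem_univ i) h
  have e3 : ∏ l, (T l : ℝ) ^ (if l = i then 1 else 0) = T i := by
    rw [Finset.prod_eq_single i]
    · rw [if_pos rfl, pow_one]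
    · intro l _ hl
      rw [if_neg hl, pow_zero]
    · intro h
      exact absurd (mem_univ i) h
  rw [Finset.sum_congr rfl (fun n _ => e1 n), e2, e3] at h1
  have hs4 : 2 / ε ≤ √(√(Y : ℝ)) := by
    apply Real.le_sqrt_of_sq_le
    apply Real.le_sqrt_of_sq_le
    calc ((2 / ε) ^ 2) ^ 2 = (2 / ε) ^ 4 := by ring
      _ ≤ (Y : ℝ) := hY1
  have hP4 : (T i : ℝ) ≤ √(√(Y : ℝ)) := by
    apply Real.le_sqrt_of_sq_le
    apply Real.le_sqrt_of_sq_le
    calc ((T i : ℝ) ^ 2) ^ 2 = ((T i ^ 4 : ℕ) : ℝ) := by push_cast; ring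
      _ ≤ Y := by exact_mod_cast hT4 i
  have hTY : (T i : ℝ) * √(Y : ℝ) ≤ ε / 2 * Y := by
    have e1 : √(√(Y : ℝ)) * √(√(Y : ℝ)) = √(Y : ℝ) := Real.mul_self_sqrt (Real.sqrt_nonneg _)
    have e2 : √(Y : ℝ) * √(Y : ℝ) = Y := Real.mul_self_sqrt hYpos.le
    have h1 : (T i : ℝ) * (2 / ε) ≤ √(Y : ℝ) := by
      rw [← e1]
      exact mul_le_mul hP4 hs4 (by positivity) (Real.sqrt_nonneg _)
    calc (T i : ℝ) * √(Y : ℝ) = ε / 2 * ((T i : ℝ) * (2 / ε)) * √(Y : ℝ) := by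
          field_simp
      _ ≤ ε / 2 * √(Y : ℝ) * √(Y : ℝ) := by gcongr
      _ = ε / 2 * Y := by rw [mul_assoc, e2]
  have h2 := (abs_le.1 h1).2
  nlinarith

open Classical in
/-- **The joint Poisson law** in all intervals and for all windows of bounded mean. -/
theorem gen_joint (c : ℕ) (hc : 1 ≤ c) (W B : ℕ) (x0 ε : ℝ) (hε : 0 < ε) :
    ∃ (K0 y0 T0 R0 k0 : ℕ) (η' δ κ : ℝ), 0 < η' ∧ 0 < δ ∧ 0 < κ ∧ κ ≤ 1 / 2 ∧
      ∀ (Q : ι → ℕ → ℕ → Prop) (Z Y y : ℕ), (∀ i, PerB (Q i) c) →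
      (∀ i, ∀ p : ℕ, p.Prime → nuB (Q i) p < p) → y0 ≤ y → y ^ K0 ≤ Y → (∀ i, Vq (Q i) y ≤ κ) →
      (∀ T : ι → ℕ, (∀ i, κ ≤ T i * Vq (Q i) y) → (∀ i, T i * Vq (Q i) y ≤ max x0 1) →
        (∀ i, T0 ≤ T i) ∧ (∀ i, T i ^ R0 ≤ Y) ∧
        ∃ (β : Type) (S : Pt ι → Finset β), Atm Q T y S W B k0 η' δ) →
      ∀ T : ι → ℕ, (∀ i, T i * Vq (Q i) y ≤ x0) → ∀ A : ι → Finset ℕ,
        |(((Ioc Z (Z + Y)).filter (fun n => ∀ i, Wc (Sf (Q i) y) n (T i) ∈ A i)).card : ℝ) -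
          Y * ∏ i, PoA (T i * Vq (Q i) y) (A i)| ≤ ε * Y := by
  obtain ⟨s, hs⟩ : ∃ s, s = Fintype.card ι := ⟨_, rfl⟩
  obtain ⟨κ, hκ⟩ : ∃ κ, κ = min (ε / (8 * (s + 1))) (1 / 2) := ⟨_, rfl⟩
  have hκ0 : 0 < κ := by rw [hκ]; positivity
  have hκ1 : κ * (8 * (s + 1)) ≤ ε := by
    have : κ ≤ ε / (8 * (s + 1)) := by rw [hκ]; exact min_le_left _ _
    rwa [le_div_iff₀ (by positivity)] at this
  have hκ2 : κ ≤ 1 / 2 := by rw [hκ]; exact min_le_right _ _
  have hm0 : 0 ≤ max x0 1 := by positivity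
  obtain ⟨K0, y0, T0, R0, k0, η', δ, hη', hδ, hlaw⟩ :=
    law_joint (ι := ι) c hc W B (max x0 1) (ε / 4) hm0 (by positivity)
  obtain ⟨K1, y1, T1, η1, δ1, hη1, hδ1, hfirst⟩ :=
    first_joint (ι := ι) c hc W B (max x0 1) κ hm0 hκ0
  refine ⟨K0 + K1, y0 + y1 + 1, T0 + T1 + 1, R0 + 4, k0 + 1, min η' η1, min δ δ1, κ, by positivity,
    by positivity, hκ0, hκ2, ?_⟩
  intro Q Z Y y hQ hadm hy hyY hVκ hT T hTx A
  have hV0 : ∀ i, 0 < Vq (Q i) y := fun i => Vq_pos (Q i) (hadm i) y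
  have hY0 : (0 : ℝ) ≤ Y := Nat.cast_nonneg Y
  have hy1 : 1 ≤ y := by omega
  have hbij : ∀ P : ℕ → Prop, ((Ioc Z (Z + Y)).filter P).card =
      ((Icc 1 Y).filter (fun n => P (n + Z))).card := by
    intro P
    symm
    apply Finset.card_bij (fun n _ => n + Z)
    · intro n hn
      rw [mem_filter, mem_Icc] at hn
      rw [mem_filter, mem_Ioc]
      exact ⟨by omega, hn.2⟩
    · intro a _ b _ hab
      omega
    · intro n hn
      rw [mem_filter, mem_Ioc] at hn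
      refine ⟨n - Z, ?_, by omega⟩
      rw [mem_filter, mem_Icc, show n - Z + Z = n by omega]
      exact ⟨by omega, hn.2⟩
  have hadm' : ∀ i, ∀ p : ℕ, p.Prime → nuB (Qt (Q i) Z) p < p := fun i p hp => by
    rw [nuB_Qt (Q i) c (hQ i)]
    exact hadm i p hp
  -- the new windows
  choose Tn hTn1 hTn2 hTn3 using fun i => exists_window (Vq (Q i) y) κ (hV0 i) (hVκ i)
  obtain ⟨T', hT'⟩ : ∃ T' : ι → ℕ, T' = fun i => if T i * Vq (Q i) y < κ then Tn i else T i :=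
    ⟨_, rfl⟩
  obtain ⟨A', hA'⟩ : ∃ A' : ι → Finset ℕ, A' = fun i =>
    if T i * Vq (Q i) y < κ then (A i).filter (fun j => j = 0) else A i := ⟨_, rfl⟩
  have hT'lo : ∀ i, κ ≤ T' i * Vq (Q i) y := by
    intro i
    rw [hT']
    beta_reduce
    split_ifs with h
    · exact hTn1 i
    · exact not_lt.1 h
  have hT'up : ∀ i, T' i * Vq (Q i) y ≤ max x0 1 := by
    intro i
    rw [hT']
    beta_reduce
    split_ifs with h
    · exact (hTn2 i).trans ((by linarith : 2 * κ ≤ 1).trans (le_max_right _ _))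
    · exact (hTx i).trans (le_max_left _ _)
  have hTT' : ∀ i, T i ≤ T' i := by
    intro i
    rw [hT']
    beta_reduce
    split_ifs with h
    · exact hTn3 i (T i) h
    · exact le_rfl
  obtain ⟨hT0, hTR, β, S, hAtm⟩ := hT T' hT'lo hT'up
  have hYn : 1 ≤ Y := by
    refine le_trans ?_ hyY
    exact Nat.one_le_pow _ _ hy1
  have hT'1 : ∀ i, 1 ≤ T' i := fun i => by have := hT0 i; omega
  have h1 := hlaw Y y T' (by omega) ((Nat.pow_le_pow_right hy1 (by omega)).trans hyY)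
    (fun i => by have := hT0 i; omega)
    (fun i => (Nat.pow_le_pow_right (hT'1 i) (by omega)).trans (hTR i))
    (fun i => Qt (Q i) Z) (fun i => perB_Qt (Q i) c (hQ i) Z) hadm'
    (fun i => by rw [Vq_Qt (Q i) c (hQ i)]; exact hT'up i) β S
    ((hAtm.shift c hQ Z).mono (by omega) (min_le_left _ _) (min_le_left _ _)) A'
  have h2 := hfirst Y y T' (by omega) ((Nat.pow_le_pow_right hy1 (by omega)).trans hyY)
    (fun i => by have := hT0 i; omega)
    (fun i => (Nat.pow_le_pow_right (hT'1 i) (by omega)).trans (hTR i))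
    (fun i => Qt (Q i) Z) (fun i => perB_Qt (Q i) c (hQ i) Z) hadm'
    (fun i => by rw [Vq_Qt (Q i) c (hQ i)]; exact hT'up i) β S
    ((hAtm.shift c hQ Z).mono (by omega) (min_le_right _ _) (min_le_right _ _))
  have e1 : ∀ i, Vq (Qt (Q i) Z) y = Vq (Q i) y := fun i => Vq_Qt (Q i) c (hQ i) Z y
  simp only [e1, Nw_Qt] at h1 h2
  -- the bad integers
  obtain ⟨Om, hOm⟩ : ∃ Om, Om = Icc 1 Y := ⟨_, rfl⟩
  rw [← hOm] at h1 h2
  have hcount : ((Ioc Z (Z + Y)).filter (fun n => ∀ i, Wc (Sf (Q i) y) n (T i) ∈ A i)).card =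
      (Om.filter (fun n => ∀ i, Wc (Sf (Q i) y) (n + Z) (T i) ∈ A i)).card := by
    rw [hOm]
    convert hbij (fun n => ∀ i, Wc (Sf (Q i) y) n (T i) ∈ A i)
  rw [hcount]
  obtain ⟨Bad, hBad⟩ : ∃ Bad, Bad = Om.filter (fun n => ∃ i, T i * Vq (Q i) y < κ ∧
    1 ≤ Wc (Sf (Q i) y) (n + Z) (T' i)) := ⟨_, rfl⟩
  have hBadcard : (Bad.card : ℝ) ≤ 3 * κ * s * Y := by
    have h3 : Bad.card ≤ ∑ i ∈ univ.filter (fun i => T i * Vq (Q i) y < κ),
        (Om.filter (fun n => 1 ≤ Wc (Sf (Q i) y) (n + Z) (T' i))).card := by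
      refine le_trans (card_le_card ?_) Finset.card_biUnion_le
      intro n hn
      rw [hBad, mem_filter] at hn
      obtain ⟨hn1, i, hi1, hi2⟩ := hn
      rw [mem_biUnion]
      exact ⟨i, mem_filter.2 ⟨mem_univ _, hi1⟩, mem_filter.2 ⟨hn1, hi2⟩⟩
    have h4 : ∀ i ∈ univ.filter (fun i => T i * Vq (Q i) y < κ),
        ((Om.filter (fun n => 1 ≤ Wc (Sf (Q i) y) (n + Z) (T' i))).card : ℝ) ≤ 3 * κ * Y := by
      intro i hi
      rw [mem_filter] at hi
      have h5 : ((Om.filter (fun n => 1 ≤ Wc (Sf (Q i) y) (n + Z) (T' i))).card : ℝ) ≤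
          ∑ n ∈ Om, (Wc (Sf (Q i) y) (n + Z) (T' i) : ℝ) := by
        rw [Finset.card_filter]
        push_cast
        apply Finset.sum_le_sum
        intro n _
        split_ifs with h
        · exact_mod_cast h
        · positivity
      refine h5.trans ((h2 i).trans ?_)
      apply mul_le_mul_of_nonneg_right _ hY0
      have h6 : T' i * Vq (Q i) y ≤ 2 * κ := by
        rw [hT']
        beta_reduce
        rw [if_pos hi.2]
        exact hTn2 i
      linarith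
    calc (Bad.card : ℝ) ≤ ∑ i ∈ univ.filter (fun i => T i * Vq (Q i) y < κ),
          ((Om.filter (fun n => 1 ≤ Wc (Sf (Q i) y) (n + Z) (T' i))).card : ℝ) := by
            exact_mod_cast h3
      _ ≤ ∑ i ∈ univ.filter (fun i => T i * Vq (Q i) y < κ), 3 * κ * Y := Finset.sum_le_sum h4
      _ ≤ ∑ _i : ι, 3 * κ * Y := by
          apply Finset.sum_le_sum_of_subset_of_nonneg (Finset.filter_subset _ _)
          intros
          positivity
      _ = 3 * κ * s * Y := by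
          rw [Finset.sum_const, Finset.card_univ, ← hs, nsmul_eq_mul]
          ring
  have hiff : ∀ n ∈ Om, n ∉ Bad → ((∀ i, Wc (Sf (Q i) y) (n + Z) (T i) ∈ A i) ↔
      ∀ i, Wc (Sf (Q i) y) (n + Z) (T' i) ∈ A' i) := by
    intro n hn hnB
    apply forall_congr'
    intro i
    rw [hA']
    beta_reduce
    by_cases h : T i * Vq (Q i) y < κ
    · rw [if_pos h]
      have h3 : Wc (Sf (Q i) y) (n + Z) (T' i) = 0 := by
        by_contra hne
        apply hnB
        rw [hBad, mem_filter]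
        exact ⟨hn, i, h, Nat.one_le_iff_ne_zero.2 hne⟩
      have h4 : Wc (Sf (Q i) y) (n + Z) (T i) = 0 := by
        have := Wc_mono (Sf (Q i) y) (n + Z) (T i) (T' i) (hTT' i)
        omega
      rw [h3, h4, mem_filter]
      exact ⟨fun h => ⟨h, rfl⟩, fun h => h.1⟩
    · rw [if_neg h]
      have : T' i = T i := by
        rw [hT']
        beta_reduce
        rw [if_neg h]
      rw [this]
  have hdiff : |((Om.filter (fun n => ∀ i, Wc (Sf (Q i) y) (n + Z) (T i) ∈ A i)).card : ℝ) -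
      ((Om.filter (fun n => ∀ i, Wc (Sf (Q i) y) (n + Z) (T' i) ∈ A' i)).card : ℝ)| ≤ Bad.card := by
    have key : ∀ (P P' : ℕ → Prop) [DecidablePred P] [DecidablePred P'],
        (∀ n ∈ Om, n ∉ Bad → (P n → P' n)) →
        ((Om.filter P).card : ℝ) ≤ (Om.filter P').card + Bad.card := by
      intro P P' _ _ hPP
      have : (Om.filter P).card ≤ (Om.filter P' ∪ Bad).card := by
        apply card_le_card
        intro n hn
        rw [mem_filter] at hn
        rw [mem_union]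
        by_cases hb : n ∈ Bad
        · exact Or.inr hb
        · exact Or.inl (mem_filter.2 ⟨hn.1, hPP n hn.1 hb hn.2⟩)
      exact_mod_cast this.trans (card_union_le _ _)
    rw [abs_le]
    have k1 := key _ _ (fun n hn hb => (hiff n hn hb).1)
    have k2 := key _ _ (fun n hn hb => (hiff n hn hb).2)
    constructor <;> linarith
  have hx0i : ∀ i, 0 ≤ T i * Vq (Q i) y := fun i => mul_nonneg (Nat.cast_nonneg _) (hV0 i).le
  have hx0i' : ∀ i, 0 ≤ T' i * Vq (Q i) y := fun i => mul_nonneg (Nat.cast_nonneg _) (hV0 i).le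
  have hprod : |∏ i, PoA (T i * Vq (Q i) y) (A i) - ∏ i, PoA (T' i * Vq (Q i) y) (A' i)| ≤
      2 * κ * s := by
    refine (abs_prod_sub_le univ _ _ (fun i _ => PoA_nonneg _ (hx0i i) _)
      (fun i _ => PoA_le_one _ (hx0i i) _) (fun i _ => PoA_nonneg _ (hx0i' i) _)
      (fun i _ => PoA_le_one _ (hx0i' i) _)).trans ?_
    have h3 : ∀ i ∈ (univ : Finset ι), |PoA (T i * Vq (Q i) y) (A i) -
        PoA (T' i * Vq (Q i) y) (A' i)| ≤ 2 * κ := by
      intro i _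
      by_cases h : T i * Vq (Q i) y < κ
      · have e2 : A' i = (A i).filter (fun j => j = 0) := by
          rw [hA']
          beta_reduce
          rw [if_pos h]
        have e3 : T' i = Tn i := by
          rw [hT']
          beta_reduce
          rw [if_pos h]
        rw [e2, e3]
        apply PoA_zero_sub _ _ _ (hx0i i) _ (hTn2 i)
        exact h.le.trans (hTn1 i)
      · have e2 : A' i = A i := by
          rw [hA']
          beta_reduce
          rw [if_neg h]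
        have e3 : T' i = T i := by
          rw [hT']
          beta_reduce
          rw [if_neg h]
        rw [e2, e3, sub_self, abs_zero]
        positivity
    refine (Finset.sum_le_sum h3).trans (le_of_eq ?_)
    rw [Finset.sum_const, Finset.card_univ, ← hs, nsmul_eq_mul]
    ring
  obtain ⟨a, ha⟩ : ∃ a : ℝ, a =
    ((Om.filter (fun n => ∀ i, Wc (Sf (Q i) y) (n + Z) (T i) ∈ A i)).card : ℝ) := ⟨_, rfl⟩
  obtain ⟨b, hb⟩ : ∃ b : ℝ, b =
    ((Om.filter (fun n => ∀ i, Wc (Sf (Q i) y) (n + Z) (T' i) ∈ A' i)).card : ℝ) := ⟨_, rfl⟩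
  obtain ⟨P1, hP1⟩ : ∃ P1 : ℝ, P1 = ∏ i, PoA (T i * Vq (Q i) y) (A i) := ⟨_, rfl⟩
  obtain ⟨P2, hP2⟩ : ∃ P2 : ℝ, P2 = ∏ i, PoA (T' i * Vq (Q i) y) (A' i) := ⟨_, rfl⟩
  rw [← ha, ← hb] at hdiff
  rw [← hP1, ← hP2] at hprod
  rw [← hb, ← hP2] at h1
  rw [← ha, ← hP1]
  have h4 : |Y * P2 - Y * P1| ≤ 2 * κ * s * Y := by
    rw [← mul_sub, abs_mul, abs_of_nonneg hY0, abs_sub_comm, mul_comm]
    exact mul_le_mul_of_nonneg_right hprod hY0
  have h5 := abs_sub_le a b (Y * P1)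
  have h6 := abs_sub_le b (Y * P2) (Y * P1)
  have h7 : 5 * κ * s * Y ≤ 5 / 8 * ε * Y := by
    apply mul_le_mul_of_nonneg_right _ hY0
    have h8 : (0 : ℝ) ≤ κ := hκ0.le
    nlinarith
  have h9 : 0 ≤ ε * Y := by positivity
  linarith

end Pool.Agent.Y175.JP
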