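import Pool.Agent.Y175.JP.GenJ

set_option autoImplicit false

/-!
# The joint law for finitely many windows

Small windows are dropped. Author: helper175.
-/

namespace Pool.Agent.Y175.JP

open Finset Filter Pool.Agent.H373R2.T7 Pool.Agent.W123.RP Pool.Agent.W123.RU Pool.Agent.TH464.PO

lemma PoA_le_self (x : ℝ) (hx : 0 ≤ x) (A : Finset ℕ) (h0 : 0 ∉ A) : PoA x A ≤ x := by
  have h1 : PoA x A + Real.exp (-x) ≤ 1 := by
    have h2 := PoA_le_one x hx (insert 0 A)
    unfold PoA at h2 ⊢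
    rw [Finset.sum_insert h0] at h2
    simp only [pow_zero, mul_one, Nat.factorial_zero, Nat.cast_one, div_one] at h2
    linarith
  have h2 := Real.add_one_le_exp (-x)
  linarith

lemma one_sub_le_PoA (x : ℝ) (hx : 0 ≤ x) (A : Finset ℕ) (h0 : 0 ∈ A) : 1 - x ≤ PoA x A := by
  have h1 : PoA x {0} ≤ PoA x A := Finset.sum_le_sum_of_subset_of_nonneg
    (singleton_subset_iff.2 h0) fun j _ _ => by positivity
  have e3 : PoA x {0} = Real.exp (-x) := by
    unfold PoA
    rw [Finset.sum_singleton]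
    simp
  have h2 := Real.add_one_le_exp (-x)
  linarith

variable {ι : Type} [Fintype ι]

open Classical in
/-- **The joint Poisson law** for finitely many windows. -/
theorem gen_windows (c : ℕ) (hc : 1 ≤ c) (W B : ℕ) (x0 ε : ℝ) (hε : 0 < ε) :
    ∃ (K0 y0 T0 R0 k0 : ℕ) (η' δ κ : ℝ), 0 < η' ∧ 0 < δ ∧ 0 < κ ∧ κ ≤ 1 / 2 ∧
      ∀ (Q : ι → ℕ → ℕ → Prop) (Z Y y : ℕ), (∀ i, PerB (Q i) c) →
      (∀ i, ∀ p : ℕ, p.Prime → nuB (Q i) p < p) → y0 ≤ y → y ^ K0 ≤ Y → (∀ i, Vq (Q i) y ≤ κ) →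
      (∀ i, ∀ T' : ℕ, κ ≤ T' * Vq (Q i) y → T' * Vq (Q i) y ≤ max x0 1 → T0 ≤ T' ∧ T' ^ R0 ≤ Y ∧
        ∃ (β : Type) (S : Pt Unit → Finset β), Atm (fun _ => Q i) (fun _ => T') y S W B k0 η' δ) →
      ∀ T : ι → ℕ, (∀ i, T i * Vq (Q i) y ≤ x0) → ∀ J : Finset ι,
      (∀ i, i ∈ J ↔ κ ≤ T i * Vq (Q i) y) →
      (∃ (β : Type) (S : Pt J → Finset β),
        Atm (fun i : J => Q i) (fun i : J => T i) y S W B k0 η' δ) → ∀ A : ι → Finset ℕ,
        |(((Ioc Z (Z + Y)).filter (fun n => ∀ i, Wc (Sf (Q i) y) n (T i) ∈ A i)).card : ℝ) -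
          Y * ∏ i, PoA (T i * Vq (Q i) y) (A i)| ≤ ε * Y := by
  obtain ⟨s, hs⟩ : ∃ s, s = Fintype.card ι := ⟨_, rfl⟩
  obtain ⟨κ, hκ⟩ : ∃ κ, κ = min (ε / (8 * (s + 1))) (1 / 2) := ⟨_, rfl⟩
  have hκ0 : 0 < κ := by rw [hκ]; positivity
  have hκ1 : κ * (8 * (s + 1)) ≤ ε := by
    have : κ ≤ ε / (8 * (s + 1)) := by rw [hκ]; exact min_le_left _ _
    rwa [le_div_iff₀ (by positivity)] at this
  have hκ2 : κ ≤ 1 / 2 := by rw [hκ]; exact min_le_right _ _
  have hm0 : 0 ≤ max x0 1 := by positivity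
  choose K0 y0 T0 R0 k0 η' δ hη' hδ hlaw using fun J : Finset ι =>
    law_joint (ι := J) c hc W B (max x0 1) (ε / 4) hm0 (by positivity)
  obtain ⟨K1, y1, T1, η1, δ1, hη1, hδ1, hfirst⟩ :=
    first_joint (ι := Unit) c hc W B (max x0 1) κ hm0 hκ0
  obtain ⟨Jm, _, hJm⟩ := Finset.exists_min_image (univ : Finset (Finset ι)) η' univ_nonempty
  obtain ⟨Jd, _, hJd⟩ := Finset.exists_min_image (univ : Finset (Finset ι)) δ univ_nonempty
  have hKs : ∀ J, K0 J ≤ ∑ J, K0 J := fun J => Finset.single_le_sum (fun _ _ => Nat.zero_le _) (mem_univ J)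
  have hys : ∀ J, y0 J ≤ ∑ J, y0 J := fun J => Finset.single_le_sum (fun _ _ => Nat.zero_le _) (mem_univ J)
  have hTs : ∀ J, T0 J ≤ ∑ J, T0 J := fun J => Finset.single_le_sum (fun _ _ => Nat.zero_le _) (mem_univ J)
  have hRs : ∀ J, R0 J ≤ ∑ J, R0 J := fun J => Finset.single_le_sum (fun _ _ => Nat.zero_le _) (mem_univ J)
  have hks : ∀ J, k0 J ≤ ∑ J, k0 J := fun J => Finset.single_le_sum (fun _ _ => Nat.zero_le _) (mem_univ J)
  refine ⟨(∑ J, K0 J) + K1, (∑ J, y0 J) + y1 + 1, (∑ J, T0 J) + T1 + 1, (∑ J, R0 J) + 4,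
    (∑ J, k0 J) + 1, min (η' Jm) η1, min (δ Jd) δ1, κ, lt_min (hη' _) hη1, lt_min (hδ _) hδ1,
    hκ0, hκ2, ?_⟩
  intro Q Z Y y hQ hadm hy hyY hVκ hone T hTx J hmemJ hAtm A
  have hV0 : ∀ i, 0 < Vq (Q i) y := fun i => Vq_pos (Q i) (hadm i) y
  have hY0 : (0 : ℝ) ≤ Y := Nat.cast_nonneg Y
  have hy1 : 1 ≤ y := by omega
  have hbij : ∀ P : ℕ → Prop, ((Ioc Z (Z + Y)).filter P).card =
      ((Icc 1 Y).filter (fun n => P (n + Z))).card := by
    intro P
    symm
    apply Finset.card_bij (fun n _ => n + Z)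
    · intro n hn
      rw [mem_filter, mem_Icc] at hn
      rw [mem_filter, mem_Ioc]
      exact ⟨by omega, hn.2⟩
    · intro a _ b _ hab
      omega
    · intro n hn
      rw [mem_filter, mem_Ioc] at hn
      refine ⟨n - Z, ?_, by omega⟩
      rw [mem_filter, mem_Icc, show n - Z + Z = n by omega]
      exact ⟨by omega, hn.2⟩
  have hadm' : ∀ i, ∀ p : ℕ, p.Prime → nuB (Qt (Q i) Z) p < p := fun i p hp => by
    rw [nuB_Qt (Q i) c (hQ i)]
    exact hadm i p hp
  have e1 : ∀ i, Vq (Qt (Q i) Z) y = Vq (Q i) y := fun i => Vq_Qt (Q i) c (hQ i) Z y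
  -- the law for the large windows
  obtain ⟨β, S, hAt⟩ := hAtm
  have hTJ : ∀ i : J, (∑ J, T0 J) + T1 + 1 ≤ T i ∧ T i ^ ((∑ J, R0 J) + 4) ≤ Y := by
    intro i
    have h1 := hone i (T i) ((hmemJ i).1 i.2) ((hTx i).trans (le_max_left _ _))
    exact ⟨h1.1, h1.2.1⟩
  have h1 := hlaw J Y y (fun i : J => T i) (by have := hys J; omega)
    ((Nat.pow_le_pow_right hy1 (by have := hKs J; omega)).trans hyY)
    (fun i => by have := (hTJ i).1; have := hTs J; omega)
    (fun i => (Nat.pow_le_pow_right (by have := (hTJ i).1; omega) (by have := hRs J; omega)).trans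
      (hTJ i).2)
    (fun i : J => Qt (Q i) Z) (fun i => perB_Qt (Q i) c (hQ i) Z) (fun i => hadm' i)
    (fun i => by rw [e1]; exact (hTx i).trans (le_max_left _ _)) β S
    ((Atm.shift (Q := fun i : J => Q i) (T := fun i : J => T i) c (fun i => hQ i) Z hAt).mono
      (by have := hks J; omega)
      ((min_le_left _ _).trans (hJm J (mem_univ _))) ((min_le_left _ _).trans (hJd J (mem_univ _))))
    (fun i => A i)
  simp only [e1, Nw_Qt] at h1
  -- the small windows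
  obtain ⟨Om, hOm⟩ : ∃ Om, Om = Icc 1 Y := ⟨_, rfl⟩
  have hsmall : ∀ i, T i * Vq (Q i) y < κ →
      ((Om.filter (fun n => 1 ≤ Wc (Sf (Q i) y) (n + Z) (T i))).card : ℝ) ≤ 3 * κ * Y := by
    intro i hi
    obtain ⟨T', hT1, hT2, hT3⟩ := exists_window (Vq (Q i) y) κ (hV0 i) (hVκ i)
    have hT2' : T' * Vq (Q i) y ≤ max x0 1 :=
      hT2.trans ((by linarith : 2 * κ ≤ 1).trans (le_max_right _ _))
    obtain ⟨hT0, hTR, β', S', hAt'⟩ := hone i T' hT1 hT2'
    have h2 := hfirst Y y (fun _ => T') (by omega) ((Nat.pow_le_pow_right hy1 (by omega)).trans hyY)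
      (fun _ => by omega)
      (fun _ => (Nat.pow_le_pow_right (by omega) (by omega)).trans hTR)
      (fun _ => Qt (Q i) Z) (fun _ => perB_Qt (Q i) c (hQ i) Z) (fun _ => hadm' i)
      (fun _ => by rw [e1]; exact hT2') β' S'
      ((Atm.shift (Q := fun _ : Unit => Q i) (T := fun _ : Unit => T') c (fun _ => hQ i) Z hAt').mono
        (by omega) (min_le_right _ _) (min_le_right _ _)) ()
    simp only [e1, Nw_Qt] at h2
    rw [← hOm] at h2
    have h5 : ((Om.filter (fun n => 1 ≤ Wc (Sf (Q i) y) (n + Z) (T i))).card : ℝ) ≤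
        ∑ n ∈ Om, (Wc (Sf (Q i) y) (n + Z) T' : ℝ) := by
      rw [Finset.card_filter]
      push_cast
      apply Finset.sum_le_sum
      intro n _
      have hmono := Wc_mono (Sf (Q i) y) (n + Z) (T i) T' (hT3 (T i) hi)
      split_ifs with h
      · exact_mod_cast h.trans hmono
      · positivity
    refine h5.trans (h2.trans ?_)
    apply mul_le_mul_of_nonneg_right _ hY0
    linarith
  rw [← hOm] at h1
  have hcount : ((Ioc Z (Z + Y)).filter (fun n => ∀ i, Wc (Sf (Q i) y) n (T i) ∈ A i)).card =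
      (Om.filter (fun n => ∀ i, Wc (Sf (Q i) y) (n + Z) (T i) ∈ A i)).card := by
    rw [hOm]
    convert hbij (fun n => ∀ i, Wc (Sf (Q i) y) n (T i) ∈ A i)
  rw [hcount]
  have hx0i : ∀ i, 0 ≤ T i * Vq (Q i) y := fun i => mul_nonneg (Nat.cast_nonneg _) (hV0 i).le
  have hP0 : ∀ i, 0 ≤ PoA (T i * Vq (Q i) y) (A i) := fun i => PoA_nonneg _ (hx0i i) _
  have hP1 : ∀ i, PoA (T i * Vq (Q i) y) (A i) ≤ 1 := fun i => PoA_le_one _ (hx0i i) _
  have hs0 : (0 : ℝ) ≤ s := Nat.cast_nonneg s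
  by_cases hbad : ∃ i, T i * Vq (Q i) y < κ ∧ 0 ∉ A i
  · obtain ⟨i, hi1, hi2⟩ := hbad
    have h3 : ((Om.filter (fun n => ∀ i, Wc (Sf (Q i) y) (n + Z) (T i) ∈ A i)).card : ℝ) ≤ 3 * κ * Y := by
      refine le_trans ?_ (hsmall i hi1)
      have : (Om.filter (fun n => ∀ i, Wc (Sf (Q i) y) (n + Z) (T i) ∈ A i)).card ≤
          (Om.filter (fun n => 1 ≤ Wc (Sf (Q i) y) (n + Z) (T i))).card := by
        apply card_le_card
        intro n hn
        rw [mem_filter] at hn ⊢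
        refine ⟨hn.1, Nat.one_le_iff_ne_zero.2 fun h0 => ?_⟩
        have := hn.2 i
        rw [h0] at this
        exact hi2 this
      exact_mod_cast this
    have h4 : ∏ i, PoA (T i * Vq (Q i) y) (A i) ≤ κ := by
      rw [← Finset.mul_prod_erase univ _ (mem_univ i)]
      have h5 : ∏ j ∈ univ.erase i, PoA (T j * Vq (Q j) y) (A j) ≤ 1 :=
        Finset.prod_le_one (fun j _ => hP0 j) (fun j _ => hP1 j)
      have h6 := PoA_le_self _ (hx0i i) (A i) hi2
      calc PoA (T i * Vq (Q i) y) (A i) * ∏ j ∈ univ.erase i, PoA (T j * Vq (Q j) y) (A j) ≤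
          PoA (T i * Vq (Q i) y) (A i) * 1 := mul_le_mul_of_nonneg_left h5 (hP0 i)
        _ ≤ κ := by linarith
    have h5 : 0 ≤ ∏ i, PoA (T i * Vq (Q i) y) (A i) := Finset.prod_nonneg fun i _ => hP0 i
    have h6 : (0 : ℝ) ≤ ((Om.filter (fun n => ∀ i, Wc (Sf (Q i) y) (n + Z) (T i) ∈ A i)).card : ℝ) :=
      Nat.cast_nonneg _
    have h7 : Y * ∏ i, PoA (T i * Vq (Q i) y) (A i) ≤ Y * κ := mul_le_mul_of_nonneg_left h4 hY0
    have h8 : 0 ≤ Y * ∏ i, PoA (T i * Vq (Q i) y) (A i) := mul_nonneg hY0 h5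
    have h9 : 3 * κ * Y ≤ ε * Y := by
      apply mul_le_mul_of_nonneg_right _ hY0
      nlinarith
    have h10 : Y * κ ≤ ε * Y := by
      rw [mul_comm]
      apply mul_le_mul_of_nonneg_right _ hY0
      nlinarith
    rw [abs_le]
    constructor <;> linarith
  · push Not at hbad
    obtain ⟨Bad, hBad⟩ : ∃ Bad, Bad = Om.filter (fun n => ∃ i, T i * Vq (Q i) y < κ ∧
      1 ≤ Wc (Sf (Q i) y) (n + Z) (T i)) := ⟨_, rfl⟩
    have hBadcard : (Bad.card : ℝ) ≤ 3 * κ * s * Y := by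
      have h3 : Bad.card ≤ ∑ i ∈ univ.filter (fun i => T i * Vq (Q i) y < κ),
          (Om.filter (fun n => 1 ≤ Wc (Sf (Q i) y) (n + Z) (T i))).card := by
        refine le_trans (card_le_card ?_) Finset.card_biUnion_le
        intro n hn
        rw [hBad, mem_filter] at hn
        obtain ⟨hn1, i, hi1, hi2⟩ := hn
        rw [mem_biUnion]
        exact ⟨i, mem_filter.2 ⟨mem_univ _, hi1⟩, mem_filter.2 ⟨hn1, hi2⟩⟩
      calc (Bad.card : ℝ) ≤ ∑ i ∈ univ.filter (fun i => T i * Vq (Q i) y < κ),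
            ((Om.filter (fun n => 1 ≤ Wc (Sf (Q i) y) (n + Z) (T i))).card : ℝ) := by
              exact_mod_cast h3
        _ ≤ ∑ i ∈ univ.filter (fun i => T i * Vq (Q i) y < κ), 3 * κ * Y :=
            Finset.sum_le_sum fun i hi => hsmall i (mem_filter.1 hi).2
        _ ≤ ∑ _i : ι, 3 * κ * Y := by
            apply Finset.sum_le_sum_of_subset_of_nonneg (Finset.filter_subset _ _)
            intros
            positivity
        _ = 3 * κ * s * Y := by
            rw [Finset.sum_const, Finset.card_univ, ← hs, nsmul_eq_mul]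
            ring
    have hiff : ∀ n ∈ Om, n ∉ Bad → ((∀ i, Wc (Sf (Q i) y) (n + Z) (T i) ∈ A i) ↔
        ∀ i : J, Wc (Sf (Q i) y) (n + Z) (T i) ∈ A i) := by
      intro n hn hnB
      constructor
      · intro h i
        exact h i
      · intro h i
        by_cases hi : κ ≤ T i * Vq (Q i) y
        · exact h ⟨i, (hmemJ i).2 hi⟩
        · rw [not_le] at hi
          have h3 : Wc (Sf (Q i) y) (n + Z) (T i) = 0 := by
            by_contra hne
            apply hnB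
            rw [hBad, mem_filter]
            exact ⟨hn, i, hi, Nat.one_le_iff_ne_zero.2 hne⟩
          rw [h3]
          exact hbad i hi
    have hdiff : |((Om.filter (fun n => ∀ i, Wc (Sf (Q i) y) (n + Z) (T i) ∈ A i)).card : ℝ) -
        ((Om.filter (fun n => ∀ i : J, Wc (Sf (Q i) y) (n + Z) (T i) ∈ A i)).card : ℝ)| ≤ Bad.card := by
      have key : ∀ (P P' : ℕ → Prop) [DecidablePred P] [DecidablePred P'],
          (∀ n ∈ Om, n ∉ Bad → (P n → P' n)) →
          ((Om.filter P).card : ℝ) ≤ (Om.filter P').card + Bad.card := by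
        intro P P' _ _ hPP
        have : (Om.filter P).card ≤ (Om.filter P' ∪ Bad).card := by
          apply card_le_card
          intro n hn
          rw [mem_filter] at hn
          rw [mem_union]
          by_cases hb : n ∈ Bad
          · exact Or.inr hb
          · exact Or.inl (mem_filter.2 ⟨hn.1, hPP n hn.1 hb hn.2⟩)
        exact_mod_cast this.trans (card_union_le _ _)
      rw [abs_le]
      have k1 := key _ _ (fun n hn hb => (hiff n hn hb).1)
      have k2 := key _ _ (fun n hn hb => (hiff n hn hb).2)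
      constructor <;> linarith
    have hprodJ : ∏ i : J, PoA (T i * Vq (Q i) y) (A i) = ∏ i ∈ J, PoA (T i * Vq (Q i) y) (A i) :=
      Finset.prod_coe_sort J (fun i => PoA (T i * Vq (Q i) y) (A i))
    rw [hprodJ] at h1
    have hprod : |∏ i, PoA (T i * Vq (Q i) y) (A i) - ∏ i ∈ J, PoA (T i * Vq (Q i) y) (A i)| ≤
        κ * s := by
      have e2 : ∏ i ∈ J, PoA (T i * Vq (Q i) y) (A i) =
          ∏ i, if i ∈ J then PoA (T i * Vq (Q i) y) (A i) else 1 := by
        rw [Finset.prod_ite_mem, Finset.univ_inter]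
      rw [e2]
      refine (abs_prod_sub_le univ _ _ (fun i _ => hP0 i) (fun i _ => hP1 i)
        (fun i _ => by split_ifs; exacts [hP0 i, zero_le_one])
        (fun i _ => by split_ifs; exacts [hP1 i, le_rfl])).trans ?_
      have h3 : ∀ i ∈ (univ : Finset ι), |PoA (T i * Vq (Q i) y) (A i) -
          (if i ∈ J then PoA (T i * Vq (Q i) y) (A i) else 1)| ≤ κ := by
        intro i _
        split_ifs with h
        · rw [sub_self, abs_zero]
          exact hκ0.le
        · rw [hmemJ, not_le] at h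
          have h4 := one_sub_le_PoA _ (hx0i i) (A i) (hbad i h)
          have h5 := hP1 i
          rw [abs_le]
          constructor <;> linarith
      refine (Finset.sum_le_sum h3).trans (le_of_eq ?_)
      rw [Finset.sum_const, Finset.card_univ, ← hs, nsmul_eq_mul]
      ring
    obtain ⟨a, ha⟩ : ∃ a : ℝ, a =
      ((Om.filter (fun n => ∀ i, Wc (Sf (Q i) y) (n + Z) (T i) ∈ A i)).card : ℝ) := ⟨_, rfl⟩
    obtain ⟨b, hb⟩ : ∃ b : ℝ, b =
      ((Om.filter (fun n => ∀ i : J, Wc (Sf (Q i) y) (n + Z) (T i) ∈ A i)).card : ℝ) := ⟨_, rfl⟩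
    obtain ⟨P1, hP1'⟩ : ∃ P1 : ℝ, P1 = ∏ i, PoA (T i * Vq (Q i) y) (A i) := ⟨_, rfl⟩
    obtain ⟨P2, hP2'⟩ : ∃ P2 : ℝ, P2 = ∏ i ∈ J, PoA (T i * Vq (Q i) y) (A i) := ⟨_, rfl⟩
    rw [← ha, ← hb] at hdiff
    rw [← hP1', ← hP2'] at hprod
    rw [← hb, ← hP2'] at h1
    rw [← ha, ← hP1']
    have h4 : |Y * P2 - Y * P1| ≤ κ * s * Y := by
      rw [← mul_sub, abs_mul, abs_of_nonneg hY0, abs_sub_comm, mul_comm]
      exact mul_le_mul_of_nonneg_right hprod hY0
    have h5 := abs_sub_le a b (Y * P1)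
    have h6 := abs_sub_le b (Y * P2) (Y * P1)
    have h7 : 4 * κ * s * Y ≤ 5 / 8 * ε * Y := by
      apply mul_le_mul_of_nonneg_right _ hY0
      have h8 : (0 : ℝ) ≤ κ := hκ0.le
      nlinarith
    have h9 : 0 ≤ ε * Y := by positivity
    linarith

end Pool.Agent.Y175.JP
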