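import Pool.Agent.Y175.JP.SingC
import Pool.Agent.Y175.JP.CombJ
import Pool.Agent.TH464.PO.Law

set_option autoImplicit false

/-!
# The joint Poisson law for sifted sets of several types, uniform version

Author: helper175.
-/

namespace Pool.Agent.Y175.JP

open Finset Filter Pool.Agent.H373R2.T7 Pool.Agent.W123.RP Pool.Agent.W123.RU Pool.Agent.TH464.PO

variable {ι : Type} [Fintype ι]

lemma perB_mono (Q : ℕ → ℕ → Prop) (c c' : ℕ) (h : c ≤ c') (hQ : PerB Q c) : PerB Q c' :=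
  ⟨hQ.per, fun p hp => (hQ.few p hp).trans h⟩

lemma Atm.mono {β : Type} {Q : ι → ℕ → ℕ → Prop} {T : ι → ℕ} {y : ℕ} {S : Pt ι → Finset β}
    {W B k k' : ℕ} {η η' δ δ' : ℝ} (h : Atm Q T y S W B k η δ) (hk : k' ≤ k) (hη : η ≤ η')
    (hδ : δ ≤ δ') : Atm Q T y S W B k' η' δ' := by
  refine ⟨h.ne, h.card, h.inj, h.deg, ?_, ?_⟩
  · intro x hx z hz hxz hd
    exact (h.large x hx z hz hxz hd).trans (mul_le_mul_of_nonneg_right hη (Nat.cast_nonneg _))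
  · intro H hH hHk x hx ha H₂ h1 h2
    exact (h.ext H hH (hHk.trans hk) x hx ha H₂ h1 h2).trans
      (mul_le_mul_of_nonneg_right hδ (Vq_nonneg _ y))

open Classical in
/-- joint binomial moments as sums over configurations -/
lemma moment_eqJ (Q : ι → ℕ → ℕ → Prop) (y : ℕ) (K T : ι → ℕ) (Y : ℕ) :
    ∑ n ∈ Icc 1 Y, ∏ i, ((Nw (Q i) y (T i) n).choose (K i) : ℝ) =
      ∑ η ∈ Cf K T, (((Icc 1 Y).filter (fun n => Sf (QU Q (sig η)) y n)).card : ℝ) := by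
  have h1 : ∀ η ∈ Cf K T, (((Icc 1 Y).filter (fun n => Sf (QU Q (sig η)) y n)).card : ℝ) =
      ∑ n ∈ Icc 1 Y, if (∀ x ∈ sig η, Sf (Q x.1) y (n + x.2)) then (1 : ℝ) else 0 := by
    intro H _
    rw [Finset.sum_ite, Finset.sum_const_zero, add_zero, Finset.sum_const, nsmul_eq_mul, mul_one]
    congr 2
    apply Finset.filter_congr
    intro m _
    exact sf_QU Q (sig H) y m
  rw [Finset.sum_congr rfl h1, Finset.sum_comm]
  apply Finset.sum_congr rfl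
  intro n _
  rw [← cfg_moment K T (fun i h => Sf (Q i) y (n + h))]
  rfl

open Classical in
/-- **Joint binomial moments.** -/
theorem moment_joint (c : ℕ) (hc : 1 ≤ c) (K : ι → ℕ) (W B : ℕ) (x0 η : ℝ) (hx0 : 0 ≤ x0)
    (hη : 0 < η) :
    ∃ (K0 y0 T0 : ℕ) (η' δ : ℝ), 0 < η' ∧ 0 < δ ∧ ∀ (Y y : ℕ) (T : ι → ℕ), y0 ≤ y → y ^ K0 ≤ Y →
      (∀ i, T0 ≤ T i) → ∀ Q : ι → ℕ → ℕ → Prop, (∀ i, PerB (Q i) c) →
      (∀ i, ∀ p : ℕ, p.Prime → nuB (Q i) p < p) → (∀ i, T i * Vq (Q i) y ≤ x0) →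
      ∀ (β : Type) (S : Pt ι → Finset β), Atm Q T y S W B (∑ i, K i) η' δ →
      |∑ n ∈ Icc 1 Y, ∏ i, ((Nw (Q i) y (T i) n).choose (K i) : ℝ) -
        Y * ∏ i, ((T i * Vq (Q i) y) ^ K i / ((K i).factorial : ℝ))| ≤
        η * Y + (∏ i, (T i : ℝ) ^ K i) * √(Y : ℝ) := by
  obtain ⟨k, hk⟩ : ∃ k, k = ∑ i, K i := ⟨_, rfl⟩
  obtain ⟨X1, hX1⟩ : ∃ X1 : ℝ, X1 = (1 + x0) ^ k := ⟨_, rfl⟩
  have hX1pos : 1 ≤ X1 := by rw [hX1]; exact one_le_pow₀ (by linarith)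
  obtain ⟨η₁, hη₁⟩ : ∃ η₁ : ℝ, η₁ = min 1 (η / 2) := ⟨_, rfl⟩
  have hη₁0 : 0 < η₁ := by rw [hη₁]; positivity
  have hη₁1 : η₁ ≤ 1 := by rw [hη₁]; exact min_le_left _ _
  have hη₁2 : η₁ ≤ η / 2 := by rw [hη₁]; exact min_le_right _ _
  obtain ⟨η₂, hη₂⟩ : ∃ η₂ : ℝ, η₂ = η / (2 * (X1 + 1)) := ⟨_, rfl⟩
  have hη₂0 : 0 < η₂ := by rw [hη₂]; positivity
  obtain ⟨K0, x0', hK0, hfund⟩ := sys_fund ((k + 1) * c) (Nat.mul_pos (by omega) hc) η₂ hη₂0
  obtain ⟨w, η', δ, T0, hη', hδ, hT0, hsing⟩ := sing_joint c K W B x0 η₁ hx0 hη₁0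
  refine ⟨K0, max x0' w, T0, η', δ, hη', hδ, ?_⟩
  intro Y y T hy hyY hT Q hQ hadm hTx β S hAtm
  have h0 := hsing T hT Q hQ hadm y ((le_max_right _ _).trans hy) hTx β S hAtm
  rw [moment_eqJ]
  obtain ⟨Sg, hS⟩ : ∃ S', S' = ∑ η ∈ Cf K T, Vq (QU Q (sig η)) y := ⟨_, rfl⟩
  obtain ⟨X, hX⟩ : ∃ X, X = ∏ i, ((T i * Vq (Q i) y) ^ K i / ((K i).factorial : ℝ)) := ⟨_, rfl⟩
  rw [← hS, ← hX] at h0
  rw [← hX]
  have hXX1 : X ≤ X1 := by
    rw [hX, hX1]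
    exact prod_X_le K T (fun i => Vq (Q i) y) x0 hx0 (fun i => Vq_nonneg (Q i) y) hTx k hk.ge
  have hY0 : (0 : ℝ) ≤ Y := Nat.cast_nonneg Y
  have hSup : Sg ≤ X1 + 1 := by
    have := (abs_le.1 h0).2
    linarith
  have h1 : |∑ η ∈ Cf K T, (((Icc 1 Y).filter (fun n => Sf (QU Q (sig η)) y n)).card : ℝ) -
      Y * Sg| ≤ η / 2 * Y + (∏ i, (T i : ℝ) ^ K i) * √(Y : ℝ) := by
    have e : Y * Sg = ∑ η ∈ Cf K T, (Y : ℝ) * Vq (QU Q (sig η)) y := by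
      rw [hS, Finset.mul_sum]
    rw [e, ← Finset.sum_sub_distrib]
    refine (Finset.abs_sum_le_sum_abs _ _).trans ?_
    have h2 : ∀ η ∈ Cf K T,
        |(((Icc 1 Y).filter (fun n => Sf (QU Q (sig η)) y n)).card : ℝ) -
          Y * Vq (QU Q (sig η)) y| ≤ η₂ * (Y * Vq (QU Q (sig η)) y) + √(Y : ℝ) := by
      intro H hH
      have hper := perB_QU Q c hQ (sig H)
      rw [sig_card K T H hH, ← hk] at hper
      have hper' := perB_mono _ _ ((k + 1) * c) (Nat.mul_le_mul_right c (by omega)) hper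
      have h3 := hfund Y y ((le_max_left _ _).trans hy) hyY (QU Q (sig H)) hper' Y
      have e1 : ∏ p ∈ pz y, (1 - (nuB (QU Q (sig H)) p : ℝ) / p) = Vq (QU Q (sig H)) y := rfl
      rw [e1] at h3
      unfold Sf
      convert h3
    refine (Finset.sum_le_sum h2).trans ?_
    rw [Finset.sum_add_distrib, ← Finset.mul_sum, ← Finset.mul_sum, ← hS, Finset.sum_const,
      nsmul_eq_mul]
    have h3 : ((Cf K T).card : ℝ) ≤ ∏ i, (T i : ℝ) ^ K i := by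
      have : (Cf K T).card ≤ ∏ i, T i ^ K i := by
        unfold Cf
        rw [Fintype.card_piFinset]
        apply Finset.prod_le_prod' 
        intro i _
        rw [card_powersetCard, Nat.card_Icc, Nat.add_sub_cancel]
        exact Nat.choose_le_pow (T i) (K i)
      exact_mod_cast this
    have h4 := mul_le_mul_of_nonneg_right h3 (Real.sqrt_nonneg (Y : ℝ))
    have h5 : η₂ * (Y * Sg) ≤ η / 2 * Y := by
      calc η₂ * (Y * Sg) ≤ η₂ * (Y * (X1 + 1)) := by gcongr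
        _ = η / 2 * Y := by
          rw [hη₂]
          field_simp
    linarith
  have h5 : |Y * Sg - Y * X| ≤ η / 2 * Y := by
    rw [← mul_sub, abs_mul, abs_of_nonneg hY0, mul_comm (η / 2)]
    exact mul_le_mul_of_nonneg_left (h0.trans hη₁2) hY0
  have h9 := abs_sub_le (∑ η ∈ Cf K T,
    (((Icc 1 Y).filter (fun n => Sf (QU Q (sig η)) y n)).card : ℝ)) (Y * Sg) (Y * X)
  linarith

open Classical in
/-- **The joint Poisson law for sifted sets**, uniform in the systems. -/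
theorem law_joint (c : ℕ) (hc : 1 ≤ c) (W B : ℕ) (x0 ε : ℝ) (hx0 : 0 ≤ x0) (hε : 0 < ε) :
    ∃ (K0 y0 T0 R0 k0 : ℕ) (η' δ : ℝ), 0 < η' ∧ 0 < δ ∧ ∀ (Y y : ℕ) (T : ι → ℕ), y0 ≤ y →
      y ^ K0 ≤ Y → (∀ i, T0 ≤ T i) → (∀ i, T i ^ R0 ≤ Y) →
      ∀ Q : ι → ℕ → ℕ → Prop, (∀ i, PerB (Q i) c) →
      (∀ i, ∀ p : ℕ, p.Prime → nuB (Q i) p < p) → (∀ i, T i * Vq (Q i) y ≤ x0) →
      ∀ (β : Type) (S : Pt ι → Finset β), Atm Q T y S W B k0 η' δ → ∀ A : ι → Finset ℕ,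
      |(((Icc 1 Y).filter (fun n => ∀ i, Nw (Q i) y (T i) n ∈ A i)).card : ℝ) -
        Y * ∏ i, PoA (T i * Vq (Q i) y) (A i)| ≤ ε * Y := by
  obtain ⟨R, η, hη, hjoint⟩ := joint_of_moments (ι := ι) x0 ε hx0 hε
  obtain ⟨s, hs⟩ : ∃ s, s = Fintype.card ι := ⟨_, rfl⟩
  choose K0 y0 T0 η' δ hη' hδ hmom using fun K : ι → ℕ =>
    moment_joint c hc K W B x0 (η / 2) hx0 (by positivity)
  obtain ⟨KK, hKK⟩ : ∃ KK : Finset (ι → ℕ), KK = Fintype.piFinset (fun _ => range (R + 1)) :=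
    ⟨_, rfl⟩
  have hmemKK : ∀ K : ι → ℕ, (∀ i, K i ≤ R) → K ∈ KK := by
    intro K hK
    rw [hKK, Fintype.mem_piFinset]
    intro i
    rw [mem_range]
    have := hK i
    omega
  have hne : KK.Nonempty := ⟨fun _ => 0, hmemKK _ (fun _ => Nat.zero_le _)⟩
  obtain ⟨Km, hKm, hKmin⟩ := Finset.exists_min_image KK η' hne
  obtain ⟨Kd, hKd, hKdmin⟩ := Finset.exists_min_image KK δ hne
  obtain ⟨y1, hy1⟩ : ∃ y1 : ℕ, (2 / η) ^ 4 ≤ y1 := exists_nat_ge _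
  refine ⟨(∑ K ∈ KK, K0 K) + 1, (∑ K ∈ KK, y0 K) + y1 + 1, (∑ K ∈ KK, T0 K) + 1,
    4 * (s + 1) * (R + 1), R * s, η' Km, δ Kd, hη' Km, hδ Kd, ?_⟩
  intro Y y T hy hyY hT hTR Q hQ hadm hTx β S hAtm A
  have hy1' : 1 ≤ y := by omega
  have hT1 : ∀ i, 1 ≤ T i := fun i => by have := hT i; omega
  have hyY' : y ≤ Y := by
    calc y = y ^ 1 := (pow_one y).symm
      _ ≤ y ^ ((∑ K ∈ KK, K0 K) + 1) := Nat.pow_le_pow_right hy1' (by omega)
      _ ≤ Y := hyY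
  have hY1 : (2 / η) ^ 4 ≤ (Y : ℝ) := hy1.trans (by exact_mod_cast (by omega : y1 ≤ Y))
  have hYpos : (0 : ℝ) < Y := lt_of_lt_of_le (by positivity) hY1
  have hYn : 1 ≤ Y := by exact_mod_cast hYpos
  have hs4 : 2 / η ≤ √(√(Y : ℝ)) := by
    apply Real.le_sqrt_of_sq_le
    apply Real.le_sqrt_of_sq_le
    calc ((2 / η) ^ 2) ^ 2 = (2 / η) ^ 4 := by ring
      _ ≤ (Y : ℝ) := hY1
  have hcard : ((Icc 1 Y).card : ℝ) = Y := by
    rw [Nat.card_Icc, Nat.add_sub_cancel]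
  have hmain := hjoint (Icc 1 Y) (fun i n => Nw (Q i) y (T i) n) (fun i => T i * Vq (Q i) y)
    (fun i => mul_nonneg (Nat.cast_nonneg _) (Vq_nonneg (Q i) y)) hTx (by
      intro K hK
      rw [hcard]
      have hKK' := hmemKK K hK
      have hKk : K0 K ≤ ∑ K ∈ KK, K0 K := Finset.single_le_sum (fun _ _ => Nat.zero_le _) hKK'
      have hyk : y0 K ≤ ∑ K ∈ KK, y0 K := Finset.single_le_sum (fun _ _ => Nat.zero_le _) hKK'
      have hTk : T0 K ≤ ∑ K ∈ KK, T0 K := Finset.single_le_sum (fun _ _ => Nat.zero_le _) hKK'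
      have hsumK : ∑ i, K i ≤ R * s := by
        calc ∑ i, K i ≤ ∑ _i : ι, R := Finset.sum_le_sum fun i _ => hK i
          _ = R * s := by
            rw [Finset.sum_const, Finset.card_univ, ← hs, smul_eq_mul, mul_comm]
      have h1 := hmom K Y y T (by omega)
        ((Nat.pow_le_pow_right hy1' (by omega)).trans hyY) (fun i => by have := hT i; omega)
        Q hQ hadm hTx β S (hAtm.mono hsumK (hKmin K hKK') (hKdmin K hKK'))
      refine h1.trans ?_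
      obtain ⟨P, hP⟩ : ∃ P : ℕ, P = ∏ i, T i ^ K i := ⟨_, rfl⟩
      have hPr : (∏ i, (T i : ℝ) ^ K i) = (P : ℝ) := by
        rw [hP]
        push_cast
        rfl
      have hP4 : P ^ 4 ≤ Y := by
        have h2 : (P ^ 4) ^ (s + 1) ≤ Y ^ (s + 1) := by
          have h3 : ∀ i, T i ^ (K i * (4 * (s + 1))) ≤ Y := by
            intro i
            refine le_trans (Nat.pow_le_pow_right (hT1 i) ?_) (hTR i)
            calc K i * (4 * (s + 1)) ≤ (R + 1) * (4 * (s + 1)) :=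
                  Nat.mul_le_mul_right _ (by have := hK i; omega)
              _ = 4 * (s + 1) * (R + 1) := mul_comm _ _
          calc (P ^ 4) ^ (s + 1) = ∏ i, T i ^ (K i * (4 * (s + 1))) := by
                rw [hP, ← pow_mul, ← Finset.prod_pow]
                apply Finset.prod_congr rfl
                intro i _
                rw [← pow_mul]
            _ ≤ ∏ _i : ι, Y := Finset.prod_le_prod' fun i _ => h3 i
            _ = Y ^ s := by rw [Finset.prod_const, Finset.card_univ, ← hs]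
            _ ≤ Y ^ (s + 1) := Nat.pow_le_pow_right hYn (by omega)
        exact (Nat.pow_le_pow_iff_left (by omega)).1 h2
      have hT4 : (P : ℝ) ≤ √(√(Y : ℝ)) := by
        apply Real.le_sqrt_of_sq_le
        apply Real.le_sqrt_of_sq_le
        calc ((P : ℝ) ^ 2) ^ 2 = ((P ^ 4 : ℕ) : ℝ) := by push_cast; ring
          _ ≤ Y := by exact_mod_cast hP4
      have hTY : (P : ℝ) * √(Y : ℝ) ≤ η / 2 * Y := by
        have e1 : √(√(Y : ℝ)) * √(√(Y : ℝ)) = √(Y : ℝ) := Real.mul_self_sqrt (Real.sqrt_nonneg _)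
        have e2 : √(Y : ℝ) * √(Y : ℝ) = Y := Real.mul_self_sqrt hYpos.le
        have h1 : (P : ℝ) * (2 / η) ≤ √(Y : ℝ) := by
          rw [← e1]
          exact mul_le_mul hT4 hs4 (by positivity) (Real.sqrt_nonneg _)
        calc (P : ℝ) * √(Y : ℝ) = η / 2 * ((P : ℝ) * (2 / η)) * √(Y : ℝ) := by
              field_simp
          _ ≤ η / 2 * √(Y : ℝ) * √(Y : ℝ) := by gcongr
          _ = η / 2 * Y := by rw [mul_assoc, e2]
      rw [hPr]
      linarith) A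
  rw [hcard] at hmain
  exact hmain

end Pool.Agent.Y175.JP
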