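import Pool.Agent.Y175.JP.Vec
import Pool.Agent.TH464.PO.Gen

set_option autoImplicit false

/-!
# From the law in windows to the law seen from a point of the process: combinatorics

Author: helper175.
-/

namespace Pool.Agent.Y175.JP

open Finset Filter Pool.Agent.TH464.PO

open Classical in
lemma shift_count (q : ℕ → Prop) (Z Y i : ℕ) :
    |((((Ioc (Z + i) (Z + i + Y)).filter q).card : ℕ) : ℝ) - (((Ioc Z (Z + Y)).filter q).card : ℕ)| ≤ i := by
  have key : ∀ a b c d : ℕ, c ≤ a + i → d ≤ b + i → a ≤ c → b ≤ d → c ≤ d → a ≤ b →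
      ((Ioc c d).filter q).card ≤ ((Ioc a b).filter q).card + i ∧
      ((Ioc a b).filter q).card ≤ ((Ioc c d).filter q).card + i := by
    intro a b c d h1 h2 h3 h4 h5 h6
    constructor
    · have hsub : (Ioc c d).filter q ⊆ (Ioc a b).filter q ∪ Ioc b d := by
        intro m hm
        rw [mem_filter, mem_Ioc] at hm
        rw [mem_union, mem_filter, mem_Ioc, mem_Ioc]
        by_cases h : m ≤ b
        · exact Or.inl ⟨⟨by omega, h⟩, hm.2⟩
        · exact Or.inr ⟨by omega, by omega⟩
      have h7 := (card_le_card hsub).trans (card_union_le _ _)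
      rw [Nat.card_Ioc] at h7
      omega
    · have hsub : (Ioc a b).filter q ⊆ (Ioc c d).filter q ∪ Ioc a c := by
        intro m hm
        rw [mem_filter, mem_Ioc] at hm
        rw [mem_union, mem_filter, mem_Ioc, mem_Ioc]
        by_cases h : m ≤ c
        · exact Or.inr ⟨by omega, h⟩
        · exact Or.inl ⟨⟨by omega, by omega⟩, hm.2⟩
      have h7 := (card_le_card hsub).trans (card_union_le _ _)
      rw [Nat.card_Ioc] at h7
      omega
  obtain ⟨h1, h2⟩ := key Z (Z + Y) (Z + i) (Z + i + Y) (by omega) (by omega) (by omega) (by omega)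
    (by omega) (by omega)
  have h1' : (((Ioc (Z + i) (Z + i + Y)).filter q).card : ℝ) ≤ ((Ioc Z (Z + Y)).filter q).card + i := by
    exact_mod_cast h1
  have h2' : (((Ioc Z (Z + Y)).filter q).card : ℝ) ≤ ((Ioc (Z + i) (Z + i + Y)).filter q).card + i := by
    exact_mod_cast h2
  rw [abs_le]
  constructor <;> linarith

open Classical in
lemma Wc_sum (q : ℕ → Prop) (n Δ : ℕ) : Wc q n Δ = ∑ i ∈ Ioc 0 Δ, if q (n + i) then 1 else 0 := by
  unfold Wc
  rw [← Finset.card_filter]
  symm
  apply Finset.card_bij (fun i _ => n + i)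
  · intro i hi
    rw [mem_filter, mem_Ioc] at hi
    rw [mem_filter, mem_Ioc]
    exact ⟨by omega, hi.2⟩
  · intro i _ j _ h
    omega
  · intro m hm
    rw [mem_filter, mem_Ioc] at hm
    refine ⟨m - n, ?_, by omega⟩
    rw [mem_filter, mem_Ioc]
    refine ⟨by omega, ?_⟩
    rw [show n + (m - n) = m by omega]
    exact hm.2

open Classical in
/-- the mean of the window counts -/
lemma mean_Wc (q : ℕ → Prop) (Z Y Δ : ℕ) :
    |∑ n ∈ Ioc Z (Z + Y), (Wc q n Δ : ℝ) - Δ * (((Ioc Z (Z + Y)).filter q).card : ℕ)| ≤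
      (Δ : ℝ) ^ 2 := by
  have e1 : ∑ n ∈ Ioc Z (Z + Y), (Wc q n Δ : ℝ) =
      ∑ i ∈ Ioc 0 Δ, (((Ioc (Z + i) (Z + i + Y)).filter q).card : ℝ) := by
    have e2 : ∑ n ∈ Ioc Z (Z + Y), Wc q n Δ =
        ∑ i ∈ Ioc 0 Δ, ((Ioc (Z + i) (Z + i + Y)).filter q).card := by
      simp only [Wc_sum]
      rw [Finset.sum_comm]
      apply Finset.sum_congr rfl
      intro i _
      rw [← Finset.card_filter]
      apply Finset.card_bij (fun n _ => n + i)
      · intro n hn
        rw [mem_filter, mem_Ioc] at hn
        rw [mem_filter, mem_Ioc]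
        exact ⟨by omega, hn.2⟩
      · intro a _ b _ h
        omega
      · intro m hm
        rw [mem_filter, mem_Ioc] at hm
        refine ⟨m - i, ?_, by omega⟩
        rw [mem_filter, mem_Ioc]
        refine ⟨by omega, ?_⟩
        rw [show m - i + i = m by omega]
        exact hm.2
    exact_mod_cast e2
  have e3 : (Δ : ℝ) * (((Ioc Z (Z + Y)).filter q).card : ℕ) =
      ∑ _i ∈ Ioc 0 Δ, (((Ioc Z (Z + Y)).filter q).card : ℝ) := by
    rw [Finset.sum_const, Nat.card_Ioc, nsmul_eq_mul, Nat.sub_zero]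
  rw [e1, e3, ← Finset.sum_sub_distrib]
  refine (Finset.abs_sum_le_sum_abs _ _).trans ?_
  have h1 : ∀ i ∈ Ioc 0 Δ, |(((Ioc (Z + i) (Z + i + Y)).filter q).card : ℝ) -
      (((Ioc Z (Z + Y)).filter q).card : ℝ)| ≤ Δ := by
    intro i hi
    rw [mem_Ioc] at hi
    refine (shift_count q Z Y i).trans ?_
    exact_mod_cast hi.2
  refine (Finset.sum_le_sum h1).trans ?_
  rw [Finset.sum_const, Nat.card_Ioc, nsmul_eq_mul, Nat.sub_zero, pow_two]

open Classical in
lemma Wc_eq_of_empty (g : ℕ → Prop) (u u' T : ℕ) (huu : u ≤ u')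
    (h1 : ∀ c, u < c → c ≤ u' → ¬ g c) (h2 : ∀ c, u + T < c → c ≤ u' + T → ¬ g c) :
    Wc g u T = Wc g u' T := by
  unfold Wc
  apply congrArg
  ext c
  rw [mem_filter, mem_filter, mem_Ioc, mem_Ioc]
  constructor
  · rintro ⟨⟨h3, h4⟩, h5⟩
    refine ⟨⟨?_, by omega⟩, h5⟩
    by_contra h
    exact h1 c h3 (by omega) h5
  · rintro ⟨⟨h3, h4⟩, h5⟩
    refine ⟨⟨by omega, ?_⟩, h5⟩
    by_contra h
    exact h2 c (by omega) h4 h5

open Classical in
lemma one_le_Wc (g : ℕ → Prop) (n T c : ℕ) (h1 : n < c) (h2 : c ≤ n + T) (h3 : g c) : 1 ≤ Wc g n T := by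
  unfold Wc
  apply Finset.card_pos.2
  exact ⟨c, mem_filter.2 ⟨mem_Ioc.2 ⟨h1, h2⟩, h3⟩⟩

open Classical in
lemma Wc_mono_prop (g g' : ℕ → Prop) (n T : ℕ) (h : ∀ m, g m → g' m) : Wc g n T ≤ Wc g' n T := by
  unfold Wc
  apply card_le_card
  intro m hm
  rw [mem_filter] at hm ⊢
  exact ⟨hm.1, h m hm.2⟩

variable {ι : Type} [Fintype ι]

open Classical in
/-- the offset of the exceptional window -/
noncomputable def mo (Rel : ι → Prop) (Δ : ℕ) (i : ι) (z : ℕ) : ℕ := if Rel i then max Δ z else z

open Classical in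
/-- the pointwise comparison -/
lemma palm_pt (G : Option ι → ℕ → Prop) (S : ℕ → Prop) (Rel : ι → Prop)
    (hGS : ∀ m, G none m → S m) (hRel : ∀ i, Rel i → ∀ m, G (some i) m → S m)
    (Δ n : ℕ) (a T : ι → ℕ) (A : ι → Finset ℕ) :
    |(Wc (fun b => G none b ∧ ∀ i, Wc (G (some i)) (b + a i) (T i) ∈ A i) n Δ : ℝ) -
      (if Wc (G none) n Δ = 1 ∧ ∀ i, Wc (G (some i)) (n + (Δ + a i)) (T i) ∈ A i then (1 : ℝ) else 0)| ≤
    2 * (Wc S n Δ - (if 1 ≤ Wc S n Δ then (1 : ℝ) else 0)) +
      ∑ i, ((if 1 ≤ Wc (G none) n Δ ∧ 1 ≤ Wc (G (some i)) (n + mo Rel Δ i (a i)) Δ then (1 : ℝ) else 0) +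
        (if 1 ≤ Wc (G none) n Δ ∧ 1 ≤ Wc (G (some i)) (n + mo Rel Δ i (a i + T i)) Δ
          then (1 : ℝ) else 0)) := by
  obtain ⟨q, hq⟩ : ∃ q : ℕ → Prop, q = fun b => G none b ∧ ∀ i, Wc (G (some i)) (b + a i) (T i) ∈ A i :=
    ⟨_, rfl⟩
  rw [← hq]
  have hqG : ∀ b, q b → G none b := fun b hb => by rw [hq] at hb; exact hb.1
  have hqS : Wc q n Δ ≤ Wc S n Δ := Wc_mono_prop _ _ n Δ fun m hm => hGS m (hqG m hm)
  have hqG' : Wc q n Δ ≤ Wc (G none) n Δ := Wc_mono_prop _ _ n Δ hqG
  have hGSw : Wc (G none) n Δ ≤ Wc S n Δ := Wc_mono_prop _ _ n Δ hGS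
  have hsum0 : (0 : ℝ) ≤ ∑ i, ((if 1 ≤ Wc (G none) n Δ ∧ 1 ≤ Wc (G (some i)) (n + mo Rel Δ i (a i)) Δ
      then (1 : ℝ) else 0) + (if 1 ≤ Wc (G none) n Δ ∧
        1 ≤ Wc (G (some i)) (n + mo Rel Δ i (a i + T i)) Δ then (1 : ℝ) else 0)) := by
    apply Finset.sum_nonneg
    intro i _
    positivity
  obtain ⟨E, hE⟩ : ∃ E : Prop, E = (Wc (G none) n Δ = 1 ∧
    ∀ i, Wc (G (some i)) (n + (Δ + a i)) (T i) ∈ A i) := ⟨_, rfl⟩
  have hite : (if Wc (G none) n Δ = 1 ∧ ∀ i, Wc (G (some i)) (n + (Δ + a i)) (T i) ∈ A i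
      then (1 : ℝ) else 0) = if E then (1 : ℝ) else 0 := by
    subst hE
    congr
  rw [hite]
  rcases Nat.lt_or_ge (Wc S n Δ) 1 with h0 | h0
  · -- no point
    have h1 : Wc S n Δ = 0 := by omega
    have h2 : Wc q n Δ = 0 := by omega
    have h3 : ¬ E := by
      rw [hE]
      rintro ⟨h4, _⟩
      omega
    rw [h1, h2, if_neg h3, if_neg (by omega)]
    simp only [Nat.cast_zero, sub_zero, abs_zero, mul_zero, zero_add]
    exact hsum0
  · rw [if_pos h0]
    rcases Nat.lt_or_ge (Wc S n Δ) 2 with h1 | h1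
    · -- one point
      have h2 : Wc S n Δ = 1 := by omega
      rw [h2]
      simp only [Nat.cast_one, sub_self, mul_zero, zero_add]
      by_cases hw : Wc (G none) n Δ = 0
      · have h3 : Wc q n Δ = 0 := by omega
        have h4 : ¬ E := by
          rw [hE]
          rintro ⟨h4, _⟩
          omega
        rw [h3, if_neg h4]
        simp only [Nat.cast_zero, sub_zero, abs_zero]
        exact hsum0
      · have hw1 : Wc (G none) n Δ = 1 := by omega
        obtain ⟨b, hb⟩ : ∃ b, (Ioc n (n + Δ)).filter (G none) = {b} := by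
          have : ((Ioc n (n + Δ)).filter (G none)).card = 1 := hw1
          exact card_eq_one.1 this
        have hb1 : b ∈ (Ioc n (n + Δ)).filter (G none) := by rw [hb]; exact mem_singleton_self b
        rw [mem_filter, mem_Ioc] at hb1
        obtain ⟨⟨hb2, hb3⟩, hb4⟩ := hb1
        -- the value of the window count
        have hqw : (Wc q n Δ : ℝ) = if (∀ i, Wc (G (some i)) (b + a i) (T i) ∈ A i) then (1 : ℝ) else 0 := by
          split_ifs with h
          · have : (Ioc n (n + Δ)).filter q = {b} := by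
              ext m
              rw [mem_filter, mem_singleton]
              constructor
              · rintro ⟨hm, hmq⟩
                have : m ∈ (Ioc n (n + Δ)).filter (G none) := mem_filter.2 ⟨hm, hqG m hmq⟩
                rw [hb] at this
                exact mem_singleton.1 this
              · rintro rfl
                refine ⟨mem_Ioc.2 ⟨hb2, hb3⟩, ?_⟩
                rw [hq]
                exact ⟨hb4, h⟩
            unfold Wc
            rw [this, card_singleton, Nat.cast_one]
          · have : (Ioc n (n + Δ)).filter q = ∅ := by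
              rw [Finset.filter_eq_empty_iff]
              intro m hm hmq
              have h5 : m ∈ (Ioc n (n + Δ)).filter (G none) := mem_filter.2 ⟨hm, hqG m hmq⟩
              rw [hb] at h5
              have h6 := mem_singleton.1 h5
              subst h6
              rw [hq] at hmq
              exact h hmq.2
            unfold Wc
            rw [this, card_empty, Nat.cast_zero]
        rw [hqw]
        -- no other point of `S`
        have hSone : ∀ c, n < c → c ≤ n + Δ → S c → c = b := by
          intro c hc1 hc2 hc3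
          have h5 : ((Ioc n (n + Δ)).filter S).card = 1 := h2
          rw [card_eq_one] at h5
          obtain ⟨s, hs⟩ := h5
          have h6 : c ∈ (Ioc n (n + Δ)).filter S := mem_filter.2 ⟨mem_Ioc.2 ⟨hc1, hc2⟩, hc3⟩
          have h7 : b ∈ (Ioc n (n + Δ)).filter S := mem_filter.2 ⟨mem_Ioc.2 ⟨hb2, hb3⟩, hGS b hb4⟩
          rw [hs, mem_singleton] at h6 h7
          rw [h6, h7]
        by_cases hgood : ∀ i, Wc (G (some i)) (b + a i) (T i) = Wc (G (some i)) (n + (Δ + a i)) (T i)
        · have h5 : E ↔ ∀ i, Wc (G (some i)) (b + a i) (T i) ∈ A i := by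
            rw [hE]
            constructor
            · rintro ⟨_, h6⟩ i
              rw [hgood i]
              exact h6 i
            · intro h6
              refine ⟨hw1, fun i => ?_⟩
              rw [← hgood i]
              exact h6 i
          by_cases hE1 : E
          · rw [if_pos hE1, if_pos (h5.1 hE1), sub_self, abs_zero]
            exact hsum0
          · rw [if_neg hE1, if_neg (fun h => hE1 (h5.2 h)), sub_self, abs_zero]
            exact hsum0
        · push Not at hgood
          obtain ⟨i, hi⟩ := hgood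
          have hdiff : |(if (∀ i, Wc (G (some i)) (b + a i) (T i) ∈ A i) then (1 : ℝ) else 0) -
              (if E then (1 : ℝ) else 0)| ≤ 1 := by
            split_ifs <;> norm_num
          refine hdiff.trans ?_
          have hone : (1 : ℝ) ≤ ((if 1 ≤ Wc (G none) n Δ ∧
              1 ≤ Wc (G (some i)) (n + mo Rel Δ i (a i)) Δ then (1 : ℝ) else 0) +
              (if 1 ≤ Wc (G none) n Δ ∧ 1 ≤ Wc (G (some i)) (n + mo Rel Δ i (a i + T i)) Δ
                then (1 : ℝ) else 0)) := by
            have hpt : ∀ z c, b + z < c → c ≤ n + Δ + z → G (some i) c →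
                1 ≤ Wc (G (some i)) (n + mo Rel Δ i z) Δ := by
              intro z c hc1 hc2 hc3
              unfold mo
              split_ifs with hr
              · have hSc := hRel i hr c hc3
                have hcb : n + Δ < c := by
                  by_contra hcon
                  have := hSone c (by omega) (by omega) hSc
                  omega
                rcases le_total Δ z with h | h
                · rw [max_eq_right h]
                  exact one_le_Wc _ _ _ c (by omega) (by omega) hc3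
                · rw [max_eq_left h]
                  exact one_le_Wc _ _ _ c (by omega) (by omega) hc3
              · exact one_le_Wc _ _ _ c (by omega) (by omega) hc3
            by_cases hA1 : ∃ c, b + a i < c ∧ c ≤ n + Δ + a i ∧ G (some i) c
            · obtain ⟨c, hc1, hc2, hc3⟩ := hA1
              rw [if_pos ⟨by omega, hpt (a i) c hc1 hc2 hc3⟩]
              split_ifs <;> norm_num
            · by_cases hA2 : ∃ c, b + (a i + T i) < c ∧ c ≤ n + Δ + (a i + T i) ∧ G (some i) c
              · obtain ⟨c, hc1, hc2, hc3⟩ := hA2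
                rw [if_pos (⟨by omega, hpt (a i + T i) c hc1 hc2 hc3⟩ : 1 ≤ Wc (G none) n Δ ∧
                  1 ≤ Wc (G (some i)) (n + mo Rel Δ i (a i + T i)) Δ)]
                split_ifs <;> norm_num
              · exfalso
                push Not at hA1 hA2
                apply hi
                apply Wc_eq_of_empty _ _ _ _ (by omega)
                · intro c hc1 hc2 hc3
                  exact hA1 c hc1 (by omega) hc3
                · intro c hc1 hc2 hc3
                  exact hA2 c (by omega) (by omega) hc3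
          refine hone.trans ?_
          exact Finset.single_le_sum (f := fun i => ((if 1 ≤ Wc (G none) n Δ ∧
              1 ≤ Wc (G (some i)) (n + mo Rel Δ i (a i)) Δ then (1 : ℝ) else 0) +
              (if 1 ≤ Wc (G none) n Δ ∧ 1 ≤ Wc (G (some i)) (n + mo Rel Δ i (a i + T i)) Δ
                then (1 : ℝ) else 0))) (fun i _ => by positivity) (mem_univ i)
    · -- at least two points
      have h3 : (2 : ℝ) ≤ Wc S n Δ := by exact_mod_cast h1
      have h4 : (Wc q n Δ : ℝ) ≤ Wc S n Δ := by exact_mod_cast hqS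
      have h5 : (0 : ℝ) ≤ Wc q n Δ := Nat.cast_nonneg _
      have h6 : (if E then (1 : ℝ) else 0) ≤ 1 := by split_ifs <;> norm_num
      have h7 : (0 : ℝ) ≤ (if E then (1 : ℝ) else 0) := by split_ifs <;> norm_num
      have h8 : |(Wc q n Δ : ℝ) - (if E then (1 : ℝ) else 0)| ≤ Wc S n Δ := by
        rw [abs_le]
        constructor <;> linarith
      linarith

end Pool.Agent.Y175.JP
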