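import Pool.Agent.Y175.JP.PalmA

set_option autoImplicit false

/-!
# From the law in windows to the law seen from a point of the process

Author: helper175.
-/

namespace Pool.Agent.Y175.JP

open Finset Filter Pool.Agent.TH464.PO

lemma PoA_zero_single (x : ℝ) : PoA x {0} = Real.exp (-x) := by
  unfold PoA
  rw [Finset.sum_singleton]
  simp

lemma PoA_one_single (x : ℝ) : PoA x {1} = Real.exp (-x) * x := by
  unfold PoA
  rw [Finset.sum_singleton]
  simp

lemma exp_neg_le_quad (x : ℝ) (hx : 0 ≤ x) : Real.exp (-x) ≤ 1 - x + x ^ 2 := by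
  have h1 : x + 1 ≤ Real.exp x := Real.add_one_le_exp x
  rw [Real.exp_neg, inv_le_iff_one_le_mul₀ (Real.exp_pos x)]
  have h2 : 0 ≤ 1 - x + x ^ 2 := by nlinarith
  nlinarith [mul_le_mul_of_nonneg_left h1 h2, pow_nonneg hx 3]

lemma Wc_zero (g : ℕ → Prop) (n : ℕ) : Wc g n 0 = 0 := by
  unfold Wc
  simp

variable {ι : Type}

lemma mo_le (Rel : ι → Prop) (Δ : ℕ) (i : ι) (z : ℕ) : mo Rel Δ i z ≤ Δ + z := by
  unfold mo
  split_ifs
  · rcases le_total Δ z with h | h
    · rw [max_eq_right h]
      omega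
    · rw [max_eq_left h]
      omega
  · omega

lemma le_mo (Rel : ι → Prop) (Δ : ℕ) (i : ι) (z : ℕ) (h : Rel i) : Δ ≤ mo Rel Δ i z := by
  unfold mo
  rw [if_pos h]
  exact le_max_left _ _

/-- the count of the windows with both counts positive -/
lemma pair_count (g g' : ℕ → Prop) [DecidablePred g] [DecidablePred g'] (Om : Finset ℕ) (N η x x' : ℝ) (hN : (Om.card : ℝ) = N)
    (hx : 0 ≤ x) (hx' : 0 ≤ x') (hN0 : 0 ≤ N)
    (h1 : |((Om.filter (fun n => g n)).card : ℝ) - N * Real.exp (-x)| ≤ η * N)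
    (h2 : |((Om.filter (fun n => g' n)).card : ℝ) - N * Real.exp (-x')| ≤ η * N)
    (h3 : |((Om.filter (fun n => g n ∧ g' n)).card : ℝ) - N * Real.exp (-(x + x'))| ≤ η * N) :
    ∑ n ∈ Om, (if ¬ g n ∧ ¬ g' n then (1 : ℝ) else 0) ≤ N * (x * x') + 3 * (η * N) := by
  have e : ∑ n ∈ Om, (if ¬ g n ∧ ¬ g' n then (1 : ℝ) else 0) =
      (Om.card : ℝ) - ((Om.filter (fun n => g n)).card : ℝ) - ((Om.filter (fun n => g' n)).card : ℝ) +
        ((Om.filter (fun n => g n ∧ g' n)).card : ℝ) := by
    have e1 : (Om.card : ℝ) = ∑ _n ∈ Om, (1 : ℝ) := by simp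
    rw [e1, Finset.card_filter, Finset.card_filter, Finset.card_filter]
    push_cast
    rw [← Finset.sum_sub_distrib, ← Finset.sum_sub_distrib, ← Finset.sum_add_distrib]
    apply Finset.sum_congr rfl
    intro n _
    by_cases ha : g n <;> by_cases hb : g' n <;> simp [ha, hb]
  rw [e, hN]
  have k1 := (abs_le.1 h1).1
  have k2 := (abs_le.1 h2).1
  have k3 := (abs_le.1 h3).2
  have hexp : Real.exp (-(x + x')) = Real.exp (-x) * Real.exp (-x') := by
    rw [← Real.exp_add]
    congr 1
    ring
  have h4 : 1 - x ≤ Real.exp (-x) := by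
    have := Real.add_one_le_exp (-x)
    linarith
  have h5 : 1 - x' ≤ Real.exp (-x') := by
    have := Real.add_one_le_exp (-x')
    linarith
  have h6 : Real.exp (-x) ≤ 1 := Real.exp_le_one_iff.2 (by linarith)
  have h7 : Real.exp (-x') ≤ 1 := Real.exp_le_one_iff.2 (by linarith)
  have h8 : (1 - Real.exp (-x)) * (1 - Real.exp (-x')) ≤ x * x' :=
    mul_le_mul (by linarith) (by linarith) (by linarith) hx
  have h9 : N * ((1 - Real.exp (-x)) * (1 - Real.exp (-x'))) ≤ N * (x * x') :=
    mul_le_mul_of_nonneg_left h8 hN0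
  rw [hexp] at k3
  nlinarith

open Classical in
/-- **From the law in windows to the law seen from a point of the process.** -/
theorem palm_of_law [Fintype ι] (C x0 ε : ℝ) (hC : 1 ≤ C) (hx0 : 0 ≤ x0) (hε : 0 < ε) :
    ∃ η : ℝ, 0 < η ∧ η ≤ 1 ∧ ∀ (G : Option ι → ℕ → Prop) (S : ℕ → Prop) (V : Option ι → ℝ)
      (Rel : Option ι → Option ι → Prop) (Z Y : ℕ),
      (∀ m, G none m → S m) → (∀ i, Rel none (some i) → ∀ m, G (some i) m → S m) →
      (∀ o o', Rel o o' → Rel o' o) → (∀ o, 0 < V o) → (∀ o, V o ≤ C * V none) → V none ≤ η →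
      1 ≤ η * (Y * V none ^ 2) →
      ((((Ioc Z (Z + Y)).filter S).card : ℕ) : ℝ) ≤ (1 + η) * (Y * V none) →
      (∀ a T : Option ι → ℕ, (∀ o o', o ≠ o' → Rel o o' → a o + T o ≤ a o' ∨ a o' + T o' ≤ a o) →
        (∀ o, ((a o : ℝ) + T o) * V o ≤ x0 + 1) → ∀ A : Option ι → Finset ℕ,
        |(((Ioc Z (Z + Y)).filter (fun n => ∀ o, Wc (G o) (n + a o) (T o) ∈ A o)).card : ℝ) -
          Y * ∏ o, PoA (T o * V o) (A o)| ≤ η * Y) →
      ∀ a T : ι → ℕ, (∀ i j, i ≠ j → Rel (some i) (some j) → a i + T i ≤ a j ∨ a j + T j ≤ a i) →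
      (∀ i, ((a i : ℝ) + T i) * V (some i) ≤ x0) → ∀ A : ι → Finset ℕ,
      |(((Ioc Z (Z + Y)).filter (fun b => G none b ∧
          ∀ i, Wc (G (some i)) (b + a i) (T i) ∈ A i)).card : ℝ) -
        Y * V none * ∏ i, PoA (T i * V (some i)) (A i)| ≤ ε * (Y * V none) := by
  obtain ⟨k, hk⟩ : ∃ k : ℕ, k = Fintype.card ι := ⟨_, rfl⟩
  have hk0 : (0 : ℝ) ≤ k := Nat.cast_nonneg k
  obtain ⟨κ, hκ⟩ : ∃ κ : ℝ, κ = min (ε / (8 * (3 + 2 * k * C))) (1 / (8 * C)) := ⟨_, rfl⟩
  have hCpos : 0 < C := by linarith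
  have hκ0 : 0 < κ := by rw [hκ]; positivity
  have hκ1 : κ * (8 * (3 + 2 * k * C)) ≤ ε := by
    have : κ ≤ ε / (8 * (3 + 2 * k * C)) := by rw [hκ]; exact min_le_left _ _
    rwa [le_div_iff₀ (by positivity)] at this
  have hκ2 : κ * (8 * C) ≤ 1 := by
    have : κ ≤ 1 / (8 * C) := by rw [hκ]; exact min_le_right _ _
    rwa [le_div_iff₀ (by positivity)] at this
  have hκ3 : 8 * κ ≤ 1 := by
    have := mul_le_mul_of_nonneg_left hC (by positivity : (0 : ℝ) ≤ 8 * κ)
    linarith
  obtain ⟨η, hη⟩ : ∃ η : ℝ, η = min κ (min (ε * κ / (4 * (5 + 6 * k))) (ε / (24 * κ))) := ⟨_, rfl⟩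
  have hη0 : 0 < η := by rw [hη]; positivity
  have hη1 : η ≤ κ := by rw [hη]; exact min_le_left _ _
  have hη2 : η * (4 * (5 + 6 * k)) ≤ ε * κ := by
    have : η ≤ ε * κ / (4 * (5 + 6 * k)) := by
      rw [hη]; exact (min_le_right _ _).trans (min_le_left _ _)
    rwa [le_div_iff₀ (by positivity)] at this
  have hη3 : η * (24 * κ) ≤ ε := by
    have : η ≤ ε / (24 * κ) := by rw [hη]; exact (min_le_right _ _).trans (min_le_right _ _)
    rwa [le_div_iff₀ (by positivity)] at this
  refine ⟨η, hη0, by linarith, ?_⟩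
  intro G S V Rel Z Y hGS hRS hsym hV hVC hVη hbd htot hlaw a T hdj hT A
  obtain ⟨Δ, hΔ1, hΔ2, -⟩ := exists_window (V none) κ (hV none) (hVη.trans hη1)
  obtain ⟨x, hx⟩ : ∃ x : ℝ, x = Δ * V none := ⟨_, rfl⟩
  rw [← hx] at hΔ1 hΔ2
  have hxpos : 0 < x := lt_of_lt_of_le hκ0 hΔ1
  have hx1 : x ≤ 1 := by linarith
  have hV0 := hV none
  have hΔpos : (0 : ℝ) < Δ := by
    by_contra hcon
    rw [not_lt] at hcon
    have : x ≤ 0 := by
      rw [hx]
      exact mul_nonpos_of_nonpos_of_nonneg hcon hV0.le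
    linarith
  have hY0 : (0 : ℝ) ≤ Y := Nat.cast_nonneg Y
  obtain ⟨Om, hOm⟩ : ∃ Om, Om = Ioc Z (Z + Y) := ⟨_, rfl⟩
  have hcard : (Om.card : ℝ) = Y := by
    rw [hOm, Nat.card_Ioc]
    congr 1
    omega
  have hΔV : ∀ o, (Δ : ℝ) * V o ≤ C * x := by
    intro o
    calc (Δ : ℝ) * V o ≤ Δ * (C * V none) := mul_le_mul_of_nonneg_left (hVC o) hΔpos.le
      _ = C * x := by rw [hx]; ring
  have hCx : C * x ≤ 1 / 4 := by
    have := mul_le_mul_of_nonneg_left hΔ2 hCpos.le
    linarith
  -- the law for empty windows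
  have hzero : ∀ a' T' : Option ι → ℕ,
      (∀ o o', o ≠ o' → Rel o o' → a' o + T' o ≤ a' o' ∨ a' o' + T' o' ≤ a' o) →
      (∀ o, ((a' o : ℝ) + T' o) * V o ≤ x0 + 1) →
      |((Om.filter (fun n => ∀ o, Wc (G o) (n + a' o) (T' o) = 0)).card : ℝ) -
        Y * Real.exp (-∑ o, T' o * V o)| ≤ η * Y := by
    intro a' T' h1 h2
    have h3 := hlaw a' T' h1 h2 (fun _ => {0})
    rw [← hOm] at h3
    simp only [PoA_zero_single, mem_singleton] at h3
    rw [← Real.exp_sum, Finset.sum_neg_distrib] at h3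
    exact h3
  -- windows for a pair
  have hpairw : ∀ (i : ι) (m t0 t1 : ℕ), (Rel none (some i) → t0 ≤ m) → (t0 : ℝ) * V none ≤ 1 →
      ((m : ℝ) + t1) * V (some i) ≤ x0 + 1 →
      |((Om.filter (fun n => Wc (G none) n t0 = 0 ∧ Wc (G (some i)) (n + m) t1 = 0)).card : ℝ) -
        Y * Real.exp (-(t0 * V none + t1 * V (some i)))| ≤ η * Y := by
    intro i m t0 t1 h1 h2 h3
    have h4 := hzero (fun o => o.elim 0 (fun j => if j = i then m else 0))
      (fun o => o.elim t0 (fun j => if j = i then t1 else 0)) (by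
        intro o o' hoo hR
        cases o with
        | none =>
          cases o' with
          | none => exact absurd rfl hoo
          | some j =>
            simp only [Option.elim]
            by_cases hj : j = i
            · subst hj
              rw [if_pos rfl, if_pos rfl]
              left
              have := h1 hR
              omega
            · rw [if_neg hj, if_neg hj]
              right
              omega
        | some j =>
          cases o' with
          | none =>
            simp only [Option.elim]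
            by_cases hj : j = i
            · subst hj
              rw [if_pos rfl, if_pos rfl]
              right
              have := h1 (hsym _ _ hR)
              omega
            · rw [if_neg hj, if_neg hj]
              left
              omega
          | some l =>
            simp only [Option.elim]
            by_cases hj : j = i
            · have hl : l ≠ i := fun h => hoo (by rw [hj, h])
              rw [if_neg hl, if_neg hl]
              right
              omega
            · rw [if_neg hj, if_neg hj]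
              left
              omega) (by
        intro o
        cases o with
        | none =>
          simp only [Option.elim, Nat.cast_zero, zero_add]
          linarith
        | some j =>
          simp only [Option.elim]
          by_cases hj : j = i
          · subst hj
            rw [if_pos rfl, if_pos rfl]
            exact h3
          · rw [if_neg hj, if_neg hj]
            simp only [Nat.cast_zero, add_zero, zero_mul]
            linarith)
    have e1 : ∑ o : Option ι, ((o.elim t0 (fun j => if j = i then t1 else 0) : ℕ) : ℝ) * V o =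
        t0 * V none + t1 * V (some i) := by
      rw [Fintype.sum_option]
      simp only [Option.elim]
      congr 1
      rw [Finset.sum_eq_single i]
      · rw [if_pos rfl]
      · intro j _ hj
        rw [if_neg hj, Nat.cast_zero, zero_mul]
      · intro h
        exact absurd (mem_univ i) h
    rw [e1] at h4
    have e2 : Om.filter (fun n => ∀ o : Option ι, Wc (G o) (n + o.elim 0 (fun j => if j = i then m else 0))
        (o.elim t0 (fun j => if j = i then t1 else 0)) = 0) =
        Om.filter (fun n => Wc (G none) n t0 = 0 ∧ Wc (G (some i)) (n + m) t1 = 0) := by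
      ext n
      rw [mem_filter, mem_filter]
      apply and_congr_right
      intro _
      constructor
      · intro h
        refine ⟨?_, ?_⟩
        · have := h none
          simpa using this
        · have := h (some i)
          simpa using this
      · rintro ⟨h5, h6⟩ o
        cases o with
        | none => simpa using h5
        | some j =>
          simp only [Option.elim]
          by_cases hj : j = i
          · subst hj
            rw [if_pos rfl, if_pos rfl]
            exact h6
          · rw [if_neg hj, if_neg hj]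
            exact Wc_zero _ _
    rw [e2] at h4
    exact h4
  -- the windows without points
  have hw0 : |((Om.filter (fun n => Wc (G none) n Δ = 0)).card : ℝ) - Y * Real.exp (-x)| ≤ η * Y := by
    have h4 := hzero (fun _ => 0) (fun o => o.elim Δ (fun _ => 0)) (by
        intro o o' hoo hR
        cases o with
        | none =>
          cases o' with
          | none => exact absurd rfl hoo
          | some j => right; simp
        | some j => left; simp) (by
        intro o
        cases o with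
        | none =>
          simp only [Option.elim, Nat.cast_zero, zero_add]
          rw [← hx]
          linarith
        | some j =>
          simp only [Option.elim, Nat.cast_zero, add_zero, zero_mul]
          linarith)
    have e1 : ∑ o : Option ι, ((o.elim Δ (fun _ => 0) : ℕ) : ℝ) * V o = x := by
      rw [Fintype.sum_option]
      simp only [Option.elim, Nat.cast_zero, zero_mul, Finset.sum_const_zero, add_zero]
      exact hx.symm
    rw [e1] at h4
    have e2 : Om.filter (fun n => ∀ o : Option ι, Wc (G o) (n + 0) (o.elim Δ (fun _ => 0)) = 0) =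
        Om.filter (fun n => Wc (G none) n Δ = 0) := by
      ext n
      rw [mem_filter, mem_filter]
      apply and_congr_right
      intro _
      constructor
      · intro h
        have := h none
        simpa using this
      · intro h o
        cases o with
        | none => simpa using h
        | some j => exact Wc_zero _ _
    rw [e2] at h4
    exact h4
  -- the main term
  obtain ⟨P, hP⟩ : ∃ P, P = ∏ i, PoA (T i * V (some i)) (A i) := ⟨_, rfl⟩
  have hTV0 : ∀ i, 0 ≤ (T i : ℝ) * V (some i) := fun i => mul_nonneg (Nat.cast_nonneg _) (hV _).le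
  have hP0 : 0 ≤ P := by
    rw [hP]
    exact Finset.prod_nonneg fun i _ => PoA_nonneg _ (hTV0 i) _
  have hP1 : P ≤ 1 := by
    rw [hP]
    exact Finset.prod_le_one (fun i _ => PoA_nonneg _ (hTV0 i) _) (fun i _ => PoA_le_one _ (hTV0 i) _)
  have hL1 : |∑ n ∈ Om, (if Wc (G none) n Δ = 1 ∧ ∀ i, Wc (G (some i)) (n + (Δ + a i)) (T i) ∈ A i
      then (1 : ℝ) else 0) - Y * (Real.exp (-x) * x * P)| ≤ η * Y := by
    have h4 := hlaw (fun o => o.elim 0 (fun i => Δ + a i)) (fun o => o.elim Δ (fun i => T i)) (by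
        intro o o' hoo hR
        cases o with
        | none =>
          cases o' with
          | none => exact absurd rfl hoo
          | some j => left; simp only [Option.elim]; omega
        | some i =>
          cases o' with
          | none => right; simp only [Option.elim]; omega
          | some j =>
            simp only [Option.elim]
            rcases hdj i j (fun h => hoo (by rw [h])) hR with h | h
            · left; omega
            · right; omega) (by
        intro o
        cases o with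
        | none =>
          simp only [Option.elim, Nat.cast_zero, zero_add]
          rw [← hx]
          linarith
        | some i =>
          simp only [Option.elim]
          push_cast
          have h5 := hT i
          have h6 := hΔV (some i)
          linarith) (fun o => o.elim {1} (fun i => A i))
    rw [← hOm, Fintype.prod_option] at h4
    simp only [Option.elim] at h4
    rw [PoA_one_single, ← hP, ← hx] at h4
    have e2 : ∑ n ∈ Om, (if Wc (G none) n Δ = 1 ∧ ∀ i, Wc (G (some i)) (n + (Δ + a i)) (T i) ∈ A i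
      then (1 : ℝ) else 0) = ((Om.filter (fun n => ∀ o : Option ι,
        Wc (G o) (n + o.elim 0 (fun i => Δ + a i)) (o.elim Δ (fun i => T i)) ∈
          (o.elim {1} (fun i => A i) : Finset ℕ))).card : ℝ) := by
      rw [Finset.card_filter]
      push_cast
      apply Finset.sum_congr rfl
      intro n _
      have hiff : (Wc (G none) n Δ = 1 ∧ ∀ i, Wc (G (some i)) (n + (Δ + a i)) (T i) ∈ A i) ↔
          ∀ o : Option ι, Wc (G o) (n + o.elim 0 (fun i => Δ + a i)) (o.elim Δ (fun i => T i)) ∈
          (o.elim {1} (fun i => A i) : Finset ℕ) := by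
        constructor
        · rintro ⟨h5, h6⟩ o
          cases o with
          | none => simpa using h5
          | some i => exact h6 i
        · intro h5
          refine ⟨?_, fun i => h5 (some i)⟩
          have := h5 none
          simpa using this
      by_cases hc : (Wc (G none) n Δ = 1 ∧ ∀ i, Wc (G (some i)) (n + (Δ + a i)) (T i) ∈ A i)
      · rw [if_pos hc, if_pos (hiff.1 hc)]
      · rw [if_neg hc, if_neg (fun h => hc (hiff.2 h))]
    rw [e2]
    exact h4
  -- the points of the process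
  obtain ⟨q, hq⟩ : ∃ q : ℕ → Prop, q = fun b => G none b ∧ ∀ i, Wc (G (some i)) (b + a i) (T i) ∈ A i :=
    ⟨_, rfl⟩
  obtain ⟨c0, hc0⟩ : ∃ c0 : ℝ, c0 = ((Om.filter q).card : ℝ) := ⟨_, rfl⟩
  have hgoal : (((Ioc Z (Z + Y)).filter (fun b => G none b ∧
      ∀ i, Wc (G (some i)) (b + a i) (T i) ∈ A i)).card : ℝ) = c0 := by
    rw [hc0, hOm]
    apply congrArg
    apply congrArg
    ext b
    rw [mem_filter, mem_filter, hq]
  rw [hgoal, ← hP]
  have hR := mean_Wc q Z Y Δ
  have hS := mean_Wc S Z Y Δ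
  rw [← hOm, ← hc0] at hR
  rw [← hOm] at hS htot
  have hpt : |∑ n ∈ Om, (Wc q n Δ : ℝ) - ∑ n ∈ Om, (if Wc (G none) n Δ = 1 ∧
      ∀ i, Wc (G (some i)) (n + (Δ + a i)) (T i) ∈ A i then (1 : ℝ) else 0)| ≤
      ∑ n ∈ Om, (2 * (Wc S n Δ - (if 1 ≤ Wc S n Δ then (1 : ℝ) else 0))) +
      ∑ n ∈ Om, ∑ i, ((if 1 ≤ Wc (G none) n Δ ∧
        1 ≤ Wc (G (some i)) (n + mo (fun i => Rel none (some i)) Δ i (a i)) Δ then (1 : ℝ) else 0) +
        (if 1 ≤ Wc (G none) n Δ ∧
          1 ≤ Wc (G (some i)) (n + mo (fun i => Rel none (some i)) Δ i (a i + T i)) Δ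
          then (1 : ℝ) else 0)) := by
    rw [← Finset.sum_sub_distrib, ← Finset.sum_add_distrib]
    refine (Finset.abs_sum_le_sum_abs _ _).trans (Finset.sum_le_sum fun n _ => ?_)
    have h5 := palm_pt G S (fun i => Rel none (some i)) hGS hRS Δ n a T A
    rw [← hq] at h5
    exact h5
  -- several points in a window
  have hmany : ∑ n ∈ Om, (2 * (Wc S n Δ - (if 1 ≤ Wc S n Δ then (1 : ℝ) else 0))) ≤
      2 * (Y * (x ^ 2 + 2 * η)) + 2 * (Δ : ℝ) ^ 2 := by
    rw [← Finset.mul_sum, Finset.sum_sub_distrib]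
    have h5 : ∑ n ∈ Om, (Wc S n Δ : ℝ) ≤ Δ * ((1 + η) * (Y * V none)) + (Δ : ℝ) ^ 2 := by
      have h6 := (abs_le.1 hS).2
      have h7 := mul_le_mul_of_nonneg_left htot hΔpos.le
      linarith
    have h6 : (Y : ℝ) - (Y * Real.exp (-x) + η * Y) ≤ ∑ n ∈ Om, (if 1 ≤ Wc S n Δ then (1 : ℝ) else 0) := by
      have e1 : ∑ n ∈ Om, (if 1 ≤ Wc S n Δ then (1 : ℝ) else 0) ≥
          ∑ n ∈ Om, ((1 : ℝ) - (if Wc (G none) n Δ = 0 then (1 : ℝ) else 0)) := by
        apply Finset.sum_le_sum
        intro n _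
        have h7 := Wc_mono_prop (G none) S n Δ hGS
        split_ifs with h8 h9 h9
        all_goals first
          | (norm_num; done)
          | (exfalso; omega)
      have e2 : ∑ n ∈ Om, ((1 : ℝ) - (if Wc (G none) n Δ = 0 then (1 : ℝ) else 0)) =
          (Y : ℝ) - ((Om.filter (fun n => Wc (G none) n Δ = 0)).card : ℝ) := by
        rw [Finset.sum_sub_distrib, Finset.card_filter]
        push_cast
        rw [← hcard]
        simp
      have h7 := (abs_le.1 hw0).2
      linarith
    have h7 := exp_neg_le_quad x hxpos.le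
    have h8 : (Y : ℝ) * Real.exp (-x) ≤ Y * (1 - x + x ^ 2) := mul_le_mul_of_nonneg_left h7 hY0
    have h9 : (Δ : ℝ) * ((1 + η) * (Y * V none)) = (1 + η) * (Y * x) := by rw [hx]; ring
    rw [h9] at h5
    have h10 : η * (Y * x) ≤ η * Y := by
      have : Y * x ≤ Y * 1 := mul_le_mul_of_nonneg_left hx1 hY0
      have := mul_le_mul_of_nonneg_left this hη0.le
      linarith
    linarith
  -- the exceptional windows
  have hexc : ∀ i : ι, ∀ z : ℕ, ((z : ℝ)) * V (some i) ≤ x0 →
      ∑ n ∈ Om, (if 1 ≤ Wc (G none) n Δ ∧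
        1 ≤ Wc (G (some i)) (n + mo (fun i => Rel none (some i)) Δ i z) Δ then (1 : ℝ) else 0) ≤
      Y * (C * x ^ 2) + 3 * (η * Y) := by
    intro i z hz
    obtain ⟨m, hm⟩ : ∃ m, m = mo (fun i => Rel none (some i)) Δ i z := ⟨_, rfl⟩
    have hm1 : m ≤ Δ + z := by rw [hm]; exact mo_le _ _ _ _
    have hm2 : Rel none (some i) → Δ ≤ m := fun h => by rw [hm]; exact le_mo _ _ _ _ h
    rw [← hm]
    have hmr : (m : ℝ) ≤ Δ + z := by exact_mod_cast hm1
    have hVi := hV (some i)
    have hmV : ((m : ℝ) + Δ) * V (some i) ≤ x0 + 1 := by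
      have h5 : ((m : ℝ) + Δ) * V (some i) ≤ (Δ + z + Δ) * V (some i) :=
        mul_le_mul_of_nonneg_right (by linarith) hVi.le
      have h6 := hΔV (some i)
      linarith
    have hmV0 : ((m : ℝ) + (0 : ℕ)) * V (some i) ≤ x0 + 1 := by
      refine le_trans ?_ hmV
      apply mul_le_mul_of_nonneg_right _ hVi.le
      push_cast
      linarith
    have k2 := hpairw i m 0 Δ (fun _ => Nat.zero_le _) (by simp) hmV
    have k3 := hpairw i m Δ Δ hm2 (by rw [← hx]; exact hx1) hmV
    simp only [Wc_zero, true_and, Nat.cast_zero, zero_mul, zero_add] at k2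
    have h5 := pair_count (fun n => Wc (G none) n Δ = 0) (fun n => Wc (G (some i)) (n + m) Δ = 0)
      Om Y η x (Δ * V (some i)) hcard hxpos.le (by positivity) hY0 hw0 k2 (by
        rw [← hx] at k3
        exact k3)
    have e1 : ∀ n, (1 ≤ Wc (G none) n Δ ∧ 1 ≤ Wc (G (some i)) (n + m) Δ) ↔
        (¬ Wc (G none) n Δ = 0 ∧ ¬ Wc (G (some i)) (n + m) Δ = 0) := by
      intro n
      rw [Nat.one_le_iff_ne_zero, Nat.one_le_iff_ne_zero]
    have e2 : ∑ n ∈ Om, (if 1 ≤ Wc (G none) n Δ ∧ 1 ≤ Wc (G (some i)) (n + m) Δ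
        then (1 : ℝ) else 0) = ∑ n ∈ Om, (if ¬ Wc (G none) n Δ = 0 ∧ ¬ Wc (G (some i)) (n + m) Δ = 0
        then (1 : ℝ) else 0) := by
      apply Finset.sum_congr rfl
      intro n _
      by_cases hc : (1 ≤ Wc (G none) n Δ ∧ 1 ≤ Wc (G (some i)) (n + m) Δ)
      · rw [if_pos hc, if_pos ((e1 n).1 hc)]
      · rw [if_neg hc, if_neg (fun h => hc ((e1 n).2 h))]
    rw [e2]
    refine h5.trans ?_
    have h6 : x * (Δ * V (some i)) ≤ C * x ^ 2 := by
      have := mul_le_mul_of_nonneg_left (hΔV (some i)) hxpos.le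
      linarith
    have h7 := mul_le_mul_of_nonneg_left h6 hY0
    linarith
  have hexcs : ∑ n ∈ Om, ∑ i, ((if 1 ≤ Wc (G none) n Δ ∧
        1 ≤ Wc (G (some i)) (n + mo (fun i => Rel none (some i)) Δ i (a i)) Δ then (1 : ℝ) else 0) +
        (if 1 ≤ Wc (G none) n Δ ∧
          1 ≤ Wc (G (some i)) (n + mo (fun i => Rel none (some i)) Δ i (a i + T i)) Δ
          then (1 : ℝ) else 0)) ≤ k * (2 * (Y * (C * x ^ 2) + 3 * (η * Y))) := by
    rw [Finset.sum_comm]
    have h5 : ∀ i ∈ (univ : Finset ι), ∑ n ∈ Om, ((if 1 ≤ Wc (G none) n Δ ∧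
        1 ≤ Wc (G (some i)) (n + mo (fun i => Rel none (some i)) Δ i (a i)) Δ then (1 : ℝ) else 0) +
        (if 1 ≤ Wc (G none) n Δ ∧
          1 ≤ Wc (G (some i)) (n + mo (fun i => Rel none (some i)) Δ i (a i + T i)) Δ
          then (1 : ℝ) else 0)) ≤ 2 * (Y * (C * x ^ 2) + 3 * (η * Y)) := by
      intro i _
      rw [Finset.sum_add_distrib]
      have hVi := hV (some i)
      have h6 := hexc i (a i) (by
        refine le_trans ?_ (hT i)
        apply mul_le_mul_of_nonneg_right _ hVi.le
        have : (0 : ℝ) ≤ T i := Nat.cast_nonneg _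
        linarith)
      have h7 := hexc i (a i + T i) (by
        push_cast
        exact hT i)
      linarith
    refine (Finset.sum_le_sum h5).trans (le_of_eq ?_)
    rw [Finset.sum_const, Finset.card_univ, ← hk, nsmul_eq_mul]
  -- assembly
  obtain ⟨R, hRdef⟩ : ∃ R, R = ∑ n ∈ Om, (Wc q n Δ : ℝ) := ⟨_, rfl⟩
  obtain ⟨L, hLdef⟩ : ∃ L, L = ∑ n ∈ Om, (if Wc (G none) n Δ = 1 ∧
      ∀ i, Wc (G (some i)) (n + (Δ + a i)) (T i) ∈ A i then (1 : ℝ) else 0) := ⟨_, rfl⟩
  rw [← hRdef] at hR hpt
  rw [← hLdef] at hL1 hpt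
  have hexp1 : |Y * (Real.exp (-x) * x * P) - Y * (x * P)| ≤ Y * x ^ 2 := by
    have h5 : 1 - x ≤ Real.exp (-x) := by
      have := Real.add_one_le_exp (-x)
      linarith
    have h6 : Real.exp (-x) ≤ 1 := Real.exp_le_one_iff.2 (by linarith)
    have h7 : 0 ≤ x * P := mul_nonneg hxpos.le hP0
    have h8 : x * P ≤ x := mul_le_of_le_one_right hxpos.le hP1
    have h9 : |Real.exp (-x) * x * P - x * P| ≤ x ^ 2 := by
      have e : Real.exp (-x) * x * P - x * P = (Real.exp (-x) - 1) * (x * P) := by ring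
      rw [e, abs_mul, abs_of_nonneg h7]
      have h10 : |Real.exp (-x) - 1| ≤ x := by
        rw [abs_le]
        constructor <;> linarith
      calc |Real.exp (-x) - 1| * (x * P) ≤ x * x := mul_le_mul h10 h8 h7 hxpos.le
        _ = x ^ 2 := by ring
    rw [← mul_sub, abs_mul, abs_of_nonneg hY0]
    exact mul_le_mul_of_nonneg_left h9 hY0
  have hfin : |Δ * c0 - Y * (x * P)| ≤ 3 * (Δ : ℝ) ^ 2 + Y * (x ^ 2 * (3 + 2 * k * C)) +
      Y * (η * (5 + 6 * k)) := by
    have h5 := abs_sub_le (Δ * c0) R (Y * (x * P))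
    have h6 := abs_sub_le R L (Y * (x * P))
    have h7 := abs_sub_le L (Y * (Real.exp (-x) * x * P)) (Y * (x * P))
    rw [abs_sub_comm] at hR
    linarith
  have hmul : |Δ * c0 - Y * (x * P)| = Δ * |c0 - Y * V none * P| := by
    have e : (Δ : ℝ) * c0 - Y * (x * P) = Δ * (c0 - Y * V none * P) := by
      rw [hx]
      ring
    rw [e, abs_mul, abs_of_pos hΔpos]
  rw [hmul] at hfin
  have hb1 : x ^ 2 * (3 + 2 * k * C) ≤ ε / 4 * x := by
    have h5 : x * (3 + 2 * k * C) ≤ ε / 4 := by
      have h6 : x * (3 + 2 * k * C) ≤ 2 * κ * (3 + 2 * k * C) :=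
        mul_le_mul_of_nonneg_right hΔ2 (by positivity)
      linarith
    calc x ^ 2 * (3 + 2 * k * C) = x * (x * (3 + 2 * k * C)) := by ring
      _ ≤ x * (ε / 4) := mul_le_mul_of_nonneg_left h5 hxpos.le
      _ = ε / 4 * x := by ring
  have hb2 : η * (5 + 6 * k) ≤ ε / 4 * x := by
    have h5 : ε * κ ≤ ε * x := mul_le_mul_of_nonneg_left hΔ1 hε.le
    linarith
  have hb3 : 3 * (Δ : ℝ) ^ 2 ≤ ε / 4 * (Y * x) := by
    have h6 : 3 * η * x ≤ ε / 4 := by
      have h7 := mul_le_mul_of_nonneg_left hΔ2 (by positivity : (0 : ℝ) ≤ 3 * η)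
      linarith
    calc 3 * (Δ : ℝ) ^ 2 = 3 * ((Δ : ℝ) ^ 2 * 1) := by ring
      _ ≤ 3 * ((Δ : ℝ) ^ 2 * (η * (Y * V none ^ 2))) := by
        apply mul_le_mul_of_nonneg_left _ (by norm_num)
        exact mul_le_mul_of_nonneg_left hbd (by positivity)
      _ = 3 * η * x * (Y * x) := by rw [hx]; ring
      _ ≤ ε / 4 * (Y * x) := mul_le_mul_of_nonneg_right h6 (by positivity)
  have hfin2 : Δ * |c0 - Y * V none * P| ≤ Δ * (ε * (Y * V none)) := by
    have e : (Δ : ℝ) * (ε * (Y * V none)) = ε * (Y * x) := by rw [hx]; ring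
    rw [e]
    have h5 := mul_le_mul_of_nonneg_left hb1 hY0
    have h6 := mul_le_mul_of_nonneg_left hb2 hY0
    have h7 : 0 ≤ ε * (Y * x) := by positivity
    linarith
  exact le_of_mul_le_mul_left hfin2 hΔpos

end Pool.Agent.Y175.JP
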