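import Pool.Agent.Y175.JP.PalmB
import Pool.Agent.Y175.JP.Fin

set_option autoImplicit false

/-!
# The process of the patterns seen from an occurrence of a pattern

Author: helper175.
-/

namespace Pool.Agent.Y175.JP

open Finset Filter Polynomial Pool.Agent.Y175.PW
open Pool.Agent.Y871.AP Pool.Agent.TH464.PO Pool.Agent.W123.RU.Poly Pool.Agent.W123.RP
open Pool.Agent.W123.RU Pool.Agent.H373R2.T7

variable {ι : Type} [Fintype ι]

open Classical in
/-- **The law seen from an occurrence of a pattern**, for the sifted integers. -/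
theorem pat_palm (f : ℤ[X]) (hf : Irp f) (H : Option ι → Finset ℕ) (h0 : ∀ o, 0 ∈ H o)
    (hadm : ∀ o, AdmP f (H o)) (D : Option ι → ℕ) (hle : ∀ i, (H none).card ≤ (H (some i)).card)
    (θ : ℝ) (hθ : 0 < θ) (x0 ε : ℝ) (hx0 : 0 ≤ x0) (hε : 0 < ε) :
    ∃ r0 : ℕ, ∀ r : ℕ, r0 ≤ r → ∀ᶠ X : ℕ in atTop, ∀ Z Y : ℕ, (X : ℝ) ^ θ ≤ Y →
      ∀ a T : ι → ℕ,
      (∀ i j, i ≠ j → H (some i) = H (some j) → a i + T i ≤ a j ∨ a j + T j ≤ a i) →
      (∀ i, ((a i : ℝ) + T i) * Vq (QF (PF f (H (some i)))) ⌊(X : ℝ) ^ (1 / (r : ℝ))⌋₊ ≤ x0) →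
      ∀ A : ι → Finset ℕ,
        |(((Ioc Z (Z + Y)).filter (fun b =>
            EP (Sv f ⌊(X : ℝ) ^ (1 / (r : ℝ))⌋₊) (H none) (D none) b ∧
            ∀ i, Wc (EP (Sv f ⌊(X : ℝ) ^ (1 / (r : ℝ))⌋₊) (H (some i)) (D (some i)))
              (b + a i) (T i) ∈ A i)).card : ℝ) -
          Y * Vq (QF (PF f (H none))) ⌊(X : ℝ) ^ (1 / (r : ℝ))⌋₊ *
            ∏ i, PoA (T i * Vq (QF (PF f (H (some i)))) ⌊(X : ℝ) ^ (1 / (r : ℝ))⌋₊) (A i)| ≤
          ε * (Y * Vq (QF (PF f (H none))) ⌊(X : ℝ) ^ (1 / (r : ℝ))⌋₊) := by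
  have hS : ∀ o, SysF (PF f (H o)) := fun o => PF_sys f hf (H o) ⟨0, h0 o⟩ (hadm o)
  obtain ⟨v, Cv, hv, hCv, hV⟩ := V_all (fun o : Option ι => PF f (H o)) hS
  obtain ⟨C, hC⟩ : ∃ C, C = max 1 (Cv / v) := ⟨_, rfl⟩
  have hC1 : 1 ≤ C := by rw [hC]; exact le_max_left _ _
  obtain ⟨η, hη, hη1, hpalm⟩ := palm_of_law (ι := ι) C x0 ε hC1 hx0 hε
  obtain ⟨r1, h1⟩ := pat_windows f hf H h0 hadm D θ hθ (x0 + 1) η (by linarith) hη
  obtain ⟨r2, h2⟩ := count_sys (PF f (H none)) (hS none) θ hθ η hη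
  refine ⟨r1 + r2 + 2, ?_⟩
  intro r hr
  have hyt : Tendsto (fun X : ℕ => ⌊(X : ℝ) ^ (1 / (r : ℝ))⌋₊) atTop atTop :=
    tendsto_nat_floor_atTop.comp ((tendsto_rpow_atTop (by
      have : (0 : ℝ) < r := by exact_mod_cast (by omega : 0 < r)
      positivity)).comp tendsto_natCast_atTop_atTop)
  filter_upwards [h1 r (by omega), h2 r (by omega),
    sizes (PF f (H none)) (hS none) θ hθ (1 / η) (by positivity) r (by omega),
    hyt.eventually_ge_atTop 3] with X hX1 hX2 hX3 hX4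
  intro Z Y hXY a T hdj hT A
  obtain ⟨y, hy⟩ : ∃ y, y = ⌊(X : ℝ) ^ (1 / (r : ℝ))⌋₊ := ⟨_, rfl⟩
  rw [← hy] at hX1 hX2 hX3 hX4 hT ⊢
  obtain ⟨hV0, hV1, hV2⟩ := hX3
  have hVp : ∀ o, 0 < Vq (QF (PF f (H o))) y := fun o => Vq_pos _ (fun p hp => adm_F (hS o) p hp) y
  have hL : 1 ≤ Real.log y := by
    have h3 : (3 : ℝ) ≤ y := by exact_mod_cast hX4
    rw [Real.le_log_iff_exp_le (by linarith)]
    have := Real.exp_one_lt_d9
    linarith
  have hLpos : 0 < Real.log y := by linarith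
  refine hpalm (fun o => EP (Sv f y) (H o) (D o)) (Sf (QF (PF f (H none))) y)
    (fun o => Vq (QF (PF f (H o))) y) (fun o o' => H o = H o') Z Y ?_ ?_ ?_ hVp ?_ ?_ ?_ ?_ ?_
    a T hdj hT A
  · intro m hm
    exact (sf_PF f _ y m).2 hm.1
  · intro i hi m hm
    beta_reduce at hi
    rw [hi]
    exact (sf_PF f _ y m).2 hm.1
  · intro o o' h
    exact h.symm
  · intro o
    obtain ⟨hlo, -⟩ := hV none y hX4
    obtain ⟨-, hup⟩ := hV o y hX4
    simp only [PF_card f hf] at hlo hup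
    have hcle : (H none).card ≤ (H o).card := by
      cases o with
      | none => exact le_rfl
      | some i => exact hle i
    calc Vq (QF (PF f (H o))) y ≤ Cv / Real.log y ^ (H o).card := hup
      _ ≤ Cv / Real.log y ^ (H none).card := by
        apply div_le_div_of_nonneg_left hCv.le (by positivity)
        exact pow_le_pow_right₀ hL hcle
      _ = Cv / v * (v / Real.log y ^ (H none).card) := by field_simp
      _ ≤ Cv / v * Vq (QF (PF f (H none))) y := mul_le_mul_of_nonneg_left hlo (by positivity)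
      _ ≤ C * Vq (QF (PF f (H none))) y := by
        apply mul_le_mul_of_nonneg_right _ (hVp none).le
        rw [hC]
        exact le_max_right _ _
  · rw [div_mul_eq_mul_div, one_mul, div_le_one hη] at hV1
    exact hV1
  · have h3 : 1 / η ≤ Y * Vq (QF (PF f (H none))) y ^ 2 :=
      hV2.trans (mul_le_mul_of_nonneg_right hXY (by positivity))
    rw [div_le_iff₀ hη] at h3
    linarith
  · have h3 := (abs_le.1 (hX2 Z Y hXY)).2
    linarith
  · intro a' T' hd' hT' A'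
    exact hX1 Z Y hXY a' T' hd' (fun o => by
      push_cast
      exact hT' o) A'

omit [Fintype ι] in
lemma occ_eq {v : ℕ → ℤ} {d : ℕ} {P : ℤ[X]} {r X y : ℕ}
    (hX3 : ∀ m : ℕ, m ≤ 3 * X → (Sv P y m ↔ Good v d r X m)) (H : Finset ℕ) (D : ℕ)
    (hD : ∀ h ∈ H, h ≤ D) (m : ℕ) (hm : m + D ≤ 3 * X) :
    Occurs v d r X H D m ↔ EP (Sv P y) H D m := by
  have hg : ∀ j : ℕ, j ≤ D → (Sv P y (m + j) ↔ Good v d r X (m + j)) := fun j hj =>
    hX3 (m + j) (by omega)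
  unfold Occurs EP
  constructor
  · intro h
    refine ⟨?_, ?_⟩
    · intro h' hh'
      have hh := hD h' hh'
      exact (hg h' hh).2 ((h h' hh).2 hh')
    · intro j hj hjH hs'
      exact hjH ((h j hj).1 ((hg j hj).1 hs'))
  · rintro ⟨h3, h4⟩ j hj
    constructor
    · intro hgo
      by_contra hjH
      exact h4 j hj hjH ((hg j hj).2 hgo)
    · intro hjH
      exact (hg j hj).1 (h3 j hjH)

open Classical in
/-- **The process of the patterns seen from a typical occurrence of a pattern.** -/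
theorem palm_law {v : ℕ → ℤ} {d : ℕ} {P : ℤ[X]} (hP : Vals v d P)
    (H0 : Finset ℕ) (D0 : ℕ) (H : ι → Finset ℕ) (D : ι → ℕ)
    (h00 : 0 ∈ H0) (hD0 : ∀ h ∈ H0, h ≤ D0) (hadm0 : Admissible v H0)
    (h0 : ∀ i, 0 ∈ H i) (hD : ∀ i, ∀ h ∈ H i, h ≤ D i) (hadm : ∀ i, Admissible v (H i))
    (hle : ∀ i, H0.card ≤ (H i).card) (θ : ℝ) (hθ : 0 < θ) (x0 ε : ℝ) (hε : 0 < ε) :
    ∃ r0 : ℕ, ∀ r : ℕ, r0 ≤ r → ∀ᶠ X : ℕ in atTop, ∀ Y : ℕ, (X : ℝ) ^ θ ≤ Y → Y ≤ X →
      ∀ a T : ι → ℕ,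
      (∀ i j, i ≠ j → H i = H j → (a i + T i ≤ a j ∨ a j + T j ≤ a i)) →
      (∀ i, ((a i : ℝ) + T i) * VH v (H i) r X ≤ x0) →
      ∀ B : Finset (ι → ℕ),
        |(((Finset.Ioc X (X + Y)).filter (fun b => Occurs v d r X H0 D0 b ∧
            (fun i => Occ v d r X (H i) (D i) (b + a i) (b + a i + T i)) ∈ B)).card : ℝ) -
          Y * VH v H0 r X * ∑ j ∈ B, ∏ i, poisson (T i * VH v (H i) r X) (j i)| ≤
          ε * (Y * VH v H0 r X) := by
  obtain ⟨x1, hx1⟩ : ∃ x1, x1 = max x0 0 := ⟨_, rfl⟩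
  have hx10 : 0 ≤ x1 := by rw [hx1]; exact le_max_right _ _
  have hx01 : x0 ≤ x1 := by rw [hx1]; exact le_max_left _ _
  obtain ⟨ε', hε', hvec⟩ := vec_law (ι := ι) x1 (ε / 4) (by positivity)
  obtain ⟨δ, hδ⟩ : ∃ δ : ℝ, δ = min (min (ε' / 4) (1 / 2)) (ε / 2) := ⟨_, rfl⟩
  have hδ0 : 0 < δ := by rw [hδ]; positivity
  have hδ1 : δ ≤ ε' / 4 := by rw [hδ]; exact (min_le_left _ _).trans (min_le_left _ _)
  have hδ2 : δ ≤ 1 / 2 := by rw [hδ]; exact (min_le_left _ _).trans (min_le_right _ _)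
  have hδ3 : δ ≤ ε / 2 := by rw [hδ]; exact min_le_right _ _
  obtain ⟨r1, h1⟩ := pat_palm P (irp hP) (fun o => o.elim H0 H) (by
      intro o
      cases o with
      | none => exact h00
      | some i => exact h0 i) (by
      intro o
      cases o with
      | none => exact admP hP hadm0
      | some i => exact admP hP (hadm i)) (fun o => o.elim D0 D) (fun i => hle i) θ hθ x1 δ hx10 hδ0
  refine ⟨r1 + 2, ?_⟩
  intro r hr
  have hsz : ∀ i : ι, ∀ᶠ X : ℕ in atTop,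
      0 < Vq (QF (PF P (H i))) ⌊(X : ℝ) ^ (1 / (r : ℝ))⌋₊ ∧
      (2 * x1 + 1) * Vq (QF (PF P (H i))) ⌊(X : ℝ) ^ (1 / (r : ℝ))⌋₊ ≤ 1 ∧
      (2 * x1 + 1) ≤ (X : ℝ) ^ (1 : ℝ) * Vq (QF (PF P (H i))) ⌊(X : ℝ) ^ (1 / (r : ℝ))⌋₊ ^ 2 := by
    intro i
    exact sizes (PF P (H i)) (PF_sys P (irp hP) (H i) ⟨0, h0 i⟩ (admP hP (hadm i))) 1 one_pos
      (2 * x1 + 1) (by positivity) r (by omega)
  have hS0 := PF_sys P (irp hP) H0 ⟨0, h00⟩ (admP hP hadm0)
  filter_upwards [h1 r (by omega), Filter.eventually_all.2 hsz, sv_good hP r (by omega),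
    eventually_ge_atTop (2 * (∑ i, D i + D0)),
    sizes (PF P H0) hS0 1 one_pos 1 one_pos r (by omega)] with X hX hX2 hX3 hX4 hX5
  intro Y hXY hYX a T hdj hT B
  obtain ⟨y, hy⟩ : ∃ y, y = ⌊(X : ℝ) ^ (1 / (r : ℝ))⌋₊ := ⟨_, rfl⟩
  have hVH : ∀ i, VH v (H i) r X = Vq (QF (PF P (H i))) y := fun i => by
    rw [hy]; exact (VH_eq hP (H i) r X).symm
  have hVH0 : VH v H0 r X = Vq (QF (PF P H0)) y := by
    rw [hy]; exact (VH_eq hP H0 r X).symm
  rw [← hy] at hX hX2 hX3 hX5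
  simp only [hVH] at hT ⊢
  rw [hVH0]
  have hVpos : ∀ i, 0 < Vq (QF (PF P (H i))) y := fun i => (hX2 i).1
  have hV00 : 0 < Vq (QF (PF P H0)) y := hX5.1
  -- the windows are short
  have hshort : ∀ i, 2 * (a i + T i) ≤ X := by
    intro i
    obtain ⟨hV0, hV1, hV2⟩ := hX2 i
    rw [Real.rpow_one] at hV2
    have hV3 : Vq (QF (PF P (H i))) y ≤ 1 := by nlinarith
    have h2 : ((a i : ℝ) + T i) * Vq (QF (PF P (H i))) y ≤ x1 := (hT i).trans hx01
    have h3 : 2 * ((a i : ℝ) + T i) ≤ X := by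
      by_contra hcon
      rw [not_le] at hcon
      have h4 : (X : ℝ) * Vq (QF (PF P (H i))) y ≤ 2 * x1 := by
        have := mul_lt_mul_of_pos_right hcon hV0
        nlinarith
      have hXn : (0 : ℝ) ≤ X := Nat.cast_nonneg X
      have h5 : (X : ℝ) * Vq (QF (PF P (H i))) y ^ 2 ≤ (X : ℝ) * Vq (QF (PF P (H i))) y := by
        rw [pow_two, ← mul_assoc]
        nlinarith [mul_nonneg hXn hV0.le]
      linarith
    have h4 : ((2 * (a i + T i) : ℕ) : ℝ) ≤ X := by push_cast; exact h3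
    exact_mod_cast h4
  have hDi : ∀ i, 2 * D i ≤ X := by
    intro i
    have h2 : D i ≤ ∑ i, D i := Finset.single_le_sum (f := fun i => D i) (fun _ _ => Nat.zero_le _) (mem_univ i)
    omega
  have hlaw := hX X Y hXY
  simp only [Option.elim] at hlaw
  -- the occurrences of `H0`
  obtain ⟨Om, hOm⟩ : ∃ Om, Om = (Finset.Ioc X (X + Y)).filter (EP (Sv P y) H0 D0) := ⟨_, rfl⟩
  obtain ⟨W, hW⟩ : ∃ W : ℕ → ι → ℕ, W = fun b i => Occ v d r X (H i) (D i) (b + a i) (b + a i + T i) :=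
    ⟨_, rfl⟩
  have hocc0 : ∀ b, b ∈ Om ↔ b ∈ Finset.Ioc X (X + Y) ∧ Occurs v d r X H0 D0 b := by
    intro b
    rw [hOm, mem_filter]
    apply and_congr_right
    intro hb
    rw [mem_Ioc] at hb
    exact (occ_eq hX3 H0 D0 hD0 b (by omega)).symm
  have hOcc : ∀ n ∈ Finset.Ioc X (X + Y), ∀ i, W n i =
      Wc (EP (Sv P y) (H i) (D i)) (n + a i) (T i) := by
    intro n hn i
    rw [mem_Ioc] at hn
    rw [hW]
    unfold Occ Wc
    apply congrArg
    ext m
    rw [mem_filter, mem_filter]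
    apply and_congr_right
    intro hm
    rw [mem_Ioc] at hm
    have hs := hshort i
    have hd := hDi i
    exact occ_eq hX3 (H i) (D i) (hD i) m (by omega)
  have hcnt : ∀ A : ι → Finset ℕ, |((Om.filter (fun n => ∀ i, W n i ∈ A i)).card : ℝ) -
      Y * Vq (QF (PF P H0)) y * ∏ i, PoA (T i * Vq (QF (PF P (H i))) y) (A i)| ≤
      δ * (Y * Vq (QF (PF P H0)) y) := by
    intro A
    have h2 := hlaw a T hdj (fun i => (hT i).trans hx01) A
    have e : (Om.filter (fun n => ∀ i, W n i ∈ A i)).card =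
        ((Finset.Ioc X (X + Y)).filter (fun b => EP (Sv P y) H0 D0 b ∧
          ∀ i, Wc (EP (Sv P y) (H i) (D i)) (b + a i) (T i) ∈ A i)).card := by
      apply congrArg
      ext b
      rw [mem_filter, mem_filter, hOm, mem_filter, and_assoc]
      apply and_congr_right
      intro hb
      apply and_congr_right
      intro _
      apply forall_congr'
      intro i
      rw [hOcc b hb i]
    rw [e]
    exact h2
  have htot : |(Om.card : ℝ) - Y * Vq (QF (PF P H0)) y| ≤ δ * (Y * Vq (QF (PF P H0)) y) := by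
    have h2 := hlaw (fun _ => 0) (fun _ => 0) (fun _ _ _ _ => Or.inl le_rfl) (fun i => by
      simp only [Nat.cast_zero, add_zero, zero_mul]
      exact hx10) (fun _ => {0})
    have e1 : ∏ i : ι, PoA (((0 : ℕ) : ℝ) * Vq (QF (PF P (H i))) y) {0} = 1 := by
      apply Finset.prod_eq_one
      intro i _
      rw [PoA_zero_single]
      simp
    rw [e1, mul_one] at h2
    have e : Om.card = ((Finset.Ioc X (X + Y)).filter (fun b => EP (Sv P y) H0 D0 b ∧
          ∀ i, Wc (EP (Sv P y) (H i) (D i)) (b + 0) 0 ∈ ({0} : Finset ℕ))).card := by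
      apply congrArg
      ext b
      rw [hOm, mem_filter, mem_filter]
      apply and_congr_right
      intro _
      constructor
      · intro h3
        exact ⟨h3, fun i => by rw [Wc_zero]; exact mem_singleton_self 0⟩
      · exact fun h3 => h3.1
    rw [e]
    exact h2
  obtain ⟨M, hM⟩ : ∃ M, M = Y * Vq (QF (PF P H0)) y := ⟨_, rfl⟩
  rw [← hM] at htot hcnt ⊢
  have hM0 : 0 ≤ M := by rw [hM]; positivity
  have htot' := abs_le.1 htot
  have hMle : M ≤ 2 * (Om.card : ℝ) := by nlinarith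
  have hprod : ∀ A : ι → Finset ℕ, 0 ≤ ∏ i, PoA (T i * Vq (QF (PF P (H i))) y) (A i) ∧
      ∏ i, PoA (T i * Vq (QF (PF P (H i))) y) (A i) ≤ 1 := by
    intro A
    have hx : ∀ i, 0 ≤ (T i : ℝ) * Vq (QF (PF P (H i))) y := fun i =>
      mul_nonneg (Nat.cast_nonneg _) (hVpos i).le
    exact ⟨Finset.prod_nonneg fun i _ => PoA_nonneg _ (hx i) _,
      Finset.prod_le_one (fun i _ => PoA_nonneg _ (hx i) _) (fun i _ => PoA_le_one _ (hx i) _)⟩
  have hmain := hvec Om W (fun i => T i * Vq (QF (PF P (H i))) y)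
    (fun i => mul_nonneg (Nat.cast_nonneg _) (hVpos i).le)
    (fun i => by
      refine le_trans ?_ ((hT i).trans hx01)
      apply mul_le_mul_of_nonneg_right _ (hVpos i).le
      have : (0 : ℝ) ≤ a i := Nat.cast_nonneg _
      linarith) (fun A => by
      obtain ⟨hp0, hp1⟩ := hprod A
      have h2 := abs_le.1 (hcnt A)
      have h3 : |(Om.card : ℝ) * ∏ i, PoA (T i * Vq (QF (PF P (H i))) y) (A i) -
          M * ∏ i, PoA (T i * Vq (QF (PF P (H i))) y) (A i)| ≤ δ * M := by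
        rw [← sub_mul, abs_mul, abs_of_nonneg hp0]
        calc |(Om.card : ℝ) - M| * ∏ i, PoA (T i * Vq (QF (PF P (H i))) y) (A i) ≤
            (δ * M) * 1 := mul_le_mul htot hp1 hp0 (by positivity)
          _ = δ * M := mul_one _
      have h4 := abs_le.1 h3
      have h5 : 2 * (δ * M) ≤ ε' * Om.card := by
        have h6 : 2 * (δ * M) ≤ 2 * (ε' / 4 * M) := by
          have := mul_le_mul_of_nonneg_right hδ1 hM0
          linarith
        have h7 : ε' * M ≤ ε' * (2 * Om.card) := mul_le_mul_of_nonneg_left hMle hε'.le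
        linarith
      rw [abs_le]
      constructor
      · linarith [h2.1, h4.2]
      · linarith [h2.2, h4.1]) B
  have hfil : (((Finset.Ioc X (X + Y)).filter (fun b => Occurs v d r X H0 D0 b ∧
      (fun i => Occ v d r X (H i) (D i) (b + a i) (b + a i + T i)) ∈ B)).card : ℝ) =
      ((Om.filter (fun n => W n ∈ B)).card : ℝ) := by
    apply congrArg
    apply congrArg
    ext b
    rw [mem_filter, mem_filter, hocc0, hW, and_assoc]
  rw [hfil]
  have hxs : ∀ i, 0 ≤ (T i : ℝ) * Vq (QF (PF P (H i))) y := fun i =>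
    mul_nonneg (Nat.cast_nonneg _) (hVpos i).le
  obtain ⟨Sg, hSg⟩ : ∃ Sg : ℝ, Sg = ∑ j ∈ B, ∏ i, pj (T i * Vq (QF (PF P (H i))) y) (j i) := ⟨_, rfl⟩
  have hSg1 : Sg ≤ 1 := by rw [hSg]; exact sum_vec_le _ hxs B
  have hSg0 : 0 ≤ Sg := by
    rw [hSg]
    exact Finset.sum_nonneg fun j _ => Finset.prod_nonneg fun i _ => pj_nonneg _ (hxs i) _
  have hSg' : ∑ j ∈ B, ∏ i, poisson (T i * Vq (QF (PF P (H i))) y) (j i) = Sg := by
    rw [hSg]
    rfl
  rw [hSg']
  rw [← hSg] at hmain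
  have h2 := abs_le.1 hmain
  have h3 : |(Om.card : ℝ) * Sg - M * Sg| ≤ δ * M := by
    rw [← sub_mul, abs_mul, abs_of_nonneg hSg0]
    calc |(Om.card : ℝ) - M| * Sg ≤ (δ * M) * 1 := mul_le_mul htot hSg1 hSg0 (by positivity)
      _ = δ * M := mul_one _
  have h4 := abs_le.1 h3
  have h5 : ε / 4 * (Om.card : ℝ) ≤ ε / 2 * M := by
    have h6 : (Om.card : ℝ) ≤ 2 * M := by nlinarith
    nlinarith
  have h6 : δ * M ≤ ε / 2 * M := mul_le_mul_of_nonneg_right hδ3 hM0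
  rw [abs_le]
  constructor
  · linarith [h2.1, h4.1]
  · linarith [h2.2, h4.2]

end Pool.Agent.Y175.JP
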