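import Pool.Agent.Y175.JP.SysG

set_option autoImplicit false

/-!
# Patterns of the integers with sifted polynomial values

Author: helper175.
-/

namespace Pool.Agent.Y175.JP

open Polynomial Finset Filter
open Pool.Agent.H373R2.T7 Pool.Agent.W123.RP Pool.Agent.W123.RU Pool.Agent.W123.RU.Poly
open Pool.Agent.TH464.PO

open Classical in
/-- the shifts of `f` by the elements of `H` -/
noncomputable def PF (f : ℤ[X]) (H : Finset ℕ) : Finset ℤ[X] :=
  H.image (fun h : ℕ => f.comp (X + C (h : ℤ)))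

/-- an irreducible polynomial of positive degree with positive leading coefficient -/
structure Irp (f : ℤ[X]) : Prop where
  irr : Irreducible f
  deg : 0 < f.natDegree
  lead : 0 < f.leadingCoeff

/-- the pattern `H` is admissible for `f` -/
def AdmP (f : ℤ[X]) (H : Finset ℕ) : Prop :=
  ∀ p : ℕ, p.Prime → ∃ m : ℕ, ∀ h ∈ H, ¬ (p : ℤ) ∣ f.eval ((m + h : ℕ) : ℤ)

lemma comp_irr (f : ℤ[X]) (hf : Irreducible f) (t : ℤ) : Irreducible (f.comp (X + C t)) := by
  rw [comp_eq_aeval]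
  exact (MulEquiv.irreducible_iff (Polynomial.algEquivAevalXAddC t)).2 hf

lemma comp_leadC (f : ℤ[X]) (t : ℤ) : (f.comp (X + C t)).leadingCoeff = f.leadingCoeff := by
  rw [leadingCoeff_comp (by rw [natDegree_X_add_C]; exact one_ne_zero), leadingCoeff_X_add_C,
    one_pow, mul_one]

lemma comp_degC (f : ℤ[X]) (t : ℤ) : (f.comp (X + C t)).natDegree = f.natDegree := by
  rw [natDegree_comp, natDegree_X_add_C, mul_one]

lemma eval_compC (f : ℤ[X]) (t m : ℤ) : (f.comp (X + C t)).eval m = f.eval (m + t) := by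
  rw [eval_comp, eval_add, eval_X, eval_C]

lemma comp_inj_t (f : ℤ[X]) (hf : 0 < f.natDegree) (a b : ℤ)
    (h : f.comp (X + C a) = f.comp (X + C b)) : a = b := by
  rw [comp_eq_iff] at h
  by_contra hab
  apply tr_ne_self {f} (singleton_nonempty f) (fun q hq => by rw [mem_singleton.1 hq]; exact hf)
    (b - a) (sub_ne_zero.2 (Ne.symm hab))
  unfold tr
  rw [image_singleton, ← h]

lemma PF_sys (f : ℤ[X]) (hf : Irp f) (H : Finset ℕ) (hH : H.Nonempty) (hadm : AdmP f H) :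
    SysF (PF f H) := by
  classical
  refine ⟨hH.image _, ?_, ?_, ?_, ?_⟩
  · intro g hg
    obtain ⟨h, _, rfl⟩ := mem_image.1 hg
    exact comp_irr f hf.irr _
  · intro g hg
    obtain ⟨h, _, rfl⟩ := mem_image.1 hg
    rw [comp_degC]
    exact hf.deg
  · intro g hg
    obtain ⟨h, _, rfl⟩ := mem_image.1 hg
    rw [comp_leadC]
    exact hf.lead
  · intro p hp
    obtain ⟨m, hm⟩ := hadm p hp
    refine ⟨m, ?_⟩
    intro g hg
    obtain ⟨h, hh, rfl⟩ := mem_image.1 hg
    rw [eval_compC]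
    have := hm h hh
    push_cast at this
    exact this

lemma PF_card (f : ℤ[X]) (hf : Irp f) (H : Finset ℕ) : (PF f H).card = H.card := by
  classical
  unfold PF
  apply Finset.card_image_of_injective
  intro a b hab
  have := comp_inj_t f hf.deg _ _ hab
  exact_mod_cast this

lemma PF_mem (f : ℤ[X]) (hf : Irp f) (H : Finset ℕ) (h : ℕ) :
    f.comp (X + C (h : ℤ)) ∈ PF f H ↔ h ∈ H := by
  classical
  unfold PF
  rw [mem_image]
  constructor
  · rintro ⟨h', hh', he⟩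
    have := comp_inj_t f hf.deg _ _ he
    have h2 : h' = h := by exact_mod_cast this
    rwa [← h2]
  · intro hh
    exact ⟨h, hh, rfl⟩

/-- different patterns are not translates of each other -/
lemma PF_ne (f : ℤ[X]) (hf : Irp f) (H H' : Finset ℕ) (h0 : 0 ∈ H) (h0' : 0 ∈ H') (hne : H ≠ H')
    (t : ℤ) : PF f H ≠ tr t (PF f H') := by
  classical
  intro he
  have hmem : ∀ s : ℤ, f.comp (X + C s) ∈ PF f H ↔ ∃ h' ∈ H', (h' : ℤ) + t = s := by
    intro s
    rw [he]
    unfold tr PF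
    rw [mem_image]
    constructor
    · rintro ⟨g, hg, hgs⟩
      obtain ⟨h', hh', rfl⟩ := mem_image.1 hg
      refine ⟨h', hh', ?_⟩
      rw [comp_comp_C] at hgs
      exact comp_inj_t f hf.deg _ _ hgs
    · rintro ⟨h', hh', rfl⟩
      exact ⟨f.comp (X + C (h' : ℤ)), mem_image_of_mem _ hh', comp_comp_C _ _ _⟩
  have h1 : ∃ h' ∈ H', (h' : ℤ) + t = 0 := (hmem 0).1 (by
    have := (PF_mem f hf H 0).2 h0
    simpa using this)
  have h2 : ∃ h : ℕ, (h : ℤ) = t := by
    have h3 : f.comp (X + C t) ∈ PF f H := (hmem t).2 ⟨0, h0', by simp⟩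
    unfold PF at h3
    obtain ⟨h, _, hh⟩ := mem_image.1 h3
    exact ⟨h, comp_inj_t f hf.deg _ _ hh⟩
  obtain ⟨h', _, e1⟩ := h1
  obtain ⟨h, e2⟩ := h2
  have ht : t = 0 := by
    have h3 : (0 : ℤ) ≤ h' := Int.natCast_nonneg _
    have h4 : (0 : ℤ) ≤ h := Int.natCast_nonneg _
    omega
  subst ht
  apply hne
  ext s
  rw [← PF_mem f hf H s, hmem]
  constructor
  · rintro ⟨h'', hh'', e⟩
    rw [add_zero] at e
    have : h'' = s := by exact_mod_cast e
    rwa [← this]
  · intro hs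
    exact ⟨s, hs, by rw [add_zero]⟩

/-- the sifted integers -/
def Sv (f : ℤ[X]) (y n : ℕ) : Prop := ∀ p ∈ pz y, ¬ (p : ℤ) ∣ f.eval (n : ℤ)

lemma sf_PF (f : ℤ[X]) (H : Finset ℕ) (y n : ℕ) :
    Sf (QF (PF f H)) y n ↔ ∀ h ∈ H, Sv f y (n + h) := by
  classical
  unfold Sf QF PF Sv
  constructor
  · intro hs h hh p hp hd
    apply hs p hp
    refine ⟨_, mem_image_of_mem _ hh, ?_⟩
    rw [eval_compC]
    push_cast at hd
    exact hd
  · rintro hs p hp ⟨g, hg, hd⟩
    obtain ⟨h, hh, rfl⟩ := mem_image.1 hg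
    apply hs h hh p hp
    rw [eval_compC] at hd
    push_cast
    exact hd

/-- the pattern `H` at `n`, with no other element of `g` in `[n, n + D]` -/
def EP (g : ℕ → Prop) (H : Finset ℕ) (D n : ℕ) : Prop :=
  (∀ h ∈ H, g (n + h)) ∧ ∀ d : ℕ, d ≤ D → d ∉ H → ¬ g (n + d)

open Classical in
lemma Wc_le_sum (g : ℕ → Prop) (Z Y a T : ℕ) :
    ((Ioc Z (Z + Y)).filter (fun n => ∃ m, n + a < m ∧ m ≤ n + a + T ∧ g m)).card ≤
      T * ((Ioc (Z + a) (Z + a + (Y + T))).filter g).card := by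
  have hsub : (Ioc Z (Z + Y)).filter (fun n => ∃ m, n + a < m ∧ m ≤ n + a + T ∧ g m) ⊆
      ((Ioc (Z + a) (Z + a + (Y + T))).filter g).biUnion (fun m =>
        (Ico (m - (a + T)) (m - a)).filter (fun n => n + a < m ∧ m ≤ n + a + T)) := by
    intro n hn
    rw [mem_filter, mem_Ioc] at hn
    obtain ⟨hn1, m, hm1, hm2, hm3⟩ := hn
    rw [mem_biUnion]
    refine ⟨m, mem_filter.2 ⟨mem_Ioc.2 ⟨by omega, by omega⟩, hm3⟩, ?_⟩
    rw [mem_filter, mem_Ico]
    exact ⟨⟨by omega, by omega⟩, hm1, hm2⟩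
  refine (card_le_card hsub).trans ?_
  rw [mul_comm]
  apply Finset.card_biUnion_le_card_mul
  intro m _
  refine (card_filter_le _ _).trans ?_
  rw [Nat.card_Ico]
  omega

open Classical in
/-- few windows contain a larger pattern -/
theorem extra (f : ℤ[X]) (hf : Irp f) (H : Finset ℕ) (hH : H.Nonempty) (hadm : AdmP f H) (d : ℕ)
    (hd : d ∉ H) (θ : ℝ) (hθ : 0 < θ) (x0 η : ℝ) (hη : 0 < η) :
    ∃ r0 : ℕ, ∀ r : ℕ, r0 ≤ r → ∀ᶠ X : ℕ in atTop, ∀ Z Y : ℕ, (X : ℝ) ^ θ ≤ Y →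
      ∀ a T : ℕ, T * Vq (QF (PF f H)) ⌊(X : ℝ) ^ (1 / (r : ℝ))⌋₊ ≤ x0 →
      (((Ioc Z (Z + Y)).filter (fun n => ∃ m, n + a < m ∧ m ≤ n + a + T ∧
        ∀ h ∈ insert d H, Sv f ⌊(X : ℝ) ^ (1 / (r : ℝ))⌋₊ (m + h))).card : ℝ) ≤ η * Y := by
  by_cases hadm' : AdmP f (insert d H)
  · have hS := PF_sys f hf H hH hadm
    have hS' := PF_sys f hf (insert d H) (insert_nonempty _ _) hadm'
    obtain ⟨r1, h1⟩ := count_sys (PF f (insert d H)) hS' θ hθ 1 one_pos
    obtain ⟨v, Cv, hv, hCv, hV⟩ := V_all (ι := Fin 2)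
      (fun i => if i = 0 then PF f H else PF f (insert d H)) (fun i => by
        split_ifs
        · exact hS
        · exact hS')
    obtain ⟨x1, hx1⟩ : ∃ x1, x1 = |x0| + 1 := ⟨_, rfl⟩
    have hx1pos : 0 < x1 := by rw [hx1]; positivity
    have hx01 : x0 ≤ x1 := by
      rw [hx1]
      have := le_abs_self x0
      linarith
    refine ⟨max r1 2, ?_⟩
    intro r hr
    have hr2 : 2 ≤ r := (le_max_right _ _).trans hr
    have hrr : (2 : ℝ) ≤ r := by exact_mod_cast hr2
    have hpow2 : Tendsto (fun X : ℕ => (X : ℝ) ^ (1 / (2 * r : ℝ))) atTop atTop :=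
      (tendsto_rpow_atTop (by positivity)).comp tendsto_natCast_atTop_atTop
    have hlogX : Tendsto (fun X : ℕ => Real.log (X : ℝ)) atTop atTop :=
      Real.tendsto_log_atTop.comp tendsto_natCast_atTop_atTop
    filter_upwards [h1 r ((le_max_left _ _).trans hr),
      sizes (PF f H) hS θ hθ (x1 + 1) (by positivity) r hr2,
      hpow2.eventually_ge_atTop 3, eventually_ge_atTop 16,
      hlogX.eventually_ge_atTop (2 * r * (1 + 4 * x1 * Cv / (v * η)))] with X hX1 hX2 hX3 hX4 hX5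
    intro Z Y hXY a T hT
    obtain ⟨hy1, hy2, hy3, hy4⟩ := level_low r hr2 X (by omega) (by linarith)
    obtain ⟨y, hy⟩ : ∃ y, y = ⌊(X : ℝ) ^ (1 / (r : ℝ))⌋₊ := ⟨_, rfl⟩
    rw [← hy] at hy1 hy2 hy3 hy4 hX1 hX2 hT ⊢
    have hy3' : 3 ≤ y := by
      have : (3 : ℝ) ≤ y := by linarith
      exact_mod_cast this
    obtain ⟨hV0, hV1, hV2⟩ := hX2
    have hVH := (hV 0 y hy3').1
    have hVd := (hV 1 y hy3').2
    simp only [if_true, PF_card f hf] at hVH
    simp only [Fin.one_eq_zero_iff, OfNat.ofNat_ne_one, if_false, PF_card f hf,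
      Finset.card_insert_of_notMem hd] at hVd
    have hq : 0 ≤ 4 * x1 * Cv / (v * η) := by positivity
    have hL1 : 1 + 4 * x1 * Cv / (v * η) ≤ Real.log y := by
      refine le_trans ?_ hy2
      rw [le_div_iff₀ (by positivity)]
      linarith
    have hLpos : 0 < Real.log y := by linarith
    have hT0 : (0 : ℝ) ≤ T := Nat.cast_nonneg T
    -- T is at most Y
    have hTY : (T : ℝ) ≤ Y := by
      have h2 : (T : ℝ) * Vq (QF (PF f H)) y ≤ X ^ θ * Vq (QF (PF f H)) y ^ 2 := by linarith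
      have h3 : (T : ℝ) ≤ X ^ θ * Vq (QF (PF f H)) y := by
        by_contra hcon
        rw [not_le] at hcon
        have := mul_lt_mul_of_pos_right hcon hV0
        nlinarith
      have h4 : Vq (QF (PF f H)) y ≤ 1 := by nlinarith
      have h5 : (0 : ℝ) ≤ (X : ℝ) ^ θ := by positivity
      nlinarith
    have hcnt := (abs_le.1 (hX1 (Z + a) (Y + T) (by
      push_cast
      linarith))).2
    have h6 : ((Ioc Z (Z + Y)).filter (fun n => ∃ m, n + a < m ∧ m ≤ n + a + T ∧
        ∀ h ∈ insert d H, Sv f y (m + h))).card ≤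
        T * ((Ioc (Z + a) (Z + a + (Y + T))).filter (Sf (QF (PF f (insert d H))) y)).card := by
      refine le_trans (le_of_eq ?_) (Wc_le_sum (Sf (QF (PF f (insert d H))) y) Z Y a T)
      apply congrArg
      ext n
      simp only [mem_filter, sf_PF]
    have h7 : (((Ioc Z (Z + Y)).filter (fun n => ∃ m, n + a < m ∧ m ≤ n + a + T ∧
        ∀ h ∈ insert d H, Sv f y (m + h))).card : ℝ) ≤
        T * (((Ioc (Z + a) (Z + a + (Y + T))).filter (Sf (QF (PF f (insert d H))) y)).card : ℝ) := by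
      exact_mod_cast h6
    refine h7.trans ?_
    obtain ⟨Vd, hVdd⟩ : ∃ Vd, Vd = Vq (QF (PF f (insert d H))) y := ⟨_, rfl⟩
    rw [← hVdd] at hcnt hVd
    have hVd0 : 0 ≤ Vd := by rw [hVdd]; exact Vq_nonneg _ _
    have h8 : (((Ioc (Z + a) (Z + a + (Y + T))).filter (Sf (QF (PF f (insert d H))) y)).card : ℝ) ≤
        4 * Y * Vd := by
      push_cast at hcnt
      nlinarith
    have h9 : (T : ℝ) * Vd ≤ x1 / v * (Cv / Real.log y) := by
      have e1 : (T : ℝ) * (v / Real.log y ^ H.card) ≤ x1 :=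
        (mul_le_mul_of_nonneg_left hVH hT0).trans (hT.trans hx01)
      calc (T : ℝ) * Vd ≤ T * (Cv / Real.log y ^ (H.card + 1)) := mul_le_mul_of_nonneg_left hVd hT0
        _ = (T * (v / Real.log y ^ H.card)) * (Cv / (v * Real.log y)) := by
            rw [pow_succ]
            field_simp
        _ ≤ x1 * (Cv / (v * Real.log y)) := mul_le_mul_of_nonneg_right e1 (by positivity)
        _ = x1 / v * (Cv / Real.log y) := by field_simp
    have h10 : 4 * (x1 / v * (Cv / Real.log y)) ≤ η := by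
      have e1 : 4 * x1 * Cv / (v * η) ≤ Real.log y := by linarith
      rw [div_le_iff₀ (by positivity)] at e1
      have e2 : 4 * (x1 / v * (Cv / Real.log y)) = 4 * x1 * Cv / (v * Real.log y) := by
        field_simp
      rw [e2, div_le_iff₀ (by positivity)]
      linarith
    have hY0 : (0 : ℝ) ≤ Y := Nat.cast_nonneg Y
    calc (T : ℝ) * (((Ioc (Z + a) (Z + a + (Y + T))).filter (Sf (QF (PF f (insert d H))) y)).card : ℝ) ≤
        T * (4 * Y * Vd) := mul_le_mul_of_nonneg_left h8 hT0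
      _ = 4 * (T * Vd) * Y := by ring
      _ ≤ 4 * (x1 / v * (Cv / Real.log y)) * Y := by gcongr
      _ ≤ η * Y := mul_le_mul_of_nonneg_right h10 hY0
  · -- no such integers
    unfold AdmP at hadm'
    push Not at hadm'
    obtain ⟨p, hp, hpm⟩ := hadm'
    refine ⟨1, ?_⟩
    intro r hr
    have hyt : Tendsto (fun X : ℕ => ⌊(X : ℝ) ^ (1 / (r : ℝ))⌋₊) atTop atTop :=
      tendsto_nat_floor_atTop.comp ((tendsto_rpow_atTop (by
        have : (0 : ℝ) < r := by exact_mod_cast (by omega : 0 < r)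
        positivity)).comp tendsto_natCast_atTop_atTop)
    filter_upwards [hyt.eventually_ge_atTop p] with X hX
    intro Z Y hXY a T hT
    have : (Ioc Z (Z + Y)).filter (fun n => ∃ m, n + a < m ∧ m ≤ n + a + T ∧
        ∀ h ∈ insert d H, Sv f ⌊(X : ℝ) ^ (1 / (r : ℝ))⌋₊ (m + h)) = ∅ := by
      rw [Finset.filter_eq_empty_iff]
      rintro n _ ⟨m, _, _, hm⟩
      obtain ⟨h, hh, hdv⟩ := hpm m
      exact hm h hh p (mem_pz.2 ⟨hX, hp⟩) hdv
    rw [this, card_empty, Nat.cast_zero]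
    positivity

end Pool.Agent.Y175.JP
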