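import Pool.Agent.Y175.JP.Pat

set_option autoImplicit false

/-!
# The joint Poisson law for exact patterns

Author: helper175.
-/

namespace Pool.Agent.Y175.JP

open Polynomial Finset Filter
open Pool.Agent.H373R2.T7 Pool.Agent.W123.RP Pool.Agent.W123.RU Pool.Agent.W123.RU.Poly
open Pool.Agent.TH464.PO

variable {ι : Type}

/-- windows of the same pattern are disjoint -/
def Dj (H : ι → Finset ℕ) (a T : ι → ℕ) : Prop :=
  ∀ i j, i ≠ j → H i = H j → (a i + T i ≤ a j ∨ a j + T j ≤ a i)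

lemma Dj.cpt {f : ℤ[X]} (hf : Irp f) {H : ι → Finset ℕ} (h0 : ∀ i, 0 ∈ H i) {a T : ι → ℕ}
    (h : Dj H a T) : Cpt (fun i => PF f (H i)) a T := by
  intro i j hij
  by_cases hH : H i = H j
  · right
    exact ⟨by beta_reduce; rw [hH], h i j hij hH⟩
  · left
    intro t
    exact PF_ne f hf (H i) (H j) (h0 i) (h0 j) hH t

open Classical in
/-- **The joint Poisson law for exact patterns.** -/
theorem pat_windows [Fintype ι] (f : ℤ[X]) (hf : Irp f) (H : ι → Finset ℕ) (h0 : ∀ i, 0 ∈ H i)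
    (hadm : ∀ i, AdmP f (H i)) (D : ι → ℕ) (θ : ℝ) (hθ : 0 < θ) (x0 ε : ℝ) (hx0 : 0 ≤ x0)
    (hε : 0 < ε) :
    ∃ r0 : ℕ, ∀ r : ℕ, r0 ≤ r → ∀ᶠ X : ℕ in atTop, ∀ Z Y : ℕ, (X : ℝ) ^ θ ≤ Y →
      ∀ a T : ι → ℕ, Dj H a T →
      (∀ i, (a i + T i : ℕ) * Vq (QF (PF f (H i))) ⌊(X : ℝ) ^ (1 / (r : ℝ))⌋₊ ≤ x0) →
      ∀ A : ι → Finset ℕ,
        |(((Ioc Z (Z + Y)).filter (fun n => ∀ i,
            Wc (EP (Sv f ⌊(X : ℝ) ^ (1 / (r : ℝ))⌋₊) (H i) (D i)) (n + a i) (T i) ∈ A i)).card : ℝ) -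
          Y * ∏ i, PoA (T i * Vq (QF (PF f (H i))) ⌊(X : ℝ) ^ (1 / (r : ℝ))⌋₊) (A i)| ≤ ε * Y := by
  have hne : ∀ i, (H i).Nonempty := fun i => ⟨0, h0 i⟩
  obtain ⟨N, hN⟩ : ∃ N : ℕ, N = ∑ i, (D i + 1) := ⟨_, rfl⟩
  obtain ⟨η, hη⟩ : ∃ η : ℝ, η = ε / (2 * (N + 1)) := ⟨_, rfl⟩
  have hη0 : 0 < η := by rw [hη]; positivity
  obtain ⟨r1, h1⟩ := poly_windows (fun i => PF f (H i)) (fun i => PF_sys f hf (H i) (hne i) (hadm i))
    θ hθ x0 (ε / 2) hx0 (by positivity)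
  have hext : ∀ i : ι, ∀ d : ℕ, ∃ r0 : ℕ, ∀ r : ℕ, r0 ≤ r → d ∉ H i → ∀ᶠ X : ℕ in atTop,
      ∀ Z Y : ℕ, (X : ℝ) ^ θ ≤ Y →
      ∀ a T : ℕ, T * Vq (QF (PF f (H i))) ⌊(X : ℝ) ^ (1 / (r : ℝ))⌋₊ ≤ x0 →
      (((Ioc Z (Z + Y)).filter (fun n => ∃ m, n + a < m ∧ m ≤ n + a + T ∧
        ∀ h ∈ insert d (H i), Sv f ⌊(X : ℝ) ^ (1 / (r : ℝ))⌋₊ (m + h))).card : ℝ) ≤ η * Y := by
    intro i d
    by_cases hd : d ∈ H i
    · exact ⟨0, fun r _ h => absurd hd h⟩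
    · obtain ⟨r0, h⟩ := extra f hf (H i) (hne i) (hadm i) d hd θ hθ x0 η hη0
      exact ⟨r0, fun r hr _ => h r hr⟩
  choose r2 h2 using hext
  refine ⟨r1 + ∑ i, ∑ d ∈ range (D i + 1), r2 i d, ?_⟩
  intro r hr
  have hr2 : ∀ i, ∀ d ∈ range (D i + 1), r2 i d ≤ r := by
    intro i d hd
    have e1 : r2 i d ≤ ∑ d ∈ range (D i + 1), r2 i d :=
      Finset.single_le_sum (f := fun d => r2 i d) (fun _ _ => Nat.zero_le _) hd
    have e2 : ∑ d ∈ range (D i + 1), r2 i d ≤ ∑ i, ∑ d ∈ range (D i + 1), r2 i d :=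
      Finset.single_le_sum (f := fun i => ∑ d ∈ range (D i + 1), r2 i d)
        (fun _ _ => Nat.zero_le _) (mem_univ i)
    omega
  have h3 : ∀ i : ι, ∀ᶠ X : ℕ in atTop, ∀ d ∈ range (D i + 1), d ∉ H i → ∀ Z Y : ℕ, (X : ℝ) ^ θ ≤ Y →
      ∀ a T : ℕ, T * Vq (QF (PF f (H i))) ⌊(X : ℝ) ^ (1 / (r : ℝ))⌋₊ ≤ x0 →
      (((Ioc Z (Z + Y)).filter (fun n => ∃ m, n + a < m ∧ m ≤ n + a + T ∧
        ∀ h ∈ insert d (H i), Sv f ⌊(X : ℝ) ^ (1 / (r : ℝ))⌋₊ (m + h))).card : ℝ) ≤ η * Y := by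
    intro i
    rw [Filter.eventually_all_finset]
    intro d hd
    by_cases hdH : d ∈ H i
    · exact Eventually.of_forall fun _ h => absurd hdH h
    · filter_upwards [h2 i d r (hr2 i d hd) hdH] with X hX
      intro _
      exact hX
  filter_upwards [h1 r (by omega), Filter.eventually_all.2 h3] with X hX1 hX2
  intro Z Y hXY a T hD hT A
  obtain ⟨y, hy⟩ : ∃ y, y = ⌊(X : ℝ) ^ (1 / (r : ℝ))⌋₊ := ⟨_, rfl⟩
  rw [← hy] at hX1 hX2 hT ⊢
  have hV0 : ∀ i, 0 ≤ Vq (QF (PF f (H i))) y := fun i => Vq_nonneg _ _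
  have hY0 : (0 : ℝ) ≤ Y := Nat.cast_nonneg Y
  have hmain := hX1 Z Y hXY a T (hD.cpt hf h0) hT A
  obtain ⟨Om, hOm⟩ : ∃ Om, Om = Ioc Z (Z + Y) := ⟨_, rfl⟩
  rw [← hOm] at hmain ⊢
  obtain ⟨Bad, hBad⟩ : ∃ Bad, Bad = (univ : Finset ι).biUnion (fun i =>
      ((range (D i + 1)).filter (fun d => d ∉ H i)).biUnion (fun d =>
        Om.filter (fun n => ∃ m, n + a i < m ∧ m ≤ n + a i + T i ∧
          ∀ h ∈ insert d (H i), Sv f y (m + h)))) := ⟨_, rfl⟩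
  have hBc : (Bad.card : ℝ) ≤ ε / 2 * Y := by
    have e1 : Bad.card ≤ ∑ i : ι, ∑ d ∈ (range (D i + 1)).filter (fun d => d ∉ H i),
        (Om.filter (fun n => ∃ m, n + a i < m ∧ m ≤ n + a i + T i ∧
          ∀ h ∈ insert d (H i), Sv f y (m + h))).card := by
      rw [hBad]
      exact Finset.card_biUnion_le.trans (Finset.sum_le_sum fun _ _ => Finset.card_biUnion_le)
    calc (Bad.card : ℝ) ≤ ∑ i : ι, ∑ d ∈ (range (D i + 1)).filter (fun d => d ∉ H i),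
        ((Om.filter (fun n => ∃ m, n + a i < m ∧ m ≤ n + a i + T i ∧
          ∀ h ∈ insert d (H i), Sv f y (m + h))).card : ℝ) := by exact_mod_cast e1
      _ ≤ ∑ i : ι, ∑ d ∈ (range (D i + 1)).filter (fun d => d ∉ H i), η * Y := by
        apply Finset.sum_le_sum
        intro i _
        apply Finset.sum_le_sum
        intro d hd
        rw [mem_filter] at hd
        have e2 := hX2 i d hd.1 hd.2 Z Y hXY (a i) (T i) (by
          refine le_trans ?_ (hT i)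
          apply mul_le_mul_of_nonneg_right _ (hV0 i)
          push_cast
          have : (0 : ℝ) ≤ a i := Nat.cast_nonneg _
          linarith)
        rw [← hOm] at e2
        exact e2
      _ ≤ ∑ i : ι, ((D i + 1 : ℕ) : ℝ) * (η * Y) := by
        apply Finset.sum_le_sum
        intro i _
        rw [Finset.sum_const, nsmul_eq_mul]
        apply mul_le_mul_of_nonneg_right _ (by positivity)
        have : ((range (D i + 1)).filter (fun d => d ∉ H i)).card ≤ D i + 1 :=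
          (card_filter_le _ _).trans (by rw [card_range])
        exact_mod_cast this
      _ = N * (η * Y) := by
        rw [← Finset.sum_mul, hN]
        push_cast
        rfl
      _ ≤ ε / 2 * Y := by
        rw [hη, ← mul_assoc]
        apply mul_le_mul_of_nonneg_right _ hY0
        rw [mul_div_assoc', div_le_iff₀ (by positivity)]
        nlinarith
  have hiff : ∀ n ∈ Om, n ∉ Bad → ((∀ i, Wc (EP (Sv f y) (H i) (D i)) (n + a i) (T i) ∈ A i) ↔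
      ∀ i, Wc (Sf (QF (PF f (H i))) y) (n + a i) (T i) ∈ A i) := by
    intro n hn hnB
    apply forall_congr'
    intro i
    have e1 : Wc (EP (Sv f y) (H i) (D i)) (n + a i) (T i) =
        Wc (Sf (QF (PF f (H i))) y) (n + a i) (T i) := by
      unfold Wc
      apply congrArg
      ext m
      rw [mem_filter, mem_filter]
      apply and_congr_right
      intro hm
      rw [mem_Ioc] at hm
      rw [sf_PF]
      constructor
      · exact fun h => h.1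
      · intro h
        refine ⟨h, ?_⟩
        intro d hd hdH hg
        apply hnB
        rw [hBad, mem_biUnion]
        refine ⟨i, mem_univ _, ?_⟩
        rw [mem_biUnion]
        refine ⟨d, mem_filter.2 ⟨mem_range.2 (by omega), hdH⟩, ?_⟩
        rw [mem_filter]
        refine ⟨hn, m, hm.1, hm.2, ?_⟩
        intro h' hh'
        rcases mem_insert.1 hh' with rfl | hh'
        · exact hg
        · exact h h' hh'
    rw [e1]
  have key : ∀ (P P' : ℕ → Prop) [DecidablePred P] [DecidablePred P'],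
      (∀ n ∈ Om, n ∉ Bad → (P n → P' n)) →
      ((Om.filter P).card : ℝ) ≤ (Om.filter P').card + Bad.card := by
    intro P P' _ _ hPP
    have : (Om.filter P).card ≤ (Om.filter P' ∪ Bad).card := by
      apply card_le_card
      intro n hn
      rw [mem_filter] at hn
      rw [mem_union]
      by_cases hb : n ∈ Bad
      · exact Or.inr hb
      · exact Or.inl (mem_filter.2 ⟨hn.1, hPP n hn.1 hb hn.2⟩)
    exact_mod_cast this.trans (card_union_le _ _)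
  have k1 := key (fun n => ∀ i, Wc (EP (Sv f y) (H i) (D i)) (n + a i) (T i) ∈ A i)
    (fun n => ∀ i, Wc (Sf (QF (PF f (H i))) y) (n + a i) (T i) ∈ A i)
    (fun n hn hb => (hiff n hn hb).1)
  have k2 := key (fun n => ∀ i, Wc (Sf (QF (PF f (H i))) y) (n + a i) (T i) ∈ A i)
    (fun n => ∀ i, Wc (EP (Sv f y) (H i) (D i)) (n + a i) (T i) ∈ A i)
    (fun n hn hb => (hiff n hn hb).2)
  have h5 := abs_le.1 hmain
  rw [abs_le]
  constructor
  · linarith [h5.1]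
  · linarith [h5.2]

open Classical in
/-- **The gap laws for exact patterns.** -/
theorem pat_gap (f : ℤ[X]) (hf : Irp f) (H : Finset ℕ) (h0 : 0 ∈ H)
    (hadm : AdmP f H) (D : ℕ) (θ : ℝ) (hθ : 0 < θ) (k0 : ℕ) (x0 ε : ℝ) (hε : 0 < ε) :
    ∃ r0 : ℕ, ∀ r : ℕ, r0 ≤ r → ∀ᶠ X : ℕ in atTop, ∀ Z Y : ℕ, (X : ℝ) ^ θ ≤ Y →
      ∀ k T : ℕ, (k ≤ k0 ∨ T * Vq (QF (PF f H)) ⌊(X : ℝ) ^ (1 / (r : ℝ))⌋₊ ≤ x0) →
        |(Pk (EP (Sv f ⌊(X : ℝ) ^ (1 / (r : ℝ))⌋₊) H D) k T Z Y : ℝ) -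
          Y * Vq (QF (PF f H)) ⌊(X : ℝ) ^ (1 / (r : ℝ))⌋₊ *
            Ck k (T * Vq (QF (PF f H)) ⌊(X : ℝ) ^ (1 / (r : ℝ))⌋₊)| ≤
          ε * (Y * Vq (QF (PF f H)) ⌊(X : ℝ) ^ (1 / (r : ℝ))⌋₊) := by
  have hS := PF_sys f hf H ⟨0, h0⟩ hadm
  obtain ⟨x1, η, hx1, hη, hgap⟩ := gap_all k0 x0 ε hε
  obtain ⟨r1, h1⟩ := pat_windows (ι := Unit) f hf (fun _ => H) (fun _ => h0) (fun _ => hadm)
    (fun _ => D) θ hθ x1 η hx1.le hη
  obtain ⟨r2, h2⟩ := count_sys (PF f H) hS θ hθ η hη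
  refine ⟨r1 + r2 + 2, ?_⟩
  intro r hr
  filter_upwards [h1 r (by omega), h2 r (by omega),
    sizes (PF f H) hS θ hθ (1 / η + x1 / η) (by positivity) r (by omega)] with X hX1 hX2 hX3
  intro Z Y hXY k T hkT
  obtain ⟨y, hy⟩ : ∃ y, y = ⌊(X : ℝ) ^ (1 / (r : ℝ))⌋₊ := ⟨_, rfl⟩
  rw [← hy] at hX1 hX2 hX3 hkT ⊢
  obtain ⟨hV0, hV1, hV2⟩ := hX3
  have hq1 : 0 < 1 / η := by positivity
  have hq2 : 0 < x1 / η := by positivity
  refine hgap (EP (Sv f y) H D) Z Y (Vq (QF (PF f H)) y) hV0 ?_ ?_ ?_ ?_ k T hkT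
  · have h3 : 1 / η * Vq (QF (PF f H)) y ≤ 1 := by
      refine le_trans ?_ hV1
      apply mul_le_mul_of_nonneg_right _ hV0.le
      linarith
    rw [div_mul_eq_mul_div, one_mul, div_le_one hη] at h3
    exact h3
  · intro T' hT' A
    have h3 := hX1 Z Y hXY (fun _ => 0) (fun _ => T') (fun i j hij => absurd (Subsingleton.elim i j) hij)
      (fun _ => by rw [zero_add]; exact hT') (fun _ => A)
    simp only [add_zero, forall_const, univ_unique, prod_const, card_singleton, pow_one] at h3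
    exact h3
  · have h3 := (abs_le.1 (hX2 Z Y hXY)).2
    have h4 : (((Ioc Z (Z + Y)).filter (EP (Sv f y) H D)).card : ℝ) ≤
        (((Ioc Z (Z + Y)).filter (Sf (QF (PF f H)) y)).card : ℝ) := by
      have : ((Ioc Z (Z + Y)).filter (EP (Sv f y) H D)).card ≤
          ((Ioc Z (Z + Y)).filter (Sf (QF (PF f H)) y)).card := by
        apply card_le_card
        intro n hn
        rw [mem_filter] at hn ⊢
        exact ⟨hn.1, (sf_PF f H y n).2 hn.2.1⟩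
      exact_mod_cast this
    linarith
  · have h3 : x1 / η ≤ Y * Vq (QF (PF f H)) y ^ 2 := by
      calc x1 / η ≤ 1 / η + x1 / η := by linarith
        _ ≤ (X : ℝ) ^ θ * Vq (QF (PF f H)) y ^ 2 := hV2
        _ ≤ Y * Vq (QF (PF f H)) y ^ 2 := mul_le_mul_of_nonneg_right hXY (by positivity)
    rw [div_le_iff₀ hη] at h3
    rw [div_le_iff₀ hV0]
    nlinarith

end Pool.Agent.Y175.JP
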