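import Pool.Agent.Y175.JP.GenJ
import Pool.Agent.TH464.PO.Poly
import Pool.Agent.TH464.PO.Ext

set_option autoImplicit false

/-!
# Points with polynomial atoms

Author: helper175.
-/

namespace Pool.Agent.Y175.JP

open Polynomial Finset Filter
open Pool.Agent.H373R2.T7 Pool.Agent.W123.RP Pool.Agent.W123.RU Pool.Agent.W123.RU.Poly
open Pool.Agent.TH464.PO

/-- the condition of a finite set of polynomials -/
def QF (F : Finset ℤ[X]) (p m : ℕ) : Prop := ∃ g ∈ F, (p : ℤ) ∣ g.eval (m : ℤ)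

lemma QF_eq (F : Finset ℤ[X]) : QF F = Q (fun g : F => (g : ℤ[X])) := by
  funext p m
  unfold QF Q
  apply propext
  constructor
  · rintro ⟨g, hg, h⟩
    exact ⟨⟨g, hg⟩, h⟩
  · rintro ⟨g, h⟩
    exact ⟨g, g.2, h⟩

/-- an admissible finite set of irreducible polynomials -/
structure SysF (F : Finset ℤ[X]) : Prop where
  ne : F.Nonempty
  irr : ∀ g ∈ F, Irreducible g
  deg : ∀ g ∈ F, 0 < g.natDegree
  lead : ∀ g ∈ F, 0 < g.leadingCoeff
  adm : ∀ p : ℕ, p.Prime → ∃ m : ℕ, ∀ g ∈ F, ¬ (p : ℤ) ∣ g.eval (m : ℤ)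

lemma SysF.sys {F : Finset ℤ[X]} (h : SysF F) : Sys (fun g : F => (g : ℤ[X])) := by
  refine ⟨fun g => h.irr g g.2, fun g => h.deg g g.2, fun g => h.lead g g.2,
    Subtype.val_injective, fun p hp => ?_⟩
  obtain ⟨m, hm⟩ := h.adm p hp
  exact ⟨m, fun g => hm g g.2⟩

lemma SysF.single {F : Finset ℤ[X]} (h : SysF F) (g : ℤ[X]) (hg : g ∈ F) :
    Sys (fun _ : Unit => g) := by
  refine ⟨fun _ => h.irr g hg, fun _ => h.deg g hg, fun _ => h.lead g hg,
    fun _ _ _ => rfl, fun p hp => ?_⟩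
  obtain ⟨m, hm⟩ := h.adm p hp
  exact ⟨m, fun _ => hm g hg⟩

open Classical in
/-- the translated set -/
noncomputable def tr (t : ℤ) (F : Finset ℤ[X]) : Finset ℤ[X] := F.image (fun g => g.comp (X + C t))

lemma comp_comp_C (g : ℤ[X]) (a b : ℤ) : (g.comp (X + C a)).comp (X + C b) = g.comp (X + C (a + b)) := by
  rw [comp_assoc]
  congr 1
  simp only [add_comp, X_comp, C_comp, C_add]
  ring

lemma comp_zero_C (g : ℤ[X]) : g.comp (X + C (0 : ℤ)) = g := by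
  simp

lemma comp_eq_iff (f g : ℤ[X]) (a b : ℤ) :
    f.comp (X + C a) = g.comp (X + C b) ↔ f = g.comp (X + C (b - a)) := by
  constructor
  · intro h
    have h1 := congrArg (fun q => q.comp (X + C (-a))) h
    simp only [comp_comp_C] at h1
    rw [add_neg_cancel, comp_zero_C] at h1
    rw [h1, sub_eq_add_neg]
  · intro h
    rw [h, comp_comp_C, sub_add_cancel]

lemma comp_injective (t : ℤ) : Function.Injective (fun g : ℤ[X] => g.comp (X + C t)) := by
  intro f g h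
  have h1 := (comp_eq_iff f g t t).1 h
  rwa [sub_self, comp_zero_C] at h1

lemma tr_eq_iff (F G : Finset ℤ[X]) (a b : ℤ) : tr a F = tr b G ↔ F = tr (b - a) G := by
  classical
  unfold tr
  constructor
  · intro h
    have h1 := congrArg (fun s : Finset ℤ[X] => s.image (fun g => g.comp (X + C (-a)))) h
    simp only [image_image, Function.comp_def, comp_comp_C] at h1
    rw [add_neg_cancel] at h1
    simp only [comp_zero_C, image_id'] at h1
    rw [h1, sub_eq_add_neg]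
  · intro h
    rw [h, image_image]
    simp only [Function.comp_def, comp_comp_C, sub_add_cancel]

/-- a nonempty finite set of nonconstant polynomials is not invariant under translations -/
lemma tr_ne_self (F : Finset ℤ[X]) (hF : F.Nonempty) (hdeg : ∀ g ∈ F, 0 < g.natDegree) (t : ℤ)
    (ht : t ≠ 0) : F ≠ tr t F := by
  classical
  intro h
  obtain ⟨P, hP⟩ : ∃ P, P = ∏ g ∈ F, g := ⟨_, rfl⟩
  have h1 : P.comp (X + C t) = P := by
    rw [hP, Polynomial.prod_comp]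
    have h2 : ∏ g ∈ tr t F, g = ∏ g ∈ F, g.comp (X + C t) := by
      unfold tr
      rw [Finset.prod_image (fun a _ b _ hab => comp_injective t hab)]
    rw [← h2, ← h]
  have h2 : 0 < P.natDegree := by
    rw [hP, natDegree_prod _ _ (fun g hg h0 => by
      have := hdeg g hg
      rw [h0] at this
      simp at this)]
    obtain ⟨g, hg⟩ := hF
    exact lt_of_lt_of_le (hdeg g hg) (Finset.single_le_sum (f := fun g : ℤ[X] => g.natDegree)
      (fun _ _ => Nat.zero_le _) hg)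
  apply Pool.Agent.H474R2.PG.ncol_not_periodic (P.map (Int.castRingHom ℚ)) _ (t : ℚ)
    (by exact_mod_cast ht)
  · have := congrArg (Polynomial.map (Int.castRingHom ℚ)) h1
    rw [Polynomial.map_comp] at this
    simpa using this
  · rw [natDegree_map_eq_of_injective (RingHom.injective_int _)]
    exact h2

variable {ι : Type} [Fintype ι]

/-- the atoms of a point -/
noncomputable def SP (F : ι → Finset ℤ[X]) (x : Pt ι) : Finset ℤ[X] := tr (x.2 : ℤ) (F x.1)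

omit [Fintype ι] in
lemma mem_SP (F : ι → Finset ℤ[X]) (x : Pt ι) (a : ℤ[X]) :
    a ∈ SP F x ↔ ∃ g ∈ F x.1, g.comp (X + C (x.2 : ℤ)) = a := by
  classical
  unfold SP tr
  rw [mem_image]

omit [Fintype ι] in
lemma SP_card (F : ι → Finset ℤ[X]) (x : Pt ι) : (SP F x).card = (F x.1).card := by
  classical
  unfold SP tr
  exact Finset.card_image_of_injective _ (comp_injective _)

omit [Fintype ι] in
lemma SP_inj (F : ι → Finset ℤ[X]) (hF : ∀ i, SysF (F i))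
    (hnt : ∀ i j, i ≠ j → ∀ t : ℤ, F i ≠ tr t (F j)) (x z : Pt ι) (h : SP F x = SP F z) : x = z := by
  obtain ⟨i, a⟩ := x
  obtain ⟨j, b⟩ := z
  unfold SP at h
  rw [tr_eq_iff] at h
  by_cases hij : i = j
  · subst hij
    by_cases hab : (b : ℤ) - a = 0
    · have : a = b := by
        have : (a : ℤ) = b := by linarith
        exact_mod_cast this
      rw [this]
    · exact absurd h (tr_ne_self (F i) (hF i).ne (hF i).deg _ hab)
  · exact absurd h (hnt i j hij _)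

/-- the total number of polynomials -/
def WF (F : ι → Finset ℤ[X]) : ℕ := ∑ i, (F i).card

lemma card_le_WF (F : ι → Finset ℤ[X]) (i : ι) : (F i).card ≤ WF F :=
  Finset.single_le_sum (f := fun i => (F i).card) (fun _ _ => Nat.zero_le _) (mem_univ i)

open Classical in
/-- few points have an atom in common with `x` -/
lemma deg_SP (F : ι → Finset ℤ[X]) (hF : ∀ i, SysF (F i)) (U : Finset (Pt ι)) (x : Pt ι) :
    (nbs (SP F) U x).card ≤ WF F * WF F := by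
  obtain ⟨G, hG⟩ : ∃ G : ι → ℤ[X] → ℤ[X] → Finset (Pt ι), G = fun (j : ι) (f g : ℤ[X]) =>
      U.filter (fun z : Pt ι => z.1 = j ∧
        (g.comp (X + C ((z.2 : ℕ) : ℤ)) : ℤ[X]) = f.comp (X + C ((x.2 : ℕ) : ℤ))) := ⟨_, rfl⟩
  have hsub : nbs (SP F) U x ⊆ (univ : Finset ι).biUnion (fun j =>
      (F x.1).biUnion (fun f => (F j).biUnion (fun g => G j f g))) := by
    intro z hz
    rw [mem_nbs] at hz
    obtain ⟨hzU, _, hd⟩ := hz
    obtain ⟨a, ha1, ha2⟩ := Finset.not_disjoint_iff.1 hd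
    rw [mem_SP] at ha1 ha2
    obtain ⟨g, hg, hga⟩ := ha1
    obtain ⟨f, hf, hfa⟩ := ha2
    rw [mem_biUnion]
    refine ⟨z.1, mem_univ _, ?_⟩
    rw [mem_biUnion]
    refine ⟨f, hf, ?_⟩
    rw [mem_biUnion]
    refine ⟨g, hg, ?_⟩
    rw [hG]
    exact mem_filter.2 ⟨hzU, rfl, hga.trans hfa.symm⟩
  have hone : ∀ j f g, g ∈ F j → (G j f g).card ≤ 1 := by
    intro j f g hg
    rw [Finset.card_le_one]
    intro a ha b hb
    rw [hG] at ha hb
    rw [mem_filter] at ha hb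
    obtain ⟨_, ha1, ha2⟩ := ha
    obtain ⟨_, hb1, hb2⟩ := hb
    have h1 := (comp_eq_iff g g _ _).1 (ha2.trans hb2.symm)
    by_cases hab : ((b.2 : ℤ) - a.2) = 0
    · have h2 : a.2 = b.2 := by
        have : (a.2 : ℤ) = b.2 := by linarith
        exact_mod_cast this
      obtain ⟨a1, a2⟩ := a
      obtain ⟨b1, b2⟩ := b
      simp only at ha1 hb1 h2
      rw [ha1, hb1, h2]
    · exfalso
      apply tr_ne_self {g} (singleton_nonempty g) (fun q hq => by
        rw [mem_singleton.1 hq]; exact (hF j).deg g hg) _ hab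
      unfold tr
      rw [image_singleton, ← h1]
  refine (card_le_card hsub).trans (Finset.card_biUnion_le.trans ?_)
  have h2 : ∀ j ∈ (univ : Finset ι), ((F x.1).biUnion (fun f => (F j).biUnion (fun g => G j f g))).card ≤
      WF F * (F j).card := by
    intro j _
    refine (Finset.card_biUnion_le_card_mul _ _ (F j).card (fun f _ => ?_)).trans
      (Nat.mul_le_mul_right _ (card_le_WF F x.1))
    refine (Finset.card_biUnion_le_card_mul _ _ 1 (fun g hg => hone j f g hg)).trans (by omega)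
  refine (Finset.sum_le_sum h2).trans (le_of_eq ?_)
  rw [← Finset.mul_sum]
  rfl

open Classical in
/-- few large primes divide a collision -/
lemma large_SP (F : ι → Finset ℤ[X]) (hF : ∀ i, SysF (F i)) (a : ℕ) (η : ℝ) (hη : 0 < η) :
    ∃ T1 : ℕ, ∀ (x z : Pt ι) (T : ℕ), T1 ≤ T → |(z.2 : ℤ) - x.2| ≤ (T : ℤ) ^ a →
      Disjoint (SP F x) (SP F z) → ∀ y : ℕ,
      ((((pz y).filter (fun p : ℕ => T < p ∧ Cox (fun i => QF (F i)) p x z)).card : ℕ) : ℝ) ≤ η * T := by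
  obtain ⟨FF, hFF⟩ : ∃ FF : Finset ℤ[X], FF = (univ : Finset ι).biUnion F := ⟨_, rfl⟩
  have hR : ∀ f : FF, ∀ g : FF, ∃ R : ℤ[X],
      (∀ t : ℤ, (f : ℤ[X]) ≠ (g : ℤ[X]).comp (X + C t) → R.eval t ≠ 0) ∧
      ∀ (t x p : ℤ), p ∣ (f : ℤ[X]).eval x → p ∣ (g : ℤ[X]).eval (x + t) → p ∣ R.eval t := by
    intro f g
    obtain ⟨i, _, hfi⟩ : ∃ i ∈ (univ : Finset ι), (f : ℤ[X]) ∈ F i := by
      have h1 : (f : ℤ[X]) ∈ (univ : Finset ι).biUnion F := by
        rw [← hFF]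
        exact f.2
      exact mem_biUnion.1 h1
    obtain ⟨j, _, hgj⟩ : ∃ i ∈ (univ : Finset ι), (g : ℤ[X]) ∈ F i := by
      have h1 : (g : ℤ[X]) ∈ (univ : Finset ι).biUnion F := by
        rw [← hFF]
        exact g.2
      exact mem_biUnion.1 h1
    exact ncolR f g ((hF i).irr f hfi) ((hF j).irr g hgj) ((hF i).deg f hfi) ((hF j).deg g hgj)
      ((hF i).lead f hfi) ((hF j).lead g hgj)
  choose R hR1 hR2 using hR
  choose K D hKD using fun (f g : FF) => eval_bound (R f g)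
  obtain ⟨K1, hK1⟩ : ∃ K1 : ℕ, K1 = (∑ f, ∑ g, K f g) + 1 := ⟨_, rfl⟩
  obtain ⟨D1, hD1⟩ : ∃ D1 : ℕ, D1 = ∑ f, ∑ g, D f g := ⟨_, rfl⟩
  have hKle : ∀ f g, K f g ≤ K1 := by
    intro f g
    have h1 : K f g ≤ ∑ g, K f g := Finset.single_le_sum (fun _ _ => Nat.zero_le _) (mem_univ g)
    have h2 : ∑ g, K f g ≤ ∑ f, ∑ g, K f g :=
      Finset.single_le_sum (f := fun f => ∑ g, K f g) (fun _ _ => Nat.zero_le _) (mem_univ f)
    omega
  have hDle : ∀ f g, D f g ≤ D1 := by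
    intro f g
    have h1 : D f g ≤ ∑ g, D f g := Finset.single_le_sum (fun _ _ => Nat.zero_le _) (mem_univ g)
    have h2 : ∑ g, D f g ≤ ∑ f, ∑ g, D f g :=
      Finset.single_le_sum (f := fun f => ∑ g, D f g) (fun _ _ => Nat.zero_le _) (mem_univ f)
    omega
  obtain ⟨E, hE⟩ : ∃ E : ℕ, E = a * D1 + 1 := ⟨_, rfl⟩
  obtain ⟨M, hM⟩ : ∃ M : ℕ, M = FF.card * FF.card := ⟨_, rfl⟩
  obtain ⟨T2, hT2⟩ : ∃ T2 : ℕ, ((M * E : ℕ) : ℝ) / η ≤ T2 := exists_nat_ge _
  refine ⟨max T2 (K1 * 2 ^ D1 + 2), ?_⟩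
  intro x z T hT hxz hdis y
  have hTT2 : T2 ≤ T := (le_max_left _ _).trans hT
  have hTK : K1 * 2 ^ D1 + 2 ≤ T := (le_max_right _ _).trans hT
  have hTr : (2 : ℝ) ≤ T := by exact_mod_cast (by omega : 2 ≤ T)
  have hT0 : (0 : ℝ) < T := by linarith
  obtain ⟨t, ht⟩ : ∃ t : ℤ, t = (z.2 : ℤ) - x.2 := ⟨_, rfl⟩
  rw [← ht] at hxz
  have htr : |(t : ℝ)| ≤ (T : ℝ) ^ a := by exact_mod_cast hxz
  -- one pair of polynomials
  have hpair : ∀ f ∈ F x.1, ∀ g ∈ F z.1, ((pz y).filter (fun p : ℕ => T < p ∧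
      ∃ u : ℤ, (p : ℤ) ∣ f.eval u ∧ (p : ℤ) ∣ g.eval (u + t))).card ≤ E := by
    intro f hf g hg
    have hfF : f ∈ FF := by rw [hFF]; exact mem_biUnion.2 ⟨x.1, mem_univ _, hf⟩
    have hgF : g ∈ FF := by rw [hFF]; exact mem_biUnion.2 ⟨z.1, mem_univ _, hg⟩
    have hne : f ≠ g.comp (X + C t) := by
      intro h
      rw [ht] at h
      have h1 := (comp_eq_iff f g (x.2 : ℤ) (z.2 : ℤ)).2 h
      apply (Finset.not_disjoint_iff.2 ⟨f.comp (X + C (x.2 : ℤ)), ?_, ?_⟩) hdis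
      · exact (mem_SP F x _).2 ⟨f, hf, rfl⟩
      · exact (mem_SP F z _).2 ⟨g, hg, h1.symm⟩
    have hne0 := hR1 ⟨f, hfF⟩ ⟨g, hgF⟩ t hne
    obtain ⟨A, hA⟩ : ∃ A, A = (pz y).filter (fun p : ℕ => T < p ∧
      ∃ u : ℤ, (p : ℤ) ∣ f.eval u ∧ (p : ℤ) ∣ g.eval (u + t)) := ⟨_, rfl⟩
    rw [← hA]
    have hpow := pow_card_le A ((R ⟨f, hfF⟩ ⟨g, hgF⟩).eval t).natAbs (Int.natAbs_ne_zero.2 hne0)
      (fun p hp => by
        rw [hA, mem_filter] at hp
        obtain ⟨hp1, hp2, u, hu1, hu2⟩ := hp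
        refine ⟨(mem_pz.1 hp1).2, ?_⟩
        rw [← Int.natCast_dvd]
        exact hR2 ⟨f, hfF⟩ ⟨g, hgF⟩ t u p hu1 hu2) (T : ℝ) hT0.le (fun p hp => by
        rw [hA, mem_filter] at hp
        exact_mod_cast hp.2.1.le)
    have hbound : ((((R ⟨f, hfF⟩ ⟨g, hgF⟩).eval t).natAbs : ℕ) : ℝ) ≤ (T : ℝ) ^ E := by
      have e1 : ((((R ⟨f, hfF⟩ ⟨g, hgF⟩).eval t).natAbs : ℕ) : ℝ) =
          |(((R ⟨f, hfF⟩ ⟨g, hgF⟩).eval t : ℤ) : ℝ)| := by
        rw [Nat.cast_natAbs, Int.cast_abs]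
      rw [e1]
      refine (hKD ⟨f, hfF⟩ ⟨g, hgF⟩ t).trans ?_
      have h1 : (1 : ℝ) ≤ (T : ℝ) ^ a := one_le_pow₀ (by linarith)
      have h2 : (1 : ℝ) + |(t : ℝ)| ≤ 2 * (T : ℝ) ^ a := by linarith
      have h3 : (1 : ℝ) ≤ 2 * (T : ℝ) ^ a := by linarith
      have hK' : ((K ⟨f, hfF⟩ ⟨g, hgF⟩ : ℕ) : ℝ) ≤ K1 := by exact_mod_cast hKle _ _
      have habs : 0 ≤ |(t : ℝ)| := abs_nonneg _
      calc ((K ⟨f, hfF⟩ ⟨g, hgF⟩ : ℕ) : ℝ) * (1 + |(t : ℝ)|) ^ D ⟨f, hfF⟩ ⟨g, hgF⟩ ≤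
          K1 * (2 * (T : ℝ) ^ a) ^ D ⟨f, hfF⟩ ⟨g, hgF⟩ := by
            apply mul_le_mul hK' (pow_le_pow_left₀ (by positivity) h2 _) (by positivity)
              (Nat.cast_nonneg _)
        _ ≤ K1 * (2 * (T : ℝ) ^ a) ^ D1 := by
            apply mul_le_mul_of_nonneg_left (pow_le_pow_right₀ h3 (hDle _ _)) (Nat.cast_nonneg _)
        _ = (K1 * 2 ^ D1) * (T : ℝ) ^ (a * D1) := by
            rw [mul_pow, ← pow_mul]
            ring
        _ ≤ T * (T : ℝ) ^ (a * D1) := by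
            apply mul_le_mul_of_nonneg_right _ (by positivity)
            have : K1 * 2 ^ D1 ≤ T := by omega
            exact_mod_cast this
        _ = (T : ℝ) ^ E := by
            rw [hE, pow_succ]
            ring
    have h5 : (T : ℝ) ^ A.card ≤ (T : ℝ) ^ E := hpow.trans hbound
    exact (pow_le_pow_iff_right₀ (by linarith : (1 : ℝ) < T)).1 h5
  have hsub : (pz y).filter (fun p : ℕ => T < p ∧ Cox (fun i => QF (F i)) p x z) ⊆
      (F x.1).biUnion (fun f => (F z.1).biUnion (fun g => (pz y).filter (fun p : ℕ => T < p ∧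
        ∃ u : ℤ, (p : ℤ) ∣ f.eval u ∧ (p : ℤ) ∣ g.eval (u + t)))) := by
    intro p hp
    rw [mem_filter] at hp
    obtain ⟨hp1, hp2, m, ⟨f, hf, hfm⟩, ⟨g, hg, hgm⟩⟩ := hp
    rw [mem_biUnion]
    refine ⟨f, hf, ?_⟩
    rw [mem_biUnion]
    refine ⟨g, hg, ?_⟩
    rw [mem_filter]
    refine ⟨hp1, hp2, ((m + x.2 : ℕ) : ℤ), hfm, ?_⟩
    have : ((m + x.2 : ℕ) : ℤ) + t = ((m + z.2 : ℕ) : ℤ) := by
      rw [ht]
      push_cast
      ring
    rw [this]
    exact hgm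
  have hcardF : ∀ i, (F i).card ≤ FF.card := fun i => card_le_card (by
    rw [hFF]
    exact Finset.subset_biUnion_of_mem F (mem_univ i))
  have h6 : ((pz y).filter (fun p : ℕ => T < p ∧ Cox (fun i => QF (F i)) p x z)).card ≤ M * E := by
    refine (card_le_card hsub).trans ?_
    refine (Finset.card_biUnion_le_card_mul _ _ (FF.card * E) (fun f hf => ?_)).trans ?_
    · refine (Finset.card_biUnion_le_card_mul _ _ E (fun g hg => hpair f hf g hg)).trans ?_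
      exact Nat.mul_le_mul_right _ (hcardF _)
    · rw [hM, mul_assoc]
      exact Nat.mul_le_mul_right _ (hcardF _)
  have h7 : ((M * E : ℕ) : ℝ) ≤ η * T := by
    have : ((M * E : ℕ) : ℝ) / η ≤ T := hT2.trans (by exact_mod_cast hTT2)
    rw [div_le_iff₀ hη] at this
    linarith
  exact (by exact_mod_cast h6 : _ ≤ ((M * E : ℕ) : ℝ)).trans h7

end Pool.Agent.Y175.JP
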