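import Pool.Agent.Y175.JP.PolyA

set_option autoImplicit false

/-!
# A new atom makes the sieve product small

Author: helper175.
-/

namespace Pool.Agent.Y175.JP

open Polynomial Finset Filter
open Pool.Agent.H373R2.T7 Pool.Agent.W123.RP Pool.Agent.W123.RU Pool.Agent.W123.RU.Poly
open Pool.Agent.TH464.PO

lemma sum_inv_le (A : Finset ℕ) (hA : ∀ p ∈ A, 1 ≤ p) :
    ∑ p ∈ A, (1 : ℝ) / p ≤ 2 + Real.log (A.card + 1) := by
  obtain ⟨N, hN⟩ : ∃ N, N = A.card := ⟨_, rfl⟩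
  rw [← hN, ← Finset.sum_filter_add_sum_filter_not A (fun p => p ≤ N)]
  have h1 : ∑ p ∈ A.filter (fun p => p ≤ N), (1 : ℝ) / p ≤ 1 + Real.log (N + 1) := by
    have h2 : ∑ p ∈ A.filter (fun p => p ≤ N), (1 : ℝ) / p ≤ ∑ p ∈ Icc 1 N, (1 : ℝ) / p := by
      apply Finset.sum_le_sum_of_subset_of_nonneg
      · intro p hp
        rw [mem_filter] at hp
        exact mem_Icc.2 ⟨hA p hp.1, hp.2⟩
      · intros
        positivity
    have h3 : ∑ p ∈ Icc 1 N, (1 : ℝ) / p = ((harmonic N : ℚ) : ℝ) := by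
      rw [harmonic_eq_sum_Icc]
      push_cast
      apply Finset.sum_congr rfl
      intro p _
      rw [one_div]
    rw [h3] at h2
    have h4 := harmonic_le_one_add_log N
    rcases Nat.eq_zero_or_pos N with h0 | h0
    · subst h0
      simp only [Nat.cast_zero, Real.log_zero, add_zero, zero_add, Real.log_one] at h4 ⊢
      linarith
    · have h5 : Real.log N ≤ Real.log (N + 1) :=
        Real.log_le_log (by exact_mod_cast h0) (by linarith)
      linarith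
  have h2 : ∑ p ∈ A.filter (fun p => ¬ p ≤ N), (1 : ℝ) / p ≤ 1 := by
    have h3 : ∀ p ∈ A.filter (fun p => ¬ p ≤ N), (1 : ℝ) / p ≤ 1 / (N + 1) := by
      intro p hp
      rw [mem_filter, not_le] at hp
      apply one_div_le_one_div_of_le (by positivity)
      exact_mod_cast hp.2
    have h4 := Finset.sum_le_card_nsmul _ _ _ h3
    rw [nsmul_eq_mul] at h4
    have h5 : (((A.filter (fun p => ¬ p ≤ N)).card : ℕ) : ℝ) ≤ N := by
      rw [hN]
      exact_mod_cast card_le_card (filter_subset _ _)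
    have h6 : (N : ℝ) * (1 / (N + 1)) ≤ 1 := by
      rw [mul_one_div, div_le_one (by positivity)]
      linarith
    have h7 : (((A.filter (fun p => ¬ p ≤ N)).card : ℕ) : ℝ) * (1 / (N + 1)) ≤ N * (1 / (N + 1)) :=
      mul_le_mul_of_nonneg_right h5 (by positivity)
    linarith
  linarith

lemma exp_neg_le (u : ℝ) (h0 : 0 ≤ u) (h1 : u ≤ 1 / 2) : Real.exp (-(2 * u)) ≤ 1 - u := by
  have hpos : 0 < 1 - u := by linarith
  have h2 := Real.one_sub_inv_le_log_of_pos hpos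
  have h3 : -(2 * u) ≤ 1 - (1 - u)⁻¹ := by
    rw [neg_le_sub_iff_le_add, inv_le_iff_one_le_mul₀ hpos]
    nlinarith
  calc Real.exp (-(2 * u)) ≤ Real.exp (Real.log (1 - u)) := Real.exp_le_exp.2 (h3.trans h2)
    _ = 1 - u := Real.exp_log hpos

/-- a lower bound for the product over a set of primes -/
lemma prod_low (c : ℕ) (Q : ℕ → ℕ → Prop) (hQ : PerB Q c) (hadm : ∀ p : ℕ, p.Prime → nuB Q p < p)
    (A : Finset ℕ) (hA : ∀ p ∈ A, p.Prime) :
    1 ≤ ((2 * c + 1 : ℝ) ^ (2 * c + 1) * (Real.exp 2 * (A.card + 1)) ^ (2 * c)) *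
      ∏ p ∈ A, (1 - (nuB Q p : ℝ) / p) := by
  rw [← Finset.prod_filter_mul_prod_filter_not A (fun p => p ≤ 2 * c)]
  obtain ⟨P1, hP1⟩ : ∃ P1, P1 = ∏ p ∈ A.filter (fun p => p ≤ 2 * c), (1 - (nuB Q p : ℝ) / p) :=
    ⟨_, rfl⟩
  obtain ⟨P2, hP2⟩ : ∃ P2, P2 = ∏ p ∈ A.filter (fun p => ¬ p ≤ 2 * c), (1 - (nuB Q p : ℝ) / p) :=
    ⟨_, rfl⟩
  have hpos : ∀ p ∈ A, 0 < 1 - (nuB Q p : ℝ) / p := by
    intro p hp
    have hp0 : (0 : ℝ) < p := by exact_mod_cast (hA p hp).pos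
    have h1 : ((nuB Q p : ℕ) : ℝ) < p := by exact_mod_cast hadm p (hA p hp)
    have : (nuB Q p : ℝ) / p < 1 := by rwa [div_lt_one hp0]
    linarith
  rw [← hP1, ← hP2]
  have hP10 : 0 ≤ P1 := by
    rw [hP1]
    exact Finset.prod_nonneg fun p hp => (hpos p (mem_filter.1 hp).1).le
  have hP20 : 0 ≤ P2 := by
    rw [hP2]
    exact Finset.prod_nonneg fun p hp => (hpos p (mem_filter.1 hp).1).le
  have h1 : 1 ≤ (2 * c + 1 : ℝ) ^ (2 * c + 1) * P1 := by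
    have h2 : 1 ≤ (2 * c + 1 : ℝ) ^ (A.filter (fun p => p ≤ 2 * c)).card * P1 := by
      rw [hP1, ← Finset.prod_const, ← Finset.prod_mul_distrib]
      have h3 : ∏ _p ∈ A.filter (fun p => p ≤ 2 * c), (1 : ℝ) ≤
          ∏ p ∈ A.filter (fun p => p ≤ 2 * c), ((2 * c + 1 : ℝ) * (1 - (nuB Q p : ℝ) / p)) := by
        apply Finset.prod_le_prod
        · intros
          exact zero_le_one
        · intro p hp
          rw [mem_filter] at hp
          have hp0 : (0 : ℝ) < p := by exact_mod_cast (hA p hp.1).pos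
          have h4 : ((nuB Q p : ℕ) : ℝ) + 1 ≤ p := by exact_mod_cast hadm p (hA p hp.1)
          have h5 : (1 : ℝ) / p ≤ 1 - (nuB Q p : ℝ) / p := by
            rw [le_sub_iff_add_le, ← add_div, div_le_one hp0]
            linarith
          have h6 : (p : ℝ) ≤ 2 * c + 1 := by
            have : (p : ℝ) ≤ ((2 * c : ℕ) : ℝ) := by exact_mod_cast hp.2
            push_cast at this
            linarith
          calc (1 : ℝ) = p * (1 / p) := by field_simp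
            _ ≤ (2 * c + 1) * (1 - (nuB Q p : ℝ) / p) :=
              mul_le_mul h6 h5 (by positivity) (by positivity)
      simpa using h3
    have h3 : (A.filter (fun p => p ≤ 2 * c)).card ≤ 2 * c + 1 := by
      have : A.filter (fun p => p ≤ 2 * c) ⊆ range (2 * c + 1) := by
        intro p hp
        rw [mem_filter] at hp
        exact mem_range.2 (by omega)
      have h4 := card_le_card this
      rwa [card_range] at h4
    have hc1 : (1 : ℝ) ≤ 2 * c + 1 := by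
      have : (0 : ℝ) ≤ c := Nat.cast_nonneg c
      linarith
    exact h2.trans (mul_le_mul_of_nonneg_right (pow_le_pow_right₀ hc1 h3) hP10)
  have h2 : 1 ≤ (Real.exp 2 * (A.card + 1)) ^ (2 * c) * P2 := by
    obtain ⟨S, hS⟩ : ∃ S, S = ∑ p ∈ A.filter (fun p => ¬ p ≤ 2 * c), (1 : ℝ) / p := ⟨_, rfl⟩
    have hSle : S ≤ 2 + Real.log (A.card + 1) := by
      refine le_trans ?_ (sum_inv_le A (fun p hp => (hA p hp).one_lt.le))
      rw [hS]
      apply Finset.sum_le_sum_of_subset_of_nonneg (filter_subset _ _)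
      intros
      positivity
    have h3 : Real.exp (-((2 * c : ℕ) * S)) ≤ P2 := by
      rw [hP2, hS, Finset.mul_sum, ← Finset.sum_neg_distrib, Real.exp_sum]
      apply Finset.prod_le_prod
      · intros
        exact (Real.exp_pos _).le
      · intro p hp
        rw [mem_filter, not_le] at hp
        have hp0 : (0 : ℝ) < p := by exact_mod_cast (hA p hp.1).pos
        have h4 : (nuB Q p : ℝ) / p ≤ c / p := by
          apply div_le_div_of_nonneg_right _ hp0.le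
          exact_mod_cast hQ.few p (hA p hp.1)
        have h5 : (c : ℝ) / p ≤ 1 / 2 := by
          rw [div_le_div_iff₀ hp0 (by norm_num)]
          have : ((2 * c : ℕ) : ℝ) ≤ p := by exact_mod_cast hp.2.le
          push_cast at this
          linarith
        have h6 := exp_neg_le ((c : ℝ) / p) (by positivity) h5
        have e : -((2 * c : ℕ) * ((1 : ℝ) / p)) = -(2 * ((c : ℝ) / p)) := by
          push_cast
          ring
        rw [e]
        linarith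
    have h4 : (Real.exp 2 * (A.card + 1)) ^ (2 * c) = Real.exp ((2 * c : ℕ) * (2 + Real.log (A.card + 1))) := by
      rw [Real.exp_nat_mul, Real.exp_add, Real.exp_log (by positivity)]
    rw [h4]
    calc (1 : ℝ) = Real.exp ((2 * c : ℕ) * S) * Real.exp (-((2 * c : ℕ) * S)) := by
          rw [← Real.exp_add, add_neg_cancel, Real.exp_zero]
      _ ≤ Real.exp ((2 * c : ℕ) * (2 + Real.log (A.card + 1))) * P2 := by
          apply mul_le_mul _ h3 (Real.exp_pos _).le (Real.exp_pos _).le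
          apply Real.exp_le_exp.2
          exact mul_le_mul_of_nonneg_left hSle (Nat.cast_nonneg _)
  calc (1 : ℝ) = 1 * 1 := by norm_num
    _ ≤ ((2 * c + 1 : ℝ) ^ (2 * c + 1) * P1) * ((Real.exp 2 * (A.card + 1)) ^ (2 * c) * P2) :=
      mul_le_mul h1 h2 zero_le_one (by linarith)
    _ = _ := by ring

lemma nuB_add (Q1 Q2 Q3 : ℕ → ℕ → Prop) (p : ℕ) (h1 : ∀ m, Q1 p m → Q3 p m)
    (h2 : ∀ m, Q2 p m → Q3 p m) (hd : ∀ m, Q1 p m → ¬ Q2 p m) : nuB Q1 p + nuB Q2 p ≤ nuB Q3 p := by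
  classical
  unfold nuB
  rw [← card_union_of_disjoint]
  · apply card_le_card
    intro r hr
    rw [mem_union, mem_filter, mem_filter] at hr
    rw [mem_filter]
    rcases hr with hr | hr
    · exact ⟨hr.1, h1 r hr.2⟩
    · exact ⟨hr.1, h2 r hr.2⟩
  · rw [Finset.disjoint_left]
    intro r hr hr'
    rw [mem_filter] at hr hr'
    exact hd r hr.2 hr'.2

lemma Vq_ext (Q1 Q2 Q3 : ℕ → ℕ → Prop) (y : ℕ) (h1 : ∀ p m, Q1 p m → Q3 p m)
    (h2 : ∀ p m, Q2 p m → Q3 p m) (A : Finset ℕ) (hA : A ⊆ pz y)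
    (hd : ∀ p ∈ pz y, p ∉ A → ∀ m, Q1 p m → ¬ Q2 p m) :
    Vq Q3 y * ∏ p ∈ A, (1 - (nuB Q2 p : ℝ) / p) ≤ Vq Q1 y * Vq Q2 y := by
  have e : ∏ p ∈ A, (1 - (nuB Q2 p : ℝ) / p) =
      ∏ p ∈ pz y, if p ∈ A then (1 - (nuB Q2 p : ℝ) / p) else 1 := by
    rw [Finset.prod_ite_mem, Finset.inter_eq_right.2 hA]
  rw [e]
  unfold Vq
  rw [← Finset.prod_mul_distrib, ← Finset.prod_mul_distrib]
  apply Finset.prod_le_prod
  · intro p hp
    apply mul_nonneg (one_sub_nonneg Q3 p (mem_pz.1 hp).2)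
    split_ifs
    · exact one_sub_nonneg Q2 p (mem_pz.1 hp).2
    · exact zero_le_one
  · intro p hp
    have hp0 : (0 : ℝ) < p := by exact_mod_cast (mem_pz.1 hp).2.pos
    have n1 := one_sub_nonneg Q1 p (mem_pz.1 hp).2
    have n2 := one_sub_nonneg Q2 p (mem_pz.1 hp).2
    split_ifs with hpA
    · apply mul_le_mul_of_nonneg_right _ n2
      apply sub_le_sub_left
      apply div_le_div_of_nonneg_right _ hp0.le
      exact_mod_cast nuB_mono Q1 Q3 p (h1 p)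
    · rw [mul_one]
      have h3 : ((nuB Q1 p : ℕ) : ℝ) + (nuB Q2 p : ℕ) ≤ (nuB Q3 p : ℕ) := by
        exact_mod_cast nuB_add Q1 Q2 Q3 p (h1 p) (h2 p) (hd p hp hpA)
      have h4 : (nuB Q1 p : ℝ) / p + (nuB Q2 p : ℝ) / p ≤ (nuB Q3 p : ℝ) / p := by
        rw [← add_div]
        exact div_le_div_of_nonneg_right h3 hp0.le
      have h5 : 0 ≤ (nuB Q1 p : ℝ) / p * ((nuB Q2 p : ℝ) / p) := by positivity
      nlinarith

variable {ι : Type} [Fintype ι]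

lemma abs_sub_le_max (a b : ℕ) (M : ℝ) (ha : (a : ℝ) ≤ M) (hb : (b : ℝ) ≤ M) :
    |(((a : ℤ) - b : ℤ) : ℝ)| ≤ M := by
  have ha0 : (0 : ℝ) ≤ a := Nat.cast_nonneg a
  have hb0 : (0 : ℝ) ≤ b := Nat.cast_nonneg b
  push_cast
  rw [abs_le]
  constructor <;> linarith

open Classical in
/-- **A new atom makes the sieve product small.** -/
theorem ext_one (F : ι → Finset ℤ[X]) (hF : ∀ i, SysF (F i)) (k m : ℕ) (M δ : ℝ) (hδ : 0 < δ)
    (i₀ : ι) (f : ℤ[X]) (hf : f ∈ F i₀) :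
    ∀ᶠ y : ℕ in atTop, ∀ T : ι → ℕ, (∀ i, (T i : ℝ) ≤ M * Real.log y ^ m) →
      ∀ H ⊆ Un T, H.card ≤ k → ∀ h : ℕ, h ≤ T i₀ →
      (∀ c ∈ H, f.comp (X + C (h : ℤ)) ∉ SP F c) → ∀ H₂ : Finset (Pt ι), H ⊆ H₂ →
      (⟨i₀, h⟩ : Pt ι) ∈ H₂ →
      Vq (QU (fun i => QF (F i)) H₂) y ≤ δ * Vq (QU (fun i => QF (F i)) H) y := by
  obtain ⟨FF, hFF⟩ : ∃ FF : Finset ℤ[X], FF = (univ : Finset ι).biUnion F := ⟨_, rfl⟩
  have hFFm : ∀ g : FF, ∃ i, (g : ℤ[X]) ∈ F i := by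
    intro g
    have h1 : (g : ℤ[X]) ∈ (univ : Finset ι).biUnion F := by
      rw [← hFF]
      exact g.2
    obtain ⟨i, _, hi⟩ := mem_biUnion.1 h1
    exact ⟨i, hi⟩
  have hmFF : ∀ i, ∀ g ∈ F i, g ∈ FF := by
    intro i g hg
    rw [hFF]
    exact mem_biUnion.2 ⟨i, mem_univ _, hg⟩
  have hR : ∀ g : FF, ∃ R : ℤ[X],
      (∀ t : ℤ, f ≠ (g : ℤ[X]).comp (X + C t) → R.eval t ≠ 0) ∧
      ∀ (t x p : ℤ), p ∣ f.eval x → p ∣ (g : ℤ[X]).eval (x + t) → p ∣ R.eval t := by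
    intro g
    obtain ⟨j, hgj⟩ := hFFm g
    exact ncolR f g ((hF i₀).irr f hf) ((hF j).irr g hgj) ((hF i₀).deg f hf) ((hF j).deg g hgj)
      ((hF i₀).lead f hf) ((hF j).lead g hgj)
  choose R hR1 hR2 using hR
  choose K D hKD using fun (g : FF) => eval_bound (R g)
  obtain ⟨K1, hK1⟩ : ∃ K1 : ℕ, K1 = (∑ g, K g) + 1 := ⟨_, rfl⟩
  obtain ⟨D1, hD1⟩ : ∃ D1 : ℕ, D1 = ∑ g, D g := ⟨_, rfl⟩
  have hKle : ∀ g, K g ≤ K1 := by
    intro g
    have h1 : K g ≤ ∑ g, K g := Finset.single_le_sum (fun _ _ => Nat.zero_le _) (mem_univ g)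
    omega
  have hDle : ∀ g, D g ≤ D1 := by
    intro g
    rw [hD1]
    exact Finset.single_le_sum (fun _ _ => Nat.zero_le _) (mem_univ g)
  have hsys := (hF i₀).single f hf
  obtain ⟨c, hc1, hc⟩ := exists_c (fun _ : Unit => f) hsys
  obtain ⟨v, Cv, hv, hCv, hV⟩ := V_bounds (fun _ : Unit => f) hsys
  have hlog2 : 0 < Real.log 2 := Real.log_pos (by norm_num)
  obtain ⟨E0, hE0⟩ : ∃ E0 : ℝ, E0 = (1 + D1 * (m + 1)) / Real.log 2 := ⟨_, rfl⟩
  have hE00 : 0 ≤ E0 := by rw [hE0]; positivity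
  obtain ⟨E, hE⟩ : ∃ E : ℝ, E = k * FF.card * E0 + 1 := ⟨_, rfl⟩
  have hE1 : 1 ≤ E := by
    rw [hE]
    have : 0 ≤ (k : ℝ) * FF.card * E0 := by positivity
    linarith
  obtain ⟨B0, hB0⟩ : ∃ B0 : ℝ, B0 = (2 * c + 1 : ℝ) ^ (2 * c + 1) * (Real.exp 2 * E) ^ (2 * c) * Cv :=
    ⟨_, rfl⟩
  have hB00 : 0 < B0 := by rw [hB0]; positivity
  have hL1 : ∀ᶠ L : ℝ in atTop, B0 * Real.log L ^ (2 * c) ≤ δ * L := by
    have h1 := (Real.isLittleO_pow_log_id_atTop (n := 2 * c)).bound (by positivity : 0 < δ / B0)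
    filter_upwards [h1, eventually_ge_atTop 0] with L hL hL0
    simp only [id, Real.norm_eq_abs, abs_of_nonneg hL0] at hL
    have h2 := (le_abs_self _).trans hL
    calc B0 * Real.log L ^ (2 * c) ≤ B0 * (δ / B0 * L) := mul_le_mul_of_nonneg_left h2 hB00.le
      _ = δ * L := by field_simp
  have hlogy : Tendsto (fun y : ℕ => Real.log (y : ℝ)) atTop atTop :=
    Real.tendsto_log_atTop.comp tendsto_natCast_atTop_atTop
  filter_upwards [hlogy.eventually hL1, hlogy.eventually (eventually_ge_atTop (1 + |M| + K1)),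
    hlogy.eventually (Real.tendsto_log_atTop.eventually (eventually_ge_atTop 1)),
    eventually_ge_atTop 3] with y hy1 hy2 hy3 hy4
  intro T hT H hHU hHk h hh hnew H₂ hHH hx
  obtain ⟨L, hL⟩ : ∃ L, L = Real.log (y : ℝ) := ⟨_, rfl⟩
  rw [← hL] at hy1 hy2 hy3 hT
  have hLM : 1 + |M| ≤ L := by
    have : (0 : ℝ) ≤ K1 := Nat.cast_nonneg K1
    linarith
  have hLK : (K1 : ℝ) ≤ L := by
    have : 0 ≤ |M| := abs_nonneg M
    linarith
  have hL1 : 1 ≤ L := by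
    have : 0 ≤ |M| := abs_nonneg M
    linarith
  have hLpos : 0 < L := by linarith
  have hLm : 1 ≤ L ^ m := one_le_pow₀ hL1
  have hTb : 1 + M * L ^ m ≤ L ^ (m + 1) := by
    have h1 : M ≤ |M| := le_abs_self M
    have h2 : (1 + |M|) * L ^ m ≤ L * L ^ m := mul_le_mul_of_nonneg_right hLM (by positivity)
    rw [pow_succ]
    nlinarith [abs_nonneg M]
  have hK1pos : (0 : ℝ) < K1 := by
    rw [hK1]
    push_cast
    positivity
  -- the bad primes of one pair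
  have hpair : ∀ cc ∈ H, ∀ g ∈ F cc.1, ∀ hg : g ∈ FF,
      (((pz y).filter (fun p : ℕ => (p : ℤ) ∣ (R ⟨g, hg⟩).eval ((cc.2 : ℤ) - h))).card : ℝ) ≤
        E0 * Real.log L := by
    intro cc hcc g hg hgF
    have hne : f ≠ g.comp (X + C ((cc.2 : ℤ) - h)) := by
      intro h0
      apply hnew cc hcc
      rw [mem_SP]
      refine ⟨g, hg, ?_⟩
      exact ((comp_eq_iff f g (h : ℤ) (cc.2 : ℤ)).2 h0).symm
    have hne0 := hR1 ⟨g, hgF⟩ _ hne
    have h1 := card_le_log ((pz y).filter (fun p : ℕ => (p : ℤ) ∣ (R ⟨g, hgF⟩).eval ((cc.2 : ℤ) - h)))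
      ((R ⟨g, hgF⟩).eval ((cc.2 : ℤ) - h)).natAbs (Int.natAbs_ne_zero.2 hne0) (fun p hp => by
        rw [mem_filter] at hp
        refine ⟨(mem_pz.1 hp.1).2, ?_⟩
        rw [← Int.natCast_dvd]
        exact hp.2)
    have hbound : ((((R ⟨g, hgF⟩).eval ((cc.2 : ℤ) - h)).natAbs : ℕ) : ℝ) ≤ L * (L ^ (m + 1)) ^ D1 := by
      have e1 : ((((R ⟨g, hgF⟩).eval ((cc.2 : ℤ) - h)).natAbs : ℕ) : ℝ) =
          |(((R ⟨g, hgF⟩).eval ((cc.2 : ℤ) - h) : ℤ) : ℝ)| := by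
        rw [Nat.cast_natAbs, Int.cast_abs]
      rw [e1]
      refine (hKD ⟨g, hgF⟩ _).trans ?_
      have h2 : |((((cc.2 : ℤ) - h : ℤ)) : ℝ)| ≤ M * L ^ m := by
        apply abs_sub_le_max
        · have := ((mem_Un T cc).1 (hHU hcc)).2
          exact le_trans (by exact_mod_cast this) (hT cc.1)
        · exact le_trans (by exact_mod_cast hh) (hT i₀)
      have h3 : 1 + |((((cc.2 : ℤ) - h : ℤ)) : ℝ)| ≤ L ^ (m + 1) := by linarith
      have h4 : (1 : ℝ) ≤ L ^ (m + 1) := one_le_pow₀ hL1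
      have hK' : ((K ⟨g, hgF⟩ : ℕ) : ℝ) ≤ L := by
        have : ((K ⟨g, hgF⟩ : ℕ) : ℝ) ≤ K1 := by exact_mod_cast hKle _
        linarith
      calc ((K ⟨g, hgF⟩ : ℕ) : ℝ) * (1 + |((((cc.2 : ℤ) - h : ℤ)) : ℝ)|) ^ D ⟨g, hgF⟩ ≤
          L * (L ^ (m + 1)) ^ D ⟨g, hgF⟩ := by
            apply mul_le_mul hK' (pow_le_pow_left₀ (by positivity) h3 _) (by positivity)
              (by positivity)
        _ ≤ L * (L ^ (m + 1)) ^ D1 := by
            apply mul_le_mul_of_nonneg_left (pow_le_pow_right₀ h4 (hDle _)) (by positivity)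
    have hnat : (0 : ℝ) < ((((R ⟨g, hgF⟩).eval ((cc.2 : ℤ) - h)).natAbs : ℕ) : ℝ) := by
      exact_mod_cast Nat.pos_of_ne_zero (Int.natAbs_ne_zero.2 hne0)
    have h2 := Real.log_le_log hnat hbound
    have e2 : Real.log (L * (L ^ (m + 1)) ^ D1) = (1 + D1 * (m + 1)) * Real.log L := by
      rw [Real.log_mul (by positivity) (by positivity), Real.log_pow, Real.log_pow]
      push_cast
      ring
    rw [e2] at h2
    rw [hE0, div_mul_eq_mul_div, le_div_iff₀ hlog2]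
    exact h1.trans h2
  -- the bad primes
  obtain ⟨A, hA⟩ : ∃ A, A = (pz y).filter (fun p : ℕ => ∃ cc ∈ H, ∃ g ∈ F cc.1, ∃ hg : g ∈ FF,
      (p : ℤ) ∣ (R ⟨g, hg⟩).eval ((cc.2 : ℤ) - h)) := ⟨_, rfl⟩
  have hAsub : A ⊆ H.biUnion (fun cc => FF.attach.biUnion (fun g =>
      (pz y).filter (fun p : ℕ => (g : ℤ[X]) ∈ F cc.1 ∧ (p : ℤ) ∣ (R g).eval ((cc.2 : ℤ) - h)))) := by
    intro p hp
    rw [hA, mem_filter] at hp
    obtain ⟨hp1, cc, hcc, g, hg, hgF, hpd⟩ := hp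
    rw [mem_biUnion]
    refine ⟨cc, hcc, ?_⟩
    rw [mem_biUnion]
    exact ⟨⟨g, hgF⟩, mem_attach _ _, mem_filter.2 ⟨hp1, hg, hpd⟩⟩
  have hlogL0 : 0 ≤ Real.log L := by linarith
  have hAcard : (A.card : ℝ) ≤ k * FF.card * (E0 * Real.log L) := by
    have h1 : A.card ≤ ∑ cc ∈ H, ∑ g ∈ FF.attach,
        ((pz y).filter (fun p : ℕ => (g : ℤ[X]) ∈ F cc.1 ∧
          (p : ℤ) ∣ (R g).eval ((cc.2 : ℤ) - h))).card :=
      (card_le_card hAsub).trans (Finset.card_biUnion_le.trans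
        (Finset.sum_le_sum fun _ _ => Finset.card_biUnion_le))
    have h2 : ∀ cc ∈ H, ∀ g ∈ FF.attach, (((pz y).filter (fun p : ℕ => (g : ℤ[X]) ∈ F cc.1 ∧
          (p : ℤ) ∣ (R g).eval ((cc.2 : ℤ) - h))).card : ℝ) ≤ E0 * Real.log L := by
      intro cc hcc g _
      by_cases hg : (g : ℤ[X]) ∈ F cc.1
      · refine le_trans ?_ (hpair cc hcc g hg g.2)
        have : ((pz y).filter (fun p : ℕ => (g : ℤ[X]) ∈ F cc.1 ∧
          (p : ℤ) ∣ (R g).eval ((cc.2 : ℤ) - h))).card ≤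
          ((pz y).filter (fun p : ℕ => (p : ℤ) ∣ (R g).eval ((cc.2 : ℤ) - h))).card := by
          apply card_le_card
          intro p hp
          rw [mem_filter] at hp ⊢
          exact ⟨hp.1, hp.2.2⟩
        exact_mod_cast this
      · have : (pz y).filter (fun p : ℕ => (g : ℤ[X]) ∈ F cc.1 ∧
          (p : ℤ) ∣ (R g).eval ((cc.2 : ℤ) - h)) = ∅ := by
          rw [Finset.filter_eq_empty_iff]
          intro p _ hp
          exact hg hp.1
        rw [this, card_empty, Nat.cast_zero]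
        positivity
    calc (A.card : ℝ) ≤ ∑ cc ∈ H, ∑ g ∈ FF.attach,
        (((pz y).filter (fun p : ℕ => (g : ℤ[X]) ∈ F cc.1 ∧
          (p : ℤ) ∣ (R g).eval ((cc.2 : ℤ) - h))).card : ℝ) := by exact_mod_cast h1
      _ ≤ ∑ cc ∈ H, ∑ g ∈ FF.attach, E0 * Real.log L :=
        Finset.sum_le_sum fun cc hcc => Finset.sum_le_sum fun g hg => h2 cc hcc g hg
      _ = H.card * (FF.card * (E0 * Real.log L)) := by
        rw [Finset.sum_const, Finset.sum_const, card_attach, nsmul_eq_mul, nsmul_eq_mul]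
      _ ≤ k * (FF.card * (E0 * Real.log L)) := by
        apply mul_le_mul_of_nonneg_right _ (by positivity)
        exact_mod_cast hHk
      _ = _ := by ring
  have hA1 : (A.card : ℝ) + 1 ≤ E * Real.log L := by
    rw [hE]
    nlinarith
  -- the condition of the new atom
  obtain ⟨Q2, hQ2⟩ : ∃ Q2, Q2 = Qt (Q (fun _ : Unit => f)) h := ⟨_, rfl⟩
  have hQ2c : PerB Q2 c := by rw [hQ2]; exact perB_Qt _ c hc h
  have hQ2a : ∀ p : ℕ, p.Prime → nuB Q2 p < p := fun p hp => by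
    rw [hQ2, nuB_Qt _ c hc]
    exact Poly.adm _ hsys p hp
  have hQ2V : Vq Q2 y ≤ Cv / L := by
    rw [hQ2, Vq_Qt _ c hc]
    have := (hV y hy4).2
    simpa [← hL] using this
  have hQ2iff : ∀ p m, Q2 p m ↔ (p : ℤ) ∣ f.eval ((m + h : ℕ) : ℤ) := by
    intro p m
    rw [hQ2]
    unfold Qt Q
    constructor
    · rintro ⟨_, h1⟩
      exact h1
    · intro h1
      exact ⟨(), h1⟩
  have hmain := Vq_ext (QU (fun i => QF (F i)) H) Q2 (QU (fun i => QF (F i)) H₂) y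
    (fun p m hq => QU_mono _ H₂ H hHH p m hq) (fun p m hq => by
      rw [hQ2iff] at hq
      exact ⟨⟨i₀, h⟩, hx, f, hf, hq⟩) A (by rw [hA]; exact filter_subset _ _) (fun p hp hpA m hq1 hq2 => by
      apply hpA
      rw [hA, mem_filter]
      refine ⟨hp, ?_⟩
      obtain ⟨cc, hcc, g, hg, hgd⟩ := hq1
      rw [hQ2iff] at hq2
      refine ⟨cc, hcc, g, hg, hmFF cc.1 g hg, ?_⟩
      apply hR2 ⟨g, hmFF cc.1 g hg⟩ _ ((m + h : ℕ) : ℤ) p hq2
      have : ((m + h : ℕ) : ℤ) + ((cc.2 : ℤ) - h) = ((m + cc.2 : ℕ) : ℤ) := by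
        push_cast
        ring
      rw [this]
      exact hgd)
  have hlow := prod_low c Q2 hQ2c hQ2a A (fun p hp => by
    rw [hA, mem_filter] at hp
    exact (mem_pz.1 hp.1).2)
  obtain ⟨P, hP⟩ : ∃ P, P = ∏ p ∈ A, (1 - (nuB Q2 p : ℝ) / p) := ⟨_, rfl⟩
  rw [← hP] at hmain hlow
  obtain ⟨B, hB⟩ : ∃ B : ℝ, B = (2 * c + 1 : ℝ) ^ (2 * c + 1) * (Real.exp 2 * (A.card + 1)) ^ (2 * c) :=
    ⟨_, rfl⟩
  rw [← hB] at hlow
  have hBpos : 0 ≤ B := by rw [hB]; positivity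
  have hB1 : B * (Cv / L) ≤ δ := by
    rw [← mul_div_assoc, div_le_iff₀ hLpos]
    refine le_trans ?_ hy1
    rw [hB, hB0]
    have h1 : (Real.exp 2 * ((A.card : ℝ) + 1)) ^ (2 * c) ≤ (Real.exp 2 * E) ^ (2 * c) * Real.log L ^ (2 * c) := by
      rw [← mul_pow]
      apply pow_le_pow_left₀ (by positivity)
      rw [mul_assoc]
      exact mul_le_mul_of_nonneg_left hA1 (Real.exp_pos _).le
    calc (2 * c + 1 : ℝ) ^ (2 * c + 1) * (Real.exp 2 * ((A.card : ℝ) + 1)) ^ (2 * c) * Cv ≤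
        (2 * c + 1 : ℝ) ^ (2 * c + 1) * ((Real.exp 2 * E) ^ (2 * c) * Real.log L ^ (2 * c)) * Cv := by
          gcongr
      _ = _ := by ring
  have hV1 : 0 ≤ Vq (QU (fun i => QF (F i)) H) y := Vq_nonneg _ _
  have hV3 : 0 ≤ Vq (QU (fun i => QF (F i)) H₂) y := Vq_nonneg _ _
  calc Vq (QU (fun i => QF (F i)) H₂) y = Vq (QU (fun i => QF (F i)) H₂) y * 1 := (mul_one _).symm
    _ ≤ Vq (QU (fun i => QF (F i)) H₂) y * (B * P) := mul_le_mul_of_nonneg_left hlow hV3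
    _ = B * (Vq (QU (fun i => QF (F i)) H₂) y * P) := by ring
    _ ≤ B * (Vq (QU (fun i => QF (F i)) H) y * Vq Q2 y) := mul_le_mul_of_nonneg_left hmain hBpos
    _ ≤ B * (Vq (QU (fun i => QF (F i)) H) y * (Cv / L)) := by
        apply mul_le_mul_of_nonneg_left _ hBpos
        exact mul_le_mul_of_nonneg_left hQ2V hV1
    _ = (B * (Cv / L)) * Vq (QU (fun i => QF (F i)) H) y := by ring
    _ ≤ δ * Vq (QU (fun i => QF (F i)) H) y := mul_le_mul_of_nonneg_right hB1 hV1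

open Classical in
/-- **A new atom makes the sieve product small**, uniformly in the atom. -/
theorem ext_all (F : ι → Finset ℤ[X]) (hF : ∀ i, SysF (F i)) (k m : ℕ) (M δ : ℝ) (hδ : 0 < δ) :
    ∀ᶠ y : ℕ in atTop, ∀ T : ι → ℕ, (∀ i, (T i : ℝ) ≤ M * Real.log y ^ m) →
      ∀ H ⊆ Un T, H.card ≤ k → ∀ x ∈ Un T, (∃ a ∈ SP F x, ∀ c ∈ H, a ∉ SP F c) → ∀ H₂, H ⊆ H₂ →
      x ∈ H₂ →
      Vq (QU (fun i => QF (F i)) H₂) y ≤ δ * Vq (QU (fun i => QF (F i)) H) y := by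
  have h1 : ∀ i₀ : ι, ∀ f ∈ F i₀, ∀ᶠ y : ℕ in atTop, ∀ T : ι → ℕ,
      (∀ i, (T i : ℝ) ≤ M * Real.log y ^ m) → ∀ H ⊆ Un T, H.card ≤ k → ∀ h : ℕ, h ≤ T i₀ →
      (∀ c ∈ H, f.comp (X + C (h : ℤ)) ∉ SP F c) → ∀ H₂ : Finset (Pt ι), H ⊆ H₂ →
      (⟨i₀, h⟩ : Pt ι) ∈ H₂ →
      Vq (QU (fun i => QF (F i)) H₂) y ≤ δ * Vq (QU (fun i => QF (F i)) H) y :=
    fun i₀ f hf => ext_one F hF k m M δ hδ i₀ f hf
  have h2 : ∀ i₀ : ι, ∀ᶠ y : ℕ in atTop, ∀ f ∈ F i₀, ∀ T : ι → ℕ,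
      (∀ i, (T i : ℝ) ≤ M * Real.log y ^ m) → ∀ H ⊆ Un T, H.card ≤ k → ∀ h : ℕ, h ≤ T i₀ →
      (∀ c ∈ H, f.comp (X + C (h : ℤ)) ∉ SP F c) → ∀ H₂ : Finset (Pt ι), H ⊆ H₂ →
      (⟨i₀, h⟩ : Pt ι) ∈ H₂ →
      Vq (QU (fun i => QF (F i)) H₂) y ≤ δ * Vq (QU (fun i => QF (F i)) H) y :=
    fun i₀ => (Filter.eventually_all_finset (F i₀)).2 (h1 i₀)
  have h3 := Filter.eventually_all.2 h2
  filter_upwards [h3] with y hy
  intro T hT H hH hHk x hx hax H₂ hHH hxH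
  obtain ⟨a, ha, hac⟩ := hax
  obtain ⟨g, hg, hga⟩ := (mem_SP F x a).1 ha
  exact hy x.1 g hg T hT H hH hHk x.2 ((mem_Un T x).1 hx).2 (fun c hc => by rw [hga]; exact hac c hc)
    H₂ hHH hxH

end Pool.Agent.Y175.JP
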