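import Pool.Agent.Y175.JP.PolyB
import Pool.Agent.Y175.JP.GenW

set_option autoImplicit false

/-!
# The joint Poisson law for windows of several systems of polynomials

Author: helper175.
-/

namespace Pool.Agent.Y175.JP

open Polynomial Finset Filter
open Pool.Agent.H373R2.T7 Pool.Agent.W123.RP Pool.Agent.W123.RU Pool.Agent.W123.RU.Poly
open Pool.Agent.TH464.PO

variable {ι : Type}

/-- the point with the offset -/
def Ph (a : ι → ℕ) (x : Pt ι) : Pt ι := ⟨x.1, x.2 + a x.1⟩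

lemma Ph_inj (a : ι → ℕ) : Function.Injective (Ph a) := by
  rintro ⟨i, h⟩ ⟨j, h'⟩ hxz
  unfold Ph at hxz
  simp only [Sigma.mk.injEq] at hxz
  obtain ⟨rfl, h2⟩ := hxz
  have h3 : h + a i = h' + a i := eq_of_heq h2
  have : h = h' := by omega
  rw [this]

/-- two windows of the same system are disjoint -/
def Cpt (F : ι → Finset ℤ[X]) (a T : ι → ℕ) : Prop :=
  ∀ i j, i ≠ j → (∀ t : ℤ, F i ≠ tr t (F j)) ∨ (F i = F j ∧ (a i + T i ≤ a j ∨ a j + T j ≤ a i))

open Classical in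
lemma QU_Ph (F : ι → Finset ℤ[X]) (a : ι → ℕ) (H : Finset (Pt ι)) :
    QU (fun i => Qt (QF (F i)) (a i)) H = QU (fun i => QF (F i)) (H.image (Ph a)) := by
  funext p m
  apply propext
  unfold QU
  constructor
  · rintro ⟨x, hx, hq⟩
    refine ⟨Ph a x, mem_image_of_mem _ hx, ?_⟩
    change QF (F x.1) p (m + (x.2 + a x.1))
    change QF (F x.1) p (m + x.2 + a x.1) at hq
    rwa [add_assoc] at hq
  · rintro ⟨z, hz, hq⟩
    obtain ⟨x, hx, rfl⟩ := mem_image.1 hz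
    refine ⟨x, hx, ?_⟩
    change QF (F x.1) p (m + (x.2 + a x.1)) at hq
    change QF (F x.1) p (m + x.2 + a x.1)
    rwa [add_assoc]

lemma Cox_Ph (F : ι → Finset ℤ[X]) (a : ι → ℕ) (p : ℕ) (x z : Pt ι) :
    Cox (fun i => Qt (QF (F i)) (a i)) p x z → Cox (fun i => QF (F i)) p (Ph a x) (Ph a z) := by
  rintro ⟨m, h1, h2⟩
  refine ⟨m, ?_, ?_⟩
  · change QF (F x.1) p (m + (x.2 + a x.1))
    change QF (F x.1) p (m + x.2 + a x.1) at h1
    rwa [add_assoc] at h1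
  · change QF (F z.1) p (m + (z.2 + a z.1))
    change QF (F z.1) p (m + z.2 + a z.1) at h2
    rwa [add_assoc] at h2

open Classical in
/-- **The atoms of the windows of polynomial systems.** -/
theorem atm_poly [Fintype ι] (F : ι → Finset ℤ[X]) (hF : ∀ i, SysF (F i)) (k m : ℕ)
    (M c0 η δ : ℝ) (hc0 : 0 < c0) (hη : 0 < η) (hδ : 0 < δ) :
    ∀ᶠ y : ℕ in atTop, ∀ a T : ι → ℕ, (∀ i, ((T i + a i : ℕ) : ℝ) ≤ M * Real.log y ^ m) →
      (∀ i, c0 * Real.log y ≤ T i) → Cpt F a T →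
      Atm (fun i => Qt (QF (F i)) (a i)) T y (fun x => SP F (Ph a x)) (WF F) (WF F * WF F) k η δ := by
  obtain ⟨T1, hT1⟩ := large_SP F hF (m + 1) η hη
  have hlogy : Tendsto (fun y : ℕ => Real.log (y : ℝ)) atTop atTop :=
    Real.tendsto_log_atTop.comp tendsto_natCast_atTop_atTop
  filter_upwards [ext_all F hF k m M δ hδ,
    hlogy.eventually (eventually_ge_atTop (1 + T1 / c0 + |M| / c0 ^ (m + 1)))] with y hext hy
  intro a T hTM hTc hC
  obtain ⟨L, hL⟩ : ∃ L, L = Real.log (y : ℝ) := ⟨_, rfl⟩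
  rw [← hL] at hy hTM hTc hext
  have hq1 : (0 : ℝ) ≤ T1 / c0 := by positivity
  have hq2 : (0 : ℝ) ≤ |M| / c0 ^ (m + 1) := by positivity
  have hL1 : 1 ≤ L := by linarith
  have hLT : (T1 : ℝ) ≤ c0 * L := by
    have h1 : (T1 : ℝ) / c0 ≤ L := by linarith
    rw [div_le_iff₀ hc0] at h1
    linarith
  have hLM : |M| ≤ c0 ^ (m + 1) * L := by
    have h1 : |M| / c0 ^ (m + 1) ≤ L := by linarith
    rw [div_le_iff₀ (by positivity)] at h1
    linarith
  have hLm : 1 ≤ L ^ m := one_le_pow₀ hL1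
  have hwin : ∀ x ∈ Un T, ((x.2 + a x.1 : ℕ) : ℝ) ≤ M * L ^ m := by
    intro x hx
    refine le_trans ?_ (hTM x.1)
    have := ((mem_Un T x).1 hx).2
    exact_mod_cast (by omega : x.2 + a x.1 ≤ T x.1 + a x.1)
  have hbig : ∀ i, M * L ^ m ≤ (T i : ℝ) ^ (m + 1) := by
    intro i
    calc M * L ^ m ≤ |M| * L ^ m := mul_le_mul_of_nonneg_right (le_abs_self M) (by positivity)
      _ ≤ c0 ^ (m + 1) * L * L ^ m := mul_le_mul_of_nonneg_right hLM (by positivity)
      _ = (c0 * L) ^ (m + 1) := by rw [mul_pow]; ring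
      _ ≤ (T i : ℝ) ^ (m + 1) := pow_le_pow_left₀ (by positivity) (hTc i) _
  refine ⟨?_, ?_, ?_, ?_, ?_, ?_⟩
  · intro x _
    rw [← card_pos, SP_card]
    exact card_pos.2 (hF _).ne
  · intro x _
    rw [SP_card]
    exact card_le_WF F _
  · intro x hx z hz h
    rw [mem_Un] at hx hz
    obtain ⟨i, h1⟩ := x
    obtain ⟨j, h2⟩ := z
    change tr ((h1 + a i : ℕ) : ℤ) (F i) = tr ((h2 + a j : ℕ) : ℤ) (F j) at h
    rw [tr_eq_iff] at h
    by_cases hij : i = j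
    · subst hij
      by_cases hab : (((h2 + a i : ℕ) : ℤ) - ((h1 + a i : ℕ) : ℤ)) = 0
      · have : h1 = h2 := by
          push_cast at hab
          have : (h1 : ℤ) = h2 := by linarith
          exact_mod_cast this
        rw [this]
      · exact absurd h (tr_ne_self (F i) (hF i).ne (hF i).deg _ hab)
    · rcases hC i j hij with hn | ⟨hFF, hd⟩
      · exact absurd h (hn _)
      · exfalso
        rw [← hFF] at h
        by_cases hab : (((h2 + a j : ℕ) : ℤ) - ((h1 + a i : ℕ) : ℤ)) = 0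
        · have : h2 + a j = h1 + a i := by
            have : ((h2 + a j : ℕ) : ℤ) = ((h1 + a i : ℕ) : ℤ) := by linarith
            exact_mod_cast this
          simp only at hx hz
          omega
        · exact tr_ne_self (F i) (hF i).ne (hF i).deg _ hab h
  · intro x
    refine le_trans ?_ (deg_SP F hF ((Un T).image (Ph a)) (Ph a x))
    rw [← Finset.card_image_of_injective _ (Ph_inj a)]
    apply card_le_card
    intro z hz
    obtain ⟨u, hu, rfl⟩ := mem_image.1 hz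
    rw [mem_nbs] at hu ⊢
    exact ⟨mem_image_of_mem _ hu.1, fun h => hu.2.1 (Ph_inj a h), hu.2.2⟩
  · intro x hx z hz hxz hd
    have hTz : T1 ≤ T z.1 := by
      have : (T1 : ℝ) ≤ T z.1 := hLT.trans (hTc z.1)
      exact_mod_cast this
    have hdist : |((Ph a z).2 : ℤ) - (Ph a x).2| ≤ ((T z.1 : ℕ) : ℤ) ^ (m + 1) := by
      have h1 := abs_sub_le_max (Ph a z).2 (Ph a x).2 (M * L ^ m) (hwin z hz) (hwin x hx)
      have h2 := h1.trans (hbig z.1)
      exact_mod_cast h2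
    refine le_trans ?_ (hT1 (Ph a x) (Ph a z) (T z.1) hTz hdist hd y)
    have : ((pz y).filter (fun p : ℕ => T z.1 < p ∧
        Cox (fun i => Qt (QF (F i)) (a i)) p x z)).card ≤
        ((pz y).filter (fun p : ℕ => T z.1 < p ∧
          Cox (fun i => QF (F i)) p (Ph a x) (Ph a z))).card := by
      apply card_le_card
      intro p hp
      rw [mem_filter] at hp ⊢
      exact ⟨hp.1, hp.2.1, Cox_Ph F a p x z hp.2.2⟩
    exact_mod_cast this
  · intro H hH hHk x hx hax H₂ hHH hxH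
    rw [QU_Ph, QU_Ph]
    have hUn : ∀ z ∈ Un T, Ph a z ∈ Un (fun i => T i + a i) := by
      intro z hz
      rw [mem_Un] at hz ⊢
      change 1 ≤ z.2 + a z.1 ∧ z.2 + a z.1 ≤ T z.1 + a z.1
      omega
    apply hext (fun i => T i + a i) hTM (H.image (Ph a)) _ _ (Ph a x) (hUn x hx) _ _
      (image_subset_image hHH) (mem_image_of_mem _ hxH)
    · intro z hz
      obtain ⟨u, hu, rfl⟩ := mem_image.1 hz
      exact hUn u (hH hu)
    · exact (card_image_le).trans hHk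
    · obtain ⟨b, hb, hbc⟩ := hax
      refine ⟨b, hb, ?_⟩
      intro cc hcc
      obtain ⟨u, hu, rfl⟩ := mem_image.1 hcc
      exact hbc u hu

/-- bounds for the sieve products -/
lemma V_all [Fintype ι] (F : ι → Finset ℤ[X]) (hF : ∀ i, SysF (F i)) : ∃ v Cv : ℝ, 0 < v ∧ 0 < Cv ∧
    ∀ i, ∀ y : ℕ, 3 ≤ y → v / Real.log y ^ (F i).card ≤ Vq (QF (F i)) y ∧
      Vq (QF (F i)) y ≤ Cv / Real.log y ^ (F i).card := by
  choose v Cv hv hCv hV using fun i => V_bounds (fun g : F i => (g : ℤ[X])) (hF i).sys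
  simp only [Fintype.card_coe] at hV
  obtain ⟨v0, hv00, hv0⟩ : ∃ v0 : ℝ, 0 < v0 ∧ ∀ i, v0 ≤ v i := by
    rcases isEmpty_or_nonempty ι with h | h
    · exact ⟨1, one_pos, fun i => (h.false i).elim⟩
    · obtain ⟨i, _, hi⟩ := Finset.exists_min_image (univ : Finset ι) v univ_nonempty
      exact ⟨v i, hv i, fun j => hi j (mem_univ _)⟩
  refine ⟨v0, (∑ i, Cv i) + 1, hv00, by
    have : 0 ≤ ∑ i, Cv i := Finset.sum_nonneg fun i _ => (hCv i).le
    linarith, ?_⟩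
  intro i y hy
  have hlog : 0 < Real.log y := Real.log_pos (by exact_mod_cast (by omega : 1 < y))
  obtain ⟨h1, h2⟩ := hV i y hy
  rw [QF_eq]
  have h3 : Cv i ≤ ∑ i, Cv i := Finset.single_le_sum (fun i _ => (hCv i).le) (mem_univ i)
  constructor
  · refine le_trans ?_ h1
    exact div_le_div_of_nonneg_right (hv0 i) (by positivity)
  · refine h2.trans ?_
    exact div_le_div_of_nonneg_right (by linarith) (by positivity)

/-- a common bound for the numbers of classes -/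
lemma c_all [Fintype ι] (F : ι → Finset ℤ[X]) (hF : ∀ i, SysF (F i)) :
    ∃ c : ℕ, 1 ≤ c ∧ ∀ i, PerB (QF (F i)) c := by
  choose c hc1 hc using fun i => exists_c (fun g : F i => (g : ℤ[X])) (hF i).sys
  refine ⟨(∑ i, c i) + 1, by omega, ?_⟩
  intro i
  rw [QF_eq]
  refine ⟨(hc i).per, fun p hp => ((hc i).few p hp).trans ?_⟩
  have : c i ≤ ∑ i, c i := Finset.single_le_sum (fun _ _ => Nat.zero_le _) (mem_univ i)
  omega

lemma adm_F {F : Finset ℤ[X]} (hF : SysF F) (p : ℕ) (hp : p.Prime) : nuB (QF F) p < p := by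
  rw [QF_eq]
  exact Poly.adm _ hF.sys p hp

open Classical in
/-- **The joint Poisson law** for finitely many windows of systems of polynomials. -/
theorem poly_windows [Fintype ι] (F : ι → Finset ℤ[X]) (hF : ∀ i, SysF (F i)) (θ : ℝ) (hθ : 0 < θ)
    (x0 ε : ℝ) (hx0 : 0 ≤ x0) (hε : 0 < ε) :
    ∃ r0 : ℕ, ∀ r : ℕ, r0 ≤ r → ∀ᶠ X : ℕ in atTop, ∀ Z Y : ℕ, (X : ℝ) ^ θ ≤ Y →
      ∀ a T : ι → ℕ, Cpt F a T →
      (∀ i, (a i + T i : ℕ) * Vq (QF (F i)) ⌊(X : ℝ) ^ (1 / (r : ℝ))⌋₊ ≤ x0) →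
      ∀ A : ι → Finset ℕ,
        |(((Ioc Z (Z + Y)).filter (fun n => ∀ i,
            Wc (Sf (QF (F i)) ⌊(X : ℝ) ^ (1 / (r : ℝ))⌋₊) (n + a i) (T i) ∈ A i)).card : ℝ) -
          Y * ∏ i, PoA (T i * Vq (QF (F i)) ⌊(X : ℝ) ^ (1 / (r : ℝ))⌋₊) (A i)| ≤ ε * Y := by
  obtain ⟨c, hc1, hc⟩ := c_all F hF
  obtain ⟨v, Cv, hv, hCv, hV⟩ := V_all F hF
  obtain ⟨g, hg⟩ : ∃ g, g = WF F := ⟨_, rfl⟩
  obtain ⟨K0, y0, T0, R0, k0, η', δ, κ, hη', hδ, hκ, hκ2, hlaw⟩ :=
    gen_windows (ι := ι) c hc1 g (g * g) x0 ε hε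
  obtain ⟨x1, hx1⟩ : ∃ x1, x1 = max x0 1 := ⟨_, rfl⟩
  have hx10 : 0 < x1 := by rw [hx1]; positivity
  obtain ⟨c0, hc0⟩ : ∃ c0, c0 = κ / Cv := ⟨_, rfl⟩
  have hc0pos : 0 < c0 := by rw [hc0]; positivity
  obtain ⟨R1, hR1⟩ : ∃ R1 : ℕ, (K0 : ℝ) / θ ≤ R1 := exists_nat_ge _
  refine ⟨max R1 2, ?_⟩
  intro r hr
  have hr2 : 2 ≤ r := (le_max_right _ _).trans hr
  have hrr : (2 : ℝ) ≤ r := by exact_mod_cast hr2
  have hrpos : (0 : ℝ) < r := by linarith
  have hrK : (K0 : ℝ) ≤ θ * r := by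
    have h1 : (K0 : ℝ) / θ ≤ r := hR1.trans (by exact_mod_cast (le_max_left _ _).trans hr)
    rw [div_le_iff₀ hθ] at h1
    linarith
  have hXr : Tendsto (fun X : ℕ => (X : ℝ)) atTop atTop := tendsto_natCast_atTop_atTop
  have hpow2 : Tendsto (fun X : ℕ => (X : ℝ) ^ (1 / (2 * r : ℝ))) atTop atTop :=
    (tendsto_rpow_atTop (by positivity)).comp hXr
  have hlogX : Tendsto (fun X : ℕ => Real.log (X : ℝ)) atTop atTop :=
    Real.tendsto_log_atTop.comp hXr
  have hyt : Tendsto (fun X : ℕ => ⌊(X : ℝ) ^ (1 / (r : ℝ))⌋₊) atTop atTop :=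
    tendsto_nat_floor_atTop.comp ((tendsto_rpow_atTop (by positivity)).comp hXr)
  -- the atoms
  have hAt1 : ∀ J : Finset ι, ∀ᶠ X : ℕ in atTop, ∀ a T : J → ℕ,
      (∀ i, ((T i + a i : ℕ) : ℝ) ≤ (x1 / v) * Real.log ⌊(X : ℝ) ^ (1 / (r : ℝ))⌋₊ ^ g) →
      (∀ i, c0 * Real.log ⌊(X : ℝ) ^ (1 / (r : ℝ))⌋₊ ≤ T i) → Cpt (fun i : J => F i) a T →
      Atm (fun i : J => Qt (QF (F i)) (a i)) T ⌊(X : ℝ) ^ (1 / (r : ℝ))⌋₊
        (fun x => SP (fun i : J => F i) (Ph a x)) (WF (fun i : J => F i))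
        (WF (fun i : J => F i) * WF (fun i : J => F i)) k0 η' δ := fun J =>
    hyt.eventually (atm_poly (ι := J) (fun i => F i) (fun i => hF i) k0 g (x1 / v) c0 η' δ
      hc0pos hη' hδ)
  have hAt2 : ∀ i : ι, ∀ᶠ X : ℕ in atTop, ∀ a T : Unit → ℕ,
      (∀ i, ((T i + a i : ℕ) : ℝ) ≤ (x1 / v + x1 / v) * Real.log ⌊(X : ℝ) ^ (1 / (r : ℝ))⌋₊ ^ g) →
      (∀ i, c0 * Real.log ⌊(X : ℝ) ^ (1 / (r : ℝ))⌋₊ ≤ T i) → Cpt (fun _ : Unit => F i) a T →
      Atm (fun j : Unit => Qt (QF (F i)) (a j)) T ⌊(X : ℝ) ^ (1 / (r : ℝ))⌋₊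
        (fun x => SP (fun _ : Unit => F i) (Ph a x)) (WF (fun _ : Unit => F i))
        (WF (fun _ : Unit => F i) * WF (fun _ : Unit => F i)) k0 η' δ := fun i =>
    hyt.eventually (atm_poly (ι := Unit) (fun _ => F i) (fun _ => hF i) k0 g (x1 / v + x1 / v) c0 η' δ
      hc0pos hη' hδ)
  filter_upwards [Filter.eventually_all.2 hAt1, Filter.eventually_all.2 hAt2,
    hpow2.eventually_ge_atTop ((y0 : ℝ) + 3), eventually_ge_atTop 16,
    hlogX.eventually_ge_atTop (2 * r * (1 + Cv / κ + T0 / c0)),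
    Pool.Agent.TH464.PW.logpow_rpow (g * R0) ((x1 / v) ^ R0 + 1) θ (by positivity) hθ]
    with X hA1 hA2 hX1 hX16 hX3 hX4
  intro Z Y hXY a T hC hTx A
  have hX16r : (16 : ℝ) ≤ X := by exact_mod_cast hX16
  have hXpos : (0 : ℝ) < X := by linarith
  have hXone : (1 : ℝ) ≤ X := by linarith
  have hy0r : (0 : ℝ) ≤ y0 := Nat.cast_nonneg _
  obtain ⟨hy1, hy2, hy3, hy4⟩ := level_low r hr2 X (by omega) (by linarith)
  obtain ⟨y, hy⟩ : ∃ y, y = ⌊(X : ℝ) ^ (1 / (r : ℝ))⌋₊ := ⟨_, rfl⟩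
  rw [← hy] at hy1 hy2 hy3 hy4 hTx hA1 hA2 ⊢
  have hyr : (y0 : ℝ) + 3 ≤ y := hX1.trans hy1
  have hyy0 : y0 ≤ y := by
    have : (y0 : ℝ) ≤ y := by linarith
    exact_mod_cast this
  have hy3' : 3 ≤ y := by
    have : (3 : ℝ) ≤ y := by linarith
    exact_mod_cast this
  obtain ⟨L, hL⟩ : ∃ L, L = Real.log (y : ℝ) := ⟨_, rfl⟩
  rw [← hL] at hy2 hy3 hA1 hA2
  have hL1 : 1 + Cv / κ + T0 / c0 ≤ L := by
    refine le_trans ?_ hy2
    rw [le_div_iff₀ (by positivity)]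
    linarith
  have hq1 : 0 < Cv / κ := by positivity
  have hq2 : 0 ≤ T0 / c0 := by positivity
  have hL1' : 1 ≤ L := by linarith
  have hLpos : 0 < L := by linarith
  have hcard1 : ∀ i, 1 ≤ (F i).card := fun i => card_pos.2 (hF i).ne
  have hcardg : ∀ i, (F i).card ≤ g := fun i => by rw [hg]; exact card_le_WF F i
  have hVlo : ∀ i, v / L ^ (F i).card ≤ Vq (QF (F i)) y := fun i => by
    rw [hL]; exact (hV i y hy3').1
  have hVup : ∀ i, Vq (QF (F i)) y ≤ Cv / L ^ (F i).card := fun i => by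
    rw [hL]; exact (hV i y hy3').2
  have hLi : ∀ i, L ≤ L ^ (F i).card := fun i => by
    calc L = L ^ 1 := (pow_one _).symm
      _ ≤ L ^ (F i).card := pow_le_pow_right₀ hL1' (hcard1 i)
  have hLg : ∀ i, L ^ (F i).card ≤ L ^ g := fun i => pow_le_pow_right₀ hL1' (hcardg i)
  have hVκ : ∀ i, Vq (QF (F i)) y ≤ κ := by
    intro i
    refine (hVup i).trans ?_
    rw [div_le_iff₀ (by positivity)]
    have h1 : Cv / κ ≤ L := by linarith
    rw [div_le_iff₀ hκ] at h1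
    have h2 := mul_le_mul_of_nonneg_left (hLi i) hκ.le
    linarith
  -- the length of a window
  have hup : ∀ i, ∀ U : ℕ, (U : ℝ) * Vq (QF (F i)) y ≤ x1 → (U : ℝ) ≤ x1 / v * L ^ g := by
    intro i U hU
    have hU0 : (0 : ℝ) ≤ U := Nat.cast_nonneg U
    have h1 : (U : ℝ) * (v / L ^ (F i).card) ≤ x1 := (mul_le_mul_of_nonneg_left (hVlo i) hU0).trans hU
    have h2 : (U : ℝ) * v ≤ x1 * L ^ (F i).card := by
      calc (U : ℝ) * v = U * (v / L ^ (F i).card) * L ^ (F i).card := by field_simp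
        _ ≤ x1 * L ^ (F i).card := mul_le_mul_of_nonneg_right h1 (by positivity)
    rw [div_mul_eq_mul_div, le_div_iff₀ hv]
    exact h2.trans (mul_le_mul_of_nonneg_left (hLg i) hx10.le)
  have hlo : ∀ i, ∀ U : ℕ, κ ≤ U * Vq (QF (F i)) y → c0 * L ≤ U := by
    intro i U hU
    have hU0 : (0 : ℝ) ≤ U := Nat.cast_nonneg U
    have h1 : κ ≤ U * (Cv / L ^ (F i).card) := hU.trans (mul_le_mul_of_nonneg_left (hVup i) hU0)
    have h2 : κ * L ^ (F i).card ≤ U * Cv := by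
      calc κ * L ^ (F i).card ≤ U * (Cv / L ^ (F i).card) * L ^ (F i).card :=
            mul_le_mul_of_nonneg_right h1 (by positivity)
        _ = U * Cv := by field_simp
    have h3 : κ * L ≤ U * Cv := (mul_le_mul_of_nonneg_left (hLi i) hκ.le).trans h2
    rw [hc0, div_mul_eq_mul_div, div_le_iff₀ hCv]
    exact h3
  have hT0 : ∀ U : ℕ, c0 * L ≤ U → T0 ≤ U := by
    intro U hU
    have h1 : (T0 : ℝ) / c0 ≤ L := by linarith
    rw [div_le_iff₀ hc0pos] at h1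
    have : (T0 : ℝ) ≤ U := by linarith
    exact_mod_cast this
  have hTR : ∀ U : ℕ, (U : ℝ) ≤ x1 / v * L ^ g → U ^ R0 ≤ Y := by
    intro U hU
    have h3 : ((U ^ R0 : ℕ) : ℝ) ≤ Y := by
      push_cast
      calc (U : ℝ) ^ R0 ≤ (x1 / v * L ^ g) ^ R0 := pow_le_pow_left₀ (Nat.cast_nonneg _) hU _
        _ ≤ (x1 / v * Real.log X ^ g) ^ R0 := by gcongr
        _ = (x1 / v) ^ R0 * Real.log X ^ (g * R0) := by rw [mul_pow, pow_mul]
        _ ≤ ((x1 / v) ^ R0 + 1) * Real.log X ^ (g * R0) := by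
          have : 0 ≤ Real.log X := by linarith
          gcongr
          linarith
        _ ≤ (X : ℝ) ^ θ := hX4
        _ ≤ Y := hXY
    exact_mod_cast h3
  have hyK : y ^ K0 ≤ Y := by
    have h3 : ((y ^ K0 : ℕ) : ℝ) ≤ Y := by
      push_cast
      calc (y : ℝ) ^ K0 ≤ ((X : ℝ) ^ (1 / (r : ℝ))) ^ K0 := by
            apply pow_le_pow_left₀ (Nat.cast_nonneg _)
            rw [hy]
            exact Nat.floor_le (by positivity)
        _ = (X : ℝ) ^ (1 / (r : ℝ) * K0) := by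
            rw [Real.rpow_mul hXpos.le, Real.rpow_natCast]
        _ ≤ (X : ℝ) ^ θ := by
            apply Real.rpow_le_rpow_of_exponent_le hXone
            rw [one_div, inv_mul_eq_div, div_le_iff₀ hrpos]
            exact hrK
        _ ≤ Y := hXY
    exact_mod_cast h3
  have hV0 : ∀ i, 0 < Vq (QF (F i)) y := fun i => Vq_pos _ (fun p hp => adm_F (hF i) p hp) y
  have haT : ∀ i, ((T i + a i : ℕ) : ℝ) ≤ x1 / v * L ^ g := by
    intro i
    apply hup i
    rw [add_comm]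
    exact (hTx i).trans (by rw [hx1]; exact le_max_left _ _)
  have hVs : ∀ i, Vq (Qt (QF (F i)) (a i)) y = Vq (QF (F i)) y := fun i =>
    Vq_Qt (QF (F i)) c (hc i) (a i) y
  have hWF : ∀ J : Finset ι, WF (fun i : J => F i) ≤ g := by
    intro J
    rw [hg]
    unfold WF
    rw [Finset.sum_coe_sort J (fun i => (F i).card)]
    exact Finset.sum_le_sum_of_subset (subset_univ _)
  have hWF2 : ∀ i : ι, WF (fun _ : Unit => F i) ≤ g := by
    intro i
    unfold WF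
    simpa using hcardg i
  obtain ⟨J, hJ⟩ : ∃ J : Finset ι, J = univ.filter (fun i => κ ≤ T i * Vq (QF (F i)) y) := ⟨_, rfl⟩
  have hmemJ : ∀ i, i ∈ J ↔ κ ≤ T i * Vq (QF (F i)) y := by
    intro i
    rw [hJ, mem_filter]
    exact ⟨fun h => h.2, fun h => ⟨mem_univ _, h⟩⟩
  have hmain := hlaw (fun i => Qt (QF (F i)) (a i)) Z Y y (fun i => perB_Qt _ c (hc i) (a i))
    (fun i p hp => by rw [nuB_Qt _ c (hc i)]; exact adm_F (hF i) p hp) hyy0 hyK
    (fun i => by rw [hVs]; exact hVκ i)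
    (fun i T' h1 h2 => by
      rw [hVs] at h1 h2
      rw [← hx1] at h2
      have h3 := hup i T' h2
      refine ⟨hT0 T' (hlo i T' h1), hTR T' h3, ℤ[X],
        fun x => SP (fun _ : Unit => F i) (Ph (fun _ => a i) x), ?_⟩
      have hat := hA2 i (fun _ => a i) (fun _ => T') (fun _ => by
          have h4 := haT i
          push_cast at h4 ⊢
          have h5 : (0 : ℝ) ≤ T i := Nat.cast_nonneg _
          have h6 : (x1 / v + x1 / v) * L ^ g = x1 / v * L ^ g + x1 / v * L ^ g := by ring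
          rw [h6]
          linarith) (fun _ => hlo i T' h1) (fun _ _ h => absurd rfl h)
      exact ⟨hat.ne, fun x hx => (hat.card x hx).trans (hWF2 i), hat.inj,
        fun x => (hat.deg x).trans (Nat.mul_le_mul (hWF2 i) (hWF2 i)), hat.large, hat.ext⟩)
    T (fun i => by
      rw [hVs]
      refine le_trans ?_ (hTx i)
      apply mul_le_mul_of_nonneg_right _ (hV0 i).le
      push_cast
      have : (0 : ℝ) ≤ a i := Nat.cast_nonneg _
      linarith)
    J (fun i => by rw [hVs]; exact hmemJ i) (by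
      refine ⟨ℤ[X], fun x => SP (fun i : J => F i) (Ph (fun i : J => a i) x), ?_⟩
      have hat := hA1 J (fun i => a i) (fun i => T i) (fun i => haT i)
        (fun i => hlo i (T i) ((hmemJ i).1 i.2)) (fun i j hij => hC i j (fun h => hij (Subtype.ext h)))
      exact ⟨hat.ne, fun x hx => (hat.card x hx).trans (hWF J), hat.inj,
        fun x => (hat.deg x).trans (Nat.mul_le_mul (hWF J) (hWF J)), hat.large, hat.ext⟩) A
  simp only [hVs] at hmain
  have hWs : ∀ i n, Wc (Sf (Qt (QF (F i)) (a i)) y) n (T i) = Wc (Sf (QF (F i)) y) (n + a i) (T i) := by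
    intro i n
    unfold Wc
    apply Finset.card_bij (fun m _ => m + a i)
    · intro m hm
      rw [mem_filter, mem_Ioc] at hm ⊢
      exact ⟨by omega, (sf_Qt (QF (F i)) (a i) y m).1 hm.2⟩
    · intro b _ b' _ h
      omega
    · intro m hm
      rw [mem_filter, mem_Ioc] at hm
      refine ⟨m - a i, ?_, by omega⟩
      rw [mem_filter, mem_Ioc]
      refine ⟨by omega, (sf_Qt (QF (F i)) (a i) y (m - a i)).2 ?_⟩
      rw [show m - a i + a i = m by omega]
      exact hm.2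
  simp only [hWs] at hmain
  exact hmain

end Pool.Agent.Y175.JP
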