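import Pool.Agent.Y175.JP.UniD
import Pool.Agent.Y175.JP.PolyJ

set_option autoImplicit false

/-!
# The uniform law of the patterns of almost prime values

Author: helper175.
-/

namespace Pool.Agent.Y175.JP

open Polynomial Finset Filter
open Pool.Agent.H373R2.T7 Pool.Agent.W123.RP Pool.Agent.W123.RU Pool.Agent.W123.RU.Poly
open Pool.Agent.TH464.PO

/-- no polynomial of the system is a translate of another one -/
def NT (F : Finset ℤ[X]) : Prop := ∀ f ∈ F, ∀ g ∈ F, ∀ t : ℤ, t ≠ 0 → f ≠ g.comp (X + C t)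

lemma nt_single (f : ℤ[X]) (hd : 0 < f.natDegree) : NT {f} := by
  intro a ha b hb t ht h
  rw [mem_singleton] at ha hb
  rw [ha, hb] at h
  apply tr_ne_self {f} (singleton_nonempty f) (fun q hq => by rw [mem_singleton.1 hq]; exact hd) t ht
  unfold tr
  rw [image_singleton, ← h]

open Classical in
/-- the large primes which divide values at two points at distance `t` -/
noncomputable def Lp (F : Finset ℤ[X]) (y T : ℕ) (t : ℤ) : Finset ℕ :=
  (pz y).filter (fun p : ℕ => T < p ∧ ∃ f ∈ F, ∃ g ∈ F, ∃ u : ℤ, (p : ℤ) ∣ f.eval u ∧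
    (p : ℤ) ∣ g.eval (u + t))

open Classical in
lemma large_far (F : Finset ℤ[X]) (hF : SysF F) (hNT : NT F) (M η : ℝ) (hM : 0 ≤ M) (hη : 0 < η) :
    ∃ T1 : ℕ, 2 ≤ T1 ∧ ∀ (T B : ℕ), T1 ≤ T → 1 ≤ B → Real.log B ≤ M * T → ∀ t : ℤ, t ≠ 0 →
      |t| ≤ (B : ℤ) → ∀ y : ℕ, ((Lp F y T t).card : ℝ) ≤ η * T := by
  have hR : ∀ f : F, ∀ g : F, ∃ R : ℤ[X],
      (∀ t : ℤ, (f : ℤ[X]) ≠ (g : ℤ[X]).comp (X + C t) → R.eval t ≠ 0) ∧
      ∀ (t x p : ℤ), p ∣ (f : ℤ[X]).eval x → p ∣ (g : ℤ[X]).eval (x + t) → p ∣ R.eval t :=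
    fun f g => ncolR f g (hF.irr f f.2) (hF.irr g g.2) (hF.deg f f.2) (hF.deg g g.2)
      (hF.lead f f.2) (hF.lead g g.2)
  choose R hR1 hR2 using hR
  choose K D hKD using fun (f g : F) => eval_bound (R f g)
  obtain ⟨K1, hK1⟩ : ∃ K1 : ℕ, K1 = (∑ f, ∑ g, K f g) + 1 := ⟨_, rfl⟩
  obtain ⟨D1, hD1⟩ : ∃ D1 : ℕ, D1 = ∑ f, ∑ g, D f g := ⟨_, rfl⟩
  have hKle : ∀ f g, K f g ≤ K1 := by
    intro f g
    have h1 : K f g ≤ ∑ g, K f g := Finset.single_le_sum (fun _ _ => Nat.zero_le _) (mem_univ g)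
    have h2 : ∑ g, K f g ≤ ∑ f, ∑ g, K f g :=
      Finset.single_le_sum (f := fun f => ∑ g, K f g) (fun _ _ => Nat.zero_le _) (mem_univ f)
    omega
  have hDle : ∀ f g, D f g ≤ D1 := by
    intro f g
    have h1 : D f g ≤ ∑ g, D f g := Finset.single_le_sum (fun _ _ => Nat.zero_le _) (mem_univ g)
    have h2 : ∑ g, D f g ≤ ∑ f, ∑ g, D f g :=
      Finset.single_le_sum (f := fun f => ∑ g, D f g) (fun _ _ => Nat.zero_le _) (mem_univ f)
    omega
  obtain ⟨N, hN⟩ : ∃ N : ℕ, N = F.card * F.card + 1 := ⟨_, rfl⟩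
  obtain ⟨G, hG⟩ : ∃ G : ℝ, G = N * (Real.log K1 + D1 * (1 + M) + 1) / η := ⟨_, rfl⟩
  have hK1r : (1 : ℝ) ≤ K1 := by exact_mod_cast (by omega : 1 ≤ K1)
  have hlogK : 0 ≤ Real.log K1 := Real.log_nonneg hK1r
  have hNr : (1 : ℝ) ≤ N := by exact_mod_cast (by omega : 1 ≤ N)
  have hD0 : (0 : ℝ) ≤ D1 := Nat.cast_nonneg _
  obtain ⟨T2, hT2⟩ : ∃ T2 : ℕ, Real.exp G ≤ T2 := exists_nat_ge _
  refine ⟨max T2 2, le_max_right _ _, ?_⟩
  intro T B hT hB hBM t ht htB y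
  have hTT2 : T2 ≤ T := (le_max_left _ _).trans hT
  have hT2' : 2 ≤ T := (le_max_right _ _).trans hT
  have hTr : (2 : ℝ) ≤ T := by exact_mod_cast hT2'
  have hT0 : (0 : ℝ) < T := by linarith
  have hlogT : G ≤ Real.log T := by
    rw [Real.le_log_iff_exp_le hT0]
    exact hT2.trans (by exact_mod_cast hTT2)
  have hlogTpos : 0 < Real.log T := Real.log_pos (by linarith)
  have hBr : (1 : ℝ) ≤ B := by exact_mod_cast hB
  have hlogB : 0 ≤ Real.log B := Real.log_nonneg hBr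
  have hlog2 : Real.log 2 ≤ 1 := by
    have := Real.log_two_lt_d9
    linarith
  -- one pair of polynomials
  obtain ⟨A, hA⟩ : ∃ A : F → F → Finset ℕ, A = fun (f g : F) => (pz y).filter (fun p : ℕ => T < p ∧
      ∃ u : ℤ, (p : ℤ) ∣ (f : ℤ[X]).eval u ∧ (p : ℤ) ∣ (g : ℤ[X]).eval (u + t)) := ⟨_, rfl⟩
  have hpair : ∀ f g, ((A f g).card : ℝ) * Real.log T ≤ (Real.log K1 + D1 * (1 + M) + 1) * T := by
    intro f g
    have hne := hNT f f.2 g g.2 t ht
    have hne0 := hR1 f g t hne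
    have hpow := pow_card_le (A f g) ((R f g).eval t).natAbs (Int.natAbs_ne_zero.2 hne0)
      (fun p hp => by
        rw [hA, mem_filter] at hp
        obtain ⟨hp1, hp2, u, hu1, hu2⟩ := hp
        refine ⟨(mem_pz.1 hp1).2, ?_⟩
        rw [← Int.natCast_dvd]
        exact hR2 f g t u p hu1 hu2) (T : ℝ) hT0.le (fun p hp => by
        rw [hA, mem_filter] at hp
        exact_mod_cast hp.2.1.le)
    have hbound : ((((R f g).eval t).natAbs : ℕ) : ℝ) ≤ K1 * (2 * (B : ℝ)) ^ D1 := by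
      have e1 : ((((R f g).eval t).natAbs : ℕ) : ℝ) = |(((R f g).eval t : ℤ) : ℝ)| := by
        rw [Nat.cast_natAbs, Int.cast_abs]
      rw [e1]
      refine (hKD f g t).trans ?_
      have h1 : |(t : ℝ)| ≤ B := by exact_mod_cast htB
      have h2 : (1 : ℝ) + |(t : ℝ)| ≤ 2 * (B : ℝ) := by linarith
      have h3 : (1 : ℝ) ≤ 2 * (B : ℝ) := by linarith
      have hK' : ((K f g : ℕ) : ℝ) ≤ K1 := by exact_mod_cast hKle _ _
      have habs : 0 ≤ |(t : ℝ)| := abs_nonneg _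
      calc ((K f g : ℕ) : ℝ) * (1 + |(t : ℝ)|) ^ D f g ≤ K1 * (2 * (B : ℝ)) ^ D f g := by
            apply mul_le_mul hK' (pow_le_pow_left₀ (by positivity) h2 _) (by positivity)
              (Nat.cast_nonneg _)
        _ ≤ K1 * (2 * (B : ℝ)) ^ D1 := by
            apply mul_le_mul_of_nonneg_left (pow_le_pow_right₀ h3 (hDle _ _)) (Nat.cast_nonneg _)
    have h5 := Real.log_le_log (by positivity) (hpow.trans hbound)
    rw [Real.log_pow, Real.log_mul (by linarith) (by positivity), Real.log_pow,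
      Real.log_mul (by norm_num) (by linarith)] at h5
    refine h5.trans ?_
    have h6 : (D1 : ℝ) * (Real.log 2 + Real.log B) ≤ D1 * (1 + M) * T := by
      have h7 : Real.log 2 + Real.log B ≤ (1 + M) * T := by nlinarith
      calc (D1 : ℝ) * (Real.log 2 + Real.log B) ≤ D1 * ((1 + M) * T) :=
            mul_le_mul_of_nonneg_left h7 hD0
        _ = _ := by ring
    nlinarith
  have hsub : Lp F y T t ⊆ (univ : Finset F).biUnion (fun f => (univ : Finset F).biUnion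
      (fun g => A f g)) := by
    intro p hp
    unfold Lp at hp
    rw [mem_filter] at hp
    obtain ⟨hp1, hp2, f, hf, g, hg, u, hu1, hu2⟩ := hp
    rw [mem_biUnion]
    refine ⟨⟨f, hf⟩, mem_univ _, ?_⟩
    rw [mem_biUnion]
    refine ⟨⟨g, hg⟩, mem_univ _, ?_⟩
    rw [hA, mem_filter]
    exact ⟨hp1, hp2, u, hu1, hu2⟩
  have h6 : ((Lp F y T t).card : ℝ) ≤ ∑ f : F, ∑ g : F, ((A f g).card : ℝ) := by
    have h7 := (card_le_card hsub).trans (Finset.card_biUnion_le.trans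
      (Finset.sum_le_sum fun f _ => Finset.card_biUnion_le))
    exact_mod_cast h7
  have h7 : ((Lp F y T t).card : ℝ) * Real.log T ≤
      N * ((Real.log K1 + D1 * (1 + M) + 1) * T) := by
    calc ((Lp F y T t).card : ℝ) * Real.log T ≤
        (∑ f : F, ∑ g : F, ((A f g).card : ℝ)) * Real.log T :=
          mul_le_mul_of_nonneg_right h6 hlogTpos.le
      _ = ∑ f : F, ∑ g : F, ((A f g).card : ℝ) * Real.log T := by
          rw [Finset.sum_mul]
          exact Finset.sum_congr rfl fun f _ => Finset.sum_mul _ _ _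
      _ ≤ ∑ _f : F, ∑ _g : F, (Real.log K1 + D1 * (1 + M) + 1) * T :=
          Finset.sum_le_sum fun f _ => Finset.sum_le_sum fun g _ => hpair f g
      _ = (F.card * F.card) * ((Real.log K1 + D1 * (1 + M) + 1) * T) := by
          simp only [Finset.sum_const, Finset.card_univ, Fintype.card_coe, nsmul_eq_mul]
          ring
      _ ≤ N * ((Real.log K1 + D1 * (1 + M) + 1) * T) := by
          apply mul_le_mul_of_nonneg_right _ (by positivity)
          rw [hN]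
          push_cast
          linarith
  have h8 : N * ((Real.log K1 + D1 * (1 + M) + 1) * T) = η * T * G := by
    rw [hG]
    field_simp
  rw [h8] at h7
  have h9 : η * T * G ≤ η * T * Real.log T := mul_le_mul_of_nonneg_left hlogT (by positivity)
  exact le_of_mul_le_mul_right (h7.trans h9) hlogTpos

open Classical in
/-- the collisions in a window of a polynomial system -/
lemma lb_poly (F : Finset ℤ[X]) (hF : SysF F) (hNT : NT F) (k : ℕ) (M η : ℝ) (hM : 0 ≤ M)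
    (hη : 0 < η) :
    ∃ T1 : ℕ, 2 ≤ T1 ∧ ∀ (T B : ℕ), T1 ≤ T → 1 ≤ B → Real.log B ≤ M * T →
      ∀ (H : Finset ℕ) (s : ℕ), H.card ≤ k → (∀ h ∈ H, h ≤ B) → s + T ≤ B → ∀ y : ℕ,
      LB (QF F) H s T y η := by
  obtain ⟨T1, hT1, hL⟩ := large_far F hF hNT M (η / (k + 1)) hM (by positivity)
  refine ⟨T1, hT1, ?_⟩
  intro T B hT hB hBM H s hHk hHB hsB y
  have hT0 : (0 : ℝ) ≤ T := Nat.cast_nonneg T
  have hk0 : (0 : ℝ) ≤ k := Nat.cast_nonneg k
  have hle : η / (k + 1) * T ≤ η * T := by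
    apply mul_le_mul_of_nonneg_right _ hT0
    rw [div_le_iff₀ (by positivity)]
    nlinarith
  constructor
  · intro h hh
    unfold Eb at hh
    rw [mem_filter, mem_Icc] at hh
    have hsub : (pz y).filter (fun p : ℕ => T < p ∧ Cox (Qb (QF F) H s) p bp (wp h)) ⊆
        H.biUnion (fun i => Lp F y T (((s + h : ℕ) : ℤ) - (i : ℤ))) := by
      intro p hp
      rw [mem_filter] at hp
      obtain ⟨hp1, hp2, m, h1, h2⟩ := hp
      obtain ⟨i, hi, f, hf, hfe⟩ : ∃ i ∈ H, QF F p (m + 0 + i) := h1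
      obtain ⟨g, hg, hge⟩ : QF F p (m + h + s) := h2
      rw [mem_biUnion]
      refine ⟨i, hi, ?_⟩
      unfold Lp
      rw [mem_filter]
      refine ⟨hp1, hp2, f, hf, g, hg, ((m + 0 + i : ℕ) : ℤ), hfe, ?_⟩
      have e : ((m + 0 + i : ℕ) : ℤ) + (((s + h : ℕ) : ℤ) - (i : ℤ)) = ((m + h + s : ℕ) : ℤ) := by
        push_cast
        ring
      rw [e]
      exact hge
    have h3 : ((((pz y).filter (fun p : ℕ => T < p ∧
        Cox (Qb (QF F) H s) p bp (wp h))).card : ℕ) : ℝ) ≤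
        ∑ i ∈ H, ((Lp F y T (((s + h : ℕ) : ℤ) - (i : ℤ))).card : ℝ) := by
      exact_mod_cast (card_le_card hsub).trans Finset.card_biUnion_le
    refine h3.trans ?_
    have h4 : ∀ i ∈ H, ((Lp F y T (((s + h : ℕ) : ℤ) - (i : ℤ))).card : ℝ) ≤ η / (k + 1) * T := by
      intro i hi
      apply hL T B hT hB hBM
      · intro h0
        have : s + h = i := by
          have : ((s + h : ℕ) : ℤ) = i := by linarith
          exact_mod_cast this
        exact hh.2 (this ▸ hi)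
      · have := hHB i hi
        rw [abs_le]
        constructor
        · push_cast
          omega
        · push_cast
          omega
    refine (Finset.sum_le_card_nsmul H _ _ h4).trans ?_
    rw [nsmul_eq_mul]
    have h5 : (H.card : ℝ) ≤ k + 1 := by
      have : (H.card : ℝ) ≤ k := by exact_mod_cast hHk
      linarith
    calc (H.card : ℝ) * (η / (k + 1) * T) ≤ (k + 1) * (η / (k + 1) * T) :=
          mul_le_mul_of_nonneg_right h5 (by positivity)
      _ = η * T := by field_simp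
  · intro h hh h' hh' hne
    have hh1 := mem_Icc.1 (Eb_sub _ _ _ hh)
    have hh2 := mem_Icc.1 (Eb_sub _ _ _ hh')
    refine le_trans ?_ ((hL T B hT hB hBM ((h : ℤ) - h') (by
      intro h0
      apply hne
      have : (h : ℤ) = h' := by linarith
      exact (by exact_mod_cast this.symm)) (by
      rw [abs_le]
      constructor <;> omega) y).trans hle)
    have hsub : (pz y).filter (fun p : ℕ => T < p ∧ Cox (Qb (QF F) H s) p (wp h') (wp h)) ⊆
        Lp F y T ((h : ℤ) - h') := by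
      intro p hp
      rw [mem_filter] at hp
      obtain ⟨hp1, hp2, m, h1, h2⟩ := hp
      obtain ⟨f, hf, hfe⟩ : QF F p (m + h' + s) := h1
      obtain ⟨g, hg, hge⟩ : QF F p (m + h + s) := h2
      unfold Lp
      rw [mem_filter]
      refine ⟨hp1, hp2, f, hf, g, hg, ((m + h' + s : ℕ) : ℤ), hfe, ?_⟩
      have e : ((m + h' + s : ℕ) : ℤ) + ((h : ℤ) - h') = ((m + h + s : ℕ) : ℤ) := by
        push_cast
        ring
      rw [e]
      exact hge
    exact_mod_cast card_le_card hsub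

open Classical in
/-- **The uniform law.** The number of further almost primes in a window, relative to a base. -/
theorem uni_poly (F : Finset ℤ[X]) (hF : SysF F) (hNT : NT F) (θ : ℝ) (hθ : 0 < θ) (k a : ℕ)
    (x0 ε : ℝ) (hε : 0 < ε) :
    ∃ r0 : ℕ, ∀ r : ℕ, r0 ≤ r → ∀ᶠ X : ℕ in atTop, ∀ Z Y : ℕ, (X : ℝ) ^ θ ≤ Y →
      ∀ (H : Finset ℕ) (s T : ℕ), H.card ≤ k → (∀ h ∈ H, h ≤ X ^ a) → s ≤ X ^ a →
      T * Vq (QF F) ⌊(X : ℝ) ^ (1 / (r : ℝ))⌋₊ ≤ x0 → ∀ A : Finset ℕ,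
        |(((Ioc Z (Z + Y)).filter (fun n => Sf (QH (QF F) H) ⌊(X : ℝ) ^ (1 / (r : ℝ))⌋₊ n ∧
            Nb (QF F) H s ⌊(X : ℝ) ^ (1 / (r : ℝ))⌋₊ T n ∈ A)).card : ℝ) -
          Y * Vq (QH (QF F) H) ⌊(X : ℝ) ^ (1 / (r : ℝ))⌋₊ *
            PoA (T * Vq (QF F) ⌊(X : ℝ) ^ (1 / (r : ℝ))⌋₊) A| ≤
        ε * (Y * Vq (QH (QF F) H) ⌊(X : ℝ) ^ (1 / (r : ℝ))⌋₊) := by
  obtain ⟨c, hc1, hcU⟩ := c_all (fun _ : Unit => F) (fun _ => hF)
  have hc := hcU ()
  obtain ⟨v, Cv, hv, hCv, hVU⟩ := V_all (fun _ : Unit => F) (fun _ => hF)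
  have hV := hVU ()
  obtain ⟨g, hg⟩ : ∃ g, g = F.card := ⟨_, rfl⟩
  simp only [← hg] at hV
  have hg1 : 1 ≤ g := by rw [hg]; exact card_pos.2 hF.ne
  obtain ⟨K0, y0, T0, R0, η', κ, hη', hκ, hκ2, hlaw⟩ := gen_base c k hc1 x0 ε hε
  obtain ⟨x1, hx1⟩ : ∃ x1, x1 = max x0 1 := ⟨_, rfl⟩
  have hx10 : 0 < x1 := by rw [hx1]; positivity
  obtain ⟨c0, hc0⟩ : ∃ c0, c0 = κ / Cv := ⟨_, rfl⟩
  have hc0pos : 0 < c0 := by rw [hc0]; positivity
  obtain ⟨R1, hR1⟩ : ∃ R1 : ℕ, (K0 : ℝ) / θ ≤ R1 := exists_nat_ge _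
  refine ⟨max R1 2, ?_⟩
  intro r hr
  have hr2 : 2 ≤ r := (le_max_right _ _).trans hr
  have hrr : (2 : ℝ) ≤ r := by exact_mod_cast hr2
  have hrpos : (0 : ℝ) < r := by linarith
  have hrK : (K0 : ℝ) ≤ θ * r := by
    have h1 : (K0 : ℝ) / θ ≤ r := hR1.trans (by exact_mod_cast (le_max_left _ _).trans hr)
    rw [div_le_iff₀ hθ] at h1
    linarith
  obtain ⟨M, hM⟩ : ∃ M : ℝ, M = 2 * r * (a + 1) / c0 := ⟨_, rfl⟩
  have hM0 : 0 ≤ M := by rw [hM]; positivity
  obtain ⟨T1, hT1, hLB⟩ := lb_poly F hF hNT k M η' hM0 hη'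
  have hXr : Tendsto (fun X : ℕ => (X : ℝ)) atTop atTop := tendsto_natCast_atTop_atTop
  have hpow2 : Tendsto (fun X : ℕ => (X : ℝ) ^ (1 / (2 * r : ℝ))) atTop atTop :=
    (tendsto_rpow_atTop (by positivity)).comp hXr
  have hlogX : Tendsto (fun X : ℕ => Real.log (X : ℝ)) atTop atTop :=
    Real.tendsto_log_atTop.comp hXr
  filter_upwards [hpow2.eventually_ge_atTop ((y0 : ℝ) + 3), eventually_ge_atTop 16,
    hlogX.eventually_ge_atTop (2 * r * (1 + Cv / κ + T0 / c0 + T1 / c0)),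
    Pool.Agent.TH464.PW.logpow_rpow (g * R0) ((x1 / v) ^ R0 + 1) θ (by positivity) hθ,
    Pool.Agent.TH464.PW.logpow_rpow g (x1 / v + 1) (1 / 2) (by positivity) (by norm_num)]
    with X hX1 hX16 hX3 hX4 hX5
  intro Z Y hXY H s T hHk hHX hsX hTx A
  have hX16r : (16 : ℝ) ≤ X := by exact_mod_cast hX16
  have hXpos : (0 : ℝ) < X := by linarith
  have hXone : (1 : ℝ) ≤ X := by linarith
  have hy0r : (0 : ℝ) ≤ y0 := Nat.cast_nonneg _
  obtain ⟨hy1, hy2, hy3, hy4⟩ := level_low r hr2 X (by omega) (by linarith)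
  obtain ⟨y, hy⟩ : ∃ y, y = ⌊(X : ℝ) ^ (1 / (r : ℝ))⌋₊ := ⟨_, rfl⟩
  rw [← hy] at hy1 hy2 hy3 hy4 hTx ⊢
  have hyr : (y0 : ℝ) + 3 ≤ y := hX1.trans hy1
  have hyy0 : y0 ≤ y := by
    have : (y0 : ℝ) ≤ y := by linarith
    exact_mod_cast this
  have hy3' : 3 ≤ y := by
    have : (3 : ℝ) ≤ y := by linarith
    exact_mod_cast this
  obtain ⟨L, hL⟩ : ∃ L, L = Real.log (y : ℝ) := ⟨_, rfl⟩
  rw [← hL] at hy2 hy3
  have hL1 : 1 + Cv / κ + T0 / c0 + T1 / c0 ≤ L := by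
    refine le_trans ?_ hy2
    rw [le_div_iff₀ (by positivity)]
    linarith
  have hq1 : 0 < Cv / κ := by positivity
  have hq2 : 0 ≤ T0 / c0 := by positivity
  have hq3 : 0 ≤ T1 / c0 := by positivity
  have hL1' : 1 ≤ L := by linarith
  have hLpos : 0 < L := by linarith
  have hVlo : v / L ^ g ≤ Vq (QF F) y := by rw [hL]; exact (hV y hy3').1
  have hVup : Vq (QF F) y ≤ Cv / L ^ g := by rw [hL]; exact (hV y hy3').2
  have hLi : L ≤ L ^ g := by
    calc L = L ^ 1 := (pow_one _).symm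
      _ ≤ L ^ g := pow_le_pow_right₀ hL1' hg1
  have hVκ : Vq (QF F) y ≤ κ := by
    refine hVup.trans ?_
    rw [div_le_iff₀ (by positivity)]
    have h1 : Cv / κ ≤ L := by linarith
    rw [div_le_iff₀ hκ] at h1
    have h2 := mul_le_mul_of_nonneg_left hLi hκ.le
    linarith
  have hup : ∀ U : ℕ, (U : ℝ) * Vq (QF F) y ≤ x1 → (U : ℝ) ≤ x1 / v * L ^ g := by
    intro U hU
    have hU0 : (0 : ℝ) ≤ U := Nat.cast_nonneg U
    have h1 : (U : ℝ) * (v / L ^ g) ≤ x1 := (mul_le_mul_of_nonneg_left hVlo hU0).trans hU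
    rw [div_mul_eq_mul_div, le_div_iff₀ hv]
    calc (U : ℝ) * v = U * (v / L ^ g) * L ^ g := by field_simp
      _ ≤ x1 * L ^ g := mul_le_mul_of_nonneg_right h1 (by positivity)
  have hlo : ∀ U : ℕ, κ ≤ U * Vq (QF F) y → c0 * L ≤ U := by
    intro U hU
    have hU0 : (0 : ℝ) ≤ U := Nat.cast_nonneg U
    have h1 : κ ≤ U * (Cv / L ^ g) := hU.trans (mul_le_mul_of_nonneg_left hVup hU0)
    have h2 : κ * L ^ g ≤ U * Cv := by
      calc κ * L ^ g ≤ U * (Cv / L ^ g) * L ^ g := mul_le_mul_of_nonneg_right h1 (by positivity)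
        _ = U * Cv := by field_simp
    have h3 : κ * L ≤ U * Cv := (mul_le_mul_of_nonneg_left hLi hκ.le).trans h2
    rw [hc0, div_mul_eq_mul_div, div_le_iff₀ hCv]
    exact h3
  have hT0 : ∀ U : ℕ, c0 * L ≤ U → T0 ≤ U ∧ T1 ≤ U := by
    intro U hU
    have h1 : (T0 : ℝ) / c0 ≤ L := by linarith
    have h2 : (T1 : ℝ) / c0 ≤ L := by linarith
    rw [div_le_iff₀ hc0pos] at h1 h2
    have h3 : (T0 : ℝ) ≤ U := by linarith
    have h4 : (T1 : ℝ) ≤ U := by linarith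
    exact ⟨by exact_mod_cast h3, by exact_mod_cast h4⟩
  have hTR : ∀ U : ℕ, (U : ℝ) ≤ x1 / v * L ^ g → U ^ R0 ≤ Y := by
    intro U hU
    have h3 : ((U ^ R0 : ℕ) : ℝ) ≤ Y := by
      push_cast
      calc (U : ℝ) ^ R0 ≤ (x1 / v * L ^ g) ^ R0 := pow_le_pow_left₀ (Nat.cast_nonneg _) hU _
        _ ≤ (x1 / v * Real.log X ^ g) ^ R0 := by gcongr
        _ = (x1 / v) ^ R0 * Real.log X ^ (g * R0) := by rw [mul_pow, pow_mul]
        _ ≤ ((x1 / v) ^ R0 + 1) * Real.log X ^ (g * R0) := by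
          have : 0 ≤ Real.log X := by linarith
          gcongr
          linarith
        _ ≤ (X : ℝ) ^ θ := hX4
        _ ≤ Y := hXY
    exact_mod_cast h3
  have hTX : ∀ U : ℕ, (U : ℝ) ≤ x1 / v * L ^ g → U + 1 ≤ X := by
    intro U hU
    have h3 : (U : ℝ) + 1 ≤ X := by
      have h4 : (U : ℝ) ≤ (x1 / v + 1) * Real.log X ^ g := by
        calc (U : ℝ) ≤ x1 / v * L ^ g := hU
          _ ≤ x1 / v * Real.log X ^ g := by gcongr
          _ ≤ (x1 / v + 1) * Real.log X ^ g := by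
            have : 0 ≤ Real.log X := by linarith
            gcongr
            linarith
      have h5 : (X : ℝ) ^ (1 / 2 : ℝ) * (X : ℝ) ^ (1 / 2 : ℝ) = X := by
        rw [← Real.rpow_add hXpos]
        norm_num
      have h6 : (4 : ℝ) ≤ (X : ℝ) ^ (1 / 2 : ℝ) := by
        rw [← Real.sqrt_eq_rpow]
        apply Real.le_sqrt_of_sq_le
        linarith
      nlinarith
    exact_mod_cast h3
  have hyK : y ^ K0 ≤ Y := by
    have h3 : ((y ^ K0 : ℕ) : ℝ) ≤ Y := by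
      push_cast
      calc (y : ℝ) ^ K0 ≤ ((X : ℝ) ^ (1 / (r : ℝ))) ^ K0 := by
            apply pow_le_pow_left₀ (Nat.cast_nonneg _)
            rw [hy]
            exact Nat.floor_le (by positivity)
        _ = (X : ℝ) ^ (1 / (r : ℝ) * K0) := by
            rw [Real.rpow_mul hXpos.le, Real.rpow_natCast]
        _ ≤ (X : ℝ) ^ θ := by
            apply Real.rpow_le_rpow_of_exponent_le hXone
            rw [one_div, inv_mul_eq_div, div_le_iff₀ hrpos]
            exact hrK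
        _ ≤ Y := hXY
    exact_mod_cast h3
  have hXa : 1 ≤ X ^ a := Nat.one_le_pow _ _ (by omega)
  refine hlaw (QF F) Z Y y hc (fun p hp => adm_F hF p hp) hyy0 hyK hVκ H s hHk ?_ T hTx A
  intro T' h1 h2
  rw [← hx1] at h2
  have h3 := hup T' h2
  have h4 := hlo T' h1
  refine ⟨(hT0 T' h4).1, hTR T' h3, ?_⟩
  have hT'X := hTX T' h3
  apply hLB T' (X ^ (a + 1)) (hT0 T' h4).2 (Nat.one_le_pow _ _ (by omega)) _ H s hHk
  · intro h hh
    exact (hHX h hh).trans (Nat.pow_le_pow_right (by omega) (by omega))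
  · have h5 : X ^ (a + 1) = X ^ a * X := pow_succ X a
    rw [h5]
    nlinarith
  · rw [Nat.cast_pow, Real.log_pow]
    have h5 : Real.log X ≤ 2 * r * L := by
      rw [div_le_iff₀ (by positivity)] at hy2
      linarith
    have h6 : L ≤ T' / c0 := by
      rw [le_div_iff₀ hc0pos]
      linarith
    push_cast
    calc ((a : ℝ) + 1) * Real.log X ≤ (a + 1) * (2 * r * L) := by gcongr
      _ ≤ (a + 1) * (2 * r * (T' / c0)) := by gcongr
      _ = M * T' := by rw [hM]; ring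

end Pool.Agent.Y175.JP
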