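import Pool.Agent.Y175.JP.UniF

set_option autoImplicit false

/-!
# The uniform law of the patterns for the values of one polynomial; the integers themselves

Author: helper175.
-/

namespace Pool.Agent.Y175.JP

open Finset Filter Polynomial Pool.Agent.Y175.PW

/-- no polynomial of positive degree is a proper translate of itself -/
lemma valsF_one {v : ℕ → ℤ} {d : ℕ} {P : ℤ[X]} (h : Vals v d P) :
    ValsF (fun _ : Fin 1 => v) (fun _ => d) (fun _ => P) where
  ne := ⟨0⟩
  irr := fun _ => h.irr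
  deg := fun _ => h.deg
  pos := fun _ => h.pos
  lead := fun _ => h.lead
  val := fun _ m => h.val m
  adm := fun p hp => by
    obtain ⟨m, hm⟩ := h.adm p hp
    exact ⟨m, fun _ => hm⟩
  nt := fun i j t ht => by
    rcases ht with ht | ht
    · exact absurd (Subsingleton.elim i j) ht
    · exact nt_single P (by rw [h.deg]; exact h.pos) P (mem_singleton_self P) P
        (mem_singleton_self P) t ht

lemma goodF_one (v : ℕ → ℤ) (d r X m : ℕ) :
    GoodF (fun _ : Fin 1 => v) (fun _ => d) r X m ↔ Good v d r X m :=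
  ⟨fun h => h 0, fun h _ => h⟩

open Classical in
lemma VF_one (v : ℕ → ℤ) (H : Finset ℕ) (r X : ℕ) :
    VF (fun _ : Fin 1 => v) H r X = VH v H r X := by
  unfold VF VH
  apply Finset.prod_congr rfl
  intro p _
  have : omegaF (fun _ : Fin 1 => v) H p = omegaH v H p := by
    unfold omegaF omegaH
    apply congrArg
    ext m
    rw [mem_filter, mem_filter]
    apply and_congr_right
    intro _
    unfold Hit
    constructor
    · rintro ⟨h, hh, _, hd⟩
      exact ⟨h, hh, hd⟩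
    · rintro ⟨h, hh, hd⟩
      exact ⟨h, hh, 0, hd⟩
  rw [this]

lemma occurs_one (v : ℕ → ℤ) (d r X : ℕ) (H : Finset ℕ) (D n : ℕ) :
    OccursF (fun _ : Fin 1 => v) (fun _ => d) r X H D n ↔ Occurs v d r X H D n := by
  unfold OccursF Occurs
  simp only [goodF_one]

open Classical in
/-- The number of the good integers in `(n + s, n + s + T]` which are not of the form `n + h`,
`h ∈ H`. -/
noncomputable def Others (v : ℕ → ℤ) (d r X : ℕ) (H : Finset ℕ) (n s T : ℕ) : ℕ :=
  ((Finset.Ioc (n + s) (n + s + T)).filter (fun m => Good v d r X m ∧ ∀ h ∈ H, m ≠ n + h)).card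

open Classical in
lemma others_one (v : ℕ → ℤ) (d r X : ℕ) (H : Finset ℕ) (n s T : ℕ) :
    OthersF (fun _ : Fin 1 => v) (fun _ => d) r X H n s T = Others v d r X H n s T := by
  unfold OthersF Others
  simp only [goodF_one]

open Classical in
/-- **The uniform law of the neighbourhoods**, one polynomial. -/
theorem uni_vals1 {v : ℕ → ℤ} {d : ℕ} {P : ℤ[X]} (hP : Vals v d P) (θ : ℝ) (hθ : 0 < θ) (k : ℕ)
    (x0 ε : ℝ) (hε : 0 < ε) :
    ∃ r0 : ℕ, ∀ r : ℕ, r0 ≤ r → ∀ᶠ X : ℕ in atTop, ∀ Y : ℕ, (X : ℝ) ^ θ ≤ Y → Y ≤ X →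
      ∀ (H : Finset ℕ) (s T : ℕ), H.card ≤ k → (∀ h ∈ H, h ≤ X) → s + T ≤ X →
      T * VH v {0} r X ≤ x0 → ∀ A : Finset ℕ,
        |(((Finset.Ioc X (X + Y)).filter (fun n => (∀ h ∈ H, Good v d r X (n + h)) ∧
            Others v d r X H n s T ∈ A)).card : ℝ) -
          Y * VH v H r X * ∑ j ∈ A, poisson (T * VH v {0} r X) j| ≤ ε * (Y * VH v H r X) := by
  obtain ⟨r0, h0⟩ := uni_vals (valsF_one hP) θ hθ k x0 ε hε
  refine ⟨r0, ?_⟩
  intro r hr
  filter_upwards [h0 r hr] with X hX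
  intro Y hXY hYX H s T hHk hHX hsT hTx A
  rw [← VF_one] at hTx
  have h1 := hX Y hXY hYX H s T hHk hHX hsT hTx A
  simp only [goodF_one, others_one, VF_one] at h1
  exact h1

open Classical in
/-- **The uniform law of the patterns**, one polynomial. -/
theorem uni_patterns1 {v : ℕ → ℤ} {d : ℕ} {P : ℤ[X]} (hP : Vals v d P) (θ : ℝ) (hθ : 0 < θ)
    (k : ℕ) (x0 ε : ℝ) (hε : 0 < ε) :
    ∃ r0 : ℕ, ∀ r : ℕ, r0 ≤ r → ∀ᶠ X : ℕ in atTop, ∀ Y : ℕ, (X : ℝ) ^ θ ≤ Y → Y ≤ X →
      ∀ (H : Finset ℕ) (D : ℕ), H.card ≤ k → 0 ∈ H → (∀ h ∈ H, h ≤ D) → D * VH v {0} r X ≤ x0 →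
        |(((Finset.Ioc X (X + Y)).filter (fun n => Occurs v d r X H D n)).card : ℝ) -
          Y * VH v H r X * Real.exp (-(D * VH v {0} r X))| ≤ ε * (Y * VH v H r X) := by
  obtain ⟨r0, h0⟩ := uni_patterns (valsF_one hP) θ hθ k x0 ε hε
  refine ⟨r0, ?_⟩
  intro r hr
  filter_upwards [h0 r hr] with X hX
  intro Y hXY hYX H D hHk hH0 hHD hDx
  rw [← VF_one] at hDx
  have h1 := hX Y hXY hYX H D hHk hH0 hHD hDx
  simp only [occurs_one, VF_one] at h1
  exact h1

lemma VH_pos {v : ℕ → ℤ} {d : ℕ} {P : ℤ[X]} (hP : Vals v d P) {H : Finset ℕ}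
    (hH : Admissible v H) (r X : ℕ) : 0 < VH v H r X := by
  rw [← VF_one]
  apply (valsF_one hP).V_pos
  intro p hp
  obtain ⟨m, hm⟩ := hH p hp
  exact ⟨m, fun h hh _ => hm h hh⟩

/-- The integers themselves. -/
def idv (m : ℕ) : ℤ := m

lemma vals_idv : Vals idv 1 (Polynomial.X : Polynomial ℤ) where
  irr := Polynomial.irreducible_X
  deg := Polynomial.natDegree_X
  pos := one_pos
  lead := by rw [Polynomial.leadingCoeff_X]; exact one_pos
  val := fun m => by rw [Polynomial.eval_X]; rfl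
  adm := fun p hp => ⟨1, fun h => by
    have h1 : (p : ℤ) ∣ ((1 : ℕ) : ℤ) := h
    exact hp.one_lt.ne' (Nat.dvd_one.1 (Int.natCast_dvd_natCast.1 h1))⟩

open Classical in
/-- the number of the classes occupied by `-H` -/
lemma omega_idv (H : Finset ℕ) (p : ℕ) (hp : 0 < p) :
    omegaH idv H p = (H.image (fun h => h % p)).card := by
  unfold omegaH
  symm
  apply Finset.card_bij (fun a _ => (p - a) % p)
  · intro a ha
    rw [mem_image] at ha
    obtain ⟨h, hh, rfl⟩ := ha
    rw [mem_filter, mem_range]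
    refine ⟨Nat.mod_lt _ hp, h, hh, ?_⟩
    unfold idv
    rw [Int.natCast_dvd_natCast]
    apply Nat.dvd_of_mod_eq_zero
    rw [Nat.add_mod, Nat.mod_mod, ← Nat.add_mod]
    have h1 : h % p < p := Nat.mod_lt _ hp
    have h2 : p - h % p + h = p * (h / p) + p := by
      have := Nat.mod_add_div h p
      omega
    rw [h2, Nat.add_mod_right, Nat.mul_mod_right]
  · intro a ha b hb hab
    rw [mem_image] at ha hb
    obtain ⟨h, hh, rfl⟩ := ha
    obtain ⟨h', hh', rfl⟩ := hb
    have h1 : h % p < p := Nat.mod_lt _ hp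
    have h2 : h' % p < p := Nat.mod_lt _ hp
    obtain ⟨a, ha⟩ : ∃ a, a = h % p := ⟨_, rfl⟩
    obtain ⟨b, hb⟩ : ∃ b, b = h' % p := ⟨_, rfl⟩
    rw [← ha, ← hb] at hab ⊢
    rw [← ha] at h1
    rw [← hb] at h2
    rcases Nat.eq_zero_or_pos a with ha0 | ha0
    · rcases Nat.eq_zero_or_pos b with hb0 | hb0
      · omega
      · rw [ha0, Nat.sub_zero, Nat.mod_self, Nat.mod_eq_of_lt (by omega)] at hab
        omega
    · rcases Nat.eq_zero_or_pos b with hb0 | hb0
      · rw [hb0, Nat.sub_zero, Nat.mod_self, Nat.mod_eq_of_lt (by omega)] at hab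
        omega
      · rw [Nat.mod_eq_of_lt (by omega), Nat.mod_eq_of_lt (by omega)] at hab
        omega
  · intro m hm
    rw [mem_filter, mem_range] at hm
    obtain ⟨hm1, h, hh, hd⟩ := hm
    refine ⟨h % p, mem_image_of_mem _ hh, ?_⟩
    unfold idv at hd
    rw [Int.natCast_dvd_natCast] at hd
    have h1 : h % p < p := Nat.mod_lt _ hp
    have h2 : (m + h % p) % p = 0 := by
      rw [Nat.add_mod, Nat.mod_mod, ← Nat.add_mod]
      exact Nat.mod_eq_zero_of_dvd hd
    rcases Nat.eq_zero_or_pos (h % p) with h0 | h0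
    · rw [h0, add_zero, Nat.mod_eq_of_lt hm1] at h2
      rw [h0, Nat.sub_zero, Nat.mod_self, h2]
    · rw [Nat.mod_eq_of_lt (by omega)]
      have h3 : p ∣ m + h % p := Nat.dvd_of_mod_eq_zero h2
      obtain ⟨c, hc⟩ := h3
      have hc1 : c = 1 := by
        have e1 : p * c < p * 2 := by omega
        have e2 : 0 < p * c := by omega
        have e3 : c < 2 := Nat.lt_of_mul_lt_mul_left e1
        have e4 : 0 < c := Nat.pos_of_mul_pos_left e2
        omega
      rw [hc1] at hc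
      omega

end Pool.Agent.Y175.JP
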