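import Pool.Agent.Y175.JP.PalmC

set_option autoImplicit false

/-!
# The process of the patterns: seen from an integer and seen from an occurrence

Author: helper175.
-/

namespace Pool.Agent.Y175.JP

open Finset Filter Polynomial Pool.Agent.Y175.PW

open Classical in
/-- **The process of the patterns**, seen from a typical integer and from a typical occurrence. -/
theorem process_law {v : ℕ → ℤ} {d : ℕ} {P : ℤ[X]} (hP : Vals v d P) {ι : Type} [Fintype ι]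
    (H : ι → Finset ℕ) (D : ι → ℕ) (h0 : ∀ i, 0 ∈ H i) (hD : ∀ i, ∀ h ∈ H i, h ≤ D i)
    (hadm : ∀ i, Admissible v (H i)) (θ : ℝ) (hθ : 0 < θ) (x0 ε : ℝ) (hε : 0 < ε) :
    ∃ r0 : ℕ, ∀ r : ℕ, r0 ≤ r → ∀ᶠ X : ℕ in atTop, ∀ Y : ℕ, (X : ℝ) ^ θ ≤ Y → Y ≤ X →
      ∀ a T : ι → ℕ,
      (∀ i j, i ≠ j → H i = H j → (a i + T i ≤ a j ∨ a j + T j ≤ a i)) →
      (∀ i, ((a i : ℝ) + T i) * VH v (H i) r X ≤ x0) →
      ∀ B : Finset (ι → ℕ),
        |(((Finset.Ioc X (X + Y)).filter (fun n =>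
            (fun i => Occ v d r X (H i) (D i) (n + a i) (n + a i + T i)) ∈ B)).card : ℝ) -
          Y * ∑ j ∈ B, ∏ i, poisson (T i * VH v (H i) r X) (j i)| ≤ ε * Y ∧
        ∀ i₀ : ι, (∀ i, (H i₀).card ≤ (H i).card) →
        |(((Finset.Ioc X (X + Y)).filter (fun n => Occurs v d r X (H i₀) (D i₀) n ∧
            (fun i => Occ v d r X (H i) (D i) (n + a i) (n + a i + T i)) ∈ B)).card : ℝ) -
          Y * VH v (H i₀) r X * ∑ j ∈ B, ∏ i, poisson (T i * VH v (H i) r X) (j i)| ≤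
          ε * (Y * VH v (H i₀) r X) := by
  obtain ⟨r1, h1⟩ := joint_law hP H D h0 hD hadm θ hθ x0 ε hε
  have hp : ∀ i₀ : ι, ∃ r0 : ℕ, ∀ r : ℕ, r0 ≤ r → ∀ᶠ X : ℕ in atTop,
      (∀ i, (H i₀).card ≤ (H i).card) → ∀ Y : ℕ, (X : ℝ) ^ θ ≤ Y → Y ≤ X →
      ∀ a T : ι → ℕ,
      (∀ i j, i ≠ j → H i = H j → (a i + T i ≤ a j ∨ a j + T j ≤ a i)) →
      (∀ i, ((a i : ℝ) + T i) * VH v (H i) r X ≤ x0) →
      ∀ B : Finset (ι → ℕ),
        |(((Finset.Ioc X (X + Y)).filter (fun n => Occurs v d r X (H i₀) (D i₀) n ∧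
            (fun i => Occ v d r X (H i) (D i) (n + a i) (n + a i + T i)) ∈ B)).card : ℝ) -
          Y * VH v (H i₀) r X * ∑ j ∈ B, ∏ i, poisson (T i * VH v (H i) r X) (j i)| ≤
          ε * (Y * VH v (H i₀) r X) := by
    intro i₀
    by_cases hc : ∀ i, (H i₀).card ≤ (H i).card
    · obtain ⟨r0, h2⟩ := palm_law hP (H i₀) (D i₀) H D (h0 i₀) (hD i₀) (hadm i₀) h0 hD hadm hc θ hθ
        x0 ε hε
      refine ⟨r0, fun r hr => ?_⟩
      filter_upwards [h2 r hr] with X hX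
      intro _
      exact hX
    · exact ⟨0, fun r _ => Eventually.of_forall fun _ h => absurd h hc⟩
  choose r2 h2 using hp
  refine ⟨r1 + ∑ i, r2 i, ?_⟩
  intro r hr
  have hr2 : ∀ i, r2 i ≤ r := by
    intro i
    have : r2 i ≤ ∑ i, r2 i := Finset.single_le_sum (f := fun i => r2 i) (fun _ _ => Nat.zero_le _)
      (mem_univ i)
    omega
  filter_upwards [h1 r (by omega), Filter.eventually_all.2 (fun i => h2 i r (hr2 i))] with X hX hX2
  intro Y hXY hYX a T hdj hT B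
  exact ⟨hX Y hXY hYX a T hdj hT B, fun i₀ hc => hX2 i₀ hc Y hXY hYX a T hdj hT B⟩

end Pool.Agent.Y175.JP
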