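import Pool.Agent.TH464.PO.Sing2

set_option autoImplicit false

/-!
# Sieve products of finite sets of points of several types

A point is a type `i` together with a shift `h`; the condition of the point at the prime `p` is
`Q i p (m + h)`. Author: helper175. It generalises `Pool.Agent.TH464.PO.Sing` (one type).
-/

namespace Pool.Agent.Y175.JP

open Finset Pool.Agent.H373R2.T7 Pool.Agent.W123.RP Pool.Agent.W123.RU Pool.Agent.TH464.PO

variable {ι : Type}

/-- the points -/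
abbrev Pt (ι : Type) : Type := Sigma (fun _ : ι => ℕ)

/-- the union of the conditions at the points of `H` -/
def QU (Q : ι → ℕ → ℕ → Prop) (H : Finset (Pt ι)) (p m : ℕ) : Prop := ∃ x ∈ H, Q x.1 p (m + x.2)

/-- a collision of two points -/
def Cox (Q : ι → ℕ → ℕ → Prop) (p : ℕ) (x y : Pt ι) : Prop :=
  ∃ m : ℕ, Q x.1 p (m + x.2) ∧ Q y.1 p (m + y.2)

lemma sf_QU (Q : ι → ℕ → ℕ → Prop) (H : Finset (Pt ι)) (y m : ℕ) :
    Sf (QU Q H) y m ↔ ∀ x ∈ H, Sf (Q x.1) y (m + x.2) := by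
  unfold Sf QU
  constructor
  · intro h1 x hx p hp hq
    exact h1 p hp ⟨x, hx, hq⟩
  · rintro h1 p hp ⟨x, hx, hq⟩
    exact h1 x hx p hp hq

open Classical in
lemma nuB_QU_le (Q : ι → ℕ → ℕ → Prop) (c : ℕ) (hQ : ∀ i, PerB (Q i) c) (H : Finset (Pt ι)) (p : ℕ) :
    nuB (QU Q H) p ≤ ∑ x ∈ H, nuB (Q x.1) p := by
  have h1 : (range p).filter (fun r => QU Q H p r) ⊆
      H.biUnion (fun x => (range p).filter (fun r => Q x.1 p (r + x.2))) := by
    intro r hr
    rw [mem_filter] at hr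
    obtain ⟨hr1, x, hx, hq⟩ := hr
    rw [mem_biUnion]
    exact ⟨x, hx, mem_filter.2 ⟨hr1, hq⟩⟩
  have h2 := (card_le_card h1).trans Finset.card_biUnion_le
  have h3 : ∀ x ∈ H, ((range p).filter (fun r => Q x.1 p (r + x.2))).card = nuB (Q x.1) p :=
    fun x _ => nuB_shift (Q x.1) c (hQ x.1) x.2 p
  rw [Finset.sum_congr rfl h3] at h2
  refine le_trans (le_of_eq ?_) h2
  unfold nuB
  congr

lemma perB_QU (Q : ι → ℕ → ℕ → Prop) (c : ℕ) (hQ : ∀ i, PerB (Q i) c) (H : Finset (Pt ι)) :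
    PerB (QU Q H) (H.card * c) := by
  constructor
  · intro p n
    unfold QU
    apply exists_congr
    intro x
    apply and_congr_right
    intro _
    exact per_add (Q x.1) c (hQ x.1) p n (n % p) x.2 x.2 (Nat.mod_mod n p).symm rfl
  · intro p hp
    refine (nuB_QU_le Q c hQ H p).trans ?_
    refine (Finset.sum_le_card_nsmul H _ c (fun x _ => (hQ x.1).few p hp)).trans ?_
    rw [smul_eq_mul]

lemma nuB_mono (Q Q' : ℕ → ℕ → Prop) (p : ℕ) (h : ∀ m, Q p m → Q' p m) : nuB Q p ≤ nuB Q' p := by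
  classical
  unfold nuB
  apply card_le_card
  intro r hr
  rw [mem_filter] at hr ⊢
  exact ⟨hr.1, h r hr.2⟩

lemma QU_mono (Q : ι → ℕ → ℕ → Prop) (H H' : Finset (Pt ι)) (h : H' ⊆ H) (p m : ℕ)
    (hq : QU Q H' p m) : QU Q H p m := by
  obtain ⟨x, hx, hxq⟩ := hq
  exact ⟨x, h hx, hxq⟩

lemma Vq_anti (Q Q' : ℕ → ℕ → Prop) (y : ℕ) (h : ∀ p m, Q p m → Q' p m) : Vq Q' y ≤ Vq Q y := by
  unfold Vq
  apply Finset.prod_le_prod
  · intro p hp
    exact one_sub_nonneg Q' p (mem_pz.1 hp).2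
  · intro p hp
    have hp0 : (0 : ℝ) < p := by exact_mod_cast (mem_pz.1 hp).2.pos
    apply sub_le_sub_left
    apply div_le_div_of_nonneg_right _ hp0.le
    exact_mod_cast nuB_mono Q Q' p (h p)

open Classical in
lemma nuB_eq_of_not (Q : ι → ℕ → ℕ → Prop) (c : ℕ) (hQ : ∀ i, PerB (Q i) c) (H : Finset (Pt ι)) (p : ℕ)
    (h : ∀ x ∈ H, ∀ y ∈ H, x ≠ y → ¬ Cox Q p x y) :
    nuB (QU Q H) p = ∑ x ∈ H, nuB (Q x.1) p := by
  have h1 : (range p).filter (fun r => QU Q H p r) =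
      H.biUnion (fun x => (range p).filter (fun r => Q x.1 p (r + x.2))) := by
    ext r
    rw [mem_filter, mem_biUnion]
    unfold QU
    constructor
    · rintro ⟨hr1, x, hx, hq⟩
      exact ⟨x, hx, mem_filter.2 ⟨hr1, hq⟩⟩
    · rintro ⟨x, hx, hr⟩
      rw [mem_filter] at hr
      exact ⟨hr.1, x, hx, hr.2⟩
  have hd : (H : Set (Pt ι)).PairwiseDisjoint
      (fun x => (range p).filter (fun r => Q x.1 p (r + x.2))) := by
    intro a ha b hb hab
    rw [Function.onFun, Finset.disjoint_left]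
    intro r hr hr'
    rw [mem_filter] at hr hr'
    exact h a ha b hb hab ⟨r, hr.2, hr'.2⟩
  have h2 := Finset.card_biUnion hd
  have h3 : ∀ x ∈ H, ((range p).filter (fun r => Q x.1 p (r + x.2))).card = nuB (Q x.1) p :=
    fun x _ => nuB_shift (Q x.1) c (hQ x.1) x.2 p
  rw [Finset.sum_congr rfl h3, ← h1] at h2
  rw [← h2]
  unfold nuB
  congr

lemma prod_one_sub_le {α : Type*} (s : Finset α) (f : α → ℝ) (h0 : ∀ i ∈ s, 0 ≤ f i)
    (h1 : ∀ i ∈ s, f i ≤ 1) : ∏ i ∈ s, (1 - f i) ≤ 1 - ∑ i ∈ s, f i + (∑ i ∈ s, f i) ^ 2 / 2 := by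
  classical
  induction s using Finset.induction_on with
  | empty => simp
  | insert a s ha ih =>
    rw [Finset.sum_insert ha, Finset.prod_insert ha]
    have h2 := ih (fun i hi => h0 i (mem_insert_of_mem hi)) (fun i hi => h1 i (mem_insert_of_mem hi))
    have h3 : 0 ≤ f a := h0 a (mem_insert_self _ _)
    have h4 : f a ≤ 1 := h1 a (mem_insert_self _ _)
    obtain ⟨t, ht⟩ : ∃ t, t = ∑ i ∈ s, f i := ⟨_, rfl⟩
    rw [← ht] at h2 ⊢
    calc (1 - f a) * ∏ i ∈ s, (1 - f i) ≤ (1 - f a) * (1 - t + t ^ 2 / 2) :=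
          mul_le_mul_of_nonneg_left h2 (by linarith)
      _ ≤ _ := by
        have h5 : 0 ≤ f a * t ^ 2 := by positivity
        nlinarith [sq_nonneg (f a)]

/-- the number of points times `c` -/
lemma sum_u_le (Q : ι → ℕ → ℕ → Prop) (c : ℕ) (hQ : ∀ i, PerB (Q i) c) (H : Finset (Pt ι)) (p : ℕ)
    (hp : p.Prime) : ∑ x ∈ H, (nuB (Q x.1) p : ℝ) / p ≤ ((H.card * c : ℕ) : ℝ) / p := by
  have hp0 : (0 : ℝ) < p := by exact_mod_cast hp.pos
  rw [← Finset.sum_div]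
  apply div_le_div_of_nonneg_right _ hp0.le
  refine (Finset.sum_le_card_nsmul H _ (c : ℝ) (fun x _ => by
    exact_mod_cast (hQ x.1).few p hp)).trans ?_
  rw [nsmul_eq_mul]
  push_cast
  linarith

lemma u_mem (Q : ι → ℕ → ℕ → Prop) (x : Pt ι) (p : ℕ) (hp : p.Prime) :
    0 ≤ (nuB (Q x.1) p : ℝ) / p ∧ (nuB (Q x.1) p : ℝ) / p ≤ 1 := by
  have hp0 : (0 : ℝ) < p := by exact_mod_cast hp.pos
  refine ⟨by positivity, ?_⟩
  rw [div_le_one hp0]
  exact_mod_cast nuB_le _ p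

open Classical in
/-- upper bound for one factor -/
lemma factor_upJ (Q : ι → ℕ → ℕ → Prop) (c : ℕ) (hQ : ∀ i, PerB (Q i) c) (H : Finset (Pt ι)) (p : ℕ)
    (hp : p.Prime) (hbig : 2 * (H.card * c) ≤ p) : 1 - (nuB (QU Q H) p : ℝ) / p ≤
      (∏ x ∈ H, (1 - (nuB (Q x.1) p : ℝ) / p)) *
        (if ∃ z ∈ H.offDiag, Cox Q p z.1 z.2 then 1 + ((2 * (H.card * c) : ℕ) : ℝ) / p else 1) := by
  have hp0 : (0 : ℝ) < p := by exact_mod_cast hp.pos
  obtain ⟨t, ht⟩ : ∃ t : ℝ, t = ∑ x ∈ H, (nuB (Q x.1) p : ℝ) / p := ⟨_, rfl⟩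
  have ht0 : 0 ≤ t := by
    rw [ht]
    exact Finset.sum_nonneg fun x _ => (u_mem Q x p hp).1
  have htk : t ≤ ((H.card * c : ℕ) : ℝ) / p := by
    rw [ht]
    exact sum_u_le Q c hQ H p hp
  have hkc : ((H.card * c : ℕ) : ℝ) / p ≤ 1 / 2 := by
    rw [div_le_div_iff₀ hp0 (by norm_num)]
    have : ((2 * (H.card * c) : ℕ) : ℝ) ≤ p := by exact_mod_cast hbig
    push_cast at this ⊢
    linarith
  have hlow : 1 - t ≤ ∏ x ∈ H, (1 - (nuB (Q x.1) p : ℝ) / p) := by
    rw [ht]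
    exact prod_one_sub_ge H _ (fun x _ => (u_mem Q x p hp).1) (fun x _ => (u_mem Q x p hp).2)
  by_cases h : ∃ z ∈ H.offDiag, Cox Q p z.1 z.2
  · rw [if_pos h]
    have h1 : 1 - (nuB (QU Q H) p : ℝ) / p ≤ 1 := by
      have : (0 : ℝ) ≤ (nuB (QU Q H) p : ℝ) / p := by positivity
      linarith
    refine h1.trans ?_
    have h2 : 1 + 2 * t ≤ 1 + ((2 * (H.card * c) : ℕ) : ℝ) / p := by
      have : ((2 * (H.card * c) : ℕ) : ℝ) / p = 2 * (((H.card * c : ℕ) : ℝ) / p) := by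
        push_cast
        ring
      rw [this]
      linarith
    calc (1 : ℝ) ≤ (1 - t) * (1 + 2 * t) := by nlinarith
      _ ≤ _ := by
        apply mul_le_mul hlow h2 (by linarith)
        exact le_trans (by linarith) hlow
  · rw [if_neg h, mul_one, nuB_eq_of_not Q c hQ H p (fun x hx y hy hxy hc => h
      ⟨(x, y), mem_offDiag.2 ⟨hx, hy, hxy⟩, hc⟩)]
    refine le_trans (le_of_eq ?_) hlow
    rw [ht, Nat.cast_sum, Finset.sum_div]

open Classical in
/-- lower bound for one factor -/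
lemma factor_loJ (Q : ι → ℕ → ℕ → Prop) (c : ℕ) (hQ : ∀ i, PerB (Q i) c) (H : Finset (Pt ι)) (p : ℕ)
    (hp : p.Prime) (hbig : 2 * (H.card * c) ≤ p) :
      (∏ x ∈ H, (1 - (nuB (Q x.1) p : ℝ) / p)) * (1 - ((H.card * c : ℕ) : ℝ) ^ 2 / (p : ℝ) ^ 2) ≤
        1 - (nuB (QU Q H) p : ℝ) / p := by
  have hp0 : (0 : ℝ) < p := by exact_mod_cast hp.pos
  obtain ⟨t, ht⟩ : ∃ t : ℝ, t = ∑ x ∈ H, (nuB (Q x.1) p : ℝ) / p := ⟨_, rfl⟩
  have ht0 : 0 ≤ t := by
    rw [ht]
    exact Finset.sum_nonneg fun x _ => (u_mem Q x p hp).1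
  have htk : t ≤ ((H.card * c : ℕ) : ℝ) / p := by
    rw [ht]
    exact sum_u_le Q c hQ H p hp
  have hkc : ((H.card * c : ℕ) : ℝ) / p ≤ 1 := by
    rw [div_le_one hp0]
    have : H.card * c ≤ p := by omega
    exact_mod_cast this
  have ht1 : t ≤ 1 := htk.trans hkc
  have hup : ∏ x ∈ H, (1 - (nuB (Q x.1) p : ℝ) / p) ≤ 1 - t + t ^ 2 / 2 := by
    rw [ht]
    exact prod_one_sub_le H _ (fun x _ => (u_mem Q x p hp).1) (fun x _ => (u_mem Q x p hp).2)
  have hP0 : 0 ≤ ∏ x ∈ H, (1 - (nuB (Q x.1) p : ℝ) / p) :=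
    Finset.prod_nonneg fun x _ => by
      have := (u_mem Q x p hp).2
      linarith
  have hA : t ^ 2 ≤ ((H.card * c : ℕ) : ℝ) ^ 2 / (p : ℝ) ^ 2 := by
    rw [← div_pow]
    exact pow_le_pow_left₀ ht0 htk 2
  have hnu : (nuB (QU Q H) p : ℝ) / p ≤ t := by
    rw [ht, ← Finset.sum_div]
    apply div_le_div_of_nonneg_right _ hp0.le
    exact_mod_cast nuB_QU_le Q c hQ H p
  have h4 : (∏ x ∈ H, (1 - (nuB (Q x.1) p : ℝ) / p)) *
      (1 - ((H.card * c : ℕ) : ℝ) ^ 2 / (p : ℝ) ^ 2) ≤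
      (∏ x ∈ H, (1 - (nuB (Q x.1) p : ℝ) / p)) * (1 - t ^ 2) :=
    mul_le_mul_of_nonneg_left (by linarith) hP0
  have h5 : t ^ 2 ≤ 1 := by nlinarith
  have h6 : (∏ x ∈ H, (1 - (nuB (Q x.1) p : ℝ) / p)) * (1 - t ^ 2) ≤
      (1 - t + t ^ 2 / 2) * (1 - t ^ 2) :=
    mul_le_mul_of_nonneg_right hup (by linarith)
  have h7 : (1 - t + t ^ 2 / 2) * (1 - t ^ 2) ≤ 1 - t := by
    nlinarith [mul_nonneg (sq_nonneg t) (sq_nonneg (1 - t))]
  linarith

/-! ### the tail -/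

open Classical in
/-- the product over the primes of a set above `w` -/
noncomputable def Fc (K w y : ℕ) (P : ℕ → Prop) : ℝ :=
  ∏ p ∈ (pz y).filter (fun p : ℕ => w < p ∧ P p), (1 + (K : ℝ) / p)

open Classical in
lemma Fc_ge (K w y : ℕ) (P : ℕ → Prop) : 1 ≤ Fc K w y P := by
  unfold Fc
  apply Finset.one_le_prod
  intro p _
  have : 0 ≤ (K : ℝ) / p := by positivity
  linarith

open Classical in
lemma Fc_pow (K M w y : ℕ) (P : ℕ → Prop) : Fc K w y P ^ M ≤ Fc ((1 + K) ^ M - 1) w y P := by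
  unfold Fc
  rw [← Finset.prod_pow]
  apply Finset.prod_le_prod
  · intro p _
    positivity
  · intro p hp
    rw [mem_filter] at hp
    have hp1 : (1 : ℝ) ≤ p := by exact_mod_cast (mem_pz.1 hp.1).2.one_lt.le
    have h := pow_factor K M (1 / (p : ℝ)) (by positivity) (by
      rw [div_le_one (by linarith)]
      exact hp1)
    rw [mul_one_div, mul_one_div] at h
    exact h

open Classical in
/-- upper bound for the tail -/
lemma tail_upJ (Q : ι → ℕ → ℕ → Prop) (c : ℕ) (hQ : ∀ i, PerB (Q i) c) (H : Finset (Pt ι)) (w y : ℕ)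
    (hbig : 2 * (H.card * c) ≤ w) :
    Vt (QU Q H) w y ≤ (∏ x ∈ H, Vt (Q x.1) w y) *
      (1 + ∑ z ∈ H.offDiag, (Fc ((1 + 2 * (H.card * c)) ^ (H.card ^ 2) - 1) w y
        (fun p => Cox Q p z.1 z.2) - 1)) := by
  obtain ⟨K, hK⟩ : ∃ K, K = 2 * (H.card * c) := ⟨_, rfl⟩
  have h1 : Vt (QU Q H) w y ≤ ∏ p ∈ (pz y).filter (fun p => w < p),
      ((∏ x ∈ H, (1 - (nuB (Q x.1) p : ℝ) / p)) *
        (if ∃ z ∈ H.offDiag, Cox Q p z.1 z.2 then 1 + (K : ℝ) / p else 1)) := by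
    unfold Vt
    apply Finset.prod_le_prod
    · intro p hp
      rw [mem_filter] at hp
      exact one_sub_nonneg _ p (mem_pz.1 hp.1).2
    · intro p hp
      rw [mem_filter] at hp
      have h2 := factor_upJ Q c hQ H p (mem_pz.1 hp.1).2 (by omega)
      rw [hK]
      exact h2
  have h2 : ∏ p ∈ (pz y).filter (fun p => w < p),
      (if ∃ z ∈ H.offDiag, Cox Q p z.1 z.2 then 1 + (K : ℝ) / p else 1) ≤
      ∏ z ∈ H.offDiag, Fc K w y (fun p => Cox Q p z.1 z.2) := by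
    have e : ∏ z ∈ H.offDiag, Fc K w y (fun p => Cox Q p z.1 z.2) =
        ∏ p ∈ (pz y).filter (fun p => w < p),
        ∏ z ∈ H.offDiag, (if Cox Q p z.1 z.2 then 1 + (K : ℝ) / p else 1) := by
      rw [Finset.prod_comm]
      apply Finset.prod_congr rfl
      intro x _
      unfold Fc
      rw [← Finset.filter_filter, Finset.prod_filter]
    rw [e]
    apply Finset.prod_le_prod
    · intro p _
      split_ifs <;> positivity
    · intro p _
      have hge : ∀ z ∈ H.offDiag, (1 : ℝ) ≤ (if Cox Q p z.1 z.2 then 1 + (K : ℝ) / p else 1) := by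
        intro x _
        have : 0 ≤ (K : ℝ) / p := by positivity
        split_ifs <;> linarith
      split_ifs with h
      · obtain ⟨z, hz, hco⟩ := h
        have h3 := single_le_prod_one H.offDiag
          (fun z => if Cox Q p z.1 z.2 then 1 + (K : ℝ) / p else 1) hge z hz
        simp only [if_pos hco] at h3
        exact h3
      · exact Finset.one_le_prod hge
  have hcard : H.offDiag.card ≤ H.card ^ 2 := by
    rw [offDiag_card, sq]
    omega
  have h3 : ∏ z ∈ H.offDiag, Fc K w y (fun p => Cox Q p z.1 z.2) - 1 ≤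
      ∑ z ∈ H.offDiag, (Fc ((1 + K) ^ (H.card ^ 2) - 1) w y (fun p => Cox Q p z.1 z.2) - 1) := by
    refine (prod_sub_one_le H.offDiag (fun z => Fc K w y (fun p => Cox Q p z.1 z.2))
      (fun z _ => Fc_ge K w y _) (H.card ^ 2) hcard).trans ?_
    apply Finset.sum_le_sum
    intro x _
    have := Fc_pow K (H.card ^ 2) w y (fun p => Cox Q p x.1 x.2)
    linarith
  rw [← hK]
  refine h1.trans ?_
  rw [Finset.prod_mul_distrib]
  have e2 : ∏ p ∈ (pz y).filter (fun p => w < p), ∏ x ∈ H, (1 - (nuB (Q x.1) p : ℝ) / p) =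
      ∏ x ∈ H, Vt (Q x.1) w y := by
    rw [Finset.prod_comm]
    rfl
  rw [e2]
  apply mul_le_mul_of_nonneg_left _ (Finset.prod_nonneg fun x _ => Vt_nonneg (Q x.1) w y)
  linarith

open Classical in
/-- lower bound for the tail -/
lemma tail_loJ (Q : ι → ℕ → ℕ → Prop) (c : ℕ) (hQ : ∀ i, PerB (Q i) c) (H : Finset (Pt ι)) (w y : ℕ)
    (hw : 1 ≤ w) (hbig : 2 * (H.card * c) ≤ w) :
    (∏ x ∈ H, Vt (Q x.1) w y) * (1 - ((H.card * c : ℕ) : ℝ) ^ 2 / w) ≤ Vt (QU Q H) w y := by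
  have h1 : ∏ p ∈ (pz y).filter (fun p => w < p),
      ((∏ x ∈ H, (1 - (nuB (Q x.1) p : ℝ) / p)) * (1 - ((H.card * c : ℕ) : ℝ) ^ 2 / (p : ℝ) ^ 2)) ≤
      Vt (QU Q H) w y := by
    unfold Vt
    apply Finset.prod_le_prod
    · intro p hp
      rw [mem_filter] at hp
      have hpp := (mem_pz.1 hp.1).2
      apply mul_nonneg
      · exact Finset.prod_nonneg fun x _ => by
          have := (u_mem Q x p hpp).2
          linarith
      have hp0 : (0 : ℝ) < p := by exact_mod_cast hpp.pos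
      rw [sub_nonneg, div_le_one (by positivity)]
      apply pow_le_pow_left₀ (by positivity)
      have : H.card * c ≤ p := by omega
      exact_mod_cast this
    · intro p hp
      rw [mem_filter] at hp
      exact factor_loJ Q c hQ H p (mem_pz.1 hp.1).2 (by omega)
  refine le_trans ?_ h1
  rw [Finset.prod_mul_distrib]
  have e2 : ∏ p ∈ (pz y).filter (fun p => w < p), ∏ x ∈ H, (1 - (nuB (Q x.1) p : ℝ) / p) =
      ∏ x ∈ H, Vt (Q x.1) w y := by
    rw [Finset.prod_comm]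
    rfl
  rw [e2]
  apply mul_le_mul_of_nonneg_left _ (Finset.prod_nonneg fun x _ => Vt_nonneg (Q x.1) w y)
  refine le_trans ?_ (prod_one_sub_ge _ _ (fun p _ => by positivity) ?_)
  · have h2 := sum_inv_sq w y hw
    have h3 : ∑ p ∈ (pz y).filter (fun p => w < p), ((H.card * c : ℕ) : ℝ) ^ 2 / (p : ℝ) ^ 2 ≤
        ((H.card * c : ℕ) : ℝ) ^ 2 * (1 / w) := by
      calc ∑ p ∈ (pz y).filter (fun p => w < p), ((H.card * c : ℕ) : ℝ) ^ 2 / (p : ℝ) ^ 2 ≤
          ∑ p ∈ (Icc 1 y).filter (fun n => w < n), ((H.card * c : ℕ) : ℝ) ^ 2 / (p : ℝ) ^ 2 := by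
            apply Finset.sum_le_sum_of_subset_of_nonneg
            · intro p hp
              rw [mem_filter, mem_pz] at hp
              rw [mem_filter, mem_Icc]
              exact ⟨⟨hp.1.2.one_lt.le, hp.1.1⟩, hp.2⟩
            · intros; positivity
        _ = ((H.card * c : ℕ) : ℝ) ^ 2 * ∑ p ∈ (Icc 1 y).filter (fun n => w < n), 1 / (p : ℝ) ^ 2 := by
            rw [Finset.mul_sum]
            apply Finset.sum_congr rfl
            intros
            ring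
        _ ≤ _ := by gcongr
    have h4 : ((H.card * c : ℕ) : ℝ) ^ 2 * (1 / w) = ((H.card * c : ℕ) : ℝ) ^ 2 / w := by ring
    linarith
  · intro p hp
    rw [mem_filter] at hp
    have hp0 : (0 : ℝ) < p := by exact_mod_cast (mem_pz.1 hp.1).2.pos
    rw [div_le_one (by positivity)]
    apply pow_le_pow_left₀ (by positivity)
    have : H.card * c ≤ p := by omega
    exact_mod_cast this

end Pool.Agent.Y175.JP
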