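import Pool.Agent.Y175.JP.SmallJ
import Pool.Agent.Y175.JP.AvgJ
import Pool.Agent.Y175.JP.Exc

set_option autoImplicit false

/-!
# The average of the sieve products over the configurations without close points

Author: helper175.
-/

namespace Pool.Agent.Y175.JP

open Finset Pool.Agent.H373R2.T7 Pool.Agent.W123.RP Pool.Agent.W123.RU Pool.Agent.TH464.PO

open Classical in
lemma one_mem (k T a : ℕ) :
    (T : ℝ) * ((powersetCard k (Icc 1 T)).filter (fun H => a ∈ H)).card ≤ (T : ℝ) ^ k := by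
  rcases k with _ | k
  · have : (powersetCard 0 (Icc 1 T)).filter (fun H => a ∈ H) = ∅ := by
      rw [Finset.filter_eq_empty_iff]
      intro H hH
      rw [mem_powersetCard, Finset.card_eq_zero] at hH
      rw [hH.2]
      exact notMem_empty a
    rw [this, card_empty]
    simp
  · have h1 : ((powersetCard (k + 1) (Icc 1 T)).filter (fun H => a ∈ H)).card ≤
        (powersetCard k (Icc 1 T)).card := by
      apply Finset.card_le_card_of_injOn (fun H => H.erase a)
      · intro H hH
        rw [Finset.mem_coe, mem_filter, mem_powersetCard] at hH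
        obtain ⟨⟨h1, h2⟩, h3⟩ := hH
        rw [Finset.mem_coe, mem_powersetCard]
        refine ⟨(erase_subset _ _).trans h1, ?_⟩
        beta_reduce
        rw [card_erase_of_mem h3, h2]
        omega
      · intro H hH H' hH' h
        rw [Finset.mem_coe, mem_filter] at hH hH'
        simp only at h
        rw [← insert_erase hH.2, ← insert_erase hH'.2, h]
    have h2 : (powersetCard k (Icc 1 T)).card ≤ T ^ k := by
      rw [card_powersetCard, Nat.card_Icc, Nat.add_sub_cancel]
      exact Nat.choose_le_pow T k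
    have h3 : (((powersetCard (k + 1) (Icc 1 T)).filter (fun H => a ∈ H)).card : ℝ) ≤ (T : ℝ) ^ k := by
      exact_mod_cast h1.trans h2
    rw [pow_succ, mul_comm ((T : ℝ) ^ k)]
    exact mul_le_mul_of_nonneg_left h3 (Nat.cast_nonneg _)

open Classical in
lemma two_mem (k T a b : ℕ) (hab : a ≠ b) :
    (T : ℝ) * T * ((powersetCard k (Icc 1 T)).filter (fun H => a ∈ H ∧ b ∈ H)).card ≤ (T : ℝ) ^ k := by
  rcases k with _ | _ | k
  · have : (powersetCard 0 (Icc 1 T)).filter (fun H => a ∈ H ∧ b ∈ H) = ∅ := by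
      rw [Finset.filter_eq_empty_iff]
      intro H hH
      rw [mem_powersetCard, Finset.card_eq_zero] at hH
      rw [hH.2]
      exact fun h => notMem_empty a h.1
    rw [this, card_empty]
    simp
  · have : (powersetCard (0 + 1) (Icc 1 T)).filter (fun H => a ∈ H ∧ b ∈ H) = ∅ := by
      rw [Finset.filter_eq_empty_iff]
      intro H hH
      rw [mem_powersetCard] at hH
      obtain ⟨u, hu⟩ := Finset.card_eq_one.1 hH.2
      rw [hu]
      rintro ⟨h1, h2⟩
      rw [mem_singleton] at h1 h2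
      exact hab (h1.trans h2.symm)
    rw [this, card_empty]
    simp
  · have h3 : (((powersetCard (k + 2) (Icc 1 T)).filter (fun H => a ∈ H ∧ b ∈ H)).card : ℝ) ≤
        (T : ℝ) ^ k := by
      exact_mod_cast card_two k T a b hab
    have h4 : (T : ℝ) ^ (k + 1 + 1) = T * T * (T : ℝ) ^ k := by ring
    rw [h4]
    exact mul_le_mul_of_nonneg_left h3 (mul_nonneg (Nat.cast_nonneg _) (Nat.cast_nonneg _))

variable {ι : Type} [Fintype ι]

open Classical in
/-- few configurations contain two given points -/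
lemma card_pair (K T : ι → ℕ) (x y : Pt ι) (hxy : x ≠ y) :
    (T x.1 : ℝ) * T y.1 * ((Cf K T).filter (fun η => x ∈ sig η ∧ y ∈ sig η)).card ≤
      ∏ i, (T i : ℝ) ^ K i := by
  obtain ⟨G, hG⟩ : ∃ G : ι → Finset (Finset ℕ), G = fun l =>
      (powersetCard (K l) (Icc 1 (T l))).filter (fun s => (l = x.1 → x.2 ∈ s) ∧ (l = y.1 → y.2 ∈ s)) :=
    ⟨_, rfl⟩
  have h1 : ((Cf K T).filter (fun η => x ∈ sig η ∧ y ∈ sig η)).card ≤ ∏ l, (G l).card := by
    rw [← Fintype.card_piFinset]
    apply card_le_card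
    intro η hη
    rw [mem_filter, mem_sig, mem_sig] at hη
    rw [Fintype.mem_piFinset]
    intro l
    rw [hG]
    beta_reduce
    rw [mem_filter, mem_powersetCard]
    refine ⟨(mem_Cf K T η).1 hη.1 l, ?_, ?_⟩
    · rintro rfl
      exact hη.2.1
    · rintro rfl
      exact hη.2.2
  have h2 : (T x.1 : ℝ) * T y.1 = ∏ l, ((if l = x.1 then (T l : ℝ) else 1) *
      (if l = y.1 then (T l : ℝ) else 1)) := by
    rw [Finset.prod_mul_distrib, Finset.prod_ite_eq' , Finset.prod_ite_eq']
    simp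
  have h3 : ∀ l, (if l = x.1 then (T l : ℝ) else 1) * (if l = y.1 then (T l : ℝ) else 1) *
      ((G l).card : ℝ) ≤ (T l : ℝ) ^ K l := by
    intro l
    by_cases hx : l = x.1
    · by_cases hy : l = y.1
      · rw [if_pos hx, if_pos hy]
        have hne : x.2 ≠ y.2 := by
          intro h
          apply hxy
          have e : x.1 = y.1 := hx.symm.trans hy
          obtain ⟨x1, x2⟩ := x
          obtain ⟨y1, y2⟩ := y
          simp only at e h
          rw [e, h]
        have hGl : G l = (powersetCard (K l) (Icc 1 (T l))).filter (fun H => x.2 ∈ H ∧ y.2 ∈ H) := by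
          rw [hG]
          apply Finset.filter_congr
          intro s _
          simp only [hx, forall_const]
          rw [← hx, hy]
          simp
        rw [hGl]
        exact two_mem (K l) (T l) x.2 y.2 hne
      · rw [if_pos hx, if_neg hy, mul_one]
        have hGl : G l = (powersetCard (K l) (Icc 1 (T l))).filter (fun H => x.2 ∈ H) := by
          rw [hG]
          apply Finset.filter_congr
          intro s _
          constructor
          · rintro ⟨a, _⟩
            exact a hx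
          · intro a
            exact ⟨fun _ => a, fun h => absurd h hy⟩
        rw [hGl]
        exact one_mem (K l) (T l) x.2
    · by_cases hy : l = y.1
      · rw [if_neg hx, if_pos hy, one_mul]
        have hGl : G l = (powersetCard (K l) (Icc 1 (T l))).filter (fun H => y.2 ∈ H) := by
          rw [hG]
          apply Finset.filter_congr
          intro s _
          constructor
          · rintro ⟨_, a⟩
            exact a hy
          · intro a
            exact ⟨fun h => absurd h hx, fun _ => a⟩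
        rw [hGl]
        exact one_mem (K l) (T l) y.2
      · rw [if_neg hx, if_neg hy, one_mul, one_mul]
        have h4 : (G l).card ≤ T l ^ K l := by
          rw [hG]
          refine (card_filter_le _ _).trans ?_
          rw [card_powersetCard, Nat.card_Icc, Nat.add_sub_cancel]
          exact Nat.choose_le_pow (T l) (K l)
        exact_mod_cast h4
  have h1' : (((Cf K T).filter (fun η => x ∈ sig η ∧ y ∈ sig η)).card : ℝ) ≤
      ∏ l, ((G l).card : ℝ) := by exact_mod_cast h1
  calc (T x.1 : ℝ) * T y.1 * ((Cf K T).filter (fun η => x ∈ sig η ∧ y ∈ sig η)).card ≤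
      (T x.1 : ℝ) * T y.1 * ∏ l, ((G l).card : ℝ) :=
        mul_le_mul_of_nonneg_left h1' (mul_nonneg (Nat.cast_nonneg _) (Nat.cast_nonneg _))
    _ = ∏ l, ((if l = x.1 then (T l : ℝ) else 1) * (if l = y.1 then (T l : ℝ) else 1) *
        ((G l).card : ℝ)) := by
        rw [h2, ← Finset.prod_mul_distrib]
    _ ≤ _ := Finset.prod_le_prod (fun l _ => by
        apply mul_nonneg _ (Nat.cast_nonneg _)
        split_ifs <;> positivity) (fun l _ => h3 l)

/-- the points with positive coordinates up to `T` -/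
def Un (T : ι → ℕ) : Finset (Pt ι) := sig (fun i => Icc 1 (T i))

lemma mem_Un (T : ι → ℕ) (x : Pt ι) : x ∈ Un T ↔ 1 ≤ x.2 ∧ x.2 ≤ T x.1 := by
  unfold Un
  rw [mem_sig, mem_Icc]

lemma sig_sub (K T : ι → ℕ) (η : ι → Finset ℕ) (h : η ∈ Cf K T) : sig η ⊆ Un T := by
  intro x hx
  rw [mem_sig] at hx
  have := ((mem_Cf K T η).1 h x.1).1 hx
  rw [mem_Un]
  exact mem_Icc.1 this

open Classical in
/-- double counting -/
lemma sum_offDiag (K T : ι → ℕ) (hT : ∀ i, 1 ≤ T i) (g : Pt ι → Pt ι → ℝ) (hg : ∀ x y, 0 ≤ g x y)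
    (M : ℝ) (hM : ∀ x ∈ Un T, ∀ j, ∑ h ∈ (Icc 1 (T j)).filter (fun h => x ≠ ⟨j, h⟩), g x ⟨j, h⟩ ≤
      M * T j) :
    ∑ η ∈ Cf K T, ∑ z ∈ (sig η).offDiag, g z.1 z.2 ≤
      (Fintype.card ι : ℝ) ^ 2 * M * ∏ i, (T i : ℝ) ^ K i := by
  obtain ⟨P, hP⟩ : ∃ P : ℝ, P = ∏ i, (T i : ℝ) ^ K i := ⟨_, rfl⟩
  rw [← hP]
  have hP0 : 0 ≤ P := by rw [hP]; exact Finset.prod_nonneg fun i _ => by positivity
  have h1 : ∀ η ∈ Cf K T, ∑ z ∈ (sig η).offDiag, g z.1 z.2 =
      ∑ z ∈ (Un T).offDiag, if (z.1 ∈ sig η ∧ z.2 ∈ sig η) then g z.1 z.2 else 0 := by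
    intro η hη
    rw [← Finset.sum_filter]
    apply Finset.sum_congr _ (fun _ _ => rfl)
    ext z
    rw [mem_filter, mem_offDiag, mem_offDiag]
    have := sig_sub K T η hη
    constructor
    · rintro ⟨a1, a2, a3⟩
      exact ⟨⟨this a1, this a2, a3⟩, a1, a2⟩
    · rintro ⟨⟨_, _, a3⟩, a1, a2⟩
      exact ⟨a1, a2, a3⟩
  rw [Finset.sum_congr rfl h1, Finset.sum_comm]
  have h2 : ∀ z ∈ (Un T).offDiag, ∑ η ∈ Cf K T,
      (if (z.1 ∈ sig η ∧ z.2 ∈ sig η) then g z.1 z.2 else 0) ≤
        P / (T z.1.1 * T z.2.1) * g z.1 z.2 := by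
    intro z hz
    rw [mem_offDiag] at hz
    rw [← Finset.sum_filter, Finset.sum_const, nsmul_eq_mul]
    apply mul_le_mul_of_nonneg_right _ (hg _ _)
    have h3 := card_pair K T z.1 z.2 hz.2.2
    have hp1 : (0 : ℝ) < T z.1.1 := by exact_mod_cast hT z.1.1
    have hp2 : (0 : ℝ) < T z.2.1 := by exact_mod_cast hT z.2.1
    rw [le_div_iff₀ (by positivity), hP]
    linarith
  refine (Finset.sum_le_sum h2).trans ?_
  have h3 : ∑ z ∈ (Un T).offDiag, P / (T z.1.1 * T z.2.1) * g z.1 z.2 =
      ∑ x ∈ Un T, ∑ y ∈ (Un T).filter (fun y => x ≠ y), P / (T x.1 * T y.1) * g x y := by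
    have e0 : (Un T).offDiag = ((Un T) ×ˢ (Un T)).filter (fun z => z.1 ≠ z.2) := by
      ext z
      rw [mem_offDiag, mem_filter, mem_product, and_assoc]
    rw [e0, Finset.sum_filter, Finset.sum_product]
    apply Finset.sum_congr rfl
    intro x _
    rw [Finset.sum_filter]
  rw [h3]
  have h4 : ∀ x ∈ Un T, ∑ y ∈ (Un T).filter (fun y => x ≠ y), P / (T x.1 * T y.1) * g x y ≤
      (Fintype.card ι : ℝ) * M * P / T x.1 := by
    intro x hx
    have hp1 : (0 : ℝ) < T x.1 := by exact_mod_cast hT x.1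
    have e : ∑ y ∈ (Un T).filter (fun y => x ≠ y), P / (T x.1 * T y.1) * g x y =
        ∑ j, ∑ h ∈ (Icc 1 (T j)).filter (fun h => x ≠ ⟨j, h⟩), P / (T x.1 * T j) * g x ⟨j, h⟩ := by
      unfold Un sig
      rw [Finset.sum_filter, Finset.sum_sigma]
      apply Finset.sum_congr rfl
      intro j _
      rw [Finset.sum_filter]
    rw [e]
    have h5 : ∀ j ∈ (univ : Finset ι), ∑ h ∈ (Icc 1 (T j)).filter (fun h => x ≠ ⟨j, h⟩),
        P / (T x.1 * T j) * g x ⟨j, h⟩ ≤ M * P / T x.1 := by
      intro j _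
      have hp2 : (0 : ℝ) < T j := by exact_mod_cast hT j
      rw [← Finset.mul_sum]
      calc P / (T x.1 * T j) * ∑ h ∈ (Icc 1 (T j)).filter (fun h => x ≠ ⟨j, h⟩), g x ⟨j, h⟩ ≤
          P / (T x.1 * T j) * (M * T j) := mul_le_mul_of_nonneg_left (hM x hx j) (by positivity)
        _ = _ := by field_simp
    refine (Finset.sum_le_sum h5).trans (le_of_eq ?_)
    rw [Finset.sum_const, Finset.card_univ, nsmul_eq_mul]
    ring
  refine (Finset.sum_le_sum h4).trans (le_of_eq ?_)
  unfold Un sig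
  rw [Finset.sum_sigma]
  have h6 : ∀ i ∈ (univ : Finset ι), ∑ h ∈ Icc 1 (T i),
      (Fintype.card ι : ℝ) * M * P / T (⟨i, h⟩ : Pt ι).fst = (Fintype.card ι : ℝ) * M * P := by
    intro i _
    have hp1 : (0 : ℝ) < T i := by exact_mod_cast hT i
    have e : ∑ h ∈ Icc 1 (T i), (Fintype.card ι : ℝ) * M * P / T (⟨i, h⟩ : Pt ι).fst =
        ∑ _h ∈ Icc 1 (T i), (Fintype.card ι : ℝ) * M * P / T i := rfl
    rw [e, Finset.sum_const, Nat.card_Icc, Nat.add_sub_cancel, nsmul_eq_mul]
    field_simp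
  rw [Finset.sum_congr rfl h6, Finset.sum_const, Finset.card_univ, nsmul_eq_mul]
  ring

end Pool.Agent.Y175.JP
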