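import Pool.Agent.Y175.JP.SingA

set_option autoImplicit false

/-!
# The average of the sieve products over all configurations

Author: helper175.
-/

namespace Pool.Agent.Y175.JP

open Finset Pool.Agent.H373R2.T7 Pool.Agent.W123.RP Pool.Agent.W123.RU Pool.Agent.TH464.PO

variable {ι : Type} [Fintype ι]

/-- no two points of `H` have a common atom -/
def Ind {β : Type} (S : Pt ι → Finset β) (H : Finset (Pt ι)) : Prop :=
  ∀ x ∈ H, ∀ y ∈ H, x ≠ y → Disjoint (S x) (S y)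

open Classical in
/-- the sets of atoms and the collisions -/
structure Atm {β : Type} (Q : ι → ℕ → ℕ → Prop) (T : ι → ℕ) (y : ℕ) (S : Pt ι → Finset β)
    (W B k : ℕ) (η' δ : ℝ) : Prop where
  ne : ∀ x ∈ Un T, (S x).Nonempty
  card : ∀ x ∈ Un T, (S x).card ≤ W
  inj : ∀ x ∈ Un T, ∀ y ∈ Un T, S x = S y → x = y
  deg : ∀ x, (nbs S (Un T) x).card ≤ B
  large : ∀ x ∈ Un T, ∀ z ∈ Un T, x ≠ z → Disjoint (S x) (S z) →
    ((((pz y).filter (fun p : ℕ => T z.1 < p ∧ Cox Q p x z)).card : ℕ) : ℝ) ≤ η' * T z.1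
  ext : ∀ H ⊆ Un T, H.card ≤ k → ∀ x ∈ Un T, (∃ a ∈ S x, ∀ c ∈ H, a ∉ S c) → ∀ H₂, H ⊆ H₂ → x ∈ H₂ →
    Vq (QU Q H₂) y ≤ δ * Vq (QU Q H) y

open Classical in
/-- **The configurations without close points.** -/
theorem indep_up (c : ℕ) (K : ι → ℕ) (B : ℕ) (η : ℝ) (hη : 0 < η) (hη1 : η ≤ 1) :
    ∃ (w : ℕ) (η' : ℝ) (T0 : ℕ), 0 < η' ∧ 2 ≤ T0 ∧ ∀ T : ι → ℕ, (∀ i, T0 ≤ T i) →
      ∀ Q : ι → ℕ → ℕ → Prop, (∀ i, PerB (Q i) c) → (∀ i, ∀ p : ℕ, p.Prime → nuB (Q i) p < p) →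
      ∀ y : ℕ, w ≤ y → ∀ (β : Type) (S : Pt ι → Finset β) (W k : ℕ) (η₁ δ : ℝ), η₁ ≤ η' →
      Atm Q T y S W B k η₁ δ →
      (1 - η) * ∏ i, ((T i * Vq (Q i) y) ^ K i / (K i).factorial) ≤
        ∑ η ∈ Cf K T, Vq (QU Q (sig η)) y ∧
      ∑ η ∈ (Cf K T).filter (fun η => Ind S (sig η)), Vq (QU Q (sig η)) y ≤
        (1 + η) * ∏ i, ((T i * Vq (Q i) y) ^ K i / (K i).factorial) := by
  obtain ⟨k, hk⟩ : ∃ k, k = ∑ i, K i := ⟨_, rfl⟩
  obtain ⟨s, hs⟩ : ∃ s, s = Fintype.card ι := ⟨_, rfl⟩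
  obtain ⟨Fa, hFa⟩ : ∃ Fa : ℕ, Fa = ∏ i, (K i).factorial := ⟨_, rfl⟩
  obtain ⟨c1, B1, w1, hc1, hw12, hW⟩ := W_low c
  obtain ⟨K1, hK1⟩ : ∃ K1 : ℕ, K1 = (1 + 2 * (k * c)) ^ (k ^ 2) - 1 := ⟨_, rfl⟩
  obtain ⟨A, hA⟩ : ∃ A : ℕ, A = 13 * (K1 * c ^ 2 + 1) * (s ^ 2 + 1) * Fa + (k * c) ^ 2 :=
    ⟨_, rfl⟩
  obtain ⟨w, hw0, hw2, hAw, hAw'⟩ := exists_w A B1 k c1 (η / 4) hc1 (by positivity)
    (max w1 (2 * (k * c)))
  have hww1 : w1 ≤ w := (le_max_left _ _).trans hw0
  have hwc : 2 * (k * c) ≤ w := (le_max_right _ _).trans hw0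
  have hwr : (0 : ℝ) < w := by exact_mod_cast (by omega : 0 < w)
  obtain ⟨η1, hη1def⟩ : ∃ η1 : ℝ, η1 = ((K1 * c ^ 2 + 1 : ℕ) : ℝ) / w := ⟨_, rfl⟩
  have hη10 : 0 < η1 := by rw [hη1def]; positivity
  have hFa1 : 1 ≤ Fa := by rw [hFa]; exact Finset.prod_pos fun i _ => Nat.factorial_pos _
  have hFar : (1 : ℝ) ≤ Fa := by exact_mod_cast hFa1
  have hsr : (0 : ℝ) ≤ s := Nat.cast_nonneg s
  have hAge : (s : ℝ) ^ 2 * (13 * η1) * Fa ≤ (A : ℝ) / w := by
    rw [hη1def, le_div_iff₀ hwr]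
    have h1 : ((13 * (K1 * c ^ 2 + 1) * (s ^ 2 + 1) * Fa : ℕ) : ℝ) ≤ A := by
      exact_mod_cast (by omega : 13 * (K1 * c ^ 2 + 1) * (s ^ 2 + 1) * Fa ≤ A)
    refine le_trans ?_ h1
    have e : (s : ℝ) ^ 2 * (13 * (((K1 * c ^ 2 + 1 : ℕ) : ℝ) / w)) * Fa * w =
        13 * ((K1 * c ^ 2 + 1 : ℕ) : ℝ) * (s : ℝ) ^ 2 * Fa := by
      field_simp
    rw [e]
    push_cast
    have h2 : (s : ℝ) ^ 2 ≤ (s : ℝ) ^ 2 + 1 := by linarith
    gcongr
  have hη1le : η1 ≤ 1 := by
    have h1 : η1 ≤ (A : ℝ) / w := by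
      rw [hη1def]
      apply div_le_div_of_nonneg_right _ hwr.le
      have h2 : K1 * c ^ 2 + 1 ≤ A := by
        rw [hA]
        have h3 : K1 * c ^ 2 + 1 ≤ 13 * (K1 * c ^ 2 + 1) * (s ^ 2 + 1) * Fa := by
          calc K1 * c ^ 2 + 1 = 1 * (K1 * c ^ 2 + 1) * 1 * 1 := by ring
            _ ≤ 13 * (K1 * c ^ 2 + 1) * (s ^ 2 + 1) * Fa := by
              gcongr
              · omega
              · omega
        omega
      exact_mod_cast h2
    linarith
  have hAge2 : (((k * c : ℕ) : ℝ)) ^ 2 / w ≤ η / 4 := by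
    refine le_trans ?_ hAw'
    apply div_le_div_of_nonneg_right _ hwr.le
    exact_mod_cast (by omega : (k * c) ^ 2 ≤ A)
  obtain ⟨T1, hT1, havg⟩ := sum_pt (ι := ι) K1 c w (by omega) η1 hη10 hη1le (B + 1) (by
    rw [hη1def]
    apply div_le_div_of_nonneg_right _ hwr.le
    push_cast
    linarith)
  obtain ⟨T2, hsmall⟩ := small_joint (ι := ι) K w (η / 4) (by positivity)
  refine ⟨w, η1 / (K1 + 1), max T1 T2, by positivity, hT1.trans (le_max_left _ _), ?_⟩
  intro T hT Q hQ hadm y hwy β S Wd kd η₁ δ hη₁ hAtm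
  have hT1' : ∀ i, T1 ≤ T i := fun i => (le_max_left _ _).trans (hT i)
  have hT2' : ∀ i, T2 ≤ T i := fun i => (le_max_right _ _).trans (hT i)
  have hTpos : ∀ i, 1 ≤ T i := fun i => by have := hT1' i; omega
  obtain ⟨s1, s2⟩ := hsmall T hT2' Q c hQ hadm
  obtain ⟨V, hV⟩ : ∃ V : ℝ, V = ∏ i, Vt (Q i) w y ^ K i := ⟨_, rfl⟩
  have hV0 : 0 ≤ V := by
    rw [hV]
    exact Finset.prod_nonneg fun i _ => pow_nonneg (Vt_nonneg (Q i) w y) _
  obtain ⟨Xw, hXw⟩ : ∃ Xw : ℝ, Xw = ∏ i, ((T i * Vq (Q i) w) ^ K i / ((K i).factorial : ℝ)) :=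
    ⟨_, rfl⟩
  have hXw0 : 0 ≤ Xw := by
    rw [hXw]
    exact Finset.prod_nonneg fun i _ => by
      have := Vq_nonneg (Q i) w
      positivity
  have e1 : ∏ i, ((T i * Vq (Q i) y) ^ K i / ((K i).factorial : ℝ)) = V * Xw := by
    rw [hV, hXw, ← Finset.prod_mul_distrib]
    apply Finset.prod_congr rfl
    intro i _
    rw [Vq_split (Q i) w y hwy, ← mul_assoc, mul_pow ((T i : ℝ) * Vq (Q i) w)]
    ring
  rw [e1]
  rw [← hXw] at s1 s2
  have hcard : ∀ η ∈ Cf K T, (sig η).card = k := fun η h => by rw [sig_card K T η h, hk]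
  have hprod : ∀ η ∈ Cf K T, ∏ x ∈ sig η, Vt (Q x.1) w y = V := fun η h => by
    rw [sig_prod K T η h (fun i => Vt (Q i) w y), hV]
  constructor
  · -- lower bound
    have h1 : ∀ η' ∈ Cf K T, V * (1 - η / 4) * Vq (QU Q (sig η')) w ≤ Vq (QU Q (sig η')) y := by
      intro η' hη'
      rw [Vq_split (QU Q (sig η')) w y hwy]
      have h2 := tail_loJ Q c hQ (sig η') w y (by omega) (by rw [hcard η' hη']; exact hwc)
      rw [hcard η' hη', hprod η' hη'] at h2
      have h3 : V * (1 - η / 4) ≤ Vt (QU Q (sig η')) w y := by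
        refine le_trans ?_ h2
        apply mul_le_mul_of_nonneg_left _ hV0
        linarith
      calc V * (1 - η / 4) * Vq (QU Q (sig η')) w ≤
            Vt (QU Q (sig η')) w y * Vq (QU Q (sig η')) w :=
            mul_le_mul_of_nonneg_right h3 (Vq_nonneg _ w)
        _ = _ := mul_comm _ _
    have h2 := Finset.sum_le_sum h1
    rw [← Finset.mul_sum] at h2
    refine le_trans ?_ h2
    calc (1 - η) * (V * Xw) ≤ V * (1 - η / 4) * ((1 - η / 4) * Xw) := by
          have h3 : 1 - η ≤ (1 - η / 4) * (1 - η / 4) := by nlinarith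
          have h4 := mul_le_mul_of_nonneg_right h3 (mul_nonneg hV0 hXw0)
          calc (1 - η) * (V * Xw) ≤ _ := h4
            _ = _ := by ring
      _ ≤ _ := mul_le_mul_of_nonneg_left s1 (mul_nonneg hV0 (by linarith))
  · -- upper bound
    obtain ⟨g, hg⟩ : ∃ g : Pt ι → Pt ι → ℝ, g = fun x z => if Disjoint (S x) (S z) then
        Fc K1 w y (fun p => Cox Q p x z) - 1 else 0 := ⟨_, rfl⟩
    have hg0 : ∀ x z, 0 ≤ g x z := by
      intro x z
      rw [hg]
      beta_reduce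
      split_ifs
      · have := Fc_ge K1 w y (fun p => Cox Q p x z)
        linarith
      · exact le_rfl
    have h1 : ∀ η' ∈ (Cf K T).filter (fun η => Ind S (sig η)), Vq (QU Q (sig η')) y ≤
        V * (Vq (QU Q (sig η')) w + ∑ z ∈ (sig η').offDiag, g z.1 z.2) := by
      intro η' hη'
      rw [mem_filter] at hη'
      obtain ⟨hη', hind⟩ := hη'
      rw [Vq_split (QU Q (sig η')) w y hwy]
      have h2 := tail_upJ Q c hQ (sig η') w y (by rw [hcard η' hη']; exact hwc)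
      rw [hcard η' hη', hprod η' hη', ← hK1] at h2
      have e2 : ∑ z ∈ (sig η').offDiag, (Fc K1 w y (fun p => Cox Q p z.1 z.2) - 1) =
          ∑ z ∈ (sig η').offDiag, g z.1 z.2 := by
        apply Finset.sum_congr rfl
        intro z hz
        rw [mem_offDiag] at hz
        rw [hg]
        beta_reduce
        rw [if_pos (hind z.1 hz.1 z.2 hz.2.1 hz.2.2)]
      rw [e2] at h2
      have h3 : 0 ≤ ∑ z ∈ (sig η').offDiag, g z.1 z.2 := Finset.sum_nonneg fun z _ => hg0 _ _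
      have h4 := Vq_nonneg (QU Q (sig η')) w
      have h5 := Vq_le_one (QU Q (sig η')) w
      calc Vq (QU Q (sig η')) w * Vt (QU Q (sig η')) w y ≤ Vq (QU Q (sig η')) w * (V *
            (1 + ∑ z ∈ (sig η').offDiag, g z.1 z.2)) := mul_le_mul_of_nonneg_left h2 h4
        _ = V * (Vq (QU Q (sig η')) w +
            Vq (QU Q (sig η')) w * ∑ z ∈ (sig η').offDiag, g z.1 z.2) := by ring
        _ ≤ _ := by
          apply mul_le_mul_of_nonneg_left _ hV0
          have := mul_le_mul_of_nonneg_right h5 h3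
          linarith
    have h2 := Finset.sum_le_sum h1
    rw [← Finset.mul_sum, Finset.sum_add_distrib] at h2
    refine h2.trans ?_
    have h3 : ∑ η' ∈ (Cf K T).filter (fun η => Ind S (sig η)), Vq (QU Q (sig η')) w ≤
        ∑ η' ∈ Cf K T, Vq (QU Q (sig η')) w :=
      Finset.sum_le_sum_of_subset_of_nonneg (Finset.filter_subset _ _) (fun _ _ _ => Vq_nonneg _ w)
    have h3' : ∑ η' ∈ (Cf K T).filter (fun η => Ind S (sig η)), ∑ z ∈ (sig η').offDiag, g z.1 z.2 ≤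
        ∑ η' ∈ Cf K T, ∑ z ∈ (sig η').offDiag, g z.1 z.2 :=
      Finset.sum_le_sum_of_subset_of_nonneg (Finset.filter_subset _ _) (fun _ _ _ =>
        Finset.sum_nonneg fun z _ => hg0 _ _)
    have h4 := sum_offDiag K T hTpos g hg0 (13 * η1) (by
      intro x hx j
      obtain ⟨E, hE⟩ : ∃ E, E = (Icc 1 (T j)).filter (fun h => x ≠ ⟨j, h⟩ ∧
        Disjoint (S x) (S ⟨j, h⟩)) := ⟨_, rfl⟩
      have hsumE : ∑ h ∈ (Icc 1 (T j)).filter (fun h => x ≠ ⟨j, h⟩), g x ⟨j, h⟩ =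
          ∑ h ∈ E, (Fc K1 w y (fun p => Cox Q p x ⟨j, h⟩) - 1) := by
        rw [hE, ← Finset.filter_filter, Finset.sum_filter (fun h => Disjoint (S x) (S ⟨j, h⟩))]
        apply Finset.sum_congr rfl
        intro h _
        rw [hg]
      rw [hsumE]
      have hK1r : (0 : ℝ) ≤ K1 := Nat.cast_nonneg K1
      refine havg (T j) (hT1' j) Q hQ y (η1 / (K1 + 1)) (by positivity) ?_ x j E ?_ ?_ ?_
      · rw [← mul_div_assoc, div_le_iff₀ (by positivity)]
        nlinarith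
      · rw [hE]
        exact Finset.filter_subset _ _
      · have hsub : ((Icc 1 (T j)) \ E).card ≤ (insert x (nbs S (Un T) x)).card := by
          apply Finset.card_le_card_of_injOn (fun h => (⟨j, h⟩ : Pt ι))
          · intro h hh
            rw [Finset.mem_coe, mem_sdiff, mem_Icc, hE, mem_filter, mem_Icc] at hh
            rw [Finset.mem_coe, mem_insert]
            by_cases hx' : (⟨j, h⟩ : Pt ι) = x
            · exact Or.inl hx'
            · right
              rw [mem_nbs, mem_Un]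
              refine ⟨hh.1, hx', ?_⟩
              intro hd
              exact hh.2 ⟨hh.1, Ne.symm hx', hd.symm⟩
          · intro a _ b _ hab
            simp only [Sigma.mk.injEq, heq_eq_eq, true_and] at hab
            exact hab
        refine hsub.trans ((Finset.card_insert_le _ _).trans ?_)
        have := hAtm.deg x
        omega
      · intro h hh
        rw [hE, mem_filter, mem_Icc] at hh
        refine (hAtm.large x hx ⟨j, h⟩ ((mem_Un T _).2 hh.1) hh.2.1 hh.2.2).trans ?_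
        exact mul_le_mul_of_nonneg_right hη₁ (Nat.cast_nonneg _))
    have h6 : ∑ η' ∈ Cf K T, ∑ z ∈ (sig η').offDiag, g z.1 z.2 ≤ η / 4 * Xw := by
      refine h4.trans ?_
      rw [← hs]
      have hF : ∏ i, (T i : ℝ) ^ K i = Fa * ∏ i, ((T i : ℝ) ^ K i / ((K i).factorial : ℝ)) := by
        rw [hFa]
        push_cast
        rw [← Finset.prod_mul_distrib]
        apply Finset.prod_congr rfl
        intro i _
        have : ((K i).factorial : ℝ) ≠ 0 := by exact_mod_cast (Nat.factorial_pos (K i)).ne'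
        field_simp
      have hD0 : 0 ≤ ∏ i, ((T i : ℝ) ^ K i / ((K i).factorial : ℝ)) :=
        Finset.prod_nonneg fun i _ => by positivity
      have hlog : 0 < Real.log w := Real.log_pos (by exact_mod_cast (by omega : 1 < w))
      have hcW : 0 ≤ c1 / Real.log w ^ B1 := by positivity
      calc (s : ℝ) ^ 2 * (13 * η1) * ∏ i, (T i : ℝ) ^ K i =
          (s : ℝ) ^ 2 * (13 * η1) * Fa * ∏ i, ((T i : ℝ) ^ K i / ((K i).factorial : ℝ)) := by
            rw [hF]
            ring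
        _ ≤ (η / 4 * (c1 / Real.log w ^ B1) ^ k) *
            ∏ i, ((T i : ℝ) ^ K i / ((K i).factorial : ℝ)) :=
          mul_le_mul_of_nonneg_right (hAge.trans hAw) hD0
        _ = η / 4 * ∏ i, ((c1 / Real.log w ^ B1) ^ K i *
            ((T i : ℝ) ^ K i / ((K i).factorial : ℝ))) := by
          rw [Finset.prod_mul_distrib, Finset.prod_pow_eq_pow_sum, ← hk]
          ring
        _ ≤ η / 4 * Xw := by
          apply mul_le_mul_of_nonneg_left _ (by positivity)
          rw [hXw]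
          apply Finset.prod_le_prod
          · intro i _
            positivity
          · intro i _
            have h7 : c1 / Real.log w ^ B1 ≤ Vq (Q i) w := hW w hww1 (Q i) (hQ i) (hadm i)
            rw [mul_pow]
            have h8 : (c1 / Real.log w ^ B1) ^ K i ≤ Vq (Q i) w ^ K i := pow_le_pow_left₀ hcW h7 _
            calc (c1 / Real.log w ^ B1) ^ K i * ((T i : ℝ) ^ K i / ((K i).factorial : ℝ)) ≤
                Vq (Q i) w ^ K i * ((T i : ℝ) ^ K i / ((K i).factorial : ℝ)) :=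
                  mul_le_mul_of_nonneg_right h8 (by positivity)
              _ = _ := by ring
    calc V * (∑ η' ∈ (Cf K T).filter (fun η => Ind S (sig η)), Vq (QU Q (sig η')) w +
        ∑ η' ∈ (Cf K T).filter (fun η => Ind S (sig η)), ∑ z ∈ (sig η').offDiag, g z.1 z.2) ≤
        V * ((1 + η / 4) * Xw + η / 4 * Xw) := by
          apply mul_le_mul_of_nonneg_left _ hV0
          linarith
      _ = (1 + η / 2) * (V * Xw) := by ring
      _ ≤ (1 + η) * (V * Xw) := mul_le_mul_of_nonneg_right (by linarith) (mul_nonneg hV0 hXw0)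

end Pool.Agent.Y175.JP
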