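import Pool.Agent.Y175.JP.SingB

set_option autoImplicit false

/-!
# The average of the sieve products over all configurations, with close points

Author: helper175.
-/

namespace Pool.Agent.Y175.JP

open Finset Pool.Agent.H373R2.T7 Pool.Agent.W123.RP Pool.Agent.W123.RU Pool.Agent.TH464.PO

variable {ι : Type} [Fintype ι]

open Classical in
/-- the configuration of a set of points -/
noncomputable def cof (H : Finset (Pt ι)) (i : ι) : Finset ℕ := (H.filter (fun x => x.1 = i)).image (fun x => x.2)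

open Classical in
lemma sig_cof (H : Finset (Pt ι)) : sig (cof H) = H := by
  ext x
  rw [mem_sig]
  unfold cof
  rw [mem_image]
  constructor
  · rintro ⟨z, hz, hzx⟩
    rw [mem_filter] at hz
    obtain ⟨z1, z2⟩ := z
    obtain ⟨x1, x2⟩ := x
    simp only at hz hzx
    rw [← hz.2, ← hzx]
    exact hz.1
  · intro h
    exact ⟨x, mem_filter.2 ⟨h, rfl⟩, rfl⟩

lemma sig_inj (η η' : ι → Finset ℕ) (h : sig η = sig η') : η = η' := by
  funext i
  ext a
  have h1 := mem_sig η ⟨i, a⟩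
  have h2 := mem_sig η' ⟨i, a⟩
  rw [h] at h1
  exact h1.symm.trans h2

omit [Fintype ι] in
lemma Phi_le {β : Type} (S : Pt ι → Finset β) (H : Finset (Pt ι)) (W : ℕ)
    (h : ∀ x ∈ H, (S x).card ≤ W) : Phi S H ≤ H.card * W := by
  unfold Phi
  have := Finset.sum_le_card_nsmul H (fun x => (S x).card) W h
  rwa [smul_eq_mul] at this

lemma prod_X_le (K T : ι → ℕ) (V : ι → ℝ) (x0 : ℝ) (hx0 : 0 ≤ x0) (hV : ∀ i, 0 ≤ V i)
    (h : ∀ i, T i * V i ≤ x0) (k : ℕ) (hk : ∑ i, K i ≤ k) :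
    ∏ i, ((T i * V i) ^ K i / ((K i).factorial : ℝ)) ≤ (1 + x0) ^ k := by
  calc ∏ i, ((T i * V i) ^ K i / ((K i).factorial : ℝ)) ≤ ∏ i, (1 + x0) ^ K i := by
        apply Finset.prod_le_prod
        · intro i _
          have := hV i
          positivity
        · intro i _
          have h1 : (1 : ℝ) ≤ (K i).factorial := by exact_mod_cast Nat.factorial_pos (K i)
          have h2 : 0 ≤ T i * V i := mul_nonneg (Nat.cast_nonneg _) (hV i)
          exact (div_le_self (by positivity) h1).trans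
            (pow_le_pow_left₀ h2 (by have := h i; linarith) _)
    _ = (1 + x0) ^ (∑ i, K i) := Finset.prod_pow_eq_pow_sum _ _ _
    _ ≤ (1 + x0) ^ k := pow_le_pow_right₀ (by linarith) hk

open Classical in
/-- **All configurations.** -/
theorem sing_joint (c : ℕ) (K : ι → ℕ) (W B : ℕ) (x0 η : ℝ) (hx0 : 0 ≤ x0) (hη : 0 < η) :
    ∃ (w : ℕ) (η' δ : ℝ) (T0 : ℕ), 0 < η' ∧ 0 < δ ∧ 2 ≤ T0 ∧ ∀ T : ι → ℕ, (∀ i, T0 ≤ T i) →
      ∀ Q : ι → ℕ → ℕ → Prop, (∀ i, PerB (Q i) c) → (∀ i, ∀ p : ℕ, p.Prime → nuB (Q i) p < p) →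
      ∀ y : ℕ, w ≤ y → (∀ i, T i * Vq (Q i) y ≤ x0) → ∀ (β : Type) (S : Pt ι → Finset β),
      Atm Q T y S W B (∑ i, K i) η' δ →
      |∑ η ∈ Cf K T, Vq (QU Q (sig η)) y -
        ∏ i, ((T i * Vq (Q i) y) ^ K i / (K i).factorial)| ≤ η := by
  obtain ⟨k, hk⟩ : ∃ k, k = ∑ i, K i := ⟨_, rfl⟩
  obtain ⟨X1, hX1⟩ : ∃ X1 : ℝ, X1 = (1 + x0) ^ k := ⟨_, rfl⟩
  have hX1pos : 1 ≤ X1 := by rw [hX1]; exact one_le_pow₀ (by linarith)
  obtain ⟨η₂, hη₂⟩ : ∃ η₂ : ℝ, η₂ = min 1 (η / (2 * X1)) := ⟨_, rfl⟩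
  have hη₂0 : 0 < η₂ := by rw [hη₂]; positivity
  have hη₂1 : η₂ ≤ 1 := by rw [hη₂]; exact min_le_left _ _
  have hη₂2 : η₂ * X1 ≤ η / 2 := by
    have : η₂ ≤ η / (2 * X1) := by rw [hη₂]; exact min_le_right _ _
    rw [le_div_iff₀ (by positivity)] at this
    linarith
  choose w η'' T0 hη'' hT02 hind using fun K' : ι → ℕ => indep_up c K' B η₂ hη₂0 hη₂1
  obtain ⟨KK, hKK⟩ : ∃ KK : Finset (ι → ℕ), KK = Fintype.piFinset (fun i => range (K i + 1)) :=
    ⟨_, rfl⟩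
  have hKmem : K ∈ KK := by
    rw [hKK, Fintype.mem_piFinset]
    intro i
    rw [mem_range]
    omega
  have hKle : ∀ K' ∈ KK, ∑ i, K' i ≤ k := by
    intro K' hK'
    rw [hKK, Fintype.mem_piFinset] at hK'
    rw [hk]
    apply Finset.sum_le_sum
    intro i _
    have := mem_range.1 (hK' i)
    omega
  obtain ⟨Km, hKm, hKmin⟩ := Finset.exists_min_image KK η'' ⟨K, hKmem⟩
  obtain ⟨n0, hn0⟩ : ∃ n0 : ℕ, n0 = 2 * (k * W) := ⟨_, rfl⟩
  obtain ⟨C, hC⟩ : ∃ C : ℕ, C = 2 ^ (k * (B + 1) ^ n0) := ⟨_, rfl⟩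
  obtain ⟨D, hD⟩ : ∃ D : ℝ, D = C * (KK.card * (2 * X1)) := ⟨_, rfl⟩
  have hCpos : (0 : ℝ) < C := by rw [hC]; positivity
  have hKKpos : (0 : ℝ) < KK.card := by exact_mod_cast Finset.card_pos.2 ⟨K, hKmem⟩
  have hDpos : 0 < D := by rw [hD]; positivity
  refine ⟨∑ K' ∈ KK, w K', η'' Km, η / (2 * D), ∑ K' ∈ KK, T0 K', hη'' Km, by positivity,
    (hT02 K).trans (Finset.single_le_sum (f := T0) (fun _ _ => Nat.zero_le _) hKmem), ?_⟩
  intro T hT Q hQ hadm y hwy hTx β S hAtm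
  rw [← hk] at hAtm
  have hwK : ∀ K' ∈ KK, w K' ≤ y := fun K' h =>
    (Finset.single_le_sum (f := w) (fun _ _ => Nat.zero_le _) h).trans hwy
  have hTK : ∀ K' ∈ KK, ∀ i, T0 K' ≤ T i := fun K' h i =>
    (Finset.single_le_sum (f := T0) (fun _ _ => Nat.zero_le _) h).trans (hT i)
  have hres : ∀ K' ∈ KK, (1 - η₂) * ∏ i, ((T i * Vq (Q i) y) ^ K' i / ((K' i).factorial : ℝ)) ≤
        ∑ η ∈ Cf K' T, Vq (QU Q (sig η)) y ∧
      ∑ η ∈ (Cf K' T).filter (fun η => Ind S (sig η)), Vq (QU Q (sig η)) y ≤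
        (1 + η₂) * ∏ i, ((T i * Vq (Q i) y) ^ K' i / ((K' i).factorial : ℝ)) := fun K' h =>
    hind K' T (hTK K' h) Q hQ hadm y (hwK K' h) β S W k (η'' Km) (η / (2 * D)) (hKmin K' h) hAtm
  have hprodle : ∀ K' ∈ KK, ∏ i, ((T i * Vq (Q i) y) ^ K' i / ((K' i).factorial : ℝ)) ≤ X1 := by
    intro K' h
    rw [hX1]
    exact prod_X_le K' T (fun i => Vq (Q i) y) x0 hx0 (fun i => Vq_nonneg (Q i) y) hTx k (hKle K' h)
  obtain ⟨X, hX⟩ : ∃ X, X = ∏ i, ((T i * Vq (Q i) y) ^ K i / ((K i).factorial : ℝ)) := ⟨_, rfl⟩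
  have hXX1 : X ≤ X1 := by rw [hX]; exact hprodle K hKmem
  have hX0 : 0 ≤ X := by
    rw [hX]
    exact Finset.prod_nonneg fun i _ => by
      have := Vq_nonneg (Q i) y
      positivity
  obtain ⟨r1, r2⟩ := hres K hKmem
  rw [← hX] at r1 r2 ⊢
  -- the exceptional configurations
  obtain ⟨E, hE⟩ : ∃ E, E = (Cf K T).filter (fun η => ¬ Ind S (sig η)) := ⟨_, rfl⟩
  have hsplit : ∑ η ∈ Cf K T, Vq (QU Q (sig η)) y =
      ∑ η ∈ (Cf K T).filter (fun η => Ind S (sig η)), Vq (QU Q (sig η)) y +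
      ∑ η ∈ E, Vq (QU Q (sig η)) y := by
    rw [hE]
    exact (Finset.sum_filter_add_sum_filter_not _ _ _).symm
  have hEG : ∀ η₀ ∈ E, ∃ η' : ι → Finset ℕ, sig η' ⊆ sig η₀ ∧ Ind S (sig η') ∧
      (∀ x ∈ sig η₀, ∃ c ∈ sig η', x ∈ ball S (Un T) n0 c) ∧
      Vq (QU Q (sig η₀)) y ≤ η / (2 * D) * Vq (QU Q (sig η')) y := by
    intro η₀ hη₀
    rw [hE, mem_filter] at hη₀
    obtain ⟨hCf, hnot⟩ := hη₀
    have hsub := sig_sub K T η₀ hCf
    obtain ⟨H', hH', hI, hgen, hout⟩ := exists_indep S (Un T) (sig η₀) hsub hAtm.ne hAtm.inj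
    have hne : H' ≠ sig η₀ := by
      intro h
      apply hnot
      rw [← h]
      exact hI
    obtain ⟨x, hx, hxH'⟩ := Finset.exists_of_ssubset (Finset.ssubset_iff_subset_ne.2 ⟨hH', hne⟩)
    refine ⟨cof H', ?_, ?_, ?_, ?_⟩
    · rw [sig_cof]; exact hH'
    · rw [sig_cof]; exact hI
    · rw [sig_cof]
      intro z hz
      obtain ⟨a, ha, hza⟩ := hgen z hz
      refine ⟨a, ha, ball_mono S (Un T) _ _ ?_ a hza⟩
      have h1 := Phi_le S (sig η₀) W (fun x hx => hAtm.card x (hsub hx))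
      rw [sig_card K T η₀ hCf, ← hk] at h1
      omega
    · rw [sig_cof]
      refine hAtm.ext H' (hH'.trans hsub) ?_ x (hsub hx) (hout x hx hxH') (sig η₀) hH' hx
      refine (card_le_card hH').trans ?_
      rw [sig_card K T η₀ hCf, ← hk]
  choose! G hG1 hG2 hG3 hG4 using hEG
  obtain ⟨CC, hCC⟩ : ∃ CC, CC = KK.biUnion (fun K' => (Cf K' T).filter (fun η => Ind S (sig η))) :=
    ⟨_, rfl⟩
  have hmaps : ∀ η₀ ∈ E, G η₀ ∈ CC := by
    intro η₀ hη₀
    have hCf : η₀ ∈ Cf K T := by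
      rw [hE, mem_filter] at hη₀
      exact hη₀.1
    have hsubi : ∀ i, G η₀ i ⊆ η₀ i := by
      intro i a ha
      have h1 : (⟨i, a⟩ : Pt ι) ∈ sig (G η₀) := (mem_sig _ _).2 ha
      exact (mem_sig _ _).1 (hG1 η₀ hη₀ h1)
    rw [hCC, mem_biUnion]
    refine ⟨fun i => (G η₀ i).card, ?_, ?_⟩
    · rw [hKK, Fintype.mem_piFinset]
      intro i
      rw [mem_range]
      have h1 := card_le_card (hsubi i)
      rw [((mem_Cf K T η₀).1 hCf i).2] at h1
      omega
    · rw [mem_filter, mem_Cf]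
      exact ⟨fun i => ⟨(hsubi i).trans ((mem_Cf K T η₀).1 hCf i).1, rfl⟩, hG2 η₀ hη₀⟩
  have hexc : ∑ η ∈ E, Vq (QU Q (sig η)) y ≤ η / 2 := by
    have h1 : ∑ η ∈ E, Vq (QU Q (sig η)) y ≤ ∑ η₀ ∈ E, η / (2 * D) * Vq (QU Q (sig (G η₀))) y :=
      Finset.sum_le_sum fun η₀ h => hG4 η₀ h
    refine h1.trans ?_
    rw [← Finset.mul_sum, ← Finset.sum_fiberwise_of_maps_to hmaps]
    have h2 : ∀ η' ∈ CC, ∑ η₀ ∈ E.filter (fun η₀ => G η₀ = η'), Vq (QU Q (sig (G η₀))) y ≤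
        C * Vq (QU Q (sig η')) y := by
      intro η' hη'
      have h3 : ∑ η₀ ∈ E.filter (fun η₀ => G η₀ = η'), Vq (QU Q (sig (G η₀))) y =
          ∑ _η₀ ∈ E.filter (fun η₀ => G η₀ = η'), Vq (QU Q (sig η')) y := by
        apply Finset.sum_congr rfl
        intro η₀ h
        rw [(mem_filter.1 h).2]
      rw [h3, Finset.sum_const, nsmul_eq_mul]
      apply mul_le_mul_of_nonneg_right _ (Vq_nonneg _ y)
      have hcardη' : (sig η').card ≤ k := by
        rw [hCC, mem_biUnion] at hη'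
        obtain ⟨K', hK', h4⟩ := hη'
        rw [mem_filter] at h4
        rw [sig_card K' T η' h4.1]
        exact hKle K' hK'
      have h4 : (E.filter (fun η₀ => G η₀ = η')).card ≤
          ((sig η').biUnion (ball S (Un T) n0)).powerset.card := by
        apply Finset.card_le_card_of_injOn (fun η₀ => sig η₀)
        · intro η₀ h
          rw [Finset.mem_coe, mem_filter] at h
          rw [Finset.mem_coe, mem_powerset]
          have := hG3 η₀ h.1
          rw [h.2] at this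
          intro z hz
          obtain ⟨c', hc', hz'⟩ := this z hz
          exact mem_biUnion.2 ⟨c', hc', hz'⟩
        · intro a _ b _ hab
          exact sig_inj a b hab
      have h5 : ((sig η').biUnion (ball S (Un T) n0)).card ≤ k * (B + 1) ^ n0 := by
        refine (Finset.card_biUnion_le_card_mul _ _ ((B + 1) ^ n0) (fun x _ =>
          ball_card S (Un T) B hAtm.deg n0 x)).trans ?_
        exact Nat.mul_le_mul_right _ hcardη'
      rw [Finset.card_powerset] at h4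
      have h6 : (E.filter (fun η₀ => G η₀ = η')).card ≤ C := by
        rw [hC]
        exact h4.trans (Nat.pow_le_pow_right (by norm_num) h5)
      exact_mod_cast h6
    have h3 : ∑ η' ∈ CC, (C : ℝ) * Vq (QU Q (sig η')) y ≤ D := by
      rw [← Finset.mul_sum, hCC, Finset.sum_biUnion, hD]
      · apply mul_le_mul_of_nonneg_left _ hCpos.le
        have h4 : ∀ K' ∈ KK, ∑ η ∈ (Cf K' T).filter (fun η => Ind S (sig η)), Vq (QU Q (sig η)) y ≤
            2 * X1 := by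
          intro K' hK'
          refine (hres K' hK').2.trans ?_
          have h5 := hprodle K' hK'
          have h6 : 0 ≤ ∏ i, ((T i * Vq (Q i) y) ^ K' i / ((K' i).factorial : ℝ)) :=
            Finset.prod_nonneg fun i _ => by
              have := Vq_nonneg (Q i) y
              positivity
          nlinarith
        refine (Finset.sum_le_card_nsmul KK _ _ h4).trans ?_
        rw [nsmul_eq_mul]
      · intro K1 _ K2 _ hne
        rw [Function.onFun, Finset.disjoint_left]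
        intro η₀ h1 h2
        apply hne
        funext i
        rw [mem_filter, mem_Cf] at h1 h2
        rw [← (h1.1 i).2, ← (h2.1 i).2]
    calc η / (2 * D) * ∑ η' ∈ CC, ∑ η₀ ∈ E.filter (fun η₀ => G η₀ = η'), Vq (QU Q (sig (G η₀))) y ≤
        η / (2 * D) * D := by
          apply mul_le_mul_of_nonneg_left _ (by positivity)
          exact (Finset.sum_le_sum h2).trans h3
      _ = η / 2 := by field_simp
  have hexc0 : 0 ≤ ∑ η ∈ E, Vq (QU Q (sig η)) y := Finset.sum_nonneg fun _ _ => Vq_nonneg _ y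
  have hη₂X : η₂ * X ≤ η / 2 := (mul_le_mul_of_nonneg_left hXX1 hη₂0.le).trans hη₂2
  rw [abs_le]
  constructor
  · linarith
  · rw [hsplit]
    linarith

end Pool.Agent.Y175.JP
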