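import Pool.Agent.Y175.JP.Pts

set_option autoImplicit false

/-!
# The small primes: averages over configurations of points of several types

Author: helper175 (after `Pool.Agent.TH464.PO.Small`).
-/

namespace Pool.Agent.Y175.JP

open Finset Pool.Agent.H373R2.T7 Pool.Agent.W123.RP Pool.Agent.W123.RU Pool.Agent.TH464.PO

open Classical in
/-- binomial coefficients of the number of sifted integers in a window -/
lemma one_choose (k w : ℕ) (η : ℝ) (hη : 0 < η) : ∃ T0 : ℕ, ∀ T : ℕ, T0 ≤ T →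
    ∀ (Q : ℕ → ℕ → Prop) (c : ℕ), PerB Q c → (∀ p : ℕ, p.Prime → nuB Q p < p) → ∀ m : ℕ,
    (1 - η) * ((T * Vq Q w) ^ k / k.factorial) ≤
      ((((Icc 1 T).filter (fun h => Sf Q w (m + h))).card.choose k : ℕ) : ℝ) ∧
    ((((Icc 1 T).filter (fun h => Sf Q w (m + h))).card.choose k : ℕ) : ℝ) ≤
      (1 + η) * ((T * Vq Q w) ^ k / k.factorial) := by
  obtain ⟨M, hM⟩ : ∃ M, M = Mw w := ⟨_, rfl⟩
  have hMpos : 0 < M := by rw [hM]; exact Mw_pos w
  have hMr : (0 : ℝ) < M := by exact_mod_cast hMpos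
  obtain ⟨δ, hδ⟩ : ∃ δ : ℝ, δ = min 1 (η / (2 ^ k + k)) := ⟨_, rfl⟩
  have hδ0 : 0 < δ := by rw [hδ]; positivity
  have hδ1 : δ ≤ 1 := by rw [hδ]; exact min_le_left _ _
  have hδη : δ * (2 ^ k + k) ≤ η := by
    have : δ ≤ η / (2 ^ k + k) := by rw [hδ]; exact min_le_right _ _
    rwa [le_div_iff₀ (by positivity)] at this
  obtain ⟨T0, hT0⟩ : ∃ T0 : ℕ, (M : ℝ) * (M + k) / δ ≤ T0 := exists_nat_ge _
  refine ⟨T0, ?_⟩
  intro T hT Q c hQ hadm m
  have hTr : (M : ℝ) * (M + k) / δ ≤ T := hT0.trans (by exact_mod_cast hT)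
  have hW := Vq_pos Q hadm w
  have hex := exact Q c hQ w
  rw [← hM] at hex
  have hMW : 1 ≤ (M : ℝ) * Vq Q w := by
    rw [← hex]
    have h1 : (0 : ℝ) < (((range M).filter (fun m => Sf Q w m)).card : ℝ) := by
      rw [hex]
      positivity
    have h2 : 0 < ((range M).filter (fun m => Sf Q w m)).card := by exact_mod_cast h1
    exact_mod_cast h2
  obtain ⟨x, hx⟩ : ∃ x : ℝ, x = T * Vq Q w := ⟨_, rfl⟩
  rw [← hx]
  have hxM : (M : ℝ) + k ≤ δ * x := by
    rw [hx]
    rw [div_le_iff₀ hδ0] at hTr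
    have h1 : (M : ℝ) * (M + k) ≤ M * (δ * (T * Vq Q w)) := by
      calc (M : ℝ) * (M + k) ≤ T * δ := hTr
        _ = T * δ * 1 := (mul_one _).symm
        _ ≤ T * δ * (M * Vq Q w) := by gcongr
        _ = _ := by ring
    exact le_of_mul_le_mul_left h1 hMr
  have hMk : (0 : ℝ) < (M : ℝ) + k := by positivity
  have hx0 : 0 < x := by
    by_contra hcon
    rw [not_lt] at hcon
    have : δ * x ≤ 0 := mul_nonpos_of_nonneg_of_nonpos hδ0.le hcon
    linarith
  have hxx : (M : ℝ) + k ≤ x := by nlinarith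
  have hkf : (0 : ℝ) < k.factorial := by exact_mod_cast Nat.factorial_pos k
  obtain ⟨hlo', hup'⟩ : (x - M - k) ^ k / k.factorial ≤
      ((((Icc 1 T).filter (fun h => Sf Q w (m + h))).card.choose k : ℕ) : ℝ) ∧
      ((((Icc 1 T).filter (fun h => Sf Q w (m + h))).card.choose k : ℕ) : ℝ) ≤
        (x + M) ^ k / k.factorial := by
    apply choose_bounds
    · have := window Q c hQ w m T
      rw [← hM, ← hx] at this
      exact this
    · exact hxx
  have hk0 : (0 : ℝ) ≤ k := Nat.cast_nonneg k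
  have hMδ : (M : ℝ) / x ≤ δ := by
    rw [div_le_iff₀ hx0]
    linarith
  have hMkδ : ((M : ℝ) + k) / x ≤ δ := by
    rw [div_le_iff₀ hx0]
    linarith
  constructor
  · refine le_trans ?_ hlo'
    rw [← mul_div_assoc]
    apply div_le_div_of_nonneg_right _ hkf.le
    have h1 : x - M - k = x * (1 + -(((M : ℝ) + k) / x)) := by
      field_simp
      ring
    rw [h1, mul_pow, mul_comm (1 - η)]
    apply mul_le_mul_of_nonneg_left _ (by positivity)
    have h2 := one_add_mul_le_pow (a := -(((M : ℝ) + k) / x)) (by linarith) k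
    refine le_trans ?_ h2
    have h3 : (k : ℝ) * (((M : ℝ) + k) / x) ≤ k * δ := by gcongr
    have h4 : (0 : ℝ) < 2 ^ k := by positivity
    have h5 : k * δ ≤ δ * (2 ^ k + k) := by nlinarith
    linarith
  · refine le_trans hup' ?_
    rw [← mul_div_assoc]
    apply div_le_div_of_nonneg_right _ hkf.le
    have h1 : x + M = x * (1 + (M : ℝ) / x) := by
      field_simp
    rw [h1, mul_pow, mul_comm (1 + η)]
    apply mul_le_mul_of_nonneg_left _ (by positivity)
    have h2 := one_add_pow_le k ((M : ℝ) / x) (by positivity) (by linarith)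
    refine h2.trans ?_
    have h6 : (1 : ℝ) ≤ 2 ^ k := one_le_pow₀ (by norm_num)
    have h3 : (2 ^ k - 1) * ((M : ℝ) / x) ≤ (2 ^ k - 1) * δ :=
      mul_le_mul_of_nonneg_left hMδ (by linarith)
    have h5 : (2 ^ k - 1) * δ ≤ δ * (2 ^ k + k) := by nlinarith
    linarith

variable {ι : Type} [Fintype ι]

open Classical in
/-- the configurations with `K i` points of type `i` in `[1, T i]` -/
noncomputable def Cf (K T : ι → ℕ) : Finset (ι → Finset ℕ) :=
  Fintype.piFinset (fun i => powersetCard (K i) (Icc 1 (T i)))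

/-- the set of the points of a configuration -/
def sig (η : ι → Finset ℕ) : Finset (Pt ι) := (Finset.univ : Finset ι).sigma η

lemma mem_sig (η : ι → Finset ℕ) (x : Pt ι) : x ∈ sig η ↔ x.2 ∈ η x.1 := by
  unfold sig
  rw [mem_sigma]
  simp

open Classical in
lemma mem_Cf (K T : ι → ℕ) (η : ι → Finset ℕ) :
    η ∈ Cf K T ↔ ∀ i, η i ⊆ Icc 1 (T i) ∧ (η i).card = K i := by
  unfold Cf
  rw [Fintype.mem_piFinset]
  exact forall_congr' fun i => mem_powersetCard

lemma sig_card (K T : ι → ℕ) (η : ι → Finset ℕ) (h : η ∈ Cf K T) : (sig η).card = ∑ i, K i := by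
  unfold sig
  rw [card_sigma]
  exact Finset.sum_congr rfl fun i _ => ((mem_Cf K T η).1 h i).2

lemma sig_prod (K T : ι → ℕ) (η : ι → Finset ℕ) (h : η ∈ Cf K T) (f : ι → ℝ) :
    ∏ x ∈ sig η, f x.1 = ∏ i, f i ^ K i := by
  unfold sig
  rw [Finset.prod_sigma]
  apply Finset.prod_congr rfl
  intro i _
  have e : ∏ s ∈ η i, f (⟨i, s⟩ : Pt ι).fst = ∏ _s ∈ η i, f i := rfl
  rw [e, Finset.prod_const, ((mem_Cf K T η).1 h i).2]

open Classical in
/-- products of binomial coefficients as sums over configurations -/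
lemma cfg_moment (K T : ι → ℕ) (g : ι → ℕ → Prop) :
    ∏ i, ((((Icc 1 (T i)).filter (g i)).card.choose (K i) : ℕ) : ℝ) =
      ∑ η ∈ Cf K T, if (∀ x ∈ sig η, g x.1 x.2) then (1 : ℝ) else 0 := by
  have h1 : ∀ i, ((((Icc 1 (T i)).filter (g i)).card.choose (K i) : ℕ) : ℝ) =
      ∑ H ∈ powersetCard (K i) (Icc 1 (T i)), if (∀ h ∈ H, g i h) then (1 : ℝ) else 0 := by
    intro i
    rw [Finset.sum_ite, Finset.sum_const_zero, add_zero, Finset.sum_const, nsmul_eq_mul, mul_one,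
      ← Finset.card_powersetCard]
    congr 2
    ext H
    rw [mem_filter, mem_powersetCard, mem_powersetCard]
    constructor
    · rintro ⟨a1, a2⟩
      exact ⟨⟨fun h hh => (mem_filter.1 (a1 hh)).1, a2⟩, fun h hh => (mem_filter.1 (a1 hh)).2⟩
    · rintro ⟨⟨a1, a2⟩, a3⟩
      exact ⟨fun h hh => mem_filter.2 ⟨a1 hh, a3 h hh⟩, a2⟩
  rw [Finset.prod_congr rfl (fun i _ => h1 i), Finset.prod_univ_sum]
  unfold Cf
  apply Finset.sum_congr rfl
  intro η _
  rw [Finset.prod_ite_zero, Finset.prod_const_one]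
  congr 1
  apply propext
  constructor
  · intro h x hx
    exact h x.1 (mem_univ _) x.2 ((mem_sig η x).1 hx)
  · intro h i _ a ha
    exact h ⟨i, a⟩ ((mem_sig η ⟨i, a⟩).2 ha)

open Classical in
/-- the average over the configurations, as an average over a period -/
lemma sum_cfg (Q : ι → ℕ → ℕ → Prop) (c : ℕ) (hQ : ∀ i, PerB (Q i) c) (w : ℕ) (K T : ι → ℕ) :
    (Mw w : ℝ) * ∑ η ∈ Cf K T, Vq (QU Q (sig η)) w =
      ∑ m ∈ range (Mw w), ∏ i,
        ((((Icc 1 (T i)).filter (fun h => Sf (Q i) w (m + h))).card.choose (K i) : ℕ) : ℝ) := by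
  rw [Finset.mul_sum]
  have h1 : ∀ η ∈ Cf K T, (Mw w : ℝ) * Vq (QU Q (sig η)) w =
      ∑ m ∈ range (Mw w), if (∀ x ∈ sig η, Sf (Q x.1) w (m + x.2)) then (1 : ℝ) else 0 := by
    intro η _
    rw [← exact (QU Q (sig η)) _ (perB_QU Q c hQ (sig η)) w]
    rw [Finset.sum_ite, Finset.sum_const_zero, add_zero, Finset.sum_const, nsmul_eq_mul, mul_one]
    congr 2
    apply Finset.filter_congr
    intro m _
    exact sf_QU Q (sig η) w m
  rw [Finset.sum_congr rfl h1, Finset.sum_comm]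
  apply Finset.sum_congr rfl
  intro m _
  rw [cfg_moment K T (fun i h => Sf (Q i) w (m + h))]

open Classical in
/-- **The small primes.** -/
theorem small_joint (K : ι → ℕ) (w : ℕ) (η : ℝ) (hη : 0 < η) : ∃ T0 : ℕ, ∀ T : ι → ℕ,
    (∀ i, T0 ≤ T i) → ∀ (Q : ι → ℕ → ℕ → Prop) (c : ℕ), (∀ i, PerB (Q i) c) →
    (∀ i, ∀ p : ℕ, p.Prime → nuB (Q i) p < p) →
    (1 - η) * ∏ i, ((T i * Vq (Q i) w) ^ K i / (K i).factorial) ≤
      ∑ η ∈ Cf K T, Vq (QU Q (sig η)) w ∧
    ∑ η ∈ Cf K T, Vq (QU Q (sig η)) w ≤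
      (1 + η) * ∏ i, ((T i * Vq (Q i) w) ^ K i / (K i).factorial) := by
  obtain ⟨s, hs⟩ : ∃ s, s = Fintype.card ι := ⟨_, rfl⟩
  obtain ⟨δ, hδ⟩ : ∃ δ : ℝ, δ = min 1 (η / (2 ^ s + s)) := ⟨_, rfl⟩
  have hδ0 : 0 < δ := by rw [hδ]; positivity
  have hδ1 : δ ≤ 1 := by rw [hδ]; exact min_le_left _ _
  have hδη : δ * (2 ^ s + s) ≤ η := by
    have : δ ≤ η / (2 ^ s + s) := by rw [hδ]; exact min_le_right _ _
    rwa [le_div_iff₀ (by positivity)] at this
  choose T0 hT0 using fun i => one_choose (K i) w δ hδ0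
  refine ⟨∑ i, T0 i, ?_⟩
  intro T hT Q c hQ hadm
  have hTi : ∀ i, T0 i ≤ T i := fun i =>
    (Finset.single_le_sum (f := T0) (fun _ _ => Nat.zero_le _) (mem_univ i)).trans (hT i)
  obtain ⟨M, hM⟩ : ∃ M, M = Mw w := ⟨_, rfl⟩
  have hMpos : 0 < M := by rw [hM]; exact Mw_pos w
  have hMr : (0 : ℝ) < M := by exact_mod_cast hMpos
  have hsum := sum_cfg Q c hQ w K T
  rw [← hM] at hsum
  obtain ⟨P, hP⟩ : ∃ P, P = ∏ i, ((T i * Vq (Q i) w) ^ K i / ((K i).factorial : ℝ)) := ⟨_, rfl⟩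
  rw [← hP]
  have hX0 : ∀ i, 0 ≤ (T i * Vq (Q i) w) ^ K i / ((K i).factorial : ℝ) := by
    intro i
    have := Vq_nonneg (Q i) w
    positivity
  have hP0 : 0 ≤ P := by rw [hP]; exact Finset.prod_nonneg fun i _ => hX0 i
  have hb : ∀ m ∈ range M, (1 - η) * P ≤ ∏ i,
        ((((Icc 1 (T i)).filter (fun h => Sf (Q i) w (m + h))).card.choose (K i) : ℕ) : ℝ) ∧
      ∏ i, ((((Icc 1 (T i)).filter (fun h => Sf (Q i) w (m + h))).card.choose (K i) : ℕ) : ℝ) ≤
        (1 + η) * P := by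
    intro m _
    have hs2 : (0 : ℝ) < 2 ^ s := by positivity
    have hs0 : (0 : ℝ) ≤ s := Nat.cast_nonneg s
    constructor
    · have h1 : ∏ i, ((1 - δ) * ((T i * Vq (Q i) w) ^ K i / ((K i).factorial : ℝ))) ≤ ∏ i,
          ((((Icc 1 (T i)).filter (fun h => Sf (Q i) w (m + h))).card.choose (K i) : ℕ) : ℝ) := by
        apply Finset.prod_le_prod
        · intro i _
          exact mul_nonneg (by linarith) (hX0 i)
        · intro i _
          exact (hT0 i (T i) (hTi i) (Q i) c (hQ i) (hadm i) m).1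
      refine le_trans ?_ h1
      rw [Finset.prod_mul_distrib, ← hP, Finset.prod_const, Finset.card_univ, ← hs]
      apply mul_le_mul_of_nonneg_right _ hP0
      have h2 := one_add_mul_le_pow (a := -δ) (by linarith) s
      have h3 : (1 : ℝ) + -δ = 1 - δ := by ring
      rw [h3] at h2
      refine le_trans ?_ h2
      nlinarith
    · have h1 : ∏ i,
          ((((Icc 1 (T i)).filter (fun h => Sf (Q i) w (m + h))).card.choose (K i) : ℕ) : ℝ) ≤
          ∏ i, ((1 + δ) * ((T i * Vq (Q i) w) ^ K i / ((K i).factorial : ℝ))) := by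
        apply Finset.prod_le_prod
        · intro i _
          positivity
        · intro i _
          exact (hT0 i (T i) (hTi i) (Q i) c (hQ i) (hadm i) m).2
      refine h1.trans ?_
      rw [Finset.prod_mul_distrib, ← hP, Finset.prod_const, Finset.card_univ, ← hs]
      apply mul_le_mul_of_nonneg_right _ hP0
      refine (one_add_pow_le s δ hδ0.le hδ1).trans ?_
      nlinarith
  constructor
  · have h1 := Finset.card_nsmul_le_sum (range M) _ _ (fun m hm => (hb m hm).1)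
    rw [card_range, nsmul_eq_mul, ← hsum] at h1
    exact le_of_mul_le_mul_left h1 hMr
  · have h1 := Finset.sum_le_card_nsmul (range M) _ _ (fun m hm => (hb m hm).2)
    rw [card_range, nsmul_eq_mul, ← hsum] at h1
    exact le_of_mul_le_mul_left h1 hMr

end Pool.Agent.Y175.JP
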