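import Pool.Agent.Y175.JP.PolyJ
import Pool.Agent.TH464.PO.GapLaw

set_option autoImplicit false

/-!
# One system of polynomials with translates: the count and the gap laws

Author: helper175.
-/

namespace Pool.Agent.Y175.JP

open Polynomial Finset Filter
open Pool.Agent.H373R2.T7 Pool.Agent.W123.RP Pool.Agent.W123.RU Pool.Agent.W123.RU.Poly
open Pool.Agent.TH464.PO

/-- the sizes -/
lemma sizes (F : Finset ℤ[X]) (hF : SysF F) (θ : ℝ) (hθ : 0 < θ) (M : ℝ) (hM : 0 < M) (r : ℕ)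
    (hr : 2 ≤ r) : ∀ᶠ X : ℕ in atTop,
      0 < Vq (QF F) ⌊(X : ℝ) ^ (1 / (r : ℝ))⌋₊ ∧
      M * Vq (QF F) ⌊(X : ℝ) ^ (1 / (r : ℝ))⌋₊ ≤ 1 ∧
      M ≤ (X : ℝ) ^ θ * Vq (QF F) ⌊(X : ℝ) ^ (1 / (r : ℝ))⌋₊ ^ 2 := by
  obtain ⟨v, Cv, hv, hCv, hV⟩ := V_all (ι := Unit) (fun _ => F) (fun _ => hF)
  obtain ⟨k, hk⟩ : ∃ k, k = F.card := ⟨_, rfl⟩
  have hk1 : 1 ≤ k := by rw [hk]; exact card_pos.2 hF.ne
  have hrr : (2 : ℝ) ≤ r := by exact_mod_cast hr
  have hpow2 : Tendsto (fun X : ℕ => (X : ℝ) ^ (1 / (2 * r : ℝ))) atTop atTop :=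
    (tendsto_rpow_atTop (by positivity)).comp tendsto_natCast_atTop_atTop
  have hlogX : Tendsto (fun X : ℕ => Real.log (X : ℝ)) atTop atTop :=
    Real.tendsto_log_atTop.comp tendsto_natCast_atTop_atTop
  filter_upwards [hpow2.eventually_ge_atTop 3, eventually_ge_atTop 16,
    hlogX.eventually_ge_atTop (2 * r * (1 + Cv * M)),
    Pool.Agent.TH464.PW.logpow_rpow (k * 2) (M / v ^ 2) θ (by positivity) hθ] with X hX1 hX16 hX3 hX4
  obtain ⟨hy1, hy2, hy3, hy4⟩ := level_low r hr X (by omega) (by linarith)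
  obtain ⟨y, hy⟩ : ∃ y, y = ⌊(X : ℝ) ^ (1 / (r : ℝ))⌋₊ := ⟨_, rfl⟩
  rw [← hy] at hy1 hy2 hy3 hy4 ⊢
  have hy3' : 3 ≤ y := by
    have : (3 : ℝ) ≤ y := by linarith
    exact_mod_cast this
  obtain ⟨hVlo, hVup⟩ := hV () y hy3'
  rw [← hk] at hVlo hVup
  have h0 : 0 ≤ Cv * M := by positivity
  have h1 : 1 + Cv * M ≤ Real.log y := by
    refine le_trans ?_ hy2
    rw [le_div_iff₀ (by positivity)]
    linarith
  have h2 : 1 ≤ Real.log y := by linarith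
  have h3 : Real.log y ≤ Real.log y ^ k := by
    calc Real.log y = Real.log y ^ 1 := (pow_one _).symm
      _ ≤ Real.log y ^ k := pow_le_pow_right₀ h2 hk1
  have hlX : Real.log y ≤ Real.log X := hy3
  have hV0 : 0 < Vq (QF F) y := Vq_pos _ (fun p hp => adm_F hF p hp) y
  refine ⟨hV0, ?_, ?_⟩
  · calc M * Vq (QF F) y ≤ M * (Cv / Real.log y ^ k) := mul_le_mul_of_nonneg_left hVup hM.le
      _ = (Cv * M) / Real.log y ^ k := by ring
      _ ≤ 1 := by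
        rw [div_le_one (by positivity)]
        linarith
  · have h4 : v / Real.log X ^ k ≤ Vq (QF F) y := by
      refine le_trans ?_ hVlo
      apply div_le_div_of_nonneg_left hv.le (by positivity)
      exact pow_le_pow_left₀ (by positivity) hlX _
    have hlX0 : 0 < Real.log X := by linarith
    calc M = (M / v ^ 2 * Real.log X ^ (k * 2)) * (v / Real.log X ^ k) ^ 2 := by
          rw [div_pow, ← pow_mul]
          field_simp
      _ ≤ (X : ℝ) ^ θ * (v / Real.log X ^ k) ^ 2 := mul_le_mul_of_nonneg_right hX4 (by positivity)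
      _ ≤ (X : ℝ) ^ θ * Vq (QF F) y ^ 2 := by
          apply mul_le_mul_of_nonneg_left _ (by positivity)
          exact pow_le_pow_left₀ (by positivity) h4 _

open Classical in
/-- **The number of the sifted integers** in all intervals. -/
theorem count_sys (F : Finset ℤ[X]) (hF : SysF F) (θ : ℝ) (hθ : 0 < θ) (ε : ℝ) (hε : 0 < ε) :
    ∃ r0 : ℕ, ∀ r : ℕ, r0 ≤ r → ∀ᶠ X : ℕ in atTop, ∀ Z Y : ℕ, (X : ℝ) ^ θ ≤ Y →
      |(((Ioc Z (Z + Y)).filter (Sf (QF F) ⌊(X : ℝ) ^ (1 / (r : ℝ))⌋₊)).card : ℝ) -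
        Y * Vq (QF F) ⌊(X : ℝ) ^ (1 / (r : ℝ))⌋₊| ≤
        ε * (Y * Vq (QF F) ⌊(X : ℝ) ^ (1 / (r : ℝ))⌋₊) := by
  obtain ⟨c, hc1, hc⟩ := c_all (ι := Unit) (fun _ => F) (fun _ => hF)
  have hQ : PerB (QF F) c := hc ()
  obtain ⟨K1, y1, hK1, hfund⟩ := sys_fund c hc1 (ε / 2) (by positivity)
  obtain ⟨R1, hR1⟩ : ∃ R1 : ℕ, (K1 : ℝ) / θ ≤ R1 := exists_nat_ge _
  refine ⟨max R1 2, ?_⟩
  intro r hr
  have hr2 : 2 ≤ r := (le_max_right _ _).trans hr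
  have hrr : (2 : ℝ) ≤ r := by exact_mod_cast hr2
  have hrpos : (0 : ℝ) < r := by linarith
  have hrK : (K1 : ℝ) ≤ θ * r := by
    have h1 : (K1 : ℝ) / θ ≤ r := hR1.trans (by exact_mod_cast (le_max_left _ _).trans hr)
    rw [div_le_iff₀ hθ] at h1
    linarith
  have hyt : Tendsto (fun X : ℕ => ⌊(X : ℝ) ^ (1 / (r : ℝ))⌋₊) atTop atTop :=
    tendsto_nat_floor_atTop.comp ((tendsto_rpow_atTop (by positivity)).comp
      tendsto_natCast_atTop_atTop)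
  filter_upwards [sizes F hF θ hθ ((2 / ε) ^ 2) (by positivity) r hr2,
    hyt.eventually_ge_atTop y1, eventually_ge_atTop 1] with X hX hX2 hX3
  intro Z Y hXY
  obtain ⟨y, hy⟩ : ∃ y, y = ⌊(X : ℝ) ^ (1 / (r : ℝ))⌋₊ := ⟨_, rfl⟩
  rw [← hy] at hX hX2 ⊢
  obtain ⟨hV0, -, hV2⟩ := hX
  have hXone : (1 : ℝ) ≤ X := by exact_mod_cast hX3
  have hXpos : (0 : ℝ) < X := by linarith
  have hyK : y ^ K1 ≤ Y := by
    have h3 : ((y ^ K1 : ℕ) : ℝ) ≤ Y := by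
      push_cast
      calc (y : ℝ) ^ K1 ≤ ((X : ℝ) ^ (1 / (r : ℝ))) ^ K1 := by
            apply pow_le_pow_left₀ (Nat.cast_nonneg _)
            rw [hy]
            exact Nat.floor_le (by positivity)
        _ = (X : ℝ) ^ (1 / (r : ℝ) * K1) := by
            rw [Real.rpow_mul hXpos.le, Real.rpow_natCast]
        _ ≤ (X : ℝ) ^ θ := by
            apply Real.rpow_le_rpow_of_exponent_le hXone
            rw [one_div, inv_mul_eq_div, div_le_iff₀ hrpos]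
            exact hrK
        _ ≤ Y := hXY
    exact_mod_cast h3
  have hYpos : (0 : ℝ) < Y := lt_of_lt_of_le (by positivity) hXY
  have h1 := hfund Y y hX2 hyK (Qt (QF F) Z) (perB_Qt _ c hQ Z) Y
  have e1 : ∏ p ∈ pz y, (1 - (nuB (Qt (QF F) Z) p : ℝ) / p) = Vq (QF F) y := Vq_Qt _ c hQ Z y
  rw [e1] at h1
  have hcount : ((Ioc Z (Z + Y)).filter (Sf (QF F) y)).card =
      ((Icc 1 Y).filter (fun n : ℕ => ∀ p ∈ pz y, ¬ Qt (QF F) Z p n)).card := by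
    symm
    apply Finset.card_bij (fun n _ => n + Z)
    · intro n hn
      rw [mem_filter, mem_Icc] at hn
      rw [mem_filter, mem_Ioc]
      exact ⟨by omega, hn.2⟩
    · intro a _ b _ hab
      omega
    · intro n hn
      rw [mem_filter, mem_Ioc] at hn
      refine ⟨n - Z, ?_, by omega⟩
      rw [mem_filter, mem_Icc]
      refine ⟨by omega, ?_⟩
      intro p hp
      have := hn.2 p hp
      unfold Qt
      rwa [show n - Z + Z = n by omega]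
  rw [hcount]
  refine h1.trans ?_
  have h2 : √(Y : ℝ) ≤ ε / 2 * (Y * Vq (QF F) y) := by
    have h3 : √(Y : ℝ) * √(Y : ℝ) = Y := Real.mul_self_sqrt hYpos.le
    have h4 : 2 / ε ≤ √(Y : ℝ) * Vq (QF F) y := by
      have h5 : (2 / ε) ^ 2 ≤ (√(Y : ℝ) * Vq (QF F) y) ^ 2 := by
        rw [mul_pow, Real.sq_sqrt hYpos.le]
        exact hV2.trans (mul_le_mul_of_nonneg_right hXY (by positivity))
      exact (pow_le_pow_iff_left₀ (by positivity) (by positivity) (by norm_num)).1 h5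
    rw [div_le_iff₀ hε] at h4
    have h5 : (0 : ℝ) ≤ √(Y : ℝ) := Real.sqrt_nonneg _
    calc √(Y : ℝ) = 2 * (√(Y : ℝ) / 2) := by ring
      _ ≤ √(Y : ℝ) * Vq (QF F) y * ε * (√(Y : ℝ) / 2) :=
        mul_le_mul_of_nonneg_right h4 (by positivity)
      _ = ε / 2 * (√(Y : ℝ) * √(Y : ℝ) * Vq (QF F) y) := by ring
      _ = ε / 2 * (Y * Vq (QF F) y) := by rw [h3]
  linarith

open Classical in
/-- **The gap laws** for one system. -/
theorem gap_sys (F : Finset ℤ[X]) (hF : SysF F) (θ : ℝ) (hθ : 0 < θ) (k0 : ℕ) (x0 ε : ℝ)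
    (hε : 0 < ε) :
    ∃ r0 : ℕ, ∀ r : ℕ, r0 ≤ r → ∀ᶠ X : ℕ in atTop, ∀ Z Y : ℕ, (X : ℝ) ^ θ ≤ Y →
      ∀ k T : ℕ, (k ≤ k0 ∨ T * Vq (QF F) ⌊(X : ℝ) ^ (1 / (r : ℝ))⌋₊ ≤ x0) →
        |(Pk (Sf (QF F) ⌊(X : ℝ) ^ (1 / (r : ℝ))⌋₊) k T Z Y : ℝ) -
          Y * Vq (QF F) ⌊(X : ℝ) ^ (1 / (r : ℝ))⌋₊ *
            Ck k (T * Vq (QF F) ⌊(X : ℝ) ^ (1 / (r : ℝ))⌋₊)| ≤
          ε * (Y * Vq (QF F) ⌊(X : ℝ) ^ (1 / (r : ℝ))⌋₊) := by
  obtain ⟨x1, η, hx1, hη, hgap⟩ := gap_all k0 x0 ε hε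
  obtain ⟨r1, h1⟩ := poly_windows (ι := Unit) (fun _ => F) (fun _ => hF) θ hθ x1 η hx1.le hη
  obtain ⟨r2, h2⟩ := count_sys F hF θ hθ η hη
  refine ⟨r1 + r2 + 2, ?_⟩
  intro r hr
  filter_upwards [h1 r (by omega), h2 r (by omega),
    sizes F hF θ hθ (1 / η + x1 / η) (by positivity) r (by omega)] with X hX1 hX2 hX3
  intro Z Y hXY k T hkT
  obtain ⟨y, hy⟩ : ∃ y, y = ⌊(X : ℝ) ^ (1 / (r : ℝ))⌋₊ := ⟨_, rfl⟩
  rw [← hy] at hX1 hX2 hX3 hkT ⊢
  obtain ⟨hV0, hV1, hV2⟩ := hX3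
  have hq1 : 0 < 1 / η := by positivity
  have hq2 : 0 < x1 / η := by positivity
  refine hgap (Sf (QF F) y) Z Y (Vq (QF F) y) hV0 ?_ ?_ ?_ ?_ k T hkT
  · have h3 : 1 / η * Vq (QF F) y ≤ 1 := by
      refine le_trans ?_ hV1
      apply mul_le_mul_of_nonneg_right _ hV0.le
      linarith
    rw [div_mul_eq_mul_div, one_mul, div_le_one hη] at h3
    exact h3
  · intro T' hT' A
    have h3 := hX1 Z Y hXY (fun _ => 0) (fun _ => T') (fun i j hij => absurd (Subsingleton.elim i j) hij)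
      (fun _ => by rw [zero_add]; exact hT') (fun _ => A)
    simp only [add_zero, forall_const, univ_unique, prod_const, card_singleton, pow_one] at h3
    exact h3
  · have h3 := (abs_le.1 (hX2 Z Y hXY)).2
    linarith
  · have h3 : x1 / η ≤ Y * Vq (QF F) y ^ 2 := by
      calc x1 / η ≤ 1 / η + x1 / η := by linarith
        _ ≤ (X : ℝ) ^ θ * Vq (QF F) y ^ 2 := hV2
        _ ≤ Y * Vq (QF F) y ^ 2 := mul_le_mul_of_nonneg_right hXY (by positivity)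
    rw [div_le_iff₀ hη] at h3
    rw [div_le_iff₀ hV0]
    nlinarith

end Pool.Agent.Y175.JP
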