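import Pool.Agent.Y175.JP.SingA
import Pool.Agent.TH464.PO.Gen

set_option autoImplicit false

/-!
# Averages of sieve products relative to a base set of shifts

The base `H` is an arbitrary set of at most `k` shifts; the points of a window `(s, s+T]` outside `H`
are added. Author: helper175.
-/

namespace Pool.Agent.Y175.JP

open Finset Pool.Agent.H373R2.T7 Pool.Agent.W123.RP Pool.Agent.W123.RU Pool.Agent.TH464.PO

/-- the two types of points: the base and the points of the window -/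
def Qb (Q : ℕ → ℕ → Prop) (H : Finset ℕ) (s : ℕ) : Bool → ℕ → ℕ → Prop
  | false => QH Q H
  | true => Qt Q s

/-- the base point -/
def bp : Pt Bool := ⟨false, 0⟩

/-- the points of the window -/
def wp (h : ℕ) : Pt Bool := ⟨true, h⟩

lemma wp_inj : Function.Injective wp := by
  intro a b h
  unfold wp at h
  simpa using h

lemma bp_ne (h : ℕ) : bp ≠ wp h := by
  unfold bp wp
  intro h'
  simp at h'

open Classical in
/-- the configuration of the base and the points of `J` -/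
noncomputable def Gb (J : Finset ℕ) : Finset (Pt Bool) := insert bp (J.image wp)

open Classical in
lemma Gb_card (J : Finset ℕ) : (Gb J).card = J.card + 1 := by
  unfold Gb
  rw [card_insert_of_notMem, card_image_of_injective _ wp_inj]
  intro h
  obtain ⟨a, _, ha⟩ := mem_image.1 h
  exact bp_ne a ha.symm

open Classical in
/-- the positions of the window `(s, s+T]` which are not in `H` -/
noncomputable def Eb (H : Finset ℕ) (s T : ℕ) : Finset ℕ := (Icc 1 T).filter (fun h => s + h ∉ H)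

lemma Eb_sub (H : Finset ℕ) (s T : ℕ) : Eb H s T ⊆ Icc 1 T := by
  classical
  unfold Eb
  exact filter_subset _ _

open Classical in
lemma Eb_compl (H : Finset ℕ) (s T : ℕ) : (Icc 1 T \ Eb H s T).card ≤ H.card := by
  apply Finset.card_le_card_of_injOn (fun h => s + h)
  · intro h hh
    rw [Finset.mem_coe, mem_sdiff] at hh
    unfold Eb at hh
    rw [mem_filter] at hh
    rw [Finset.mem_coe]
    by_contra hn
    exact hh.2 ⟨hh.1, hn⟩
  · intro a _ b _ hab
    simp only at hab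
    omega

lemma perB_Qb (Q : ℕ → ℕ → Prop) (c : ℕ) (hQ : PerB Q c) (k : ℕ) (H : Finset ℕ) (hH : H.card ≤ k)
    (s : ℕ) : ∀ i, PerB (Qb Q H s i) ((k + 1) * c) := by
  intro i
  cases i
  · have h1 := perB_QH Q c hQ H
    refine ⟨h1.per, fun p hp => (h1.few p hp).trans ?_⟩
    exact Nat.mul_le_mul_right c (by omega)
  · have h1 := perB_Qt Q c hQ s
    refine ⟨h1.per, fun p hp => (h1.few p hp).trans ?_⟩
    nlinarith

open Classical in
lemma QU_Gb (Q : ℕ → ℕ → Prop) (H J : Finset ℕ) (s : ℕ) :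
    QU (Qb Q H s) (Gb J) = QH Q (H ∪ J.image (fun h => s + h)) := by
  funext p m
  apply propext
  unfold QU QH Gb
  constructor
  · rintro ⟨x, hx, hq⟩
    rw [mem_insert] at hx
    rcases hx with rfl | hx
    · obtain ⟨h, hh, hq⟩ : ∃ h ∈ H, Q p (m + 0 + h) := hq
      exact ⟨h, mem_union_left _ hh, by simpa using hq⟩
    · obtain ⟨h, hh, rfl⟩ := mem_image.1 hx
      have hq' : Q p (m + h + s) := hq
      refine ⟨s + h, mem_union_right _ (mem_image_of_mem _ hh), ?_⟩
      rw [show m + (s + h) = m + h + s by ring]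
      exact hq'
  · rintro ⟨h, hh, hq⟩
    rw [mem_union] at hh
    rcases hh with hh | hh
    · refine ⟨bp, mem_insert_self _ _, ?_⟩
      change ∃ h ∈ H, Q p (m + 0 + h)
      exact ⟨h, hh, by simpa using hq⟩
    · obtain ⟨a, ha, rfl⟩ := mem_image.1 hh
      refine ⟨wp a, mem_insert_of_mem (mem_image_of_mem _ ha), ?_⟩
      change Q p (m + a + s)
      rw [show m + a + s = m + (s + a) by ring]
      exact hq

open Classical in
lemma sf_Gb (Q : ℕ → ℕ → Prop) (H J : Finset ℕ) (s y m : ℕ) :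
    Sf (QU (Qb Q H s) (Gb J)) y m ↔ Sf (QH Q H) y m ∧ ∀ h ∈ J, Sf (Qt Q s) y (m + h) := by
  rw [sf_QU]
  unfold Gb
  constructor
  · intro h
    refine ⟨?_, fun a ha => ?_⟩
    · have := h bp (mem_insert_self _ _)
      exact this
    · exact h (wp a) (mem_insert_of_mem (mem_image_of_mem _ ha))
  · rintro ⟨h1, h2⟩ x hx
    rw [mem_insert] at hx
    rcases hx with rfl | hx
    · exact h1
    · obtain ⟨a, ha, rfl⟩ := mem_image.1 hx
      exact h2 a ha

open Classical in
lemma prod_Gb (f : Bool → ℝ) (J : Finset ℕ) :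
    ∏ x ∈ Gb J, f x.1 = f false * f true ^ J.card := by
  unfold Gb
  rw [Finset.prod_insert, Finset.prod_image (fun a _ b _ h => wp_inj h)]
  · congr 1
    change ∏ _x ∈ J, f true = _
    rw [Finset.prod_const]
  · intro h
    obtain ⟨a, _, ha⟩ := mem_image.1 h
    exact bp_ne a ha.symm

/-! ### Small primes -/

open Classical in
lemma base_moment (Q : ℕ → ℕ → Prop) (H : Finset ℕ) (s T w j : ℕ) (Om : Finset ℕ) :
    ∑ J ∈ powersetCard j (Eb H s T),
      ((Om.filter (fun m => Sf (QU (Qb Q H s) (Gb J)) w m)).card : ℝ) =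
      ∑ m ∈ Om.filter (fun m => Sf (QH Q H) w m),
        ((((Eb H s T).filter (fun h => Sf (Qt Q s) w (m + h))).card.choose j : ℕ) : ℝ) := by
  have h1 : ∀ J ∈ powersetCard j (Eb H s T),
      ((Om.filter (fun m => Sf (QU (Qb Q H s) (Gb J)) w m)).card : ℝ) =
      ∑ m ∈ Om.filter (fun m => Sf (QH Q H) w m),
        if (∀ h ∈ J, Sf (Qt Q s) w (m + h)) then (1 : ℝ) else 0 := by
    intro J _
    rw [← Finset.sum_filter, Finset.filter_filter, Finset.sum_const, nsmul_eq_mul, mul_one]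
    congr 2
    apply Finset.filter_congr
    intro m _
    exact sf_Gb Q H J s w m
  rw [Finset.sum_congr rfl h1, Finset.sum_comm]
  apply Finset.sum_congr rfl
  intro m _
  rw [← Finset.sum_filter, Finset.sum_const, nsmul_eq_mul, mul_one, ← Finset.card_powersetCard]
  congr 2
  ext J
  rw [mem_filter, mem_powersetCard, mem_powersetCard]
  constructor
  · rintro ⟨⟨a1, a2⟩, a3⟩
    exact ⟨fun h hh => mem_filter.2 ⟨a1 hh, a3 h hh⟩, a2⟩
  · rintro ⟨a1, a2⟩
    exact ⟨⟨fun h hh => (mem_filter.1 (a1 hh)).1, a2⟩, fun h hh => (mem_filter.1 (a1 hh)).2⟩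

open Classical in
/-- binomial coefficients of the number of sifted integers in a window with few holes -/
lemma hole_choose (j k w : ℕ) (η : ℝ) (hη : 0 < η) : ∃ T0 : ℕ, ∀ T : ℕ, T0 ≤ T →
    ∀ (Q : ℕ → ℕ → Prop) (c : ℕ), PerB Q c → (∀ p : ℕ, p.Prime → nuB Q p < p) →
    ∀ E : Finset ℕ, E ⊆ Icc 1 T → (Icc 1 T \ E).card ≤ k → ∀ m : ℕ,
    (1 - η) * ((T * Vq Q w) ^ j / j.factorial) ≤
      (((E.filter (fun h => Sf Q w (m + h))).card.choose j : ℕ) : ℝ) ∧
    (((E.filter (fun h => Sf Q w (m + h))).card.choose j : ℕ) : ℝ) ≤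
      (1 + η) * ((T * Vq Q w) ^ j / j.factorial) := by
  obtain ⟨M, hM⟩ : ∃ M, M = Mw w := ⟨_, rfl⟩
  have hMpos : 0 < M := by rw [hM]; exact Mw_pos w
  have hMr : (0 : ℝ) < M := by exact_mod_cast hMpos
  obtain ⟨δ, hδ⟩ : ∃ δ : ℝ, δ = min 1 (η / (2 ^ j + j)) := ⟨_, rfl⟩
  have hδ0 : 0 < δ := by rw [hδ]; positivity
  have hδ1 : δ ≤ 1 := by rw [hδ]; exact min_le_left _ _
  have hδη : δ * (2 ^ j + j) ≤ η := by
    have : δ ≤ η / (2 ^ j + j) := by rw [hδ]; exact min_le_right _ _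
    rwa [le_div_iff₀ (by positivity)] at this
  obtain ⟨T0, hT0⟩ : ∃ T0 : ℕ, (M : ℝ) * (M + k + j) / δ ≤ T0 := exists_nat_ge _
  refine ⟨T0, ?_⟩
  intro T hT Q c hQ hadm E hE hEk m
  have hTr : (M : ℝ) * (M + k + j) / δ ≤ T := hT0.trans (by exact_mod_cast hT)
  have hW := Vq_pos Q hadm w
  have hex := exact Q c hQ w
  rw [← hM] at hex
  have hMW : 1 ≤ (M : ℝ) * Vq Q w := by
    rw [← hex]
    have h1 : (0 : ℝ) < (((range M).filter (fun m => Sf Q w m)).card : ℝ) := by
      rw [hex]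
      positivity
    have h2 : 0 < ((range M).filter (fun m => Sf Q w m)).card := by exact_mod_cast h1
    exact_mod_cast h2
  obtain ⟨x, hx⟩ : ∃ x : ℝ, x = T * Vq Q w := ⟨_, rfl⟩
  rw [← hx]
  have hk0 : (0 : ℝ) ≤ k := Nat.cast_nonneg k
  have hj0 : (0 : ℝ) ≤ j := Nat.cast_nonneg j
  have hxM : (M : ℝ) + k + j ≤ δ * x := by
    rw [hx]
    rw [div_le_iff₀ hδ0] at hTr
    have h1 : (M : ℝ) * (M + k + j) ≤ M * (δ * (T * Vq Q w)) := by
      calc (M : ℝ) * (M + k + j) ≤ T * δ := hTr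
        _ = T * δ * 1 := (mul_one _).symm
        _ ≤ T * δ * (M * Vq Q w) := by gcongr
        _ = _ := by ring
    exact le_of_mul_le_mul_left h1 hMr
  have hx0 : 0 < x := by
    by_contra hcon
    rw [not_lt] at hcon
    have : δ * x ≤ 0 := mul_nonpos_of_nonneg_of_nonpos hδ0.le hcon
    linarith
  have hxx : (M : ℝ) + k + j ≤ x := by nlinarith
  have hjf : (0 : ℝ) < j.factorial := by exact_mod_cast Nat.factorial_pos j
  have hwin := window Q c hQ w m T
  rw [← hM, ← hx] at hwin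
  have hc1 : (E.filter (fun h => Sf Q w (m + h))).card ≤
      ((Icc 1 T).filter (fun h => Sf Q w (m + h))).card :=
    card_le_card (Finset.filter_subset_filter _ hE)
  have hc2 : ((Icc 1 T).filter (fun h => Sf Q w (m + h))).card ≤
      (E.filter (fun h => Sf Q w (m + h))).card + k := by
    have h1 : (Icc 1 T).filter (fun h => Sf Q w (m + h)) ⊆
        E.filter (fun h => Sf Q w (m + h)) ∪ (Icc 1 T \ E) := by
      intro h hh
      rw [mem_filter] at hh
      rw [mem_union, mem_filter, mem_sdiff]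
      by_cases hE' : h ∈ E
      · exact Or.inl ⟨hE', hh.2⟩
      · exact Or.inr ⟨hh.1, hE'⟩
    have h2 := (card_le_card h1).trans (card_union_le _ _)
    omega
  have hc1r : ((E.filter (fun h => Sf Q w (m + h))).card : ℝ) ≤
      (((Icc 1 T).filter (fun h => Sf Q w (m + h))).card : ℝ) := by exact_mod_cast hc1
  have hc2r : (((Icc 1 T).filter (fun h => Sf Q w (m + h))).card : ℝ) ≤
      ((E.filter (fun h => Sf Q w (m + h))).card : ℝ) + k := by exact_mod_cast hc2
  obtain ⟨hlo', hup'⟩ : (x - (M + k) - j) ^ j / j.factorial ≤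
      (((E.filter (fun h => Sf Q w (m + h))).card.choose j : ℕ) : ℝ) ∧
      (((E.filter (fun h => Sf Q w (m + h))).card.choose j : ℕ) : ℝ) ≤
        (x + (M + k)) ^ j / j.factorial := by
    apply choose_bounds
    · obtain ⟨h1, h2⟩ := abs_le.1 hwin
      rw [abs_le]
      constructor <;> linarith
    · exact hxx
  have hMδ : ((M : ℝ) + k) / x ≤ δ := by
    rw [div_le_iff₀ hx0]
    linarith
  have hMkδ : ((M : ℝ) + k + j) / x ≤ δ := by
    rw [div_le_iff₀ hx0]
    linarith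
  constructor
  · refine le_trans ?_ hlo'
    rw [← mul_div_assoc]
    apply div_le_div_of_nonneg_right _ hjf.le
    have h1 : x - (M + k) - j = x * (1 + -(((M : ℝ) + k + j) / x)) := by
      field_simp
      ring
    rw [h1, mul_pow, mul_comm (1 - η)]
    apply mul_le_mul_of_nonneg_left _ (by positivity)
    have h2 := one_add_mul_le_pow (a := -(((M : ℝ) + k + j) / x)) (by linarith) j
    refine le_trans ?_ h2
    have h3 : (j : ℝ) * (((M : ℝ) + k + j) / x) ≤ j * δ := by gcongr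
    have h4 : (0 : ℝ) < 2 ^ j := by positivity
    have h5 : j * δ ≤ δ * (2 ^ j + j) := by nlinarith
    linarith
  · refine le_trans hup' ?_
    rw [← mul_div_assoc]
    apply div_le_div_of_nonneg_right _ hjf.le
    have h1 : x + (M + k) = x * (1 + ((M : ℝ) + k) / x) := by
      field_simp
    rw [h1, mul_pow, mul_comm (1 + η)]
    apply mul_le_mul_of_nonneg_left _ (by positivity)
    have h2 := one_add_pow_le j (((M : ℝ) + k) / x) (by positivity) (by linarith)
    refine h2.trans ?_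
    have h6 : (1 : ℝ) ≤ 2 ^ j := one_le_pow₀ (by norm_num)
    have h3 : (2 ^ j - 1) * (((M : ℝ) + k) / x) ≤ (2 ^ j - 1) * δ :=
      mul_le_mul_of_nonneg_left hMδ (by linarith)
    have h5 : (2 ^ j - 1) * δ ≤ δ * (2 ^ j + j) := by nlinarith
    linarith

open Classical in
/-- **The small primes, with a base.** -/
theorem small_base (j k w : ℕ) (η : ℝ) (hη : 0 < η) : ∃ T0 : ℕ, ∀ T : ℕ, T0 ≤ T →
    ∀ (Q : ℕ → ℕ → Prop) (c : ℕ), PerB Q c → (∀ p : ℕ, p.Prime → nuB Q p < p) →
    ∀ (H : Finset ℕ) (s : ℕ), H.card ≤ k →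
    (1 - η) * (Vq (QH Q H) w * ((T * Vq Q w) ^ j / j.factorial)) ≤
      ∑ J ∈ powersetCard j (Eb H s T), Vq (QU (Qb Q H s) (Gb J)) w ∧
    ∑ J ∈ powersetCard j (Eb H s T), Vq (QU (Qb Q H s) (Gb J)) w ≤
      (1 + η) * (Vq (QH Q H) w * ((T * Vq Q w) ^ j / j.factorial)) := by
  obtain ⟨T0, hT0⟩ := hole_choose j k w η hη
  refine ⟨T0, ?_⟩
  intro T hT Q c hQ hadm H s hHk
  obtain ⟨M, hM⟩ : ∃ M, M = Mw w := ⟨_, rfl⟩
  have hMpos : 0 < M := by rw [hM]; exact Mw_pos w
  have hMr : (0 : ℝ) < M := by exact_mod_cast hMpos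
  have hQb := perB_Qb Q c hQ k H hHk s
  have hadm' : ∀ p : ℕ, p.Prime → nuB (Qt Q s) p < p := fun p hp => by
    rw [nuB_Qt Q c hQ]; exact hadm p hp
  have h0 := base_moment Q H s T w j (range M)
  have h1 : ∀ J ∈ powersetCard j (Eb H s T),
      (((range M).filter (fun m => Sf (QU (Qb Q H s) (Gb J)) w m)).card : ℝ) =
      M * Vq (QU (Qb Q H s) (Gb J)) w := by
    intro J _
    rw [hM]
    exact exact _ _ (perB_QU (Qb Q H s) _ hQb (Gb J)) w
  rw [Finset.sum_congr rfl h1, ← Finset.mul_sum] at h0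
  have h2 : (((range M).filter (fun m => Sf (QH Q H) w m)).card : ℝ) = M * Vq (QH Q H) w := by
    rw [hM]
    exact exact _ _ (perB_QH Q c hQ H) w
  have h3 := fun m : ℕ => hT0 T hT (Qt Q s) c (perB_Qt Q c hQ s) hadm' (Eb H s T) (Eb_sub H s T)
    ((Eb_compl H s T).trans hHk) m
  rw [Vq_Qt Q c hQ] at h3
  obtain ⟨X, hX⟩ : ∃ X : ℝ, X = (T * Vq Q w) ^ j / j.factorial := ⟨_, rfl⟩
  rw [← hX] at h3 ⊢
  constructor
  · have h4 := Finset.card_nsmul_le_sum ((range M).filter (fun m => Sf (QH Q H) w m)) _ _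
      (fun m _ => (h3 m).1)
    rw [← h0, nsmul_eq_mul, h2] at h4
    have h5 : (M : ℝ) * ((1 - η) * (Vq (QH Q H) w * X)) ≤
        M * ∑ J ∈ powersetCard j (Eb H s T), Vq (QU (Qb Q H s) (Gb J)) w := by
      calc (M : ℝ) * ((1 - η) * (Vq (QH Q H) w * X)) = M * Vq (QH Q H) w * ((1 - η) * X) := by ring
        _ ≤ _ := h4
    exact le_of_mul_le_mul_left h5 hMr
  · have h4 := Finset.sum_le_card_nsmul ((range M).filter (fun m => Sf (QH Q H) w m)) _ _
      (fun m _ => (h3 m).2)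
    rw [← h0, nsmul_eq_mul, h2] at h4
    have h5 : (M : ℝ) * ∑ J ∈ powersetCard j (Eb H s T), Vq (QU (Qb Q H s) (Gb J)) w ≤
        M * ((1 + η) * (Vq (QH Q H) w * X)) := by
      calc _ ≤ M * Vq (QH Q H) w * ((1 + η) * X) := h4
        _ = _ := by ring
    exact le_of_mul_le_mul_left h5 hMr

end Pool.Agent.Y175.JP
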