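import Pool.Agent.Y175.JP.UniA

set_option autoImplicit false

/-!
# The average of the sieve products relative to a base

Author: helper175.
-/

namespace Pool.Agent.Y175.JP

open Finset Pool.Agent.H373R2.T7 Pool.Agent.W123.RP Pool.Agent.W123.RU Pool.Agent.TH464.PO

lemma Cox_comm {ι : Type} (Q : ι → ℕ → ℕ → Prop) (p : ℕ) (x y : Pt ι) : Cox Q p x y ↔ Cox Q p y x := by
  unfold Cox
  exact exists_congr fun m => and_comm

lemma sum_union_le' {α : Type} [DecidableEq α] (A B : Finset α) (f : α → ℝ) (hf : ∀ x, 0 ≤ f x) :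
    ∑ x ∈ A ∪ B, f x ≤ ∑ x ∈ A, f x + ∑ x ∈ B, f x := by
  rw [← Finset.sum_union_inter]
  have : 0 ≤ ∑ x ∈ A ∩ B, f x := Finset.sum_nonneg fun x _ => hf x
  linarith

open Classical in
/-- the pairs of points of a configuration -/
lemma offDiag_Gb (J : Finset ℕ) (g : Pt Bool → Pt Bool → ℝ) (hg : ∀ x z, 0 ≤ g x z)
    (hs : ∀ x z, g x z = g z x) :
    ∑ z ∈ (Gb J).offDiag, g z.1 z.2 ≤ 2 * ∑ h ∈ J, g bp (wp h) +
      ∑ a ∈ J, ∑ b ∈ J.filter (fun b => a ≠ b), g (wp a) (wp b) := by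
  have hnot : bp ∉ J.image wp := by
    intro h
    obtain ⟨a, _, ha⟩ := mem_image.1 h
    exact bp_ne a ha.symm
  unfold Gb
  rw [Finset.offDiag_insert hnot]
  refine (sum_union_le' _ _ (fun z : Pt Bool × Pt Bool => g z.1 z.2) (fun z => hg z.1 z.2)).trans ?_
  have h1 := sum_union_le' ((J.image wp).offDiag) ({bp} ×ˢ J.image wp) (fun z => g z.1 z.2)
    (fun z => hg z.1 z.2)
  have h2 : ∑ z ∈ {bp} ×ˢ J.image wp, g z.1 z.2 = ∑ h ∈ J, g bp (wp h) := by
    rw [Finset.sum_product, Finset.sum_singleton, Finset.sum_image (fun a _ b _ h => wp_inj h)]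
  have h3 : ∑ z ∈ J.image wp ×ˢ {bp}, g z.1 z.2 = ∑ h ∈ J, g bp (wp h) := by
    rw [Finset.sum_product, Finset.sum_image (fun a _ b _ h => wp_inj h)]
    apply Finset.sum_congr rfl
    intro a _
    rw [Finset.sum_singleton]
    exact hs _ _
  have h4 : ∑ z ∈ (J.image wp).offDiag, g z.1 z.2 =
      ∑ a ∈ J, ∑ b ∈ J.filter (fun b => a ≠ b), g (wp a) (wp b) := by
    have e0 : (J.image wp).offDiag = ((J.image wp) ×ˢ (J.image wp)).filter (fun z => z.1 ≠ z.2) := by
      ext z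
      rw [mem_offDiag, mem_filter, mem_product, and_assoc]
    rw [e0, Finset.sum_filter, Finset.sum_product, Finset.sum_image (fun a _ b _ h => wp_inj h)]
    apply Finset.sum_congr rfl
    intro a _
    rw [Finset.sum_image (fun a _ b _ h => wp_inj h), Finset.sum_filter]
    apply Finset.sum_congr rfl
    intro b _
    by_cases hab : a = b
    · rw [if_neg (by simp [hab]), if_neg (by simp [hab])]
    · rw [if_pos (fun h => hab (wp_inj h)), if_pos hab]
  linarith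

open Classical in
lemma dc1 (j T : ℕ) (hT : 0 < T) (E : Finset ℕ) (hE : E ⊆ Icc 1 T) (a : ℕ → ℝ) (ha : ∀ h, 0 ≤ a h) :
    ∑ J ∈ powersetCard j E, ∑ h ∈ J, a h ≤ (T : ℝ) ^ j / T * ∑ h ∈ E, a h := by
  have hTr : (0 : ℝ) < T := by exact_mod_cast hT
  have h1 : ∀ J ∈ powersetCard j E, ∑ h ∈ J, a h = ∑ h ∈ E, if h ∈ J then a h else 0 := by
    intro J hJ
    rw [mem_powersetCard] at hJ
    rw [← Finset.sum_filter]
    apply Finset.sum_congr _ (fun _ _ => rfl)
    ext h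
    rw [mem_filter]
    exact ⟨fun h' => ⟨hJ.1 h', h'⟩, fun h' => h'.2⟩
  rw [Finset.sum_congr rfl h1, Finset.sum_comm, Finset.mul_sum]
  apply Finset.sum_le_sum
  intro h _
  rw [← Finset.sum_filter, Finset.sum_const, nsmul_eq_mul]
  apply mul_le_mul_of_nonneg_right _ (ha h)
  have h2 : ((powersetCard j E).filter (fun J => h ∈ J)).card ≤
      ((powersetCard j (Icc 1 T)).filter (fun J => h ∈ J)).card :=
    card_le_card (Finset.filter_subset_filter _ (powersetCard_mono hE))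
  have h2r : (((powersetCard j E).filter (fun J => h ∈ J)).card : ℝ) ≤
      (((powersetCard j (Icc 1 T)).filter (fun J => h ∈ J)).card : ℝ) := by exact_mod_cast h2
  have h3 := one_mem j T h
  rw [le_div_iff₀ hTr]
  nlinarith

open Classical in
lemma dc2 (j T : ℕ) (hT : 0 < T) (E : Finset ℕ) (hE : E ⊆ Icc 1 T) (b : ℕ → ℕ → ℝ)
    (hb : ∀ h h', 0 ≤ b h h') :
    ∑ J ∈ powersetCard j E, ∑ h ∈ J, ∑ h' ∈ J.filter (fun h' => h ≠ h'), b h h' ≤
      (T : ℝ) ^ j / (T * T) * ∑ h ∈ E, ∑ h' ∈ E.filter (fun h' => h ≠ h'), b h h' := by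
  have hTr : (0 : ℝ) < T := by exact_mod_cast hT
  have h1 : ∀ J ∈ powersetCard j E, ∑ h ∈ J, ∑ h' ∈ J.filter (fun h' => h ≠ h'), b h h' =
      ∑ h ∈ E, ∑ h' ∈ E.filter (fun h' => h ≠ h'), if (h ∈ J ∧ h' ∈ J) then b h h' else 0 := by
    intro J hJ
    rw [mem_powersetCard] at hJ
    have e1 : ∑ h ∈ J, ∑ h' ∈ J.filter (fun h' => h ≠ h'), b h h' =
        ∑ h ∈ E, if h ∈ J then ∑ h' ∈ J.filter (fun h' => h ≠ h'), b h h' else 0 := by
      rw [← Finset.sum_filter]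
      apply Finset.sum_congr _ (fun _ _ => rfl)
      ext h
      rw [mem_filter]
      exact ⟨fun h' => ⟨hJ.1 h', h'⟩, fun h' => h'.2⟩
    rw [e1]
    apply Finset.sum_congr rfl
    intro h _
    by_cases hh : h ∈ J
    · rw [if_pos hh, ← Finset.sum_filter]
      apply Finset.sum_congr _ (fun _ _ => rfl)
      ext h'
      rw [mem_filter, mem_filter, mem_filter]
      constructor
      · rintro ⟨a1, a2⟩
        exact ⟨⟨hJ.1 a1, a2⟩, hh, a1⟩
      · rintro ⟨⟨_, a2⟩, _, a4⟩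
        exact ⟨a4, a2⟩
    · rw [if_neg hh]
      symm
      apply Finset.sum_eq_zero
      intro h' _
      rw [if_neg (fun h'' => hh h''.1)]
  rw [Finset.sum_congr rfl h1, Finset.sum_comm, Finset.mul_sum]
  apply Finset.sum_le_sum
  intro h _
  rw [Finset.sum_comm, Finset.mul_sum]
  apply Finset.sum_le_sum
  intro h' hh'
  rw [mem_filter] at hh'
  rw [← Finset.sum_filter, Finset.sum_const, nsmul_eq_mul]
  apply mul_le_mul_of_nonneg_right _ (hb h h')
  have h2 : ((powersetCard j E).filter (fun J => h ∈ J ∧ h' ∈ J)).card ≤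
      ((powersetCard j (Icc 1 T)).filter (fun J => h ∈ J ∧ h' ∈ J)).card :=
    card_le_card (Finset.filter_subset_filter _ (powersetCard_mono hE))
  have h2r : (((powersetCard j E).filter (fun J => h ∈ J ∧ h' ∈ J)).card : ℝ) ≤
      (((powersetCard j (Icc 1 T)).filter (fun J => h ∈ J ∧ h' ∈ J)).card : ℝ) := by
    exact_mod_cast h2
  have h3 := two_mem j T h h' hh'.2
  rw [le_div_iff₀ (by positivity)]
  have hTT : (0 : ℝ) < (T : ℝ) * T := by positivity
  nlinarith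

open Classical in
/-- few large primes are collisions -/
structure LB (Q : ℕ → ℕ → Prop) (H : Finset ℕ) (s T y : ℕ) (η' : ℝ) : Prop where
  base : ∀ h ∈ Eb H s T,
    ((((pz y).filter (fun p : ℕ => T < p ∧ Cox (Qb Q H s) p bp (wp h))).card : ℕ) : ℝ) ≤ η' * T
  pair : ∀ h ∈ Eb H s T, ∀ h' ∈ Eb H s T, h' ≠ h →
    ((((pz y).filter (fun p : ℕ => T < p ∧ Cox (Qb Q H s) p (wp h') (wp h))).card : ℕ) : ℝ) ≤ η' * T

open Classical in
/-- **The average relative to a base.** -/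
theorem base_avg (c k j : ℕ) (η : ℝ) (hη : 0 < η) (hη1 : η ≤ 1) :
    ∃ (w : ℕ) (η' : ℝ) (T0 : ℕ), 0 < η' ∧ 2 ≤ T0 ∧ ∀ T : ℕ, T0 ≤ T →
      ∀ Q : ℕ → ℕ → Prop, PerB Q c → (∀ p : ℕ, p.Prime → nuB Q p < p) → ∀ y : ℕ, w ≤ y →
      ∀ (H : Finset ℕ) (s : ℕ), H.card ≤ k → LB Q H s T y η' →
      (1 - η) * (Vq (QH Q H) y * ((T * Vq Q y) ^ j / j.factorial)) ≤
        ∑ J ∈ powersetCard j (Eb H s T), Vq (QU (Qb Q H s) (Gb J)) y ∧
      ∑ J ∈ powersetCard j (Eb H s T), Vq (QU (Qb Q H s) (Gb J)) y ≤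
        (1 + η) * (Vq (QH Q H) y * ((T * Vq Q y) ^ j / j.factorial)) := by
  obtain ⟨c', hc'⟩ : ∃ c', c' = (k + 1) * c := ⟨_, rfl⟩
  obtain ⟨c1, B1, w1, hc1, hw12, hW⟩ := W_low c
  obtain ⟨K1, hK1⟩ : ∃ K1 : ℕ, K1 = (1 + 2 * ((j + 1) * c')) ^ ((j + 1) ^ 2) - 1 := ⟨_, rfl⟩
  obtain ⟨A, hA⟩ : ∃ A : ℕ, A = 39 * (K1 * c' ^ 2 + 1) * j.factorial + ((j + 1) * c') ^ 2 :=
    ⟨_, rfl⟩
  obtain ⟨w, hw0, hw2, hAw, hAw'⟩ := exists_w A B1 j c1 (η / 4) hc1 (by positivity)
    (max w1 (2 * ((j + 1) * c')))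
  have hww1 : w1 ≤ w := (le_max_left _ _).trans hw0
  have hwc : 2 * ((j + 1) * c') ≤ w := (le_max_right _ _).trans hw0
  have hwr : (0 : ℝ) < w := by exact_mod_cast (by omega : 0 < w)
  obtain ⟨η1, hη1def⟩ : ∃ η1 : ℝ, η1 = ((K1 * c' ^ 2 + 1 : ℕ) : ℝ) / w := ⟨_, rfl⟩
  have hη10 : 0 < η1 := by rw [hη1def]; positivity
  have hfac1 : 1 ≤ j.factorial := Nat.factorial_pos j
  have hfacr : (1 : ℝ) ≤ j.factorial := by exact_mod_cast hfac1
  have hAge : 39 * η1 * j.factorial ≤ (A : ℝ) / w := by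
    rw [hη1def, le_div_iff₀ hwr]
    have h1 : ((39 * (K1 * c' ^ 2 + 1) * j.factorial : ℕ) : ℝ) ≤ A := by
      exact_mod_cast (by omega : 39 * (K1 * c' ^ 2 + 1) * j.factorial ≤ A)
    refine le_trans (le_of_eq ?_) h1
    push_cast
    field_simp
  have hη1le : η1 ≤ 1 := by
    have h1 : η1 ≤ (A : ℝ) / w := by
      refine le_trans ?_ hAge
      nlinarith
    linarith
  have hAge2 : ((((j + 1) * c' : ℕ) : ℝ)) ^ 2 / w ≤ η / 4 := by
    refine le_trans ?_ hAw'
    apply div_le_div_of_nonneg_right _ hwr.le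
    exact_mod_cast (by omega : ((j + 1) * c') ^ 2 ≤ A)
  obtain ⟨T1, hT1, havg⟩ := sum_pt (ι := Bool) K1 c' w (by omega) η1 hη10 hη1le (k + 1) (by
    rw [hη1def]
    apply div_le_div_of_nonneg_right _ hwr.le
    push_cast
    linarith)
  obtain ⟨T2, hsmall⟩ := small_base j k w (η / 4) (by positivity)
  have hK1r : (0 : ℝ) ≤ K1 := Nat.cast_nonneg K1
  refine ⟨w, η1 / (K1 + 1), max T1 T2, by positivity, hT1.trans (le_max_left _ _), ?_⟩
  intro T hT Q hQ hadm y hwy H s hHk hLB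
  have hT1' : T1 ≤ T := (le_max_left _ _).trans hT
  have hT2' : T2 ≤ T := (le_max_right _ _).trans hT
  have hTpos : 0 < T := by omega
  have hTr : (0 : ℝ) < T := by exact_mod_cast hTpos
  obtain ⟨s1, s2⟩ := hsmall T hT2' Q c hQ hadm H s hHk
  have hQb := perB_Qb Q c hQ k H hHk s
  rw [← hc'] at hQb
  obtain ⟨E, hE⟩ : ∃ E, E = Eb H s T := ⟨_, rfl⟩
  have hEsub : E ⊆ Icc 1 T := by rw [hE]; exact Eb_sub H s T
  have hEk : (Icc 1 T \ E).card ≤ k := by rw [hE]; exact (Eb_compl H s T).trans hHk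
  rw [← hE] at s1 s2 ⊢
  obtain ⟨V, hV⟩ : ∃ V : ℝ, V = Vt (QH Q H) w y * Vt Q w y ^ j := ⟨_, rfl⟩
  have hV0 : 0 ≤ V := by
    rw [hV]
    exact mul_nonneg (Vt_nonneg _ w y) (pow_nonneg (Vt_nonneg Q w y) _)
  obtain ⟨Xw, hXw⟩ : ∃ Xw : ℝ, Xw = Vq (QH Q H) w * ((T * Vq Q w) ^ j / (j.factorial : ℝ)) :=
    ⟨_, rfl⟩
  have hXw0 : 0 ≤ Xw := by
    rw [hXw]
    have := Vq_nonneg Q w
    have := Vq_nonneg (QH Q H) w
    positivity
  have e1 : Vq (QH Q H) y * ((T * Vq Q y) ^ j / (j.factorial : ℝ)) = V * Xw := by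
    rw [hV, hXw, Vq_split (QH Q H) w y hwy, Vq_split Q w y hwy, ← mul_assoc (T : ℝ), mul_pow]
    ring
  rw [e1]
  rw [← hXw] at s1 s2
  have hcard : ∀ J ∈ powersetCard j E, (Gb J).card = j + 1 := fun J hJ => by
    rw [Gb_card, (mem_powersetCard.1 hJ).2]
  have hVt : ∀ i : Bool, Vt (Qb Q H s i) w y = if i then Vt Q w y else Vt (QH Q H) w y := by
    intro i
    cases i
    · rfl
    · change Vt (Qt Q s) w y = Vt Q w y
      unfold Vt
      exact Finset.prod_congr rfl fun p _ => by rw [nuB_Qt Q c hQ]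
  have hprod : ∀ J ∈ powersetCard j E, ∏ x ∈ Gb J, Vt (Qb Q H s x.1) w y = V := fun J hJ => by
    rw [prod_Gb (fun i => Vt (Qb Q H s i) w y) J, hVt false, hVt true, (mem_powersetCard.1 hJ).2, hV]
    simp
  constructor
  · -- lower bound
    have h1 : ∀ J ∈ powersetCard j E, V * (1 - η / 4) * Vq (QU (Qb Q H s) (Gb J)) w ≤
        Vq (QU (Qb Q H s) (Gb J)) y := by
      intro J hJ
      rw [Vq_split (QU (Qb Q H s) (Gb J)) w y hwy]
      have h2 := tail_loJ (Qb Q H s) c' hQb (Gb J) w y (by omega) (by rw [hcard J hJ]; exact hwc)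
      rw [hcard J hJ, hprod J hJ] at h2
      have h3 : V * (1 - η / 4) ≤ Vt (QU (Qb Q H s) (Gb J)) w y := by
        refine le_trans ?_ h2
        apply mul_le_mul_of_nonneg_left _ hV0
        linarith
      calc V * (1 - η / 4) * Vq (QU (Qb Q H s) (Gb J)) w ≤
            Vt (QU (Qb Q H s) (Gb J)) w y * Vq (QU (Qb Q H s) (Gb J)) w :=
            mul_le_mul_of_nonneg_right h3 (Vq_nonneg _ w)
        _ = _ := mul_comm _ _
    have h2 := Finset.sum_le_sum h1
    rw [← Finset.mul_sum] at h2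
    refine le_trans ?_ h2
    calc (1 - η) * (V * Xw) ≤ V * (1 - η / 4) * ((1 - η / 4) * Xw) := by
          have h3 : 1 - η ≤ (1 - η / 4) * (1 - η / 4) := by nlinarith
          have h4 := mul_le_mul_of_nonneg_right h3 (mul_nonneg hV0 hXw0)
          calc (1 - η) * (V * Xw) ≤ _ := h4
            _ = _ := by ring
      _ ≤ _ := mul_le_mul_of_nonneg_left s1 (mul_nonneg hV0 (by linarith))
  · -- upper bound
    obtain ⟨g, hg⟩ : ∃ g : Pt Bool → Pt Bool → ℝ, g = fun x z =>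
        Fc K1 w y (fun p => Cox (Qb Q H s) p x z) - 1 := ⟨_, rfl⟩
    have hg0 : ∀ x z, 0 ≤ g x z := by
      intro x z
      rw [hg]
      have := Fc_ge K1 w y (fun p => Cox (Qb Q H s) p x z)
      linarith
    have hgs : ∀ x z, g x z = g z x := by
      intro x z
      rw [hg]
      simp only [Cox_comm (Qb Q H s) _ x z]
    have hbase0 := Vq_nonneg (QH Q H) w
    have h1 : ∀ J ∈ powersetCard j E, Vq (QU (Qb Q H s) (Gb J)) y ≤
        V * (Vq (QU (Qb Q H s) (Gb J)) w + Vq (QH Q H) w * (2 * ∑ h ∈ J, g bp (wp h) +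
          ∑ a ∈ J, ∑ b ∈ J.filter (fun b => a ≠ b), g (wp a) (wp b))) := by
      intro J hJ
      rw [Vq_split (QU (Qb Q H s) (Gb J)) w y hwy]
      have h2 := tail_upJ (Qb Q H s) c' hQb (Gb J) w y (by rw [hcard J hJ]; exact hwc)
      rw [hcard J hJ, hprod J hJ, ← hK1] at h2
      have e2 : ∑ z ∈ (Gb J).offDiag, (Fc K1 w y (fun p => Cox (Qb Q H s) p z.1 z.2) - 1) =
          ∑ z ∈ (Gb J).offDiag, g z.1 z.2 := by rw [hg]
      rw [e2] at h2
      have h3 := offDiag_Gb J g hg0 hgs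
      have h3' : 0 ≤ ∑ z ∈ (Gb J).offDiag, g z.1 z.2 := Finset.sum_nonneg fun z _ => hg0 _ _
      have h4 := Vq_nonneg (QU (Qb Q H s) (Gb J)) w
      have h5 : Vq (QU (Qb Q H s) (Gb J)) w ≤ Vq (QH Q H) w := by
        apply Vq_anti
        intro p m hm
        refine ⟨bp, ?_, ?_⟩
        · unfold Gb
          exact mem_insert_self _ _
        · change QH Q H p (m + 0)
          simpa using hm
      calc Vq (QU (Qb Q H s) (Gb J)) w * Vt (QU (Qb Q H s) (Gb J)) w y ≤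
            Vq (QU (Qb Q H s) (Gb J)) w * (V * (1 + ∑ z ∈ (Gb J).offDiag, g z.1 z.2)) :=
            mul_le_mul_of_nonneg_left h2 h4
        _ = V * (Vq (QU (Qb Q H s) (Gb J)) w +
            Vq (QU (Qb Q H s) (Gb J)) w * ∑ z ∈ (Gb J).offDiag, g z.1 z.2) := by ring
        _ ≤ V * (Vq (QU (Qb Q H s) (Gb J)) w +
            Vq (QH Q H) w * ∑ z ∈ (Gb J).offDiag, g z.1 z.2) := by
          apply mul_le_mul_of_nonneg_left _ hV0
          have := mul_le_mul_of_nonneg_right h5 h3'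
          linarith
        _ ≤ _ := by
          apply mul_le_mul_of_nonneg_left _ hV0
          have := mul_le_mul_of_nonneg_left h3 hbase0
          linarith
    have h2 := Finset.sum_le_sum h1
    rw [← Finset.mul_sum, Finset.sum_add_distrib, ← Finset.mul_sum, Finset.sum_add_distrib,
      ← Finset.mul_sum] at h2
    refine h2.trans ?_
    have hηη : K1 * (η1 / (K1 + 1)) ≤ η1 := by
      rw [← mul_div_assoc, div_le_iff₀ (by positivity)]
      nlinarith
    have hηn : (0 : ℝ) ≤ η1 / (K1 + 1) := by positivity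
    have hA1 : ∑ h ∈ E, g bp (wp h) ≤ 13 * η1 * T := by
      rw [hg]
      refine havg T hT1' (Qb Q H s) hQb y (η1 / (K1 + 1)) hηn hηη bp true E hEsub
        (hEk.trans (by omega)) ?_
      intro h hh
      rw [hE] at hh
      exact hLB.base h hh
    have hA2 : ∀ a ∈ E, ∑ b ∈ E.filter (fun b => a ≠ b), g (wp a) (wp b) ≤ 13 * η1 * T := by
      intro a ha
      rw [hg]
      refine havg T hT1' (Qb Q H s) hQb y (η1 / (K1 + 1)) hηn hηη (wp a) true
        (E.filter (fun b => a ≠ b)) ((filter_subset _ _).trans hEsub) ?_ ?_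
      · have h3 : Icc 1 T \ E.filter (fun b => a ≠ b) ⊆ insert a (Icc 1 T \ E) := by
          intro x hx
          rw [mem_sdiff, mem_filter] at hx
          rw [mem_insert, mem_sdiff]
          by_cases hax : a = x
          · exact Or.inl hax.symm
          · exact Or.inr ⟨hx.1, fun h => hx.2 ⟨h, hax⟩⟩
        exact (card_le_card h3).trans ((card_insert_le _ _).trans (by omega))
      · intro h hh
        rw [mem_filter, hE] at hh
        rw [hE] at ha
        exact hLB.pair h hh.1 a ha hh.2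
    have hD1 := dc1 j T hTpos E hEsub (fun h => g bp (wp h)) (fun h => hg0 _ _)
    have hD2 := dc2 j T hTpos E hEsub (fun a b => g (wp a) (wp b)) (fun a b => hg0 _ _)
    have hcE : (E.card : ℝ) ≤ T := by
      have : E.card ≤ T := by
        have := card_le_card hEsub
        rwa [Nat.card_Icc, Nat.add_sub_cancel] at this
      exact_mod_cast this
    have hTj : (0 : ℝ) ≤ (T : ℝ) ^ j := by positivity
    have hD1' : ∑ J ∈ powersetCard j E, ∑ h ∈ J, g bp (wp h) ≤ 13 * η1 * (T : ℝ) ^ j := by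
      refine hD1.trans ?_
      calc (T : ℝ) ^ j / T * ∑ h ∈ E, g bp (wp h) ≤ (T : ℝ) ^ j / T * (13 * η1 * T) :=
            mul_le_mul_of_nonneg_left hA1 (by positivity)
        _ = _ := by field_simp
    have hD2' : ∑ J ∈ powersetCard j E, ∑ a ∈ J, ∑ b ∈ J.filter (fun b => a ≠ b), g (wp a) (wp b) ≤
        13 * η1 * (T : ℝ) ^ j := by
      refine hD2.trans ?_
      have h3 : ∑ a ∈ E, ∑ b ∈ E.filter (fun b => a ≠ b), g (wp a) (wp b) ≤ T * (13 * η1 * T) := by
        refine (Finset.sum_le_card_nsmul E _ _ hA2).trans ?_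
        rw [nsmul_eq_mul]
        exact mul_le_mul_of_nonneg_right hcE (by positivity)
      calc (T : ℝ) ^ j / (T * T) * ∑ a ∈ E, ∑ b ∈ E.filter (fun b => a ≠ b), g (wp a) (wp b) ≤
            (T : ℝ) ^ j / (T * T) * (T * (13 * η1 * T)) :=
            mul_le_mul_of_nonneg_left h3 (by positivity)
        _ = _ := by field_simp
    have hlog : 0 < Real.log w := Real.log_pos (by exact_mod_cast (by omega : 1 < w))
    have hcW : 0 ≤ c1 / Real.log w ^ B1 := by positivity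
    have h7 : c1 / Real.log w ^ B1 ≤ Vq Q w := hW w hww1 Q hQ hadm
    have h6 : 39 * η1 * (T : ℝ) ^ j * Vq (QH Q H) w ≤ η / 4 * Xw := by
      have h8 : (c1 / Real.log w ^ B1) ^ j ≤ Vq Q w ^ j := pow_le_pow_left₀ hcW h7 _
      have h9 : 39 * η1 * j.factorial ≤ η / 4 * Vq Q w ^ j :=
        (hAge.trans hAw).trans (mul_le_mul_of_nonneg_left h8 (by positivity))
      have hjf : (0 : ℝ) < j.factorial := by linarith
      rw [hXw]
      calc 39 * η1 * (T : ℝ) ^ j * Vq (QH Q H) w =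
            (39 * η1 * j.factorial) * ((T : ℝ) ^ j * Vq (QH Q H) w / j.factorial) := by
            field_simp
        _ ≤ (η / 4 * Vq Q w ^ j) * ((T : ℝ) ^ j * Vq (QH Q H) w / j.factorial) :=
            mul_le_mul_of_nonneg_right h9 (by positivity)
        _ = _ := by rw [mul_pow]; ring
    calc V * (∑ J ∈ powersetCard j E, Vq (QU (Qb Q H s) (Gb J)) w + Vq (QH Q H) w *
          (2 * ∑ J ∈ powersetCard j E, ∑ h ∈ J, g bp (wp h) +
            ∑ J ∈ powersetCard j E, ∑ a ∈ J, ∑ b ∈ J.filter (fun b => a ≠ b), g (wp a) (wp b))) ≤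
        V * ((1 + η / 4) * Xw + η / 4 * Xw) := by
          apply mul_le_mul_of_nonneg_left _ hV0
          have h10 : 2 * ∑ J ∈ powersetCard j E, ∑ h ∈ J, g bp (wp h) +
            ∑ J ∈ powersetCard j E, ∑ a ∈ J, ∑ b ∈ J.filter (fun b => a ≠ b), g (wp a) (wp b) ≤
              39 * η1 * (T : ℝ) ^ j := by linarith
          have h11 := mul_le_mul_of_nonneg_left h10 hbase0
          linarith
      _ = (1 + η / 2) * (V * Xw) := by ring
      _ ≤ (1 + η) * (V * Xw) := mul_le_mul_of_nonneg_right (by linarith) (mul_nonneg hV0 hXw0)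

end Pool.Agent.Y175.JP
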