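import Pool.Agent.Y175.JP.UniB
import Pool.Agent.Y175.JP.GenW
import Pool.Agent.TH464.PO.Ext

set_option autoImplicit false

/-!
# The law of the number of further sifted integers in a window, relative to a base

Author: helper175.
-/

namespace Pool.Agent.Y175.JP

open Finset Filter Pool.Agent.H373R2.T7 Pool.Agent.W123.RP Pool.Agent.W123.RU Pool.Agent.TH464.PO

open Classical in
/-- the number of further sifted integers in the window `(n+s, n+s+T]`, outside `n + H` -/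
noncomputable def Nb (Q : ℕ → ℕ → Prop) (H : Finset ℕ) (s y T n : ℕ) : ℕ :=
  ((Eb H s T).filter (fun h => Sf (Qt Q s) y (n + h))).card

open Classical in
lemma Nb_mono (Q : ℕ → ℕ → Prop) (H : Finset ℕ) (s y T T' n : ℕ) (h : T ≤ T') :
    Nb Q H s y T n ≤ Nb Q H s y T' n := by
  unfold Nb Eb
  apply card_le_card
  intro m hm
  rw [mem_filter, mem_filter, mem_Icc] at hm ⊢
  exact ⟨⟨⟨hm.1.1.1, by omega⟩, hm.1.2⟩, hm.2⟩

open Classical in
/-- **Binomial moments relative to a base.** -/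
theorem moment_base (c k j : ℕ) (hc : 1 ≤ c) (η : ℝ) (hη : 0 < η) (hη1 : η ≤ 1) :
    ∃ (K0 y0 T0 : ℕ) (η' : ℝ), 0 < η' ∧ ∀ Y y T : ℕ, y0 ≤ y → y ^ K0 ≤ Y → T0 ≤ T →
      ∀ Q : ℕ → ℕ → Prop, PerB Q c → (∀ p : ℕ, p.Prime → nuB Q p < p) →
      ∀ (H : Finset ℕ) (s : ℕ), H.card ≤ k → LB Q H s T y η' →
      |∑ n ∈ (Icc 1 Y).filter (fun n => Sf (QH Q H) y n), ((Nb Q H s y T n).choose j : ℝ) -
        Y * Vq (QH Q H) y * ((T * Vq Q y) ^ j / j.factorial)| ≤
        η * (Y * Vq (QH Q H) y * ((T * Vq Q y) ^ j / j.factorial)) + T ^ j * √(Y : ℝ) := by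
  obtain ⟨K0, x0, hK0, hfund⟩ := sys_fund ((j + 1) * ((k + 1) * c))
    (Nat.mul_pos (by omega) (Nat.mul_pos (by omega) hc)) (η / 4) (by positivity)
  obtain ⟨w, η', T0, hη', hT0, hsing⟩ := base_avg c k j (η / 4) (by positivity) (by linarith)
  refine ⟨K0, max x0 w, T0, η', hη', ?_⟩
  intro Y y T hy hyY hT Q hQ hadm H s hHk hLB
  obtain ⟨s1, s2⟩ := hsing T hT Q hQ hadm y ((le_max_right _ _).trans hy) H s hHk hLB
  have hQb := perB_Qb Q c hQ k H hHk s
  have h0 := base_moment Q H s T y j (Icc 1 Y)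
  have e0 : ∑ n ∈ (Icc 1 Y).filter (fun n => Sf (QH Q H) y n), ((Nb Q H s y T n).choose j : ℝ) =
      ∑ J ∈ powersetCard j (Eb H s T),
        (((Icc 1 Y).filter (fun m => Sf (QU (Qb Q H s) (Gb J)) y m)).card : ℝ) := h0.symm
  rw [e0]
  obtain ⟨S, hS⟩ : ∃ S, S = ∑ J ∈ powersetCard j (Eb H s T), Vq (QU (Qb Q H s) (Gb J)) y := ⟨_, rfl⟩
  obtain ⟨Z, hZ⟩ : ∃ Z : ℝ, Z = Vq (QH Q H) y * ((T * Vq Q y) ^ j / j.factorial) := ⟨_, rfl⟩
  rw [← hS, ← hZ] at s1 s2
  rw [mul_assoc (Y : ℝ) (Vq (QH Q H) y), ← hZ]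
  have hV0 := Vq_nonneg Q y
  have hVH0 := Vq_nonneg (QH Q H) y
  have hZ0 : 0 ≤ Z := by rw [hZ]; positivity
  have hY0 : (0 : ℝ) ≤ Y := Nat.cast_nonneg Y
  have h1 : |∑ J ∈ powersetCard j (Eb H s T),
      (((Icc 1 Y).filter (fun m => Sf (QU (Qb Q H s) (Gb J)) y m)).card : ℝ) - Y * S| ≤
      η / 4 * (Y * S) + T ^ j * √(Y : ℝ) := by
    have e : Y * S = ∑ J ∈ powersetCard j (Eb H s T), (Y : ℝ) * Vq (QU (Qb Q H s) (Gb J)) y := by
      rw [hS, Finset.mul_sum]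
    rw [e, ← Finset.sum_sub_distrib]
    refine (Finset.abs_sum_le_sum_abs _ _).trans ?_
    have h2 : ∀ J ∈ powersetCard j (Eb H s T),
        |(((Icc 1 Y).filter (fun m => Sf (QU (Qb Q H s) (Gb J)) y m)).card : ℝ) -
          Y * Vq (QU (Qb Q H s) (Gb J)) y| ≤
        η / 4 * (Y * Vq (QU (Qb Q H s) (Gb J)) y) + √(Y : ℝ) := by
      intro J hJ
      have hper := perB_QU (Qb Q H s) _ hQb (Gb J)
      rw [Gb_card, (mem_powersetCard.1 hJ).2] at hper
      have h3 := hfund Y y ((le_max_left _ _).trans hy) hyY (QU (Qb Q H s) (Gb J)) hper Y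
      have e1 : ∏ p ∈ pz y, (1 - (nuB (QU (Qb Q H s) (Gb J)) p : ℝ) / p) =
          Vq (QU (Qb Q H s) (Gb J)) y := rfl
      rw [e1] at h3
      unfold Sf
      convert h3
    refine (Finset.sum_le_sum h2).trans ?_
    rw [Finset.sum_add_distrib, ← Finset.mul_sum, Finset.sum_const, nsmul_eq_mul]
    have h3 : ((powersetCard j (Eb H s T)).card : ℝ) ≤ (T : ℝ) ^ j := by
      have h4 : (Eb H s T).card ≤ T := by
        have := card_le_card (Eb_sub H s T)
        rwa [Nat.card_Icc, Nat.add_sub_cancel] at this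
      have : (powersetCard j (Eb H s T)).card ≤ T ^ j := by
        rw [card_powersetCard]
        exact (Nat.choose_le_pow _ j).trans (Nat.pow_le_pow_left h4 j)
      exact_mod_cast this
    have h4 := mul_le_mul_of_nonneg_right h3 (Real.sqrt_nonneg (Y : ℝ))
    linarith
  have h5 : |Y * S - Y * Z| ≤ η / 4 * (Y * Z) := by
    rw [← mul_sub, abs_mul, abs_of_nonneg hY0]
    have h6 : |S - Z| ≤ η / 4 * Z := by
      rw [abs_le]
      constructor <;> linarith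
    calc (Y : ℝ) * |S - Z| ≤ Y * (η / 4 * Z) := mul_le_mul_of_nonneg_left h6 hY0
      _ = _ := by ring
  have h7 : Y * S ≤ 2 * (Y * Z) := by
    have : S ≤ 2 * Z := by nlinarith
    nlinarith
  have h9 := abs_sub_le (∑ J ∈ powersetCard j (Eb H s T),
    (((Icc 1 Y).filter (fun m => Sf (QU (Qb Q H s) (Gb J)) y m)).card : ℝ)) (Y * S) (Y * Z)
  have h8 : η / 4 * (Y * S) ≤ η / 4 * (2 * (Y * Z)) := mul_le_mul_of_nonneg_left h7 (by positivity)
  have hYZ : 0 ≤ Y * Z := mul_nonneg hY0 hZ0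
  nlinarith

open Classical in
/-- if the product vanishes there are no sifted integers -/
lemma not_sf_of_zero (Q : ℕ → ℕ → Prop) (c : ℕ) (hQ : PerB Q c) (y : ℕ) (h : Vq Q y = 0) (n : ℕ) :
    ¬ Sf Q y n := by
  unfold Vq at h
  rw [Finset.prod_eq_zero_iff] at h
  obtain ⟨p, hp, h0⟩ := h
  have hpp := (mem_pz.1 hp).2
  have hp0 : (0 : ℝ) < p := by exact_mod_cast hpp.pos
  have h1 : (nuB Q p : ℝ) = p := by
    have : (nuB Q p : ℝ) / p = 1 := by linarith
    rwa [div_eq_one_iff_eq hp0.ne'] at this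
  have h2 : nuB Q p = p := by exact_mod_cast h1
  have h3 : (range p).filter (fun r => Q p r) = range p := by
    apply Finset.eq_of_subset_of_card_le (filter_subset _ _)
    rw [card_range]
    unfold nuB at h2
    exact h2.ge
  have h4 : n % p ∈ (range p).filter (fun r => Q p r) := by
    rw [h3, mem_range]
    exact Nat.mod_lt _ hpp.pos
  rw [mem_filter] at h4
  intro hs
  exact hs p hp ((hQ.per p n).2 h4.2)

/-- powers of logarithms against powers -/
lemma log_pow_le (B : ℕ) (C : ℝ) (hC : 0 < C) : ∃ y1 : ℕ, ∀ y : ℕ, y1 ≤ y →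
    C * Real.log (y : ℝ) ^ B ≤ √(√(y : ℝ)) := by
  have h := ((isLittleO_log_rpow_rpow_atTop (B : ℝ) (by norm_num : (0 : ℝ) < 1 / 4)).comp_tendsto
    tendsto_natCast_atTop_atTop).bound (by positivity : (0 : ℝ) < 1 / C)
  obtain ⟨T2, hT2⟩ := Filter.eventually_atTop.1 h
  refine ⟨max T2 1, fun T hT => ?_⟩
  have h2 := hT2 T ((le_max_left _ _).trans hT)
  have hT1 : (1 : ℝ) ≤ T := by exact_mod_cast (le_max_right _ _).trans hT
  have hlog : 0 ≤ Real.log (T : ℝ) := Real.log_nonneg hT1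
  simp only [Function.comp_def] at h2
  rw [Real.norm_of_nonneg (by positivity), Real.norm_of_nonneg (by positivity), Real.rpow_natCast] at h2
  have e : √(√(T : ℝ)) = (T : ℝ) ^ (1 / 4 : ℝ) := by
    rw [Real.sqrt_eq_rpow, Real.sqrt_eq_rpow, ← Real.rpow_mul (by linarith)]
    norm_num
  rw [e]
  calc C * Real.log (T : ℝ) ^ B ≤ C * (1 / C * (T : ℝ) ^ (1 / 4 : ℝ)) := by gcongr
    _ = _ := by field_simp

open Classical in
/-- **The law relative to a base**, windows of large length. -/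
theorem law_base (c k : ℕ) (hc : 1 ≤ c) (x0 ε : ℝ) (hx0 : 0 ≤ x0) (hε : 0 < ε) :
    ∃ (K0 y0 T0 R0 : ℕ) (η' : ℝ), 0 < η' ∧ ∀ Y y T : ℕ, y0 ≤ y → y ^ K0 ≤ Y → T0 ≤ T →
      T ^ R0 ≤ Y → ∀ Q : ℕ → ℕ → Prop, PerB Q c → (∀ p : ℕ, p.Prime → nuB Q p < p) →
      T * Vq Q y ≤ x0 → ∀ (H : Finset ℕ) (s : ℕ), H.card ≤ k → LB Q H s T y η' →
      |(((Icc 1 Y).filter (fun n => Sf (QH Q H) y n)).card : ℝ) - Y * Vq (QH Q H) y| ≤
        ε * (Y * Vq (QH Q H) y) ∧ ∀ A : Finset ℕ,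
      |(((Icc 1 Y).filter (fun n => Sf (QH Q H) y n ∧ Nb Q H s y T n ∈ A)).card : ℝ) -
        Y * Vq (QH Q H) y * PoA (T * Vq Q y) A| ≤ ε * (Y * Vq (QH Q H) y) := by
  obtain ⟨ε', hε'⟩ : ∃ ε', ε' = min ε 1 / 4 := ⟨_, rfl⟩
  have hm1 : 0 < min ε 1 := by positivity
  have hε'0 : 0 < ε' := by rw [hε']; positivity
  have hε'1 : ε' ≤ 1 / 4 := by rw [hε']; have := min_le_right ε 1; linarith
  have hε'2 : 4 * ε' ≤ ε := by rw [hε']; have := min_le_left ε 1; linarith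
  obtain ⟨R, η0, hη0, htv⟩ := law_tv_gen (α := ℕ) x0 ε' hx0 hε'0
  obtain ⟨X1, hX1⟩ : ∃ X1 : ℝ, X1 = (1 + x0) ^ R := ⟨_, rfl⟩
  have hX1pos : 1 ≤ X1 := by rw [hX1]; exact one_le_pow₀ (by linarith)
  obtain ⟨η, hη⟩ : ∃ η : ℝ, η = min (ε' / 2) (η0 / (8 * (X1 + 1))) := ⟨_, rfl⟩
  have hη_0 : 0 < η := by rw [hη]; positivity
  have hη_1 : η ≤ ε' / 2 := by rw [hη]; exact min_le_left _ _
  have hη_2 : η * (8 * (X1 + 1)) ≤ η0 := by
    have : η ≤ η0 / (8 * (X1 + 1)) := by rw [hη]; exact min_le_right _ _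
    rwa [le_div_iff₀ (by positivity)] at this
  have hη_3 : η ≤ 1 := by linarith
  choose K0 y0 T0 η' hη' hmom using fun j : ℕ => moment_base c k j hc η hη_0 hη_3
  obtain ⟨jm, _, hjm⟩ := Finset.exists_min_image (range (R + 1)) η' ⟨0, by simp⟩
  obtain ⟨c1, B, w1, hc1, hw12, hW⟩ := W_low (k * c)
  obtain ⟨y1, hy1⟩ := log_pow_le B (1 / (c1 * η)) (by positivity)
  refine ⟨(∑ j ∈ range (R + 1), K0 j) + 1, (∑ j ∈ range (R + 1), y0 j) + w1 + y1 + k * c + 3,
    (∑ j ∈ range (R + 1), T0 j) + 1, 4 * R + 4, η' jm, hη' jm, ?_⟩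
  intro Y y T hy hyY hT hTR Q hQ hadm hTx H s hHk hLB
  have hyk : k * c ≤ y := by omega
  have hyw : w1 ≤ y := by omega
  have hyy1 : y1 ≤ y := by omega
  have hy3 : 3 ≤ y := by omega
  have hY0 : (0 : ℝ) ≤ Y := Nat.cast_nonneg Y
  have hyY' : y ≤ Y := by
    calc y = y ^ 1 := (pow_one y).symm
      _ ≤ y ^ ((∑ j ∈ range (R + 1), K0 j) + 1) := Nat.pow_le_pow_right (by omega) (by omega)
      _ ≤ Y := hyY
  have hYpos : (0 : ℝ) < Y := by exact_mod_cast (by omega : 0 < Y)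
  have hPH := perB_QH Q c hQ H
  obtain ⟨Om, hOm⟩ : ∃ Om, Om = (Icc 1 Y).filter (fun n => Sf (QH Q H) y n) := ⟨_, rfl⟩
  obtain ⟨W, hWdef⟩ : ∃ W : ℝ, W = Y * Vq (QH Q H) y := ⟨_, rfl⟩
  have hVH0 := Vq_nonneg (QH Q H) y
  rw [← hOm, ← hWdef]
  have hfil : ∀ A : Finset ℕ, (Icc 1 Y).filter (fun n => Sf (QH Q H) y n ∧ Nb Q H s y T n ∈ A) =
      Om.filter (fun n => Nb Q H s y T n ∈ A) := by
    intro A
    rw [hOm, Finset.filter_filter]
  simp only [hfil]
  rcases hVH0.eq_or_lt with hz | hVHpos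
  · -- the inadmissible case
    have hno := not_sf_of_zero (QH Q H) _ hPH y hz.symm
    have hO : Om = ∅ := by
      rw [hOm, Finset.filter_eq_empty_iff]
      intro n _
      exact hno n
    have hW0 : W = 0 := by rw [hWdef, ← hz, mul_zero]
    rw [hO, hW0]
    simp
  have hW0 : 0 < W := by rw [hWdef]; positivity
  have hadmH : ∀ p : ℕ, p.Prime → nuB (QH Q H) p < p := by
    intro p hp
    by_cases hpy : p ≤ y
    · by_contra hcon
      rw [not_lt] at hcon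
      have h1 : nuB (QH Q H) p = p := le_antisymm (nuB_le _ p) hcon
      have : Vq (QH Q H) y = 0 := by
        unfold Vq
        apply Finset.prod_eq_zero (mem_pz.2 ⟨hpy, hp⟩)
        have hp0 : (p : ℝ) ≠ 0 := by exact_mod_cast hp.ne_zero
        rw [h1, div_self hp0, sub_self]
      linarith
    · have h1 := hPH.few p hp
      have h2 := Nat.mul_le_mul_right c hHk
      omega
  have hper : PerB (QH Q H) (k * c) :=
    ⟨hPH.per, fun p hp => (hPH.few p hp).trans (Nat.mul_le_mul_right c hHk)⟩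
  have hlow := hW y hyw (QH Q H) hper hadmH
  have hlogy : 0 < Real.log (y : ℝ) := Real.log_pos (by exact_mod_cast (by omega : 1 < y))
  have hTn : 1 ≤ T := by omega
  -- the error terms
  have herr : ∀ j ≤ R, (T : ℝ) ^ j * √(Y : ℝ) ≤ η * W := by
    intro j hj
    have h1 : (T : ℝ) ^ j ≤ √(√(Y : ℝ)) := by
      apply Real.le_sqrt_of_sq_le
      apply Real.le_sqrt_of_sq_le
      have h2 : (T ^ j) ^ 4 ≤ Y := by
        rw [← pow_mul]
        exact (Nat.pow_le_pow_right hTn (by omega)).trans hTR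
      calc (((T : ℝ) ^ j) ^ 2) ^ 2 = (((T ^ j) ^ 4 : ℕ) : ℝ) := by push_cast; ring
        _ ≤ Y := by exact_mod_cast h2
    have h2 := hy1 y hyy1
    have h3 : √(√(y : ℝ)) ≤ √(√(Y : ℝ)) := Real.sqrt_le_sqrt (Real.sqrt_le_sqrt (by exact_mod_cast hyY'))
    have h4 : 1 ≤ η * Vq (QH Q H) y * √(√(Y : ℝ)) := by
      have h5 : 1 / (c1 * η) * Real.log (y : ℝ) ^ B ≤ √(√(Y : ℝ)) := h2.trans h3
      calc (1 : ℝ) = η * (c1 / Real.log y ^ B) * (1 / (c1 * η) * Real.log (y : ℝ) ^ B) := by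
            field_simp
        _ ≤ η * Vq (QH Q H) y * √(√(Y : ℝ)) := by gcongr
    have e1 : √(√(Y : ℝ)) * √(√(Y : ℝ)) = √(Y : ℝ) := Real.mul_self_sqrt (Real.sqrt_nonneg _)
    have e2 : √(Y : ℝ) * √(Y : ℝ) = Y := Real.mul_self_sqrt hY0
    calc (T : ℝ) ^ j * √(Y : ℝ) ≤ √(√(Y : ℝ)) * √(Y : ℝ) := by gcongr
      _ = √(√(Y : ℝ)) * √(Y : ℝ) * 1 := (mul_one _).symm
      _ ≤ √(√(Y : ℝ)) * √(Y : ℝ) * (η * Vq (QH Q H) y * √(√(Y : ℝ))) := by gcongr
      _ = η * Vq (QH Q H) y * ((√(√(Y : ℝ)) * √(√(Y : ℝ))) * √(Y : ℝ)) := by ring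
      _ = η * W := by rw [e1, e2, hWdef]; ring
  have hxj : ∀ j ≤ R, 0 ≤ (T * Vq Q y) ^ j / (j.factorial : ℝ) ∧
      (T * Vq Q y) ^ j / (j.factorial : ℝ) ≤ X1 := by
    intro j hj
    have hV0 := Vq_nonneg Q y
    have hf1 : (1 : ℝ) ≤ j.factorial := by exact_mod_cast Nat.factorial_pos j
    refine ⟨by positivity, ?_⟩
    calc (T * Vq Q y) ^ j / (j.factorial : ℝ) ≤ (T * Vq Q y) ^ j := div_le_self (by positivity) hf1
      _ ≤ (1 + x0) ^ j := pow_le_pow_left₀ (by positivity) (by linarith) _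
      _ ≤ (1 + x0) ^ R := pow_le_pow_right₀ (by linarith) hj
      _ = X1 := hX1.symm
  have hmj : ∀ j ≤ R, |∑ n ∈ Om, ((Nb Q H s y T n).choose j : ℝ) -
      W * ((T * Vq Q y) ^ j / j.factorial)| ≤ η * (X1 + 1) * W := by
    intro j hj
    have hjr : j ∈ range (R + 1) := mem_range.2 (by omega)
    have hKj : K0 j ≤ ∑ j ∈ range (R + 1), K0 j := Finset.single_le_sum (fun _ _ => Nat.zero_le _) hjr
    have hyj : y0 j ≤ ∑ j ∈ range (R + 1), y0 j := Finset.single_le_sum (fun _ _ => Nat.zero_le _) hjr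
    have hTj : T0 j ≤ ∑ j ∈ range (R + 1), T0 j := Finset.single_le_sum (fun _ _ => Nat.zero_le _) hjr
    have hT0 : (0 : ℝ) ≤ T := Nat.cast_nonneg T
    have h1 := hmom j Y y T (by omega) ((Nat.pow_le_pow_right (by omega) (by omega)).trans hyY)
      (by omega) Q hQ hadm H s hHk
      ⟨fun h hh => (hLB.base h hh).trans (mul_le_mul_of_nonneg_right (hjm j hjr) hT0),
        fun h hh h' hh' hne => (hLB.pair h hh h' hh' hne).trans
          (mul_le_mul_of_nonneg_right (hjm j hjr) hT0)⟩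
    rw [← hOm, ← hWdef] at h1
    refine h1.trans ?_
    have h2 := herr j hj
    obtain ⟨h3, h4⟩ := hxj j hj
    have h5 : η * (W * ((T * Vq Q y) ^ j / (j.factorial : ℝ))) ≤ η * (W * X1) := by gcongr
    calc η * (W * ((T * Vq Q y) ^ j / (j.factorial : ℝ))) + (T : ℝ) ^ j * √(Y : ℝ) ≤
        η * (W * X1) + η * W := add_le_add h5 h2
      _ = _ := by ring
  have hOmW : |(Om.card : ℝ) - W| ≤ 2 * η * W := by
    have h1 := hmom 0 Y y T (by
      have : y0 0 ≤ ∑ j ∈ range (R + 1), y0 j :=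
        Finset.single_le_sum (fun _ _ => Nat.zero_le _) (mem_range.2 (by omega))
      omega) ((Nat.pow_le_pow_right (by omega) (by
        have : K0 0 ≤ ∑ j ∈ range (R + 1), K0 j :=
          Finset.single_le_sum (fun _ _ => Nat.zero_le _) (mem_range.2 (by omega))
        omega)).trans hyY) (by
        have : T0 0 ≤ ∑ j ∈ range (R + 1), T0 j :=
          Finset.single_le_sum (fun _ _ => Nat.zero_le _) (mem_range.2 (by omega))
        omega) Q hQ hadm H s hHk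
      ⟨fun h hh => (hLB.base h hh).trans (mul_le_mul_of_nonneg_right (hjm 0 (mem_range.2 (by omega)))
          (Nat.cast_nonneg T)),
        fun h hh h' hh' hne => (hLB.pair h hh h' hh' hne).trans
          (mul_le_mul_of_nonneg_right (hjm 0 (mem_range.2 (by omega))) (Nat.cast_nonneg T))⟩
    rw [← hOm, ← hWdef] at h1
    simp only [Nat.choose_zero_right, Nat.cast_one, Finset.sum_const, nsmul_eq_mul, mul_one,
      pow_zero, Nat.factorial_zero, div_one] at h1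
    have h2 := herr 0 (Nat.zero_le _)
    rw [pow_zero] at h2
    linarith
  obtain ⟨ho1, ho2⟩ := abs_le.1 hOmW
  have hOm2 : W ≤ 2 * Om.card := by nlinarith
  constructor
  · rw [abs_le]
    constructor <;> nlinarith
  intro A
  have h1 := htv Om (fun n => Nb Q H s y T n) (T * Vq Q y)
    (mul_nonneg (Nat.cast_nonneg _) (Vq_nonneg Q y)) hTx (by
      intro j hj
      have h2 := hmj j hj
      obtain ⟨h3, h4⟩ := hxj j hj
      have h5 : |W * ((T * Vq Q y) ^ j / (j.factorial : ℝ)) -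
          Om.card * ((T * Vq Q y) ^ j / (j.factorial : ℝ))| ≤ 2 * η * W * X1 := by
        rw [← sub_mul, abs_mul, abs_of_nonneg h3, abs_sub_comm]
        exact mul_le_mul hOmW h4 h3 (by positivity)
      have h6 := abs_sub_le (∑ n ∈ Om, ((Nb Q H s y T n).choose j : ℝ))
        (W * ((T * Vq Q y) ^ j / (j.factorial : ℝ))) (Om.card * ((T * Vq Q y) ^ j / (j.factorial : ℝ)))
      have h7 : η * (X1 + 1) * W + 2 * η * W * X1 ≤ η * (4 * (X1 + 1)) * W := by
        have : 0 ≤ η * W := by positivity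
        nlinarith
      have h8 : η * (4 * (X1 + 1)) * W ≤ η * (8 * (X1 + 1)) * Om.card := by
        calc η * (4 * (X1 + 1)) * W ≤ η * (4 * (X1 + 1)) * (2 * Om.card) := by gcongr
          _ = _ := by ring
      have h9 : η * (8 * (X1 + 1)) * (Om.card : ℝ) ≤ η0 * Om.card :=
        mul_le_mul_of_nonneg_right hη_2 (Nat.cast_nonneg _)
      linarith) A
  have e1 : ∑ n ∈ Om, (if Nb Q H s y T n ∈ A then (1 : ℝ) else 0) =
      ((Om.filter (fun n => Nb Q H s y T n ∈ A)).card : ℝ) := by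
    rw [← Finset.sum_filter, Finset.sum_const, nsmul_eq_mul, mul_one]
  rw [e1] at h1
  have hx : 0 ≤ T * Vq Q y := mul_nonneg (Nat.cast_nonneg _) (Vq_nonneg Q y)
  have hP0 := PoA_nonneg (T * Vq Q y) hx A
  have hP1 := PoA_le_one (T * Vq Q y) hx A
  have h2 : |Om.card * PoA (T * Vq Q y) A - W * PoA (T * Vq Q y) A| ≤ 2 * η * W := by
    rw [← sub_mul, abs_mul, abs_of_nonneg hP0]
    calc |(Om.card : ℝ) - W| * PoA (T * Vq Q y) A ≤ |(Om.card : ℝ) - W| * 1 :=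
          mul_le_mul_of_nonneg_left hP1 (abs_nonneg _)
      _ ≤ _ := by rw [mul_one]; exact hOmW
  have h3 := abs_sub_le ((Om.filter (fun n => Nb Q H s y T n ∈ A)).card : ℝ)
    (Om.card * PoA (T * Vq Q y) A) (W * PoA (T * Vq Q y) A)
  have h4 : ε' * (Om.card : ℝ) ≤ 2 * ε' * W := by nlinarith
  have h5 : 2 * η * W ≤ ε' * W := by nlinarith
  have h6 : 3 * ε' * W ≤ ε * W := by nlinarith
  linarith

end Pool.Agent.Y175.JP
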