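import Pool.Agent.Y175.JP.UniC

set_option autoImplicit false

/-!
# The law relative to a base: all windows, all intervals

Author: helper175.
-/

namespace Pool.Agent.Y175.JP

open Finset Filter Pool.Agent.H373R2.T7 Pool.Agent.W123.RP Pool.Agent.W123.RU Pool.Agent.TH464.PO

lemma QH_Qt (Q : ℕ → ℕ → Prop) (H : Finset ℕ) (Z : ℕ) : QH (Qt Q Z) H = Qt (QH Q H) Z := by
  funext p m
  apply propext
  unfold QH Qt
  constructor
  · rintro ⟨h, hh, hq⟩
    exact ⟨h, hh, by rw [show m + Z + h = m + h + Z by ring]; exact hq⟩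
  · rintro ⟨h, hh, hq⟩
    exact ⟨h, hh, by rw [show m + h + Z = m + Z + h by ring]; exact hq⟩

open Classical in
lemma Nb_Qt (Q : ℕ → ℕ → Prop) (H : Finset ℕ) (Z s y T m : ℕ) :
    Nb (Qt Q Z) H s y T m = Nb Q H s y T (m + Z) := by
  unfold Nb
  congr 1
  apply Finset.filter_congr
  intro h _
  unfold Sf Qt
  rw [show m + h + s + Z = m + Z + h + s by ring]

lemma Cox_Qb (Q : ℕ → ℕ → Prop) (H : Finset ℕ) (Z s p : ℕ) (x z : Pt Bool) :
    Cox (Qb (Qt Q Z) H s) p x z → Cox (Qb Q H s) p x z := by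
  have key : ∀ (x : Pt Bool) (m : ℕ), Qb (Qt Q Z) H s x.1 p (m + x.2) →
      Qb Q H s x.1 p (m + Z + x.2) := by
    rintro ⟨b, u⟩ m h
    cases b
    · obtain ⟨i, hi, hq⟩ : ∃ i ∈ H, Q p (m + u + i + Z) := h
      refine ⟨i, hi, ?_⟩
      change Q p (m + Z + u + i)
      rw [show m + Z + u + i = m + u + i + Z by ring]
      exact hq
    · have hq : Q p (m + u + s + Z) := h
      change Q p (m + Z + u + s)
      rw [show m + Z + u + s = m + u + s + Z by ring]
      exact hq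
  rintro ⟨m, h1, h2⟩
  exact ⟨m + Z, key x m h1, key z m h2⟩

open Classical in
lemma LB.shift {Q : ℕ → ℕ → Prop} {H : Finset ℕ} {s T y : ℕ} {η : ℝ} (h : LB Q H s T y η) (Z : ℕ) :
    LB (Qt Q Z) H s T y η := by
  have hc : ∀ x z : Pt Bool,
      ((((pz y).filter (fun p : ℕ => T < p ∧ Cox (Qb (Qt Q Z) H s) p x z)).card : ℕ) : ℝ) ≤
      ((((pz y).filter (fun p : ℕ => T < p ∧ Cox (Qb Q H s) p x z)).card : ℕ) : ℝ) := by
    intro x z
    have : ((pz y).filter (fun p : ℕ => T < p ∧ Cox (Qb (Qt Q Z) H s) p x z)).card ≤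
        ((pz y).filter (fun p : ℕ => T < p ∧ Cox (Qb Q H s) p x z)).card := by
      apply card_le_card
      intro p hp
      rw [mem_filter] at hp ⊢
      exact ⟨hp.1, hp.2.1, Cox_Qb Q H Z s p x z hp.2.2⟩
    exact_mod_cast this
  exact ⟨fun a ha => (hc _ _).trans (h.base a ha),
    fun a ha b hb hab => (hc _ _).trans (h.pair a ha b hb hab)⟩

open Classical in
/-- **The law relative to a base.** -/
theorem gen_base (c k : ℕ) (hc : 1 ≤ c) (x0 ε : ℝ) (hε : 0 < ε) :
    ∃ (K0 y0 T0 R0 : ℕ) (η' κ : ℝ), 0 < η' ∧ 0 < κ ∧ κ ≤ 1 / 2 ∧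
      ∀ (Q : ℕ → ℕ → Prop) (Z Y y : ℕ), PerB Q c → (∀ p : ℕ, p.Prime → nuB Q p < p) →
      y0 ≤ y → y ^ K0 ≤ Y → Vq Q y ≤ κ → ∀ (H : Finset ℕ) (s : ℕ), H.card ≤ k →
      (∀ T' : ℕ, κ ≤ T' * Vq Q y → T' * Vq Q y ≤ max x0 1 → T0 ≤ T' ∧ T' ^ R0 ≤ Y ∧
        LB Q H s T' y η') → ∀ T : ℕ, T * Vq Q y ≤ x0 → ∀ A : Finset ℕ,
        |(((Ioc Z (Z + Y)).filter (fun n => Sf (QH Q H) y n ∧ Nb Q H s y T n ∈ A)).card : ℝ) -
          Y * Vq (QH Q H) y * PoA (T * Vq Q y) A| ≤ ε * (Y * Vq (QH Q H) y) := by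
  obtain ⟨κ, hκ⟩ : ∃ κ, κ = min (ε / 8) (1 / 2) := ⟨_, rfl⟩
  have hκ0 : 0 < κ := by rw [hκ]; positivity
  have hκ1 : κ * 8 ≤ ε := by
    have : κ ≤ ε / 8 := by rw [hκ]; exact min_le_left _ _
    linarith
  have hκ2 : κ ≤ 1 / 2 := by rw [hκ]; exact min_le_right _ _
  have hm0 : 0 ≤ max x0 1 := by positivity
  obtain ⟨K0, y0, T0, R0, η', hη', hlaw⟩ := law_base c k hc (max x0 1) (ε / 8) hm0 (by positivity)
  refine ⟨K0, y0, T0, R0, η', κ, hη', hκ0, hκ2, ?_⟩
  intro Q Z Y y hQ hadm hy hyY hVκ H s hHk hone T hTx A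
  have hV0 : 0 < Vq Q y := Vq_pos Q hadm y
  have hY0 : (0 : ℝ) ≤ Y := Nat.cast_nonneg Y
  have hbij : ∀ (P : ℕ → Prop) [DecidablePred P], ((Ioc Z (Z + Y)).filter P).card =
      ((Icc 1 Y).filter (fun n => P (n + Z))).card := by
    intro P _
    symm
    apply Finset.card_bij (fun n _ => n + Z)
    · intro n hn
      rw [mem_filter, mem_Icc] at hn
      rw [mem_filter, mem_Ioc]
      exact ⟨by omega, hn.2⟩
    · intro a _ b _ hab
      omega
    · intro n hn
      rw [mem_filter, mem_Ioc] at hn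
      refine ⟨n - Z, ?_, by omega⟩
      rw [mem_filter, mem_Icc, show n - Z + Z = n by omega]
      exact ⟨by omega, hn.2⟩
  have hadm' : ∀ p : ℕ, p.Prime → nuB (Qt Q Z) p < p := fun p hp => by
    rw [nuB_Qt Q c hQ]
    exact hadm p hp
  have e1 : Vq (Qt Q Z) y = Vq Q y := Vq_Qt Q c hQ Z y
  have e2 : Vq (QH (Qt Q Z) H) y = Vq (QH Q H) y := by
    rw [QH_Qt]
    exact Vq_Qt (QH Q H) _ (perB_QH Q c hQ H) Z y
  obtain ⟨W, hW⟩ : ∃ W : ℝ, W = Y * Vq (QH Q H) y := ⟨_, rfl⟩
  have hVH0 := Vq_nonneg (QH Q H) y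
  have hW0 : 0 ≤ W := by rw [hW]; positivity
  -- the law for the windows which are not short
  have hbig : ∀ T' : ℕ, κ ≤ T' * Vq Q y → T' * Vq Q y ≤ max x0 1 →
      |(((Ioc Z (Z + Y)).filter (fun n => Sf (QH Q H) y n)).card : ℝ) - W| ≤ ε / 8 * W ∧
      ∀ A : Finset ℕ,
      |(((Ioc Z (Z + Y)).filter (fun n => Sf (QH Q H) y n ∧ Nb Q H s y T' n ∈ A)).card : ℝ) -
          W * PoA (T' * Vq Q y) A| ≤ ε / 8 * W := by
    intro T' h1 h2
    obtain ⟨a1, a2, a3⟩ := hone T' h1 h2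
    obtain ⟨b1, b2⟩ := hlaw Y y T' hy hyY a1 a2 (Qt Q Z) (perB_Qt Q c hQ Z) hadm'
      (by rw [e1]; exact h2) H s hHk (a3.shift Z)
    rw [e2, QH_Qt] at b1 b2
    rw [e1] at b2
    rw [← hW] at b1 b2
    constructor
    · rw [hbij]
      exact b1
    · intro A
      have h3 := b2 A
      rw [hbij]
      simp only [Nb_Qt] at h3
      exact h3
  rw [← hW]
  rcases le_or_gt κ (T * Vq Q y) with hT | hT
  · have h1 := (hbig T hT (hTx.trans (le_max_left _ _))).2 A
    have h2 : 0 ≤ ε * W := by positivity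
    linarith
  · -- a short window
    obtain ⟨T', h1, h2, h3⟩ := exists_window (Vq Q y) κ hV0 hVκ
    have hTT' := h3 T hT
    obtain ⟨b1, b2⟩ := hbig T' h1 (h2.trans (by
      have : (1 : ℝ) ≤ max x0 1 := le_max_right _ _
      linarith))
    have b3 := b2 {0}
    have hx' : 0 ≤ T' * Vq Q y := by positivity
    have hP' := one_sub_le_PoA (T' * Vq Q y) hx' {0} (mem_singleton_self 0)
    obtain ⟨Om, hOm⟩ : ∃ Om, Om = (Ioc Z (Z + Y)).filter (fun n => Sf (QH Q H) y n) := ⟨_, rfl⟩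
    have hf : ∀ (U : ℕ) (A : Finset ℕ), (Ioc Z (Z + Y)).filter
        (fun n => Sf (QH Q H) y n ∧ Nb Q H s y U n ∈ A) = Om.filter (fun n => Nb Q H s y U n ∈ A) := by
      intro U A
      rw [hOm, Finset.filter_filter]
    rw [hf] at b3 ⊢
    rw [← hOm] at b1
    obtain ⟨b1a, b1b⟩ := abs_le.1 b1
    obtain ⟨b3a, b3b⟩ := abs_le.1 b3
    have hx : 0 ≤ T * Vq Q y := by positivity
    have hP0 := PoA_nonneg (T * Vq Q y) hx A
    have hP1 := PoA_le_one (T * Vq Q y) hx A
    -- few elements with a nonempty window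
    have hzero : W * (1 - 2 * κ) - ε / 8 * W ≤
        ((Om.filter (fun n => Nb Q H s y T' n ∈ ({0} : Finset ℕ))).card : ℝ) := by
      have h4 : W * (1 - 2 * κ) ≤ W * PoA (T' * Vq Q y) {0} := by
        apply mul_le_mul_of_nonneg_left _ hW0
        linarith
      linarith
    have hsub : (Om.filter (fun n => Nb Q H s y T' n ∈ ({0} : Finset ℕ))).card ≤
        (Om.filter (fun n => Nb Q H s y T n = 0)).card := by
      apply card_le_card
      intro n hn
      rw [mem_filter, mem_singleton] at hn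
      rw [mem_filter]
      have := Nb_mono Q H s y T T' n hTT'
      exact ⟨hn.1, by omega⟩
    have hsubr : ((Om.filter (fun n => Nb Q H s y T' n ∈ ({0} : Finset ℕ))).card : ℝ) ≤
        ((Om.filter (fun n => Nb Q H s y T n = 0)).card : ℝ) := by exact_mod_cast hsub
    have hκW : κ * W ≤ ε / 8 * W := mul_le_mul_of_nonneg_right (by linarith) hW0
    by_cases h0 : 0 ∈ A
    · have h4 : (Om.filter (fun n => Nb Q H s y T n = 0)).card ≤
          (Om.filter (fun n => Nb Q H s y T n ∈ A)).card := by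
        apply card_le_card
        intro n hn
        rw [mem_filter] at hn ⊢
        exact ⟨hn.1, by rw [hn.2]; exact h0⟩
      have h5 : (Om.filter (fun n => Nb Q H s y T n ∈ A)).card ≤ Om.card := card_filter_le _ _
      have h4r : ((Om.filter (fun n => Nb Q H s y T n = 0)).card : ℝ) ≤
          ((Om.filter (fun n => Nb Q H s y T n ∈ A)).card : ℝ) := by exact_mod_cast h4
      have h5r : ((Om.filter (fun n => Nb Q H s y T n ∈ A)).card : ℝ) ≤ Om.card := by exact_mod_cast h5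
      have h6 := one_sub_le_PoA (T * Vq Q y) hx A h0
      have h7 : W * (1 - κ) ≤ W * PoA (T * Vq Q y) A := by
        apply mul_le_mul_of_nonneg_left _ hW0
        linarith
      have h8 : W * PoA (T * Vq Q y) A ≤ W := by nlinarith
      have h9 : 0 ≤ ε * W := by positivity
      rw [abs_le]
      constructor
      · linarith
      · linarith
    · have h4 : (Om.filter (fun n => Nb Q H s y T n ∈ A)).card +
          (Om.filter (fun n => Nb Q H s y T n = 0)).card ≤ Om.card := by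
        rw [← card_union_of_disjoint]
        · apply card_le_card
          intro n hn
          rw [mem_union, mem_filter, mem_filter] at hn
          rcases hn with hn | hn
          · exact hn.1
          · exact hn.1
        · rw [Finset.disjoint_left]
          intro n hn hn'
          rw [mem_filter] at hn hn'
          rw [hn'.2] at hn
          exact h0 hn.2
      have h4r : ((Om.filter (fun n => Nb Q H s y T n ∈ A)).card : ℝ) +
          ((Om.filter (fun n => Nb Q H s y T n = 0)).card : ℝ) ≤ Om.card := by exact_mod_cast h4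
      have h6 := PoA_le_self (T * Vq Q y) hx A h0
      have h7 : W * PoA (T * Vq Q y) A ≤ W * κ := by
        apply mul_le_mul_of_nonneg_left _ hW0
        linarith
      have h8 : 0 ≤ W * PoA (T * Vq Q y) A := by positivity
      have h9 : (0 : ℝ) ≤ ((Om.filter (fun n => Nb Q H s y T n ∈ A)).card : ℝ) := Nat.cast_nonneg _
      have h10 : 0 ≤ ε * W := by positivity
      rw [abs_le]
      constructor
      · linarith
      · linarith

end Pool.Agent.Y175.JP
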