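import Pool.Agent.Y175.JP.UniE
import Pool.Agent.Y175.JP.Fin

set_option autoImplicit false

/-!
# The uniform law of the patterns of almost prime values: final form

Author: helper175.
-/

namespace Pool.Agent.Y175.JP

open Finset Filter Polynomial Pool.Agent.Y175.PW

/-- All the `v i m` have at most `d i * r` prime factors (with multiplicity), all of them larger than
`X ^ (1 / r)`. -/
def GoodF {ι : Type} (v : ι → ℕ → ℤ) (d : ι → ℕ) (r X m : ℕ) : Prop := ∀ i, Good (v i) (d i) r X m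

/-- `p ∣ v i (m + h)` for some `h ∈ H` and some `i`. -/
def Hit {ι : Type} (v : ι → ℕ → ℤ) (H : Finset ℕ) (p m : ℕ) : Prop :=
  ∃ h ∈ H, ∃ i, (p : ℤ) ∣ v i (m + h)

open Classical in
/-- The number of the residue classes `m` mod `p` with `p ∣ v i (m + h)` for some `h ∈ H` and some
`i`. -/
noncomputable def omegaF {ι : Type} (v : ι → ℕ → ℤ) (H : Finset ℕ) (p : ℕ) : ℕ :=
  ((Finset.range p).filter (fun m : ℕ => Hit v H p m)).card

/-- The sieve density of the pattern `H`. -/
noncomputable def VF {ι : Type} (v : ι → ℕ → ℤ) (H : Finset ℕ) (r X : ℕ) : ℝ :=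
  ∏ p ∈ (Finset.range (⌊(X : ℝ) ^ (1 / (r : ℝ))⌋₊ + 1)).filter Nat.Prime,
    (1 - (omegaF v H p : ℝ) / p)

/-- The good integers in `[n, n + D]` are exactly the `n + h` with `h ∈ H`. -/
def OccursF {ι : Type} (v : ι → ℕ → ℤ) (d : ι → ℕ) (r X : ℕ) (H : Finset ℕ) (D n : ℕ) : Prop :=
  ∀ j : ℕ, j ≤ D → (GoodF v d r X (n + j) ↔ j ∈ H)

open Classical in
/-- The number of the good integers in `(n + s, n + s + T]` which are not of the form `n + h`,
`h ∈ H`. -/
noncomputable def OthersF {ι : Type} (v : ι → ℕ → ℤ) (d : ι → ℕ) (r X : ℕ) (H : Finset ℕ)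
    (n s T : ℕ) : ℕ :=
  ((Finset.Ioc (n + s) (n + s + T)).filter (fun m => GoodF v d r X m ∧ ∀ h ∈ H, m ≠ n + h)).card

/-- The values `v i m` are those of irreducible polynomials `P i` of degrees `d i` with positive
leading coefficients, without fixed prime divisor, no one a translate of another one. -/
structure ValsF {ι : Type} (v : ι → ℕ → ℤ) (d : ι → ℕ) (P : ι → ℤ[X]) : Prop where
  ne : Nonempty ι
  irr : ∀ i, Irreducible (P i)
  deg : ∀ i, (P i).natDegree = d i
  pos : ∀ i, 0 < d i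
  lead : ∀ i, 0 < (P i).leadingCoeff
  val : ∀ i, ∀ m : ℕ, (P i).eval (m : ℤ) = v i m
  adm : ∀ p : ℕ, p.Prime → ∃ m : ℕ, ∀ i, ¬ (p : ℤ) ∣ v i m
  nt : ∀ i j, ∀ t : ℤ, (i ≠ j ∨ t ≠ 0) → P i ≠ (P j).comp (X + C t)

/-- The pattern `H` is admissible for the system. -/
def AdmissibleF {ι : Type} (v : ι → ℕ → ℤ) (H : Finset ℕ) : Prop :=
  ∀ p : ℕ, p.Prime → ∃ m : ℕ, ∀ h ∈ H, ∀ i, ¬ (p : ℤ) ∣ v i (m + h)

open Pool.Agent.Y871.AP Pool.Agent.TH464.PO Pool.Agent.W123.RU.Poly Pool.Agent.W123.RP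
open Pool.Agent.H373R2.T7

variable {ι : Type} [Fintype ι] {v : ι → ℕ → ℤ} {d : ι → ℕ} {P : ι → ℤ[X]}

open Classical in
/-- the set of the polynomials of the system -/
noncomputable def FS (P : ι → ℤ[X]) : Finset ℤ[X] := univ.image P

lemma ValsF.inj (h : ValsF v d P) : Function.Injective P := by
  intro i j hij
  by_contra hne
  apply h.nt i j 0 (Or.inl hne)
  rw [C_0, add_zero, comp_X]
  exact hij

lemma ValsF.sysF (h : ValsF v d P) : SysF (FS P) := by
  classical
  obtain ⟨i0⟩ := h.ne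
  refine ⟨⟨P i0, mem_image_of_mem _ (mem_univ _)⟩, ?_, ?_, ?_, ?_⟩
  · intro g hg
    obtain ⟨i, _, rfl⟩ := mem_image.1 hg
    exact h.irr i
  · intro g hg
    obtain ⟨i, _, rfl⟩ := mem_image.1 hg
    rw [h.deg i]
    exact h.pos i
  · intro g hg
    obtain ⟨i, _, rfl⟩ := mem_image.1 hg
    exact h.lead i
  · intro p hp
    obtain ⟨m, hm⟩ := h.adm p hp
    refine ⟨m, ?_⟩
    intro g hg
    obtain ⟨i, _, rfl⟩ := mem_image.1 hg
    rw [h.val]
    exact hm i

lemma ValsF.ntF (h : ValsF v d P) : NT (FS P) := by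
  classical
  intro f hf g hg t ht
  obtain ⟨i, _, rfl⟩ := mem_image.1 hf
  obtain ⟨j, _, rfl⟩ := mem_image.1 hg
  exact h.nt i j t (Or.inr ht)

lemma ValsF.sys (h : ValsF v d P) : Sys P where
  irr := h.irr
  deg := fun i => by rw [h.deg]; exact h.pos i
  lead := h.lead
  inj := h.inj
  adm := fun p hp => by
    obtain ⟨m, hm⟩ := h.adm p hp
    exact ⟨m, fun i => by rw [h.val]; exact hm i⟩

lemma QFS (P : ι → ℤ[X]) : QF (FS P) = Q P := by
  classical
  funext p m
  unfold QF Q FS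
  apply propext
  constructor
  · rintro ⟨g, hg, hd⟩
    obtain ⟨i, _, rfl⟩ := mem_image.1 hg
    exact ⟨i, hd⟩
  · rintro ⟨i, hd⟩
    exact ⟨P i, mem_image_of_mem _ (mem_univ _), hd⟩

lemma ValsF.good (h : ValsF v d P) (r : ℕ) (hr : 1 ≤ r) :
    ∀ᶠ X : ℕ in atTop, ∀ m : ℕ, m ≤ 3 * X →
      (Sf (QF (FS P)) ⌊(X : ℝ) ^ (1 / (r : ℝ))⌋₊ m ↔ GoodF v d r X m) := by
  filter_upwards [sf_AP P h.sys r hr] with X hX
  intro m hm
  rw [QFS, hX m hm]
  unfold AP GoodF Good
  constructor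
  · intro h1 i
    have := h1 i
    rw [h.val, h.deg, mul_comm] at this
    exact this
  · intro h1 i
    have := h1 i
    rw [h.val, h.deg, mul_comm]
    exact this

open Classical in
lemma ValsF.V_eq (h : ValsF v d P) (H : Finset ℕ) (r X : ℕ) :
    Vq (QH (QF (FS P)) H) ⌊(X : ℝ) ^ (1 / (r : ℝ))⌋₊ = VF v H r X := by
  unfold Vq VF
  apply Finset.prod_congr
  · unfold pz
    ext p
    simp only [mem_filter, mem_Icc, mem_range]
    constructor
    · rintro ⟨h1, h2⟩
      exact ⟨by omega, h2⟩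
    · rintro ⟨h1, h2⟩
      exact ⟨⟨h2.one_lt.le, by omega⟩, h2⟩
  · intro p _
    have : nuB (QH (QF (FS P)) H) p = omegaF v H p := by
      unfold nuB omegaF
      apply congrArg
      ext m
      rw [mem_filter, mem_filter]
      apply and_congr_right
      intro _
      unfold QH Hit
      rw [QFS]
      unfold Q
      simp only [h.val]
    rw [this]

lemma ValsF.V_eq0 (h : ValsF v d P) (r X : ℕ) :
    Vq (QF (FS P)) ⌊(X : ℝ) ^ (1 / (r : ℝ))⌋₊ = VF v {0} r X := by
  rw [← h.V_eq {0} r X]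
  have : QH (QF (FS P)) {0} = QF (FS P) := by
    funext p m
    unfold QH
    apply propext
    constructor
    · rintro ⟨h', hh', hd⟩
      rw [mem_singleton] at hh'
      rw [hh', add_zero] at hd
      exact hd
    · intro hd
      exact ⟨0, mem_singleton_self 0, by rw [add_zero]; exact hd⟩
  rw [this]

lemma VF_nonneg (v : ι → ℕ → ℤ) (H : Finset ℕ) (r X : ℕ) : 0 ≤ VF v H r X := by
  classical
  unfold VF
  apply Finset.prod_nonneg
  intro p hp
  rw [mem_filter] at hp
  have h0 : (0 : ℝ) < p := by exact_mod_cast hp.2.pos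
  rw [sub_nonneg, div_le_one h0]
  have h1 : omegaF v H p ≤ p := by
    unfold omegaF
    exact (card_filter_le _ _).trans (card_range p).le
  exact_mod_cast h1

lemma ValsF.V_pos (h : ValsF v d P) {H : Finset ℕ} (hH : AdmissibleF v H) (r X : ℕ) :
    0 < VF v H r X := by
  classical
  unfold VF
  apply Finset.prod_pos
  intro p hp
  rw [mem_filter] at hp
  have h0 : (0 : ℝ) < p := by exact_mod_cast hp.2.pos
  rw [sub_pos, div_lt_one h0]
  have h1 : omegaF v H p < p := by
    unfold omegaF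
    obtain ⟨m, hm⟩ := hH p hp.2
    have hlt : m % p < p := Nat.mod_lt _ hp.2.pos
    have hss : (Finset.range p).filter (fun m : ℕ => Hit v H p m) ⊂
        Finset.range p := by
      rw [Finset.ssubset_iff_of_subset (filter_subset _ _)]
      refine ⟨m % p, mem_range.2 hlt, ?_⟩
      rw [mem_filter]
      rintro ⟨_, h', hh', i, hd⟩
      apply hm h' hh' i
      rw [← h.val] at hd ⊢
      have e := (P i).sub_dvd_eval_sub (((m + h' : ℕ)) : ℤ) (((m % p + h' : ℕ)) : ℤ)
      have e2 : (p : ℤ) ∣ (((m + h' : ℕ)) : ℤ) - (((m % p + h' : ℕ)) : ℤ) := by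
        refine ⟨((m / p : ℕ) : ℤ), ?_⟩
        have := Nat.mod_add_div m p
        have h3 : ((m % p : ℕ) : ℤ) + p * ((m / p : ℕ) : ℤ) = m := by exact_mod_cast this
        push_cast
        push_cast at h3
        linarith
      have e3 := e2.trans e
      have e4 := dvd_add e3 hd
      rw [sub_add_cancel] at e4
      exact e4
    have := card_lt_card hss
    rwa [card_range] at this
  exact_mod_cast h1

open Classical in
/-- **The uniform law of the neighbourhoods.** -/
theorem uni_vals (hP : ValsF v d P) (θ : ℝ) (hθ : 0 < θ) (k : ℕ) (x0 ε : ℝ) (hε : 0 < ε) :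
    ∃ r0 : ℕ, ∀ r : ℕ, r0 ≤ r → ∀ᶠ X : ℕ in atTop, ∀ Y : ℕ, (X : ℝ) ^ θ ≤ Y → Y ≤ X →
      ∀ (H : Finset ℕ) (s T : ℕ), H.card ≤ k → (∀ h ∈ H, h ≤ X) → s + T ≤ X →
      T * VF v {0} r X ≤ x0 → ∀ A : Finset ℕ,
        |(((Finset.Ioc X (X + Y)).filter (fun n => (∀ h ∈ H, GoodF v d r X (n + h)) ∧
            OthersF v d r X H n s T ∈ A)).card : ℝ) -
          Y * VF v H r X * ∑ j ∈ A, Pool.Agent.Y175.PW.poisson (T * VF v {0} r X) j| ≤ ε * (Y * VF v H r X) := by
  obtain ⟨r0, h0⟩ := uni_poly (FS P) hP.sysF hP.ntF θ hθ k 1 x0 ε hε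
  refine ⟨max r0 1, ?_⟩
  intro r hr
  filter_upwards [h0 r ((le_max_left _ _).trans hr), hP.good r ((le_max_right _ _).trans hr)]
    with X hX hG
  intro Y hXY hYX H s T hHk hHX hsT hTx A
  rw [← hP.V_eq0] at hTx
  have h1 := hX X Y hXY H s T hHk (fun h hh => by rw [pow_one]; exact hHX h hh)
    (by rw [pow_one]; omega) hTx A
  rw [hP.V_eq, hP.V_eq0] at h1
  have e : (Finset.Ioc X (X + Y)).filter (fun n => (∀ h ∈ H, GoodF v d r X (n + h)) ∧
      OthersF v d r X H n s T ∈ A) = (Finset.Ioc X (X + Y)).filter (fun n =>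
      Sf (QH (QF (FS P)) H) ⌊(X : ℝ) ^ (1 / (r : ℝ))⌋₊ n ∧
            Nb (QF (FS P)) H s ⌊(X : ℝ) ^ (1 / (r : ℝ))⌋₊ T n ∈ A) := by
    apply Finset.filter_congr
    intro n hn
    rw [mem_Ioc] at hn
    have e1 : (∀ h ∈ H, GoodF v d r X (n + h)) ↔
        Sf (QH (QF (FS P)) H) ⌊(X : ℝ) ^ (1 / (r : ℝ))⌋₊ n := by
      rw [sf_QH]
      constructor
      · intro h2 h hh
        exact (hG (n + h) (by have := hHX h hh; omega)).2 (h2 h hh)
      · intro h2 h hh
        exact (hG (n + h) (by have := hHX h hh; omega)).1 (h2 h hh)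
    have e2 : OthersF v d r X H n s T = Nb (QF (FS P)) H s ⌊(X : ℝ) ^ (1 / (r : ℝ))⌋₊ T n := by
      unfold OthersF Nb Eb
      symm
      apply Finset.card_bij (fun h _ => n + s + h)
      · intro h hh
        rw [mem_filter, mem_filter, mem_Icc] at hh
        obtain ⟨⟨⟨h2, h3⟩, h4⟩, h5⟩ := hh
        rw [mem_filter, mem_Ioc]
        refine ⟨⟨by omega, by omega⟩, ?_, ?_⟩
        · apply (hG _ (by omega)).1
          have h6 : Sf (QF (FS P)) ⌊(X : ℝ) ^ (1 / (r : ℝ))⌋₊ (n + h + s) := h5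
          have e3 : n + s + h = n + h + s := by omega
          rw [e3]
          exact h6
        · intro h' hh' he
          apply h4
          have : s + h = h' := by omega
          rw [this]
          exact hh'
      · intro a _ b _ hab
        omega
      · intro m hm
        rw [mem_filter, mem_Ioc] at hm
        obtain ⟨⟨h2, h3⟩, h4, h5⟩ := hm
        refine ⟨m - (n + s), ?_, by omega⟩
        rw [mem_filter, mem_filter, mem_Icc]
        refine ⟨⟨⟨by omega, by omega⟩, ?_⟩, ?_⟩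
        · intro h6
          exact h5 _ h6 (by omega)
        · have h7 := (hG m (by omega)).2 h4
          have e3 : m = n + (m - (n + s)) + s := by omega
          rw [e3] at h7
          exact h7
    rw [e1, e2]
  rw [e]
  exact h1

lemma occurs_iff (v : ι → ℕ → ℤ) (d : ι → ℕ) (r X : ℕ) (H : Finset ℕ) (D n : ℕ) (h0 : 0 ∈ H)
    (hD : ∀ h ∈ H, h ≤ D) :
    OccursF v d r X H D n ↔ (∀ h ∈ H, GoodF v d r X (n + h)) ∧ OthersF v d r X H n 0 D ∈
      ({0} : Finset ℕ) := by
  classical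
  rw [mem_singleton]
  unfold OccursF OthersF
  rw [Finset.card_eq_zero, Finset.filter_eq_empty_iff]
  constructor
  · intro h
    refine ⟨fun h' hh' => (h h' (hD h' hh')).2 hh', ?_⟩
    rintro m hm ⟨hg, hne⟩
    rw [mem_Ioc] at hm
    have h2 := (h (m - n) (by omega)).1 (by
      rw [show n + (m - n) = m by omega]
      exact hg)
    exact hne _ h2 (by omega)
  · rintro ⟨h1, h2⟩ j hj
    constructor
    · intro hg
      by_contra hjH
      have hj0 : j ≠ 0 := fun h => hjH (h ▸ h0)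
      apply h2 (x := n + j) (by rw [mem_Ioc]; omega)
      refine ⟨hg, ?_⟩
      intro h' hh' he
      apply hjH
      have : j = h' := by omega
      rw [this]
      exact hh'
    · intro hjH
      exact h1 j hjH

open Classical in
/-- **The uniform law of the patterns.** Each individual pattern of the good integers, of diameter a
bounded multiple of the mean gap, has asymptotically the predicted number of occurrences. -/
theorem uni_patterns (hP : ValsF v d P) (θ : ℝ) (hθ : 0 < θ) (k : ℕ) (x0 ε : ℝ) (hε : 0 < ε) :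
    ∃ r0 : ℕ, ∀ r : ℕ, r0 ≤ r → ∀ᶠ X : ℕ in atTop, ∀ Y : ℕ, (X : ℝ) ^ θ ≤ Y → Y ≤ X →
      ∀ (H : Finset ℕ) (D : ℕ), H.card ≤ k → 0 ∈ H → (∀ h ∈ H, h ≤ D) → D * VF v {0} r X ≤ x0 →
        |(((Finset.Ioc X (X + Y)).filter (fun n => OccursF v d r X H D n)).card : ℝ) -
          Y * VF v H r X * Real.exp (-(D * VF v {0} r X))| ≤ ε * (Y * VF v H r X) := by
  obtain ⟨r1, h1⟩ := uni_vals hP θ hθ k x0 ε hε
  obtain ⟨x1, hx1⟩ : ∃ x1, x1 = max x0 0 := ⟨_, rfl⟩
  have hx10 : 0 ≤ x1 := by rw [hx1]; exact le_max_right _ _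
  have hx01 : x0 ≤ x1 := by rw [hx1]; exact le_max_left _ _
  refine ⟨r1 + 2, ?_⟩
  intro r hr
  filter_upwards [h1 r (by omega), sizes (FS P) hP.sysF 1 one_pos (x1 + 1) (by positivity) r
    (by omega)] with X hX hS
  intro Y hXY hYX H D hHk hH0 hHD hDx
  obtain ⟨hV0, hV1, hV2⟩ := hS
  rw [hP.V_eq0, Real.rpow_one] at hV2
  rw [hP.V_eq0] at hV0 hV1
  have hDX : D ≤ X := by
    have h3 : (D : ℝ) ≤ X := by
      by_contra hcon
      rw [not_le] at hcon
      have h4 : (X : ℝ) * VF v {0} r X ≤ x1 := by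
        have := mul_lt_mul_of_pos_right hcon hV0
        linarith
      have hXn : (0 : ℝ) ≤ X := Nat.cast_nonneg X
      have hV3 : VF v {0} r X ≤ 1 := by nlinarith
      have h5 : (X : ℝ) * VF v {0} r X ^ 2 ≤ (X : ℝ) * VF v {0} r X := by
        rw [pow_two, ← mul_assoc]
        nlinarith [mul_nonneg hXn hV0.le]
      linarith
    exact_mod_cast h3
  have h3 := hX Y hXY hYX H 0 D hHk (fun h hh => (hHD h hh).trans hDX) (by omega) hDx {0}
  have e : (Finset.Ioc X (X + Y)).filter (fun n => OccursF v d r X H D n) =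
      (Finset.Ioc X (X + Y)).filter (fun n => (∀ h ∈ H, GoodF v d r X (n + h)) ∧
            OthersF v d r X H n 0 D ∈ ({0} : Finset ℕ)) := by
    apply Finset.filter_congr
    intro n _
    exact occurs_iff v d r X H D n hH0 hHD
  rw [e]
  have e2 : ∑ j ∈ ({0} : Finset ℕ), Pool.Agent.Y175.PW.poisson (D * VF v {0} r X) j = Real.exp (-(D * VF v {0} r X)) := by
    rw [Finset.sum_singleton]
    unfold Pool.Agent.Y175.PW.poisson
    simp
  rw [e2] at h3
  exact h3

end Pool.Agent.Y175.JP
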